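import Pool.Agent.SRC.Defs

/-! General facts on `EL` and the loop model. Modules LA - LG. -/

set_option autoImplicit false

namespace Pool.Agent.SRC

open Finset

/-! ### Module LA (S) -/

theorem EL_mono {d : ℕ} (m : Mdl) (ha : 0 ≤ m.a) (hb : 0 ≤ m.b) (E : Finset (Ed d))
    (A : Vx d → ZMod 2) (f g : Finset (Ed d) → ℝ) (h : ∀ η, η ⊆ E → f η ≤ g η) :
    EL m E A f ≤ EL m E A g := by
  unfold EL
  refine Finset.sum_le_sum fun η hη => ?_
  rw [Finset.mem_powerset] at hη
  exact mul_le_mul_of_nonneg_left (h η hη)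
    (mul_nonneg (ind_nonneg _) (mul_nonneg (pow_nonneg ha _) (pow_nonneg hb _)))

theorem EL_nonneg {d : ℕ} (m : Mdl) (ha : 0 ≤ m.a) (hb : 0 ≤ m.b) (E : Finset (Ed d))
    (A : Vx d → ZMod 2) (f : Finset (Ed d) → ℝ) (h : ∀ η, η ⊆ E → 0 ≤ f η) :
    0 ≤ EL m E A f := by
  unfold EL
  refine Finset.sum_nonneg fun η hη => ?_
  rw [Finset.mem_powerset] at hη
  exact mul_nonneg (mul_nonneg (ind_nonneg _) (mul_nonneg (pow_nonneg ha _) (pow_nonneg hb _)))
    (h η hη)

theorem ZZ_nonneg {d : ℕ} (m : Mdl) (ha : 0 ≤ m.a) (hb : 0 ≤ m.b) (E : Finset (Ed d))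
    (A : Vx d → ZMod 2) : 0 ≤ ZZ m E A := by
  exact EL_nonneg m ha hb E A _ fun _ _ => zero_le_one

theorem EL_congr {d : ℕ} (m : Mdl) (E : Finset (Ed d))
    (A : Vx d → ZMod 2) (f g : Finset (Ed d) → ℝ) (h : ∀ η, η ⊆ E → f η = g η) :
    EL m E A f = EL m E A g := by
  unfold EL
  refine Finset.sum_congr rfl fun η hη => ?_
  rw [Finset.mem_powerset] at hη
  rw [h η hη]

theorem EL_add {d : ℕ} (m : Mdl) (E : Finset (Ed d))
    (A : Vx d → ZMod 2) (f g : Finset (Ed d) → ℝ) :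
    EL m E A (fun η => f η + g η) = EL m E A f + EL m E A g := by
  unfold EL
  rw [← Finset.sum_add_distrib]
  exact Finset.sum_congr rfl fun η _ => mul_add _ _ _

theorem EL_smul {d : ℕ} (m : Mdl) (E : Finset (Ed d))
    (A : Vx d → ZMod 2) (c : ℝ) (f : Finset (Ed d) → ℝ) :
    EL m E A (fun η => c * f η) = c * EL m E A f := by
  unfold EL
  rw [Finset.mul_sum]
  refine Finset.sum_congr rfl fun η _ => ?_
  ring

theorem EL_const {d : ℕ} (m : Mdl) (E : Finset (Ed d))
    (A : Vx d → ZMod 2) (c : ℝ) :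
    EL m E A (fun _ => c) = c * ZZ m E A := by
  unfold ZZ EL
  rw [Finset.mul_sum]
  refine Finset.sum_congr rfl fun η _ => ?_
  ring

theorem EL_sum {d : ℕ} {ι : Type*} (m : Mdl) (E : Finset (Ed d))
    (A : Vx d → ZMod 2) (J : Finset ι) (f : ι → Finset (Ed d) → ℝ) :
    EL m E A (fun η => ∑ i ∈ J, f i η) = ∑ i ∈ J, EL m E A (f i) := by
  unfold EL
  rw [Finset.sum_comm]
  refine Finset.sum_congr rfl fun η _ => ?_
  rw [Finset.mul_sum]

/-! ### Module LB (M): splitting the edge set (domain Markov property).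
`m.s • bd (η ∪ ζ) = m.s • bd η + m.s • bd ζ` and the target group has exponent 2. -/

private theorem LB_two {d : ℕ} (A : Vx d → ZMod 2) : A + A = 0 := by
  funext v
  exact CharTwo.add_self_eq_zero (A v)

private theorem LB_bd {d : ℕ} (η ζ : Finset (Ed d)) (h : Disjoint η ζ) :
    bd (η ∪ ζ) = bd η + bd ζ := by
  unfold bd
  exact Finset.sum_union h

private theorem LB_split {α : Type*} [DecidableEq α] (E1 E2 : Finset α) (hd : Disjoint E1 E2)
    (F : Finset α → ℝ) :
    ∑ ω ∈ (E1 ∪ E2).powerset, F ω = ∑ η ∈ E1.powerset, ∑ ζ ∈ E2.powerset, F (η ∪ ζ) := by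
  rw [← Finset.sum_product']
  symm
  refine Finset.sum_bij' (fun q _ => q.1 ∪ q.2) (fun ω _ => (ω ∩ E1, ω ∩ E2)) ?_ ?_ ?_ ?_ ?_
  · intro q hq
    rw [Finset.mem_product, Finset.mem_powerset, Finset.mem_powerset] at hq
    rw [Finset.mem_powerset]
    exact Finset.union_subset_union hq.1 hq.2
  · intro ω hω
    rw [Finset.mem_product, Finset.mem_powerset, Finset.mem_powerset]
    exact ⟨Finset.inter_subset_right, Finset.inter_subset_right⟩
  · intro q hq
    rw [Finset.mem_product, Finset.mem_powerset, Finset.mem_powerset] at hq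
    have h1 : q.2 ∩ E1 = ∅ := Finset.disjoint_iff_inter_eq_empty.mp
      ((hd.symm.mono_left hq.2))
    have h2 : q.1 ∩ E2 = ∅ := Finset.disjoint_iff_inter_eq_empty.mp (hd.mono_left hq.1)
    refine Prod.ext ?_ ?_
    · change (q.1 ∪ q.2) ∩ E1 = q.1
      rw [Finset.union_inter_distrib_right, h1, Finset.union_empty,
        Finset.inter_eq_left.mpr hq.1]
    · change (q.1 ∪ q.2) ∩ E2 = q.2
      rw [Finset.union_inter_distrib_right, h2, Finset.empty_union,
        Finset.inter_eq_left.mpr hq.2]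
  · intro ω hω
    rw [Finset.mem_powerset] at hω
    change ω ∩ E1 ∪ ω ∩ E2 = ω
    rw [← Finset.inter_union_distrib_left, Finset.inter_eq_left.mpr hω]
  · intro q _
    rfl

private theorem LB_card {α : Type*} [DecidableEq α] (E1 E2 η ζ : Finset α) (hd : Disjoint E1 E2)
    (h1 : η ⊆ E1) (h2 : ζ ⊆ E2) :
    (η ∪ ζ).card = η.card + ζ.card ∧ ((E1 ∪ E2) \ (η ∪ ζ)).card = (E1 \ η).card + (E2 \ ζ).card := by
  have h3 : Disjoint η ζ := (hd.mono_left h1).mono_right h2
  refine ⟨Finset.card_union_of_disjoint h3, ?_⟩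
  rw [Finset.card_sdiff_of_subset (Finset.union_subset_union h1 h2),
    Finset.card_sdiff_of_subset h1, Finset.card_sdiff_of_subset h2,
    Finset.card_union_of_disjoint hd, Finset.card_union_of_disjoint h3]
  have := Finset.card_le_card h1
  have := Finset.card_le_card h2
  omega

theorem EL_union {d : ℕ} (m : Mdl) (E1 E2 : Finset (Ed d)) (hd : Disjoint E1 E2)
    (A : Vx d → ZMod 2) (f : Finset (Ed d) → ℝ) :
    EL m (E1 ∪ E2) A f = ∑ η ∈ E1.powerset, (m.a ^ η.card * m.b ^ (E1 \ η).card) *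
      EL m E2 (A + m.s • bd η) (fun ζ => f (η ∪ ζ)) := by
  unfold EL
  rw [LB_split E1 E2 hd]
  refine Finset.sum_congr rfl fun η hη => ?_
  rw [Finset.mem_powerset] at hη
  rw [Finset.mul_sum]
  refine Finset.sum_congr rfl fun ζ hζ => ?_
  rw [Finset.mem_powerset] at hζ
  obtain ⟨h1, h2⟩ := LB_card E1 E2 η ζ hd hη hζ
  rw [h1, h2, LB_bd η ζ ((hd.mono_left hη).mono_right hζ), pow_add, pow_add]
  have h3 : ind (m.s • (bd η + bd ζ) = A) = ind (m.s • bd ζ = A + m.s • bd η) := by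
    apply ind_congr
    rw [smul_add]
    constructor
    · intro h
      rw [← h, add_comm (m.s • bd η), add_assoc, LB_two, add_zero]
    · intro h
      rw [h, add_comm A, ← add_assoc, LB_two, zero_add]
  rw [h3]
  ring

/-! ### Module LC (M): product bounds.
`EL_restrict_le`, `EL_restrict_ge`: `EL_union` with `E1 = E \ U`, `E2 = U`. `EL_prod_le`:
induction on `J`; for `i₀ ∈ J` use `EL_union` with `E1 = E \ U i₀`, `E2 = U i₀`: the other factors
depend only on `η ∩ (E \ U i₀)`. -/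

private theorem LC_two {d : ℕ} (m : Mdl) (E U : Finset (Ed d)) (hU : U ⊆ E)
    (A : Vx d → ZMod 2) (f : Finset (Ed d) → ℝ) :
    EL m E A f = ∑ η ∈ (E \ U).powerset, (m.a ^ η.card * m.b ^ ((E \ U) \ η).card) *
      EL m U (A + m.s • bd η) (fun ζ => f (η ∪ ζ)) := by
  have h := EL_union m (E \ U) U Finset.sdiff_disjoint A f
  rw [Finset.sdiff_union_of_subset hU] at h
  exact h

private theorem LC_int {α : Type*} [DecidableEq α] (E U η ζ : Finset α) (h1 : η ⊆ E \ U)
    (h2 : ζ ⊆ U) : (η ∪ ζ) ∩ U = ζ := by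
  rw [Finset.union_inter_distrib_right, Finset.inter_eq_left.mpr h2,
    Finset.disjoint_iff_inter_eq_empty.mp (Finset.sdiff_disjoint.mono_left h1),
    Finset.empty_union]

theorem EL_restrict_le {d : ℕ} (m : Mdl) (ha : 0 ≤ m.a) (hb : 0 ≤ m.b) (E U : Finset (Ed d))
    (hU : U ⊆ E) (f : Finset (Ed d) → ℝ) (ρ : ℝ)
    (h : ∀ B : Vx d → ZMod 2, EL m U B f ≤ ρ * ZZ m U B) (A : Vx d → ZMod 2) :
    EL m E A (fun η => f (η ∩ U)) ≤ ρ * ZZ m E A := by
  unfold ZZ
  rw [LC_two m E U hU A (fun η => f (η ∩ U)), LC_two m E U hU A (fun _ => 1), Finset.mul_sum]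
  refine Finset.sum_le_sum fun η hη => ?_
  rw [Finset.mem_powerset] at hη
  have h1 : EL m U (A + m.s • bd η) (fun ζ => f ((η ∪ ζ) ∩ U)) = EL m U (A + m.s • bd η) f :=
    EL_congr m U _ _ _ fun ζ hζ => by rw [LC_int E U η ζ hη hζ]
  rw [h1]
  have h2 := mul_le_mul_of_nonneg_left (h (A + m.s • bd η))
    (mul_nonneg (pow_nonneg ha η.card) (pow_nonneg hb ((E \ U) \ η).card))
  unfold ZZ at h2
  calc _ ≤ _ := h2
    _ = _ := by ring

theorem EL_restrict_ge {d : ℕ} (m : Mdl) (ha : 0 ≤ m.a) (hb : 0 ≤ m.b) (E U : Finset (Ed d))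
    (hU : U ⊆ E) (f : Finset (Ed d) → ℝ) (ρ : ℝ)
    (h : ∀ B : Vx d → ZMod 2, ρ * ZZ m U B ≤ EL m U B f) (A : Vx d → ZMod 2) :
    ρ * ZZ m E A ≤ EL m E A (fun η => f (η ∩ U)) := by
  unfold ZZ
  rw [LC_two m E U hU A (fun η => f (η ∩ U)), LC_two m E U hU A (fun _ => 1), Finset.mul_sum]
  refine Finset.sum_le_sum fun η hη => ?_
  rw [Finset.mem_powerset] at hη
  have h1 : EL m U (A + m.s • bd η) (fun ζ => f ((η ∪ ζ) ∩ U)) = EL m U (A + m.s • bd η) f :=
    EL_congr m U _ _ _ fun ζ hζ => by rw [LC_int E U η ζ hη hζ]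
  rw [h1]
  have h2 := mul_le_mul_of_nonneg_left (h (A + m.s • bd η))
    (mul_nonneg (pow_nonneg ha η.card) (pow_nonneg hb ((E \ U) \ η).card))
  unfold ZZ at h2
  calc _ = _ := by ring
    _ ≤ _ := h2

theorem EL_prod_le {d : ℕ} {ι : Type*} [DecidableEq ι] (m : Mdl) (ha : 0 ≤ m.a) (hb : 0 ≤ m.b)
    (E : Finset (Ed d)) (J : Finset ι) (U : ι → Finset (Ed d)) (hU : ∀ i ∈ J, U i ⊆ E)
    (hd : ∀ i ∈ J, ∀ j ∈ J, i ≠ j → Disjoint (U i) (U j)) (f : ι → Finset (Ed d) → ℝ)
    (hf : ∀ i ∈ J, ∀ η, 0 ≤ f i η) (ρ : ι → ℝ) (hρ : ∀ i ∈ J, 0 ≤ ρ i)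
    (h : ∀ i ∈ J, ∀ B : Vx d → ZMod 2, EL m (U i) B (f i) ≤ ρ i * ZZ m (U i) B)
    (A : Vx d → ZMod 2) :
    EL m E A (fun η => ∏ i ∈ J, f i (η ∩ U i)) ≤ (∏ i ∈ J, ρ i) * ZZ m E A := by
  induction J using Finset.induction_on with
  | empty =>
    simp only [Finset.prod_empty]
    unfold ZZ
    rw [one_mul]
  | insert i J hi ih =>
    have hUi : U i ⊆ E := hU i (Finset.mem_insert_self i J)
    have hρi : 0 ≤ ρ i := hρ i (Finset.mem_insert_self i J)
    have ih' := ih (fun j hj => hU j (Finset.mem_insert_of_mem hj))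
      (fun j hj k hk hjk => hd j (Finset.mem_insert_of_mem hj) k (Finset.mem_insert_of_mem hk) hjk)
      (fun j hj => hf j (Finset.mem_insert_of_mem hj))
      (fun j hj => hρ j (Finset.mem_insert_of_mem hj))
      (fun j hj => h j (Finset.mem_insert_of_mem hj))
    have key : ∀ η, η ⊆ E \ U i → ∀ ζ, ζ ⊆ U i →
        ∏ j ∈ J, f j ((η ∪ ζ) ∩ U j) = ∏ j ∈ J, f j (η ∩ U j) := by
      intro η _ ζ hζ
      refine Finset.prod_congr rfl fun j hj => ?_
      have hij : i ≠ j := fun hh => hi (hh ▸ hj)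
      have h1 : Disjoint ζ (U j) :=
        (hd i (Finset.mem_insert_self i J) j (Finset.mem_insert_of_mem hj) hij).mono_left hζ
      rw [Finset.union_inter_distrib_right, Finset.disjoint_iff_inter_eq_empty.mp h1,
        Finset.union_empty]
    have step : EL m E A (fun η => ∏ j ∈ insert i J, f j (η ∩ U j)) ≤
        ρ i * EL m E A (fun η => ∏ j ∈ J, f j (η ∩ U j)) := by
      rw [LC_two m E (U i) hUi A (fun η => ∏ j ∈ insert i J, f j (η ∩ U j)),
        LC_two m E (U i) hUi A (fun η => ∏ j ∈ J, f j (η ∩ U j)), Finset.mul_sum]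
      refine Finset.sum_le_sum fun η hη => ?_
      rw [Finset.mem_powerset] at hη
      have h1 : EL m (U i) (A + m.s • bd η) (fun ζ => ∏ j ∈ insert i J, f j ((η ∪ ζ) ∩ U j)) =
          (∏ j ∈ J, f j (η ∩ U j)) * EL m (U i) (A + m.s • bd η) (f i) := by
        rw [← EL_smul]
        refine EL_congr m (U i) _ _ _ fun ζ hζ => ?_
        rw [Finset.prod_insert hi, LC_int E (U i) η ζ hη hζ, key η hη ζ hζ, mul_comm]
      have h2 : EL m (U i) (A + m.s • bd η) (fun ζ => ∏ j ∈ J, f j ((η ∪ ζ) ∩ U j)) =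
          (∏ j ∈ J, f j (η ∩ U j)) * ZZ m (U i) (A + m.s • bd η) := by
        rw [← EL_const]
        exact EL_congr m (U i) _ _ _ fun ζ hζ => key η hη ζ hζ
      rw [h1, h2]
      have h3 := h i (Finset.mem_insert_self i J) (A + m.s • bd η)
      have h4 : 0 ≤ ∏ j ∈ J, f j (η ∩ U j) :=
        Finset.prod_nonneg fun j hj => hf j (Finset.mem_insert_of_mem hj) _
      have h5 : 0 ≤ m.a ^ η.card * m.b ^ ((E \ U i) \ η).card :=
        mul_nonneg (pow_nonneg ha _) (pow_nonneg hb _)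
      have h6 := mul_le_mul_of_nonneg_left h3 (mul_nonneg h5 h4)
      calc _ = m.a ^ η.card * m.b ^ ((E \ U i) \ η).card * (∏ j ∈ J, f j (η ∩ U j)) *
            EL m (U i) (A + m.s • bd η) (f i) := by ring
        _ ≤ _ := h6
        _ = _ := by ring
    rw [Finset.prod_insert hi, mul_assoc]
    exact le_trans step (mul_le_mul_of_nonneg_left ih' hρi)

/-! ### Module LD (M): the loop model, elementary facts. -/

private theorem LD_EL {d : ℕ} (x : ℝ) (E : Finset (Ed d)) (A : Vx d → ZMod 2)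
    (f : Finset (Ed d) → ℝ) :
    EL (loopM x) E A f = ∑ η ∈ E.powerset, ind (bd η = A) * x ^ η.card * f η := by
  unfold EL
  refine Finset.sum_congr rfl fun η _ => ?_
  have h1 : (loopM x).s • bd η = bd η := one_smul (ZMod 2) (bd η)
  have h2 : (loopM x).a = x := rfl
  have h3 : (loopM x).b = 1 := rfl
  rw [h1, h2, h3, one_pow, mul_one]

private theorem LD_union {d : ℕ} (x : ℝ) (E1 E2 : Finset (Ed d)) (hd : Disjoint E1 E2)
    (A : Vx d → ZMod 2) (f : Finset (Ed d) → ℝ) :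
    EL (loopM x) (E1 ∪ E2) A f = ∑ η ∈ E1.powerset, x ^ η.card *
      EL (loopM x) E2 (A + bd η) (fun ζ => f (η ∪ ζ)) := by
  rw [EL_union (loopM x) E1 E2 hd A f]
  refine Finset.sum_congr rfl fun η _ => ?_
  have h1 : (loopM x).s • bd η = bd η := one_smul (ZMod 2) (bd η)
  have h2 : (loopM x).a = x := rfl
  have h3 : (loopM x).b = 1 := rfl
  rw [h1, h2, h3, one_pow, mul_one]

theorem EL_sub {d : ℕ} (x : ℝ) (E F : Finset (Ed d)) (hF : F ⊆ E) (A : Vx d → ZMod 2) :
    EL (loopM x) E A (fun η => ind (F ⊆ η)) = x ^ F.card * ZZ (loopM x) (E \ F) (A + bd F) := by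
  have h := LD_union x F (E \ F) Finset.disjoint_sdiff A (fun η => ind (F ⊆ η))
  rw [Finset.union_sdiff_of_subset hF] at h
  rw [h]
  rw [Finset.sum_eq_single_of_mem F (Finset.mem_powerset_self F)]
  · congr 1
    refine EL_congr _ _ _ _ _ fun ζ _ => ind_true Finset.subset_union_left
  · intro η hη hne
    rw [Finset.mem_powerset] at hη
    have h1 : EL (loopM x) (E \ F) (A + bd η) (fun ζ => ind (F ⊆ η ∪ ζ)) =
        EL (loopM x) (E \ F) (A + bd η) (fun _ => 0) := by
      refine EL_congr _ _ _ _ _ fun ζ hζ => ind_false fun hcon => hne ?_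
      refine Finset.Subset.antisymm hη fun e he => ?_
      rcases Finset.mem_union.mp (hcon he) with h2 | h2
      · exact h2
      · exact absurd he (Finset.mem_sdiff.mp (hζ h2)).2
    rw [h1, EL_const, zero_mul, mul_zero]

theorem ZZ_insert {d : ℕ} (x : ℝ) (E : Finset (Ed d)) (e : Ed d) (he : e ∉ E)
    (A : Vx d → ZMod 2) :
    ZZ (loopM x) (insert e E) A = ZZ (loopM x) E A + x * ZZ (loopM x) E (A + bde e) := by
  unfold ZZ
  have h1 : Disjoint ({e} : Finset (Ed d)) E := Finset.disjoint_singleton_left.mpr he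
  have h2 := LD_union x {e} E h1 A (fun _ => 1)
  have h3 : ({e} : Finset (Ed d)) ∪ E = insert e E := rfl
  rw [h3] at h2
  have h6 : ({e} : Finset (Ed d)).powerset = {∅, {e}} := by
    ext t
    rw [Finset.mem_powerset, Finset.subset_singleton_iff, Finset.mem_insert,
      Finset.mem_singleton]
  rw [h2, h6, Finset.sum_insert (by
    rw [Finset.mem_singleton]
    exact (Finset.singleton_ne_empty e).symm), Finset.sum_singleton, Finset.card_empty, pow_zero,
    one_mul, Finset.card_singleton, pow_one]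
  have h4 : bd (∅ : Finset (Ed d)) = 0 := Finset.sum_empty
  have h5 : bd ({e} : Finset (Ed d)) = bde e := Finset.sum_singleton _ _
  rw [h4, h5, add_zero]

theorem ZZ_zero_ge {d : ℕ} (x : ℝ) (hx : 0 ≤ x) (E : Finset (Ed d)) :
    1 ≤ ZZ (loopM x) E 0 := by
  unfold ZZ
  rw [LD_EL]
  have h4 : bd (∅ : Finset (Ed d)) = 0 := Finset.sum_empty
  have h1 : (1 : ℝ) = ind (bd (∅ : Finset (Ed d)) = 0) * x ^ (∅ : Finset (Ed d)).card * 1 := by
    rw [ind_true h4, Finset.card_empty, pow_zero]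
    ring
  calc (1 : ℝ) = ind (bd (∅ : Finset (Ed d)) = 0) * x ^ (∅ : Finset (Ed d)).card * 1 := h1
    _ ≤ _ := Finset.single_le_sum
      (f := fun η : Finset (Ed d) => ind (bd η = 0) * x ^ η.card * 1)
      (fun η _ => mul_nonneg (mul_nonneg (ind_nonneg _) (pow_nonneg hx _)) zero_le_one)
      (Finset.empty_mem_powerset E)

theorem ZZ_mono {d : ℕ} (x : ℝ) (hx : 0 ≤ x) (E E' : Finset (Ed d)) (h : E ⊆ E')
    (A : Vx d → ZMod 2) : ZZ (loopM x) E A ≤ ZZ (loopM x) E' A := by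
  unfold ZZ
  have h2 := LD_union x (E' \ E) E Finset.sdiff_disjoint A (fun _ => 1)
  rw [Finset.sdiff_union_of_subset h] at h2
  rw [h2]
  have h4 : bd (∅ : Finset (Ed d)) = 0 := Finset.sum_empty
  have h1 : EL (loopM x) E A (fun _ => 1) = x ^ (∅ : Finset (Ed d)).card *
      EL (loopM x) E (A + bd (∅ : Finset (Ed d))) (fun _ => 1) := by
    rw [h4, Finset.card_empty, pow_zero, one_mul, add_zero]
  rw [h1]
  exact Finset.single_le_sum
    (f := fun η : Finset (Ed d) => x ^ η.card * EL (loopM x) E (A + bd η) (fun _ => 1))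
    (fun η _ => mul_nonneg (pow_nonneg hx _) (EL_nonneg (loopM x) hx zero_le_one E _ _
      fun _ _ => zero_le_one))
    (Finset.empty_mem_powerset _)

/-! ### Module LE (L): the second Griffiths inequality.
Proof (Fourier / Ginibre): `ZZ (loopM x) E A = avg over σ ∈ {±1}^V (V finite, containing all
endpoints of E and the supports) of ∏_{v : A v = 1} σ_v ∏_{e} (1 + x σ_e)` (it is `0` if `A` has
a point outside `V`). Then `ZZ (A+B) ZZ 0 - ZZ A ZZ B` is the average over `(σ, σ')` of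
`σ_A σ_B (1 - σ'_B σ_B ...)`; with `σ' = σ τ` it is the average over `τ` of `(1 - τ_B)` times the
average over `σ` of `σ_{A+B} ∏_e (1 + x σ_e)(1 + x σ_e τ_e)`, and
`(1 + xσ)(1 + xστ) = (1 + x² τ) + x (1 + τ) σ` has nonnegative coefficients for `0 ≤ x ≤ 1`, so
that the average over `σ` is nonnegative.
Alternative (no spins): `ZZ A * ZZ B = ∑_{m : bd m = A+B} x^|m| ∑_{D ⊆ E \ m} x^{2|D|}
#{k ⊆ m : bd k = A + bd D}` and the last count is `0` or `#{k ⊆ m : bd k = 0}`; the rest is the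
first Griffiths inequality modulo the subgroup of boundaries of subsets of `m`. -/

private def LE_PD {G : Type*} [AddCommGroup G] (f : G → ℝ) : Prop :=
  ∀ (ι : Type) (_ : Fintype ι) (c : ι → ℝ) (p : ι → G),
    0 ≤ ∑ i, ∑ j, c i * c j * f (p i + p j)

private theorem LE_add {G : Type*} [AddCommGroup G] {f g : G → ℝ} (hf : LE_PD f) (hg : LE_PD g)
    (s t : ℝ) (hs : 0 ≤ s) (ht : 0 ≤ t) : LE_PD (fun a => s * f a + t * g a) := by
  intro ι _ c p
  have h1 := mul_nonneg hs (hf ι inferInstance c p)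
  have h2 := mul_nonneg ht (hg ι inferInstance c p)
  have h3 : ∑ i, ∑ j, c i * c j * (s * f (p i + p j) + t * g (p i + p j)) =
      s * (∑ i, ∑ j, c i * c j * f (p i + p j)) + t * (∑ i, ∑ j, c i * c j * g (p i + p j)) := by
    rw [Finset.mul_sum, Finset.mul_sum, ← Finset.sum_add_distrib]
    refine Finset.sum_congr rfl fun i _ => ?_
    rw [Finset.mul_sum, Finset.mul_sum, ← Finset.sum_add_distrib]
    refine Finset.sum_congr rfl fun j _ => ?_
    ring
  rw [h3]
  exact add_nonneg h1 h2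

private theorem LE_shift {G : Type*} [AddCommGroup G] (h2 : ∀ a : G, a + a = 0) {f : G → ℝ}
    (hf : LE_PD f) (g : G) : LE_PD (fun a => f a + f (a + g)) := by
  intro ι _ c p
  have h := hf (ι ⊕ ι) inferInstance (Sum.elim c c) (Sum.elim p fun i => p i + g)
  rw [Fintype.sum_sum_type] at h
  simp only [Fintype.sum_sum_type, Sum.elim_inl, Sum.elim_inr] at h
  have e1 : ∀ i j, p i + g + p j = p i + p j + g := fun i j => by abel
  have e2 : ∀ i j, p i + (p j + g) = p i + p j + g := fun i j => by abel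
  have e3 : ∀ i j, p i + g + (p j + g) = p i + p j := fun i j => by
    have : p i + g + (p j + g) = p i + p j + (g + g) := by abel
    rw [this, h2, add_zero]
  simp only [e1, e2, e3] at h
  have h3 : ∑ i, ∑ j, c i * c j * (f (p i + p j) + f (p i + p j + g)) =
      ∑ i, ∑ j, c i * c j * f (p i + p j) + ∑ i, ∑ j, c i * c j * f (p i + p j + g) := by
    rw [← Finset.sum_add_distrib]
    refine Finset.sum_congr rfl fun i _ => ?_
    rw [← Finset.sum_add_distrib]
    refine Finset.sum_congr rfl fun j _ => ?_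
    ring
  rw [h3]
  simp only [Finset.sum_add_distrib] at h
  linarith

private theorem LE_le {G : Type*} [AddCommGroup G] (h2 : ∀ a : G, a + a = 0) {f : G → ℝ}
    (hf : LE_PD f) (a : G) : f a ≤ f 0 := by
  have h := hf Bool inferInstance (fun b => if b then 1 else -1) (fun b => if b then a else 0)
  simp only [Fintype.sum_bool, if_true, Bool.false_eq_true, if_false, h2, add_zero, zero_add] at h
  linarith

private theorem LE_delta {G : Type*} [AddCommGroup G] (h2 : ∀ a : G, a + a = 0) (r : ℝ)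
    (hr : 0 ≤ r) : LE_PD (fun a : G => ind (0 = a) * r) := by
  classical
  intro ι _ c p
  have h3 : ∀ i j, ind ((0 : G) = p i + p j) =
      ∑ v ∈ (Finset.univ : Finset ι).image p, ind (p i = v) * ind (p j = v) := by
    intro i j
    have h4 : ((0 : G) = p i + p j) ↔ p i = p j := by
      constructor
      · intro h
        calc p i = p i + (p j + p j) := by rw [h2, add_zero]
          _ = p i + p j + p j := by abel
          _ = p j := by rw [← h, zero_add]
      · intro h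
        rw [h, h2]
    rw [ind_congr h4, Finset.sum_eq_single_of_mem (p i)
      (Finset.mem_image_of_mem p (Finset.mem_univ i))]
    · rw [ind_true rfl, one_mul]
      exact ind_congr ⟨fun h => h.symm, fun h => h.symm⟩
    · intro v _ hv
      rw [ind_false fun h => hv h.symm, zero_mul]
  have h5 : ∑ i, ∑ j, c i * c j * (ind ((0 : G) = p i + p j) * r) =
      r * ∑ v ∈ (Finset.univ : Finset ι).image p, (∑ i, c i * ind (p i = v)) ^ 2 := by
    simp only [h3, Finset.sum_mul, Finset.mul_sum, sq]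
    rw [Finset.sum_congr rfl fun i _ => Finset.sum_comm, Finset.sum_comm]
    refine Finset.sum_congr rfl fun v _ => ?_
    rw [Finset.sum_comm]
    refine Finset.sum_congr rfl fun j _ => ?_
    refine Finset.sum_congr rfl fun i _ => ?_
    ring
  rw [h5]
  exact mul_nonneg hr (Finset.sum_nonneg fun v _ => sq_nonneg _)

private theorem LE_main {d : ℕ} (x : ℝ) (hx : 0 ≤ x) (hx1 : x ≤ 1) (E : Finset (Ed d)) :
    ∀ u : Vx d → ZMod 2, LE_PD (fun a => ZZ (loopM x) E a * ZZ (loopM x) E (a + u)) := by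
  have h2 : ∀ a : Vx d → ZMod 2, a + a = 0 := LB_two
  induction E using Finset.induction_on with
  | empty =>
    intro u
    have hZ : ∀ a : Vx d → ZMod 2, ZZ (loopM x) ∅ a = ind (0 = a) := by
      intro a
      unfold ZZ
      rw [LD_EL, Finset.powerset_empty, Finset.sum_singleton, Finset.card_empty, pow_zero, mul_one,
        mul_one]
      rfl
    have h3 : (fun a => ZZ (loopM x) ∅ a * ZZ (loopM x) ∅ (a + u)) =
        fun a : Vx d → ZMod 2 => ind (0 = a) * ind (0 = u) := by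
      funext a
      rw [hZ, hZ]
      by_cases h : 0 = a
      · rw [← h, zero_add]
      · rw [ind_false h, zero_mul, zero_mul]
    rw [h3]
    exact LE_delta h2 _ (ind_nonneg _)
  | insert e E he ih =>
    intro u
    have h3 : (fun a => ZZ (loopM x) (insert e E) a * ZZ (loopM x) (insert e E) (a + u)) =
        fun a => 1 * ((1 - x ^ 2) * (ZZ (loopM x) E a * ZZ (loopM x) E (a + u)) +
            x ^ 2 * (ZZ (loopM x) E a * ZZ (loopM x) E (a + u) +
              ZZ (loopM x) E (a + bde e) * ZZ (loopM x) E (a + bde e + u))) +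
          x * (ZZ (loopM x) E a * ZZ (loopM x) E (a + (u + bde e)) +
            ZZ (loopM x) E (a + bde e) * ZZ (loopM x) E (a + bde e + (u + bde e))) := by
      funext a
      rw [ZZ_insert x E e he, ZZ_insert x E e he]
      have e1 : a + u + bde e = a + bde e + u := by abel
      have e2 : a + (u + bde e) = a + bde e + u := by abel
      have e3 : a + bde e + (u + bde e) = a + u := by
        have : a + bde e + (u + bde e) = a + u + (bde e + bde e) := by abel
        rw [this, h2, add_zero]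
      rw [e1, e2, e3]
      ring
    rw [h3]
    have hx2 : x ^ 2 ≤ 1 := pow_le_one₀ hx hx1
    exact LE_add (LE_add (ih u) (LE_shift h2 (ih u) (bde e)) (1 - x ^ 2) (x ^ 2) (by linarith)
      (sq_nonneg x)) (LE_shift h2 (ih (u + bde e)) (bde e)) 1 x zero_le_one hx

theorem gks {d : ℕ} (x : ℝ) (hx : 0 ≤ x) (hx1 : x ≤ 1) (E : Finset (Ed d))
    (A B : Vx d → ZMod 2) :
    ZZ (loopM x) E A * ZZ (loopM x) E B ≤ ZZ (loopM x) E (A + B) * ZZ (loopM x) E 0 := by
  have h := LE_le LB_two (LE_main x hx hx1 E (A + B)) A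
  have h1 : A + (A + B) = B := by rw [← add_assoc, LB_two, zero_add]
  have h2 : ZZ (loopM x) E A * ZZ (loopM x) E (A + (A + B)) ≤
    ZZ (loopM x) E 0 * ZZ (loopM x) E (0 + (A + B)) := h
  rw [h1, zero_add] at h2
  linarith

/-! ### Module LF (M): consequences of `gks`. -/

private theorem LF_pos {d : ℕ} (x : ℝ) (hx : 0 ≤ x) (E : Finset (Ed d)) :
    0 < ZZ (loopM x) E 0 := lt_of_lt_of_le one_pos (ZZ_zero_ge x hx E)

private theorem LF_nn {d : ℕ} (x : ℝ) (hx : 0 ≤ x) (E : Finset (Ed d)) (A : Vx d → ZMod 2) :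
    0 ≤ ZZ (loopM x) E A := ZZ_nonneg (loopM x) hx zero_le_one E A

/-- Correlations increase with the edge set (add edges one at a time, `ZZ_insert` and `gks`). -/
theorem cor_mono {d : ℕ} (x : ℝ) (hx : 0 ≤ x) (hx1 : x ≤ 1) (E E' : Finset (Ed d)) (h : E ⊆ E')
    (B : Vx d → ZMod 2) :
    ZZ (loopM x) E B * ZZ (loopM x) E' 0 ≤ ZZ (loopM x) E' B * ZZ (loopM x) E 0 := by
  have key : ∀ D : Finset (Ed d), Disjoint E D →
      ZZ (loopM x) E B * ZZ (loopM x) (D ∪ E) 0 ≤ ZZ (loopM x) (D ∪ E) B * ZZ (loopM x) E 0 := by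
    intro D
    induction D using Finset.induction_on with
    | empty =>
      intro _
      rw [Finset.empty_union]
    | insert e D he ih =>
      intro hD
      rw [Finset.disjoint_insert_right] at hD
      have h1 := ih hD.2
      have h2 : e ∉ D ∪ E := by
        rw [Finset.mem_union]
        exact fun h => h.elim he hD.1
      rw [Finset.insert_union, ZZ_insert x (D ∪ E) e h2, ZZ_insert x (D ∪ E) e h2, zero_add]
      have h3 := gks x hx hx1 (D ∪ E) B (bde e)
      have h4 := LF_pos x hx (D ∪ E)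
      have h5 := LF_nn x hx E 0
      have h6 := LF_nn x hx (D ∪ E) (bde e)
      have h7 := LF_nn x hx (D ∪ E) (B + bde e)
      have h8 := LF_nn x hx (D ∪ E) B
      have h9 : ZZ (loopM x) E B * ZZ (loopM x) (D ∪ E) (bde e) ≤
          ZZ (loopM x) (D ∪ E) (B + bde e) * ZZ (loopM x) E 0 := by
        have h10 : ZZ (loopM x) E B * ZZ (loopM x) (D ∪ E) (bde e) * ZZ (loopM x) (D ∪ E) 0 ≤
            ZZ (loopM x) (D ∪ E) (B + bde e) * ZZ (loopM x) E 0 * ZZ (loopM x) (D ∪ E) 0 := by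
          calc _ = ZZ (loopM x) E B * ZZ (loopM x) (D ∪ E) 0 * ZZ (loopM x) (D ∪ E) (bde e) := by
                ring
            _ ≤ ZZ (loopM x) (D ∪ E) B * ZZ (loopM x) E 0 * ZZ (loopM x) (D ∪ E) (bde e) :=
                mul_le_mul_of_nonneg_right h1 h6
            _ = ZZ (loopM x) (D ∪ E) B * ZZ (loopM x) (D ∪ E) (bde e) * ZZ (loopM x) E 0 := by
                ring
            _ ≤ ZZ (loopM x) (D ∪ E) (B + bde e) * ZZ (loopM x) (D ∪ E) 0 *
                ZZ (loopM x) E 0 := mul_le_mul_of_nonneg_right h3 h5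
            _ = _ := by ring
        exact le_of_mul_le_mul_right h10 h4
      have h11 := mul_le_mul_of_nonneg_left h9 hx
      calc _ = ZZ (loopM x) E B * ZZ (loopM x) (D ∪ E) 0 +
            x * (ZZ (loopM x) E B * ZZ (loopM x) (D ∪ E) (bde e)) := by ring
        _ ≤ ZZ (loopM x) (D ∪ E) B * ZZ (loopM x) E 0 +
            x * (ZZ (loopM x) (D ∪ E) (B + bde e) * ZZ (loopM x) E 0) := add_le_add h1 h11
        _ = _ := by ring
  have h1 := key (E' \ E) Finset.disjoint_sdiff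
  rw [Finset.sdiff_union_of_subset h] at h1
  exact h1

theorem ZZ_le_zero {d : ℕ} (x : ℝ) (hx : 0 ≤ x) (hx1 : x ≤ 1) (E : Finset (Ed d))
    (A : Vx d → ZMod 2) : ZZ (loopM x) E A ≤ ZZ (loopM x) E 0 := by
  have h1 := gks x hx hx1 E A A
  rw [LB_two] at h1
  have h2 := LF_pos x hx E
  have h3 := LF_nn x hx E A
  nlinarith

theorem cor_shift {d : ℕ} (x : ℝ) (hx : 0 ≤ x) (hx1 : x ≤ 1) (E : Finset (Ed d)) (g : ℝ)
    (u v : Vx d) (h : g * ZZ (loopM x) E 0 ≤ ZZ (loopM x) E (pt u v)) (A : Vx d → ZMod 2) :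
    g * ZZ (loopM x) E A ≤ ZZ (loopM x) E (A + pt u v) := by
  have h1 := gks x hx hx1 E A (pt u v)
  have h2 := LF_pos x hx E
  have h3 := mul_le_mul_of_nonneg_right h (LF_nn x hx E A)
  refine le_of_mul_le_mul_right ?_ h2
  calc _ = g * ZZ (loopM x) E 0 * ZZ (loopM x) E A := by ring
    _ ≤ ZZ (loopM x) E (pt u v) * ZZ (loopM x) E A := h3
    _ = ZZ (loopM x) E A * ZZ (loopM x) E (pt u v) := by ring
    _ ≤ _ := h1

/-- Sums of `n` pairs of points of `V`. -/
inductive PS {d : ℕ} (V : Set (Vx d)) : ℕ → (Vx d → ZMod 2) → Prop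
  | zero : PS V 0 0
  | add {n : ℕ} {A : Vx d → ZMod 2} (h : PS V n A) (u v : Vx d) (hu : u ∈ V) (hv : v ∈ V) :
      PS V (n + 1) (A + pt u v)

theorem PS_bound {d : ℕ} (x : ℝ) (hx : 0 ≤ x) (hx1 : x ≤ 1) (E : Finset (Ed d)) (g : ℝ)
    (hg : 0 < g) (V : Set (Vx d))
    (hV : ∀ u ∈ V, ∀ v ∈ V, g * ZZ (loopM x) E 0 ≤ ZZ (loopM x) E (pt u v))
    (n : ℕ) (B : Vx d → ZMod 2) (h : PS V n B) (A : Vx d → ZMod 2) :
    g ^ n * ZZ (loopM x) E (A + B) ≤ ZZ (loopM x) E A := by
  induction h generalizing A with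
  | zero => rw [pow_zero, one_mul, add_zero]
  | add _ u v hu hv ih =>
    rename_i n B _
    have h1 := cor_shift x hx hx1 E g u v (hV u hu v hv) (A + (B + pt u v))
    have h2 : A + (B + pt u v) + pt u v = A + B := by
      rw [add_assoc, add_assoc, LB_two, add_zero]
    rw [h2] at h1
    calc _ = g ^ n * (g * ZZ (loopM x) E (A + (B + pt u v))) := by rw [pow_succ]; ring
      _ ≤ g ^ n * ZZ (loopM x) E (A + B) := mul_le_mul_of_nonneg_left h1 (pow_nonneg hg.le n)
      _ ≤ _ := ih A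

/-! ### Module LG (M): probability of containing a given set of edges, all source sets. -/

theorem EL_sub_le {d : ℕ} (x : ℝ) (hx : 0 ≤ x) (hx1 : x ≤ 1) (E F : Finset (Ed d)) (hF : F ⊆ E)
    (g : ℝ) (hg : 0 < g) (V : Set (Vx d))
    (hV : ∀ u ∈ V, ∀ v ∈ V, g * ZZ (loopM x) (E \ F) 0 ≤ ZZ (loopM x) (E \ F) (pt u v))
    (n : ℕ) (h : PS V n (bd F)) (A : Vx d → ZMod 2) :
    g ^ n * EL (loopM x) E A (fun η => ind (F ⊆ η)) ≤ x ^ F.card * ZZ (loopM x) E A := by
  rw [EL_sub x E F hF A]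
  have h1 := PS_bound x hx hx1 (E \ F) g hg V hV n (bd F) h A
  have h2 := ZZ_mono x hx (E \ F) E Finset.sdiff_subset A
  calc _ = x ^ F.card * (g ^ n * ZZ (loopM x) (E \ F) (A + bd F)) := by ring
    _ ≤ x ^ F.card * ZZ (loopM x) (E \ F) A := mul_le_mul_of_nonneg_left h1 (pow_nonneg hx _)
    _ ≤ _ := mul_le_mul_of_nonneg_left h2 (pow_nonneg hx _)

/-- `ZZ E A ≤ (1 + x/g)^|F| ZZ (E \ F) A` by adding the edges of `F` one at a time (`ZZ_insert`,
`cor_mono`, `cor_shift`), and `ZZ (E \ F) (A + pt u v) ≥ g ZZ (E \ F) A`. -/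
theorem EL_sub_ge {d : ℕ} (x : ℝ) (hx : 0 ≤ x) (hx1 : x ≤ 1) (E F : Finset (Ed d)) (hF : F ⊆ E)
    (g : ℝ) (hg : 0 < g) (V : Set (Vx d))
    (hV : ∀ u ∈ V, ∀ v ∈ V, g * ZZ (loopM x) (E \ F) 0 ≤ ZZ (loopM x) (E \ F) (pt u v))
    (hFV : ∀ e ∈ F, e.1 ∈ V ∧ tip e ∈ V) (u v : Vx d) (hu : u ∈ V) (hv : v ∈ V)
    (hb : bd F = pt u v) (A : Vx d → ZMod 2) :
    x ^ F.card * g * ZZ (loopM x) E A ≤
      (1 + x / g) ^ F.card * EL (loopM x) E A (fun η => ind (F ⊆ η)) := by
  rw [EL_sub x E F hF A, hb]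
  have hV' : ∀ E', E \ F ⊆ E' → ∀ u ∈ V, ∀ v ∈ V,
      g * ZZ (loopM x) E' 0 ≤ ZZ (loopM x) E' (pt u v) := by
    intro E' hE' u hu v hv
    have h1 := cor_mono x hx hx1 (E \ F) E' hE' (pt u v)
    have h2 := mul_le_mul_of_nonneg_right (hV u hu v hv) (LF_nn x hx E' 0)
    refine le_of_mul_le_mul_right ?_ (LF_pos x hx (E \ F))
    calc _ = g * ZZ (loopM x) (E \ F) 0 * ZZ (loopM x) E' 0 := by ring
      _ ≤ _ := h2
      _ ≤ _ := h1
  have key : ∀ D : Finset (Ed d), D ⊆ F →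
      ZZ (loopM x) (D ∪ (E \ F)) A ≤ (1 + x / g) ^ D.card * ZZ (loopM x) (E \ F) A := by
    intro D
    induction D using Finset.induction_on with
    | empty =>
      intro _
      rw [Finset.empty_union, Finset.card_empty, pow_zero, one_mul]
    | insert e D he ih =>
      intro hD
      rw [Finset.insert_subset_iff] at hD
      have h1 := ih hD.2
      have h2 : e ∉ D ∪ (E \ F) := by
        rw [Finset.mem_union, Finset.mem_sdiff]
        exact fun h => h.elim he fun h => h.2 hD.1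
      rw [Finset.insert_union, ZZ_insert x _ e h2, Finset.card_insert_of_notMem he, pow_succ]
      have h3 := cor_shift x hx hx1 (D ∪ (E \ F)) g e.1 (tip e)
        (hV' _ Finset.subset_union_right _ (hFV e hD.1).1 _ (hFV e hD.1).2) (A + bde e)
      have h4 : A + bde e + pt e.1 (tip e) = A := by
        have : pt e.1 (tip e) = bde e := rfl
        rw [this, add_assoc, LB_two, add_zero]
      rw [h4] at h3
      have h5 : ZZ (loopM x) (D ∪ (E \ F)) (A + bde e) ≤ ZZ (loopM x) (D ∪ (E \ F)) A / g := by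
        rw [le_div_iff₀ hg]
        linarith
      have h6 := mul_le_mul_of_nonneg_left h5 hx
      have h7 : 0 ≤ 1 + x / g := by positivity
      calc _ ≤ ZZ (loopM x) (D ∪ (E \ F)) A + x * (ZZ (loopM x) (D ∪ (E \ F)) A / g) :=
            add_le_add le_rfl h6
        _ = ZZ (loopM x) (D ∪ (E \ F)) A * (1 + x / g) := by ring
        _ ≤ (1 + x / g) ^ D.card * ZZ (loopM x) (E \ F) A * (1 + x / g) :=
            mul_le_mul_of_nonneg_right h1 h7
        _ = _ := by ring
  have h1 := key F (Finset.Subset.refl F)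
  rw [Finset.union_sdiff_of_subset hF] at h1
  have h2 := cor_shift x hx hx1 (E \ F) g u v (hV u hu v hv) A
  have h3 : 0 ≤ (1 + x / g) ^ F.card := by positivity
  have h4 : 0 ≤ x ^ F.card := pow_nonneg hx _
  calc x ^ F.card * g * ZZ (loopM x) E A ≤
        x ^ F.card * g * ((1 + x / g) ^ F.card * ZZ (loopM x) (E \ F) A) :=
        mul_le_mul_of_nonneg_left h1 (mul_nonneg h4 hg.le)
    _ = (1 + x / g) ^ F.card * (x ^ F.card * (g * ZZ (loopM x) (E \ F) A)) := by ring
    _ ≤ _ := mul_le_mul_of_nonneg_left (mul_le_mul_of_nonneg_left h2 h4) h3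

end Pool.Agent.SRC
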