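import Pool.Agent.SRC.Hier

/-! Blocks and the finite-volume theorem. Modules KA - KG. -/

set_option autoImplicit false

namespace Pool.Agent.SRC

open Finset Filter

/-- The block of the cell `z`: `[0, ℓ - 1]^(d-2) × {z}`. -/
def blo (d : ℕ) (z : ℤ × ℤ) : Vx d :=
  fun i => if i.val + 2 < d then 0 else if i.val + 2 = d then z.1 else z.2

def bhi (d ℓ : ℕ) (z : ℤ × ℤ) : Vx d :=
  fun i => if i.val + 2 < d then (ℓ : ℤ) - 1 else if i.val + 2 = d then z.1 else z.2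

/-- The nine cells around `z`, and the corresponding box. -/
noncomputable def nbh (z : ℤ × ℤ) : Finset (ℤ × ℤ) :=
  Finset.Icc (z.1 - 1, z.2 - 1) (z.1 + 1, z.2 + 1)

def glo (d : ℕ) (z : ℤ × ℤ) : Vx d := blo d (z.1 - 1, z.2 - 1)
def ghi (d ℓ : ℕ) (z : ℤ × ℤ) : Vx d := bhi d ℓ (z.1 + 1, z.2 + 1)

/-- Big vertices of the nine blocks. -/
noncomputable def VU {d : ℕ} (ℓ : ℕ) (η : Finset (Ed d)) (z : ℤ × ℤ) : Finset (Vx d) :=
  (nbh z).biUnion (fun z' => VB (blo d z') (bhi d ℓ z') η)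

/-- Fine cells. -/
def fine {d : ℕ} (κ : ℝ) (ℓ : ℕ) (η ξ : Finset (Ed d)) (z : ℤ × ℤ) : Prop :=
  (∀ z' ∈ nbh z, GB κ (blo d z') (bhi d ℓ z') η) ∧
    Gi (κ / 100 * (9 * (ℓ : ℝ) ^ (d - 2))) (VU ℓ η z)
      (↑((η ∪ ξ) ∩ bx (glo d z) (ghi d ℓ z)))

/-- The region for scale `K`. -/
noncomputable def Rg (d ℓ K : ℕ) : Finset (Ed d) :=
  bx (blo d (-1, -1)) (bhi d ℓ ((4 : ℤ) ^ (K + 1), (4 : ℤ) ^ (K + 1)))

/-- The block of the cell `0`. -/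
noncomputable def B0 (d ℓ : ℕ) : Finset (Vx d) := Finset.Icc (blo d (0, 0)) (bhi d ℓ (0, 0))

/-- `w` is connected to a vertex at sup-distance at least `M`. -/
def Far {d : ℕ} (M : ℤ) (ω : Set (Ed d)) (w : Vx d) : Prop :=
  ∃ v, conn ω w v ∧ ∃ i, M ≤ |v i - w i|

theorem KA_blk {d ℓ : ℕ} (z : ℤ × ℤ) (v : Vx d) : v ∈ Finset.Icc (blo d z) (bhi d ℓ z) ↔
    (∀ i : Fin d, i.val + 2 < d → 0 ≤ v i ∧ v i ≤ ℓ - 1) ∧
      (∀ i : Fin d, i.val + 2 = d → v i = z.1) ∧ ∀ i : Fin d, d < i.val + 2 → v i = z.2 := by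
  rw [Finset.mem_Icc, Pi.le_def, Pi.le_def]
  constructor
  · rintro ⟨h1, h2⟩
    refine ⟨fun i hi => ?_, fun i hi => ?_, fun i hi => ?_⟩
    · have a1 := h1 i
      have a2 := h2 i
      simp only [blo, bhi, if_pos hi] at a1 a2
      exact ⟨a1, a2⟩
    · have a1 := h1 i
      have a2 := h2 i
      have hn : ¬ (i.val + 2 < d) := by omega
      simp only [blo, bhi, if_neg hn, if_pos hi] at a1 a2
      exact le_antisymm a2 a1
    · have a1 := h1 i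
      have a2 := h2 i
      have hn : ¬ (i.val + 2 < d) := by omega
      have hn' : ¬ (i.val + 2 = d) := by omega
      simp only [blo, bhi, if_neg hn, if_neg hn'] at a1 a2
      exact le_antisymm a2 a1
  · rintro ⟨h1, h2, h3⟩
    have key : ∀ i : Fin d, blo d z i ≤ v i ∧ v i ≤ bhi d ℓ z i := by
      intro i
      unfold blo bhi
      rcases lt_trichotomy (i.val + 2) d with hi | hi | hi
      · rw [if_pos hi, if_pos hi]
        exact h1 i hi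
      · have hn : ¬ (i.val + 2 < d) := by omega
        rw [if_neg hn, if_neg hn, if_pos hi, h2 i hi]
        exact ⟨le_rfl, le_rfl⟩
      · have hn : ¬ (i.val + 2 < d) := by omega
        have hn' : ¬ (i.val + 2 = d) := by omega
        rw [if_neg hn, if_neg hn, if_neg hn', h3 i hi]
        exact ⟨le_rfl, le_rfl⟩
    exact ⟨fun i => (key i).1, fun i => (key i).2⟩

theorem KA_box {d ℓ : ℕ} (a b : ℤ × ℤ) (v : Vx d) : v ∈ Finset.Icc (blo d a) (bhi d ℓ b) ↔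
    (∀ i : Fin d, i.val + 2 < d → 0 ≤ v i ∧ v i ≤ ℓ - 1) ∧
      (∀ i : Fin d, i.val + 2 = d → a.1 ≤ v i ∧ v i ≤ b.1) ∧
      ∀ i : Fin d, d < i.val + 2 → a.2 ≤ v i ∧ v i ≤ b.2 := by
  rw [Finset.mem_Icc, Pi.le_def, Pi.le_def]
  constructor
  · rintro ⟨h1, h2⟩
    refine ⟨fun i hi => ?_, fun i hi => ?_, fun i hi => ?_⟩
    · have a1 := h1 i
      have a2 := h2 i
      simp only [blo, bhi, if_pos hi] at a1 a2
      exact ⟨a1, a2⟩
    · have a1 := h1 i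
      have a2 := h2 i
      have hn : ¬ (i.val + 2 < d) := by omega
      simp only [blo, bhi, if_neg hn, if_pos hi] at a1 a2
      exact ⟨a1, a2⟩
    · have a1 := h1 i
      have a2 := h2 i
      have hn : ¬ (i.val + 2 < d) := by omega
      have hn' : ¬ (i.val + 2 = d) := by omega
      simp only [blo, bhi, if_neg hn, if_neg hn'] at a1 a2
      exact ⟨a1, a2⟩
  · rintro ⟨h1, h2, h3⟩
    have key : ∀ i : Fin d, blo d a i ≤ v i ∧ v i ≤ bhi d ℓ b i := by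
      intro i
      unfold blo bhi
      rcases lt_trichotomy (i.val + 2) d with hi | hi | hi
      · rw [if_pos hi, if_pos hi]
        exact h1 i hi
      · have hn : ¬ (i.val + 2 < d) := by omega
        rw [if_neg hn, if_neg hn, if_pos hi, if_pos hi]
        exact h2 i hi
      · have hn : ¬ (i.val + 2 < d) := by omega
        have hn' : ¬ (i.val + 2 = d) := by omega
        rw [if_neg hn, if_neg hn, if_neg hn', if_neg hn']
        exact h3 i hi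
    exact ⟨fun i => (key i).1, fun i => (key i).2⟩

theorem KA_nbh (z z' : ℤ × ℤ) : z' ∈ nbh z ↔
    z.1 - 1 ≤ z'.1 ∧ z.2 - 1 ≤ z'.2 ∧ z'.1 ≤ z.1 + 1 ∧ z'.2 ≤ z.2 + 1 := by
  unfold nbh
  rw [Finset.mem_Icc, Prod.le_def, Prod.le_def]
  simp only
  tauto

theorem KA_nbh_card (z : ℤ × ℤ) : (nbh z).card = 9 := by
  unfold nbh
  rw [← Finset.Icc_product_Icc, Finset.card_product, Int.card_Icc, Int.card_Icc]
  have e1 : z.1 + 1 + 1 - (z.1 - 1) = 3 := by ring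
  have e2 : z.2 + 1 + 1 - (z.2 - 1) = 3 := by ring
  rw [e1, e2]
  rfl

theorem KA_bx_mono {d : ℕ} {lo hi lo' hi' : Vx d}
    (h : Finset.Icc lo hi ⊆ Finset.Icc lo' hi') : bx lo hi ⊆ bx lo' hi' := by
  intro e he
  unfold bx at *
  rw [mem_edg] at he ⊢
  exact ⟨h he.1, h he.2⟩

/-- Module KA (M). Geometry. -/
theorem blk_isB (d ℓ : ℕ) (z : ℤ × ℤ) :
    isB ℓ (blo d z) (bhi d ℓ z) (Finset.univ.filter (fun i : Fin d => i.val + 2 < d)) := by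
  refine ⟨fun i hi => ?_, fun i hi => ?_⟩
  · rw [Finset.mem_filter] at hi
    unfold blo bhi
    rw [if_pos hi.2, if_pos hi.2]
    ring
  · have hn : ¬ (i.val + 2 < d) := fun h => hi (Finset.mem_filter.2 ⟨Finset.mem_univ _, h⟩)
    unfold blo bhi
    rw [if_neg hn, if_neg hn]

theorem blk_dim (d : ℕ) (hd : 2 ≤ d) :
    (Finset.univ.filter (fun i : Fin d => i.val + 2 < d)).card = d - 2 := by
  classical
  have h : (Finset.univ.filter (fun i : Fin d => i.val + 2 < d)) =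
      (Finset.univ : Finset (Fin (d - 2))).image (fun j => ⟨j.val, by omega⟩) := by
    ext i
    simp only [Finset.mem_filter, Finset.mem_univ, true_and, Finset.mem_image]
    constructor
    · intro hi
      exact ⟨⟨i.val, by omega⟩, rfl⟩
    · rintro ⟨j, rfl⟩
      have := j.isLt
      simp only
      omega
  rw [h, Finset.card_image_of_injective _ (fun a b hab => by
    simp only [Fin.mk.injEq] at hab
    exact Fin.ext hab), Finset.card_univ, Fintype.card_fin]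

theorem blk_card (d ℓ : ℕ) (hd : 2 ≤ d) (z : ℤ × ℤ) :
    (Finset.Icc (blo d z) (bhi d ℓ z)).card = ℓ ^ (d - 2) := by
  have h := blk_isB d ℓ z
  rw [card_box (blo d z) (bhi d ℓ z) ℓ _ h.1 h.2, blk_dim d hd]

theorem KA_union (d ℓ : ℕ) (hd : 2 ≤ d) (z : ℤ × ℤ) :
    Finset.Icc (glo d z) (ghi d ℓ z) =
      (nbh z).biUnion (fun z' => Finset.Icc (blo d z') (bhi d ℓ z')) := by
  ext v
  rw [Finset.mem_biUnion]
  unfold glo ghi
  rw [KA_box]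
  constructor
  · rintro ⟨h1, h2, h3⟩
    have a1 := h2 ⟨d - 2, by omega⟩ (by simp only; omega)
    have a2 := h3 ⟨d - 1, by omega⟩ (by simp only; omega)
    refine ⟨(v ⟨d - 2, by omega⟩, v ⟨d - 1, by omega⟩), ?_, ?_⟩
    · rw [KA_nbh]
      exact ⟨a1.1, a2.1, a1.2, a2.2⟩
    · rw [KA_blk]
      refine ⟨h1, fun i hi => ?_, fun i hi => ?_⟩
      · have e : i = ⟨d - 2, by omega⟩ := Fin.ext (by simp only; omega)
        rw [e]
      · have e : i = ⟨d - 1, by omega⟩ := Fin.ext (by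
          have := i.isLt
          simp only
          omega)
        rw [e]
  · rintro ⟨z', hz', hv⟩
    rw [KA_nbh] at hz'
    rw [KA_blk] at hv
    obtain ⟨h1, h2, h3⟩ := hv
    refine ⟨h1, fun i hi => ?_, fun i hi => ?_⟩
    · rw [h2 i hi]
      exact ⟨hz'.1, hz'.2.2.1⟩
    · rw [h3 i hi]
      exact ⟨hz'.2.1, hz'.2.2.2⟩

theorem g_union (d ℓ : ℕ) (hd : 2 ≤ d) (hℓ : 1 ≤ ℓ) (z : ℤ × ℤ) :
    Finset.Icc (glo d z) (ghi d ℓ z) =
      (nbh z).biUnion (fun z' => Finset.Icc (blo d z') (bhi d ℓ z')) := by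
  have _ := hℓ
  exact KA_union d ℓ hd z

theorem KA_disj (d ℓ : ℕ) (hd : 2 ≤ d) {z z' : ℤ × ℤ} (h : z ≠ z') :
    Disjoint (Finset.Icc (blo d z) (bhi d ℓ z)) (Finset.Icc (blo d z') (bhi d ℓ z')) := by
  rw [Finset.disjoint_left]
  intro v hv hv'
  rw [KA_blk] at hv hv'
  apply h
  refine Prod.ext ?_ ?_
  · rw [← hv.2.1 ⟨d - 2, by omega⟩ (by simp only; omega),
      ← hv'.2.1 ⟨d - 2, by omega⟩ (by simp only; omega)]
  · rw [← hv.2.2 ⟨d - 1, by omega⟩ (by simp only; omega),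
      ← hv'.2.2 ⟨d - 1, by omega⟩ (by simp only; omega)]

theorem g_card (d ℓ : ℕ) (hd : 2 ≤ d) (z : ℤ × ℤ) :
    (Finset.Icc (glo d z) (ghi d ℓ z)).card = 9 * ℓ ^ (d - 2) := by
  rw [KA_union d ℓ hd z, Finset.card_biUnion (fun z' _ z'' _ h => KA_disj d ℓ hd h),
    Finset.sum_congr rfl (fun z' _ => blk_card d ℓ hd z'), Finset.sum_const, KA_nbh_card,
    smul_eq_mul]

theorem g_side (d ℓ : ℕ) (hℓ : 3 ≤ ℓ) (z : ℤ × ℤ) (i : Fin d) :
    ghi d ℓ z i - glo d z i + 1 ≤ ℓ := by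
  unfold ghi glo bhi blo
  split_ifs
  · omega
  · simp only
    omega
  · simp only
    omega

theorem blk_sub (d ℓ : ℕ) (z z' : ℤ × ℤ) (h : z' ∈ nbh z) :
    bx (blo d z') (bhi d ℓ z') ⊆ bx (glo d z) (ghi d ℓ z) := by
  apply KA_bx_mono
  intro v hv
  unfold glo ghi
  rw [KA_blk] at hv
  rw [KA_nbh] at h
  rw [KA_box]
  refine ⟨hv.1, fun i hi => ?_, fun i hi => ?_⟩
  · rw [hv.2.1 i hi]
    exact ⟨h.1, h.2.2.1⟩
  · rw [hv.2.2 i hi]
    exact ⟨h.2.1, h.2.2.2⟩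

theorem g_sub (d ℓ K : ℕ) (z : ℤ × ℤ) (h : z ∈ Sq (K + 1)) :
    bx (glo d z) (ghi d ℓ z) ⊆ Rg d ℓ K := by
  unfold Rg
  apply KA_bx_mono
  intro v hv
  unfold glo ghi at hv
  rw [KA_box] at hv ⊢
  unfold Sq at h
  rw [Finset.mem_Icc, Prod.le_def, Prod.le_def] at h
  simp only at h hv ⊢
  refine ⟨hv.1, fun i hi => ?_, fun i hi => ?_⟩
  · have := hv.2.1 i hi
    omega
  · have := hv.2.2 i hi
    omega

theorem g_disj (d ℓ : ℕ) (hd : 2 ≤ d) (z z' : ℤ × ℤ) (h : z ≠ z')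
    (h1 : (3 : ℤ) ∣ z.1 - z'.1) (h2 : (3 : ℤ) ∣ z.2 - z'.2) :
    Disjoint (bx (glo d z) (ghi d ℓ z)) (bx (glo d z') (ghi d ℓ z')) := by
  rw [Finset.disjoint_left]
  intro e he he'
  unfold bx at he he'
  rw [mem_edg] at he he'
  have hv := he.1
  have hv' := he'.1
  unfold glo ghi at hv hv'
  rw [KA_box] at hv hv'
  simp only at hv hv'
  have a1 := hv.2.1 ⟨d - 2, by omega⟩ (by simp only; omega)
  have a2 := hv'.2.1 ⟨d - 2, by omega⟩ (by simp only; omega)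
  have b1 := hv.2.2 ⟨d - 1, by omega⟩ (by simp only; omega)
  have b2 := hv'.2.2 ⟨d - 1, by omega⟩ (by simp only; omega)
  apply h
  refine Prod.ext ?_ ?_
  · omega
  · omega

theorem KB_VB {d : ℕ} (lo hi : Vx d) (Y U : Finset (Ed d)) (h : bx lo hi ⊆ U) :
    VB lo hi (Y ∩ U) = VB lo hi Y := by
  classical
  unfold VB
  rw [Finset.inter_assoc, Finset.inter_eq_right.2 h]

theorem KB_GB {d : ℕ} (κ : ℝ) (lo hi : Vx d) (Y U : Finset (Ed d)) (h : bx lo hi ⊆ U) :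
    GB κ lo hi (Y ∩ U) ↔ GB κ lo hi Y := by
  unfold GB
  rw [KB_VB lo hi Y U h]

/-- Module KB (S). `fine` depends only on the edges of the box of the nine blocks. -/
theorem fine_local {d : ℕ} (κ : ℝ) (ℓ : ℕ) (η ξ : Finset (Ed d)) (z : ℤ × ℤ) :
    fine κ ℓ (η ∩ bx (glo d z) (ghi d ℓ z)) (ξ ∩ bx (glo d z) (ghi d ℓ z)) z ↔
      fine κ ℓ η ξ z := by
  classical
  have e1 : VU ℓ (η ∩ bx (glo d z) (ghi d ℓ z)) z = VU ℓ η z := by
    unfold VU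
    refine Finset.biUnion_congr rfl fun z' hz' => ?_
    exact KB_VB _ _ _ _ (blk_sub d ℓ z z' hz')
  have e2 : (η ∩ bx (glo d z) (ghi d ℓ z) ∪ ξ ∩ bx (glo d z) (ghi d ℓ z)) ∩
      bx (glo d z) (ghi d ℓ z) = (η ∪ ξ) ∩ bx (glo d z) (ghi d ℓ z) := by
    rw [← Finset.union_inter_distrib_right, Finset.inter_assoc, Finset.inter_self]
  unfold fine
  rw [e1, e2]
  refine and_congr ?_ Iff.rfl
  refine forall_congr' fun z' => forall_congr' fun hz' => ?_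
  exact KB_GB κ _ _ _ _ (blk_sub d ℓ z z' hz')

/-- Goodness of the blocks in a model, for dimension `d`. -/
def BG (d : ℕ) (m : Mdl) (κ : ℝ) (ℓ : ℕ) : Prop :=
  ∀ (z : ℤ × ℤ) (A : Vx d → ZMod 2),
    (d : ℝ) ^ 2 * EL m (bx (blo d z) (bhi d ℓ z)) A
      (fun η => ind (¬ GB κ (blo d z) (bhi d ℓ z) η)) ≤ ZZ m (bx (blo d z) (bhi d ℓ z)) A

theorem KC_VB_sub {d : ℕ} (ℓ : ℕ) (η : Finset (Ed d)) (z : ℤ × ℤ) (hd : 2 ≤ d) :
    VU ℓ η z ⊆ Finset.Icc (glo d z) (ghi d ℓ z) := by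
  classical
  intro v hv
  unfold VU at hv
  rw [Finset.mem_biUnion] at hv
  obtain ⟨z', hz', hv⟩ := hv
  rw [KA_union d ℓ hd z, Finset.mem_biUnion]
  exact ⟨z', hz', fl_subset _ _ hv⟩

theorem KC_VU_closed {d : ℕ} (ℓ : ℕ) (η : Finset (Ed d)) (z : ℤ × ℤ) :
    ∀ v ∈ VU ℓ η z, ∃ T : Finset (Vx d), T ⊆ VU ℓ η z ∧ d ^ 8 ≤ T.card ∧
      ∀ u ∈ T, conn (↑η) v u := by
  classical
  intro v hv
  unfold VU at hv
  rw [Finset.mem_biUnion] at hv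
  obtain ⟨z', hz', hv⟩ := hv
  obtain ⟨T, hT, hc, hconn⟩ := VB_closed _ _ _ v hv
  refine ⟨T, fun u hu => ?_, hc, fun u hu => ?_⟩
  · unfold VU
    rw [Finset.mem_biUnion]
    exact ⟨z', hz', hT hu⟩
  · refine conn_mono ?_ (hconn u hu)
    rw [Finset.coe_inter]
    exact Set.inter_subset_left

theorem KC_ex0 {d : ℕ} (κ : ℝ) (ℓ : ℕ) (η : Finset (Ed d)) (z : ℤ × ℤ) (hd : 2 ≤ d)
    (h : ∀ z' ∈ nbh z, GB κ (blo d z') (bhi d ℓ z') η) :
    (d : ℝ) ^ 2 * (ex0 κ (glo d z) (ghi d ℓ z) (VU ℓ η z)).card ≤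
      (Finset.Icc (glo d z) (ghi d ℓ z)).card := by
  classical
  have hsub : ex0 κ (glo d z) (ghi d ℓ z) (VU ℓ η z) ⊆
      (nbh z).biUnion (fun z' => ex0 κ (blo d z') (bhi d ℓ z')
        (VB (blo d z') (bhi d ℓ z') η)) := by
    intro w hw
    unfold ex0 at hw
    rw [mem_fl] at hw
    obtain ⟨hw1, hw2⟩ := hw
    rw [KA_union d ℓ hd z, Finset.mem_biUnion] at hw1
    obtain ⟨z', hz', hw1⟩ := hw1
    rw [Finset.mem_biUnion]
    refine ⟨z', hz', ?_⟩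
    unfold ex0
    rw [mem_fl]
    refine ⟨hw1, lt_of_le_of_lt ?_ hw2⟩
    have : (nf (VB (blo d z') (bhi d ℓ z') η) w) ⊆ nf (VU ℓ η z) w := by
      unfold nf
      refine fl_mono _ fun i _ hi => ?_
      unfold VU
      rw [Finset.mem_biUnion]
      exact ⟨z', hz', hi⟩
    exact_mod_cast Finset.card_le_card this
  have h1 : ((ex0 κ (glo d z) (ghi d ℓ z) (VU ℓ η z)).card : ℝ) ≤
      ∑ z' ∈ nbh z, ((ex0 κ (blo d z') (bhi d ℓ z') (VB (blo d z') (bhi d ℓ z') η)).card : ℝ) := by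
    exact_mod_cast (Finset.card_le_card hsub).trans Finset.card_biUnion_le
  have h2 : ((Finset.Icc (glo d z) (ghi d ℓ z)).card : ℝ) =
      ∑ z' ∈ nbh z, ((Finset.Icc (blo d z') (bhi d ℓ z')).card : ℝ) := by
    rw [KA_union d ℓ hd z, Finset.card_biUnion (fun z' _ z'' _ h => KA_disj d ℓ hd h)]
    push_cast
    rfl
  rw [h2]
  calc (d : ℝ) ^ 2 * (ex0 κ (glo d z) (ghi d ℓ z) (VU ℓ η z)).card
      ≤ (d : ℝ) ^ 2 * ∑ z' ∈ nbh z,
        ((ex0 κ (blo d z') (bhi d ℓ z') (VB (blo d z') (bhi d ℓ z') η)).card : ℝ) :=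
        mul_le_mul_of_nonneg_left h1 (by positivity)
    _ = ∑ z' ∈ nbh z, (d : ℝ) ^ 2 *
        ((ex0 κ (blo d z') (bhi d ℓ z') (VB (blo d z') (bhi d ℓ z') η)).card : ℝ) :=
        Finset.mul_sum _ _ _
    _ ≤ _ := Finset.sum_le_sum fun z' hz' => h z' hz'

theorem KC_large : ∀ᶠ d : ℕ in atTop, (d : ℝ) ^ 10 ≤ 9 * (3 : ℝ) ^ (d - 2) := by
  have h := (tendsto_pow_const_div_const_pow_of_one_lt 10 (r := (3 : ℝ)) (by norm_num))
  have h1 : ∀ᶠ d : ℕ in atTop, (d : ℝ) ^ 10 / 3 ^ d < 1 :=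
    h.eventually (gt_mem_nhds (by norm_num))
  filter_upwards [h1, eventually_ge_atTop 2] with d hd hd2
  rw [div_lt_one (by positivity)] at hd
  have e : (3 : ℝ) ^ d = 9 * 3 ^ (d - 2) := by
    obtain ⟨n, rfl⟩ : ∃ n, d = n + 2 := ⟨d - 2, by omega⟩
    rw [Nat.add_sub_cancel, pow_add]
    ring
  rw [← e]
  exact hd.le

theorem KC_exp (t : ℝ) : t * Real.exp (-t) ≤ 1 := by
  have h := Real.add_one_le_exp t
  have h2 : Real.exp t * Real.exp (-t) = 1 := by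
    rw [← Real.exp_add, add_neg_cancel, Real.exp_zero]
  have h3 : 0 < Real.exp (-t) := Real.exp_pos _
  nlinarith

/-- Module KC (M). Nine blocks are good except with probability `9/d²` (`EL_restrict_le`,
`blk_sub`), and if so the merging (`merge` for the box of the nine blocks, `F = ∅`) succeeds
except with probability `exp (-d²)`. -/
theorem fine_prob (κ c' : ℝ) (ℓ : ℕ) (hκ : 0 < κ) (hκ1 : κ ≤ 1) (hc' : 0 < c') (hℓ : 3 ≤ ℓ) :
    ∀ᶠ d : ℕ in atTop, ∀ (m : Mdl) (q : ℝ), 0 ≤ m.a → 0 ≤ m.b → c' ≤ q * (d : ℝ) ^ 2 → q ≤ 1 →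
      BG d m κ ℓ → ∀ (z : ℤ × ℤ) (A : Vx d → ZMod 2),
      (d : ℝ) ^ 2 * EL m (bx (glo d z) (ghi d ℓ z)) A
        (fun η => EB q (bx (glo d z) (ghi d ℓ z)) (fun ξ => ind (¬ fine κ ℓ η ξ z))) ≤
        10 * ZZ m (bx (glo d z) (ghi d ℓ z)) A := by
  classical
  filter_upwards [merge κ (κ / 100) c' ℓ hκ (by positivity) le_rfl hκ1 hc' (by omega), KC_large,
    eventually_ge_atTop 2] with d hmerge hlarge hd2
  intro m q ha hb hq hq1 hBG z A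
  have hd0 : (0 : ℝ) < (d : ℝ) ^ 2 := by
    have : (0 : ℝ) < d := by
      have : 0 < d := by omega
      exact_mod_cast this
    positivity
  have hq0 : 0 ≤ q := by
    by_contra hcon
    push Not at hcon
    nlinarith
  set U := bx (glo d z) (ghi d ℓ z) with hU
  have hcard : ((Finset.Icc (glo d z) (ghi d ℓ z)).card : ℝ) = 9 * (ℓ : ℝ) ^ (d - 2) := by
    rw [g_card d ℓ hd2 z]
    push_cast
    rfl
  have hcard10 : (d : ℝ) ^ 10 ≤ (Finset.Icc (glo d z) (ghi d ℓ z)).card := by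
    rw [hcard]
    refine hlarge.trans (mul_le_mul_of_nonneg_left ?_ (by norm_num))
    refine pow_le_pow_left₀ (by norm_num) ?_ _
    exact_mod_cast hℓ
  -- pointwise bound
  have hpt : ∀ η, η ⊆ U → EB q U (fun ξ => ind (¬ fine κ ℓ η ξ z)) ≤
      (∑ z' ∈ nbh z, ind (¬ GB κ (blo d z') (bhi d ℓ z') η)) + Real.exp (-(d : ℝ) ^ 2) := by
    intro η hη
    by_cases hall : ∀ z' ∈ nbh z, GB κ (blo d z') (bhi d ℓ z') η
    · have h0 : 0 ≤ ∑ z' ∈ nbh z, ind (¬ GB κ (blo d z') (bhi d ℓ z') η) :=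
        Finset.sum_nonneg fun _ _ => ind_nonneg _
      have h1 := hmerge (glo d z) (ghi d ℓ z) ∅ η (VU ℓ η z) q
        (fun i => g_side d ℓ hℓ z i) hcard10 (by simp) (KC_VB_sub ℓ η z hd2)
        (KC_VU_closed ℓ η z) (KC_ex0 κ ℓ η z hd2 hall) hq hq1
      rw [Finset.sdiff_empty, hcard] at h1
      have h2 : EB q U (fun ξ => ind (¬ fine κ ℓ η ξ z)) = EB q U (fun ξ =>
          ind (¬ Gi (κ / 100 * (9 * (ℓ : ℝ) ^ (d - 2))) (VU ℓ η z) (↑η ∪ ↑ξ))) := by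
        refine EB_congr q U _ _ fun ξ hξ => ind_congr (not_congr ?_)
        unfold fine
        have e : ((((η ∪ ξ) ∩ bx (glo d z) (ghi d ℓ z) : Finset (Ed d))) : Set (Ed d)) =
            ↑η ∪ ↑ξ := by
          rw [Finset.inter_eq_left.2 (Finset.union_subset hη hξ), Finset.coe_union]
        rw [e]
        exact ⟨fun h => h.2, fun h => ⟨hall, h⟩⟩
      rw [h2]
      linarith
    · push Not at hall
      obtain ⟨z', hz', hnot⟩ := hall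
      have h1 : EB q U (fun ξ => ind (¬ fine κ ℓ η ξ z)) ≤ 1 := by
        calc EB q U (fun ξ => ind (¬ fine κ ℓ η ξ z)) ≤ EB q U (fun _ => 1) :=
              EB_mono q hq0 hq1 U _ _ fun ξ _ => ind_le_one _
          _ = 1 := EB_const q U 1
      have h2 : 1 ≤ ∑ z' ∈ nbh z, ind (¬ GB κ (blo d z') (bhi d ℓ z') η) := by
        calc (1 : ℝ) = ind (¬ GB κ (blo d z') (bhi d ℓ z') η) := (ind_true hnot).symm
          _ ≤ _ := Finset.single_le_sum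
            (f := fun z' => ind (¬ GB κ (blo d z') (bhi d ℓ z') η))
            (fun _ _ => ind_nonneg _) hz'
      have h3 := Real.exp_pos (-(d : ℝ) ^ 2)
      linarith
  have h1 := EL_mono m ha hb U A _ _ hpt
  rw [EL_add, EL_sum, EL_const] at h1
  have h2 : ∀ z' ∈ nbh z, EL m U A (fun η => ind (¬ GB κ (blo d z') (bhi d ℓ z') η)) ≤
      1 / (d : ℝ) ^ 2 * ZZ m U A := by
    intro z' hz'
    have hsub := blk_sub d ℓ z z' hz'
    have h3 := EL_restrict_le m ha hb U (bx (blo d z') (bhi d ℓ z')) hsub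
      (fun η => ind (¬ GB κ (blo d z') (bhi d ℓ z') η)) (1 / (d : ℝ) ^ 2)
      (fun B => by
        have := hBG z' B
        rw [one_div, inv_mul_eq_div, le_div_iff₀ hd0]
        linarith) A
    refine le_trans (le_of_eq ?_) h3
    refine EL_congr m U A _ _ fun η _ => ?_
    exact ind_congr (not_congr (KB_GB κ _ _ η _ (Finset.Subset.refl _)).symm)
  have h3 := Finset.sum_le_sum h2
  rw [Finset.sum_const, KA_nbh_card, nsmul_eq_mul] at h3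
  have hZ := ZZ_nonneg m ha hb U A
  have h4 := KC_exp ((d : ℝ) ^ 2)
  have h5 : (d : ℝ) ^ 2 * ((9 : ℕ) * (1 / (d : ℝ) ^ 2 * ZZ m U A)) = 9 * ZZ m U A := by
    push_cast
    field_simp
  have h6 : (d : ℝ) ^ 2 * (Real.exp (-(d : ℝ) ^ 2) * ZZ m U A) ≤ ZZ m U A := by
    calc (d : ℝ) ^ 2 * (Real.exp (-(d : ℝ) ^ 2) * ZZ m U A)
        = ((d : ℝ) ^ 2 * Real.exp (-(d : ℝ) ^ 2)) * ZZ m U A := by ring
      _ ≤ 1 * ZZ m U A := mul_le_mul_of_nonneg_right h4 hZ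
      _ = ZZ m U A := one_mul _
  have h7 := mul_le_mul_of_nonneg_left (h1.trans (add_le_add_left h3 _)) hd0.le
  rw [mul_add] at h7
  linarith

theorem KD_class (Γ : Finset (ℤ × ℤ)) : ∃ Γ' ⊆ Γ, Γ.card ≤ 9 * Γ'.card ∧
    ∀ z ∈ Γ', ∀ z' ∈ Γ', (3 : ℤ) ∣ z.1 - z'.1 ∧ (3 : ℤ) ∣ z.2 - z'.2 := by
  classical
  let c : ℤ × ℤ → ℤ × ℤ := fun z => (z.1 % 3, z.2 % 3)
  have hmaps : ∀ z ∈ Γ, c z ∈ (Finset.Icc 0 2 ×ˢ Finset.Icc 0 2 : Finset (ℤ × ℤ)) := by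
    intro z _
    rw [Finset.mem_product, Finset.mem_Icc, Finset.mem_Icc]
    simp only [c]
    omega
  have hne : (Finset.Icc 0 2 ×ˢ Finset.Icc 0 2 : Finset (ℤ × ℤ)).Nonempty := ⟨(0, 0), by simp⟩
  have hcard : (Finset.Icc 0 2 ×ˢ Finset.Icc 0 2 : Finset (ℤ × ℤ)).card = 9 := by
    rw [Finset.card_product, Int.card_Icc]
    rfl
  by_contra hcon
  push Not at hcon
  have h1 : ∀ b ∈ (Finset.Icc 0 2 ×ˢ Finset.Icc 0 2 : Finset (ℤ × ℤ)),
      9 * (Γ.filter (fun z => c z = b)).card < Γ.card := by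
    intro b _
    by_contra h
    push Not at h
    obtain ⟨z, hz, z', hz', hzz⟩ := hcon (Γ.filter (fun z => c z = b)) (Finset.filter_subset _ _) h
    rw [Finset.mem_filter] at hz hz'
    have e := hz.2.trans hz'.2.symm
    have e1 := congrArg Prod.fst e
    have e2 := congrArg Prod.snd e
    simp only [c] at e1 e2
    exact hzz (by omega) (by omega)
  have h2 := Finset.card_eq_sum_card_fiberwise hmaps
  have h3 : 9 * Γ.card < 9 * Γ.card := by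
    calc 9 * Γ.card = ∑ b ∈ (Finset.Icc 0 2 ×ˢ Finset.Icc 0 2 : Finset (ℤ × ℤ)),
          9 * (Γ.filter (fun z => c z = b)).card := by rw [← Finset.mul_sum, ← h2]
      _ < ∑ _b ∈ (Finset.Icc 0 2 ×ˢ Finset.Icc 0 2 : Finset (ℤ × ℤ)), Γ.card :=
          Finset.sum_lt_sum_of_nonempty hne h1
      _ = 9 * Γ.card := by rw [Finset.sum_const, hcard, smul_eq_mul]
  exact lt_irrefl _ h3

theorem KD_ind {α : Type*} (s : Finset α) (P : α → Prop) :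
    ind (∀ z ∈ s, P z) = ∏ z ∈ s, ind (P z) := by
  classical
  induction s using Finset.induction_on with
  | empty => simp [ind_true]
  | insert a s ha ih =>
    rw [Finset.prod_insert ha, ← ih, ← ind_and]
    exact ind_congr (by simp)

/-- Module KD (M). Product bound: a residue class mod 3 contains at least `|Γ|/9` of the cells;
their boxes are disjoint (`g_disj`); `EB_prod`, `EL_prod_le`; `10/d² ≤ (1/1000)^9`. -/
theorem fine_prod (κ c' : ℝ) (ℓ : ℕ) (hκ : 0 < κ) (hκ1 : κ ≤ 1) (hc' : 0 < c') (hℓ : 3 ≤ ℓ) :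
    ∀ᶠ d : ℕ in atTop, ∀ (m : Mdl) (q : ℝ), 0 ≤ m.a → 0 ≤ m.b → c' ≤ q * (d : ℝ) ^ 2 → q ≤ 1 →
      BG d m κ ℓ → ∀ (E : Finset (Ed d)) (Γ : Finset (ℤ × ℤ)),
      (∀ z ∈ Γ, bx (glo d z) (ghi d ℓ z) ⊆ E) → ∀ A : Vx d → ZMod 2,
      EL m E A (fun η => EB q E (fun ξ => ind (∀ z ∈ Γ, ¬ fine κ ℓ η ξ z))) ≤
        (1 / 1000 : ℝ) ^ Γ.card * ZZ m E A := by
  classical
  have hd9 : ∀ᶠ d : ℕ in atTop, (10 : ℝ) * 1000 ^ 9 ≤ (d : ℝ) ^ 2 := by
    have h := (tendsto_pow_atTop (α := ℝ) (n := 2) (by norm_num)).comp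
      tendsto_natCast_atTop_atTop
    exact h.eventually (eventually_ge_atTop _)
  filter_upwards [fine_prob κ c' ℓ hκ hκ1 hc' hℓ, hd9, eventually_ge_atTop 2] with d hfp hd9 hd2
  intro m q ha hb hq hq1 hBG E Γ hΓE A
  have hd0 : (0 : ℝ) < (d : ℝ) ^ 2 := lt_of_lt_of_le (by norm_num) hd9
  have hq0 : 0 ≤ q := by
    by_contra hcon
    push Not at hcon
    nlinarith
  obtain ⟨Γ', hΓ', hc, hres⟩ := KD_class Γ
  have hZ := ZZ_nonneg m ha hb E A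
  have hdis : ∀ z ∈ Γ', ∀ z' ∈ Γ', z ≠ z' →
      Disjoint (bx (glo d z) (ghi d ℓ z)) (bx (glo d z') (ghi d ℓ z')) := fun z hz z' hz' hne =>
    g_disj d ℓ hd2 z z' hne (hres z hz z' hz').1 (hres z hz z' hz').2
  have hUE : ∀ z ∈ Γ', bx (glo d z) (ghi d ℓ z) ⊆ E := fun z hz => hΓE z (hΓ' hz)
  -- the pointwise product
  have h1 : ∀ η, η ⊆ E → EB q E (fun ξ => ind (∀ z ∈ Γ, ¬ fine κ ℓ η ξ z)) ≤
      ∏ z ∈ Γ', EB q (bx (glo d z) (ghi d ℓ z))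
        (fun ξ => ind (¬ fine κ ℓ (η ∩ bx (glo d z) (ghi d ℓ z)) ξ z)) := by
    intro η _
    rw [← EB_prod q E Γ' (fun z => bx (glo d z) (ghi d ℓ z)) hUE hdis
      (fun z ξ => ind (¬ fine κ ℓ (η ∩ bx (glo d z) (ghi d ℓ z)) ξ z))]
    refine EB_mono q hq0 hq1 E _ _ fun ξ _ => ?_
    rw [← KD_ind Γ' (fun z => ¬ fine κ ℓ (η ∩ bx (glo d z) (ghi d ℓ z))
      (ξ ∩ bx (glo d z) (ghi d ℓ z)) z)]
    refine ind_mono fun h z hz => ?_
    rw [fine_local]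
    exact h z (hΓ' hz)
  have h2 := EL_prod_le m ha hb E Γ' (fun z => bx (glo d z) (ghi d ℓ z)) hUE hdis
    (fun z η => EB q (bx (glo d z) (ghi d ℓ z)) (fun ξ => ind (¬ fine κ ℓ η ξ z)))
    (fun z _ η => by
      calc (0 : ℝ) = EB q (bx (glo d z) (ghi d ℓ z)) (fun _ => 0) := (EB_const q _ 0).symm
        _ ≤ _ := EB_mono q hq0 hq1 _ _ _ fun ξ _ => ind_nonneg _)
    (fun _ => 10 / (d : ℝ) ^ 2) (fun _ _ => by positivity)
    (fun z _ B => by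
      have := hfp m q ha hb hq hq1 hBG z B
      rw [div_mul_eq_mul_div, le_div_iff₀ hd0]
      linarith) A
  refine (EL_mono m ha hb E A _ _ h1).trans (h2.trans ?_)
  rw [Finset.prod_const]
  refine mul_le_mul_of_nonneg_right ?_ hZ
  have h3 : 10 / (d : ℝ) ^ 2 ≤ (1 / 1000 : ℝ) ^ 9 := by
    rw [div_le_iff₀ hd0, one_div, inv_pow, inv_mul_eq_div, le_div_iff₀ (by positivity)]
    exact hd9
  calc (10 / (d : ℝ) ^ 2) ^ Γ'.card ≤ ((1 / 1000 : ℝ) ^ 9) ^ Γ'.card :=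
        pow_le_pow_left₀ (by positivity) h3 _
    _ = (1 / 1000 : ℝ) ^ (9 * Γ'.card) := by rw [pow_mul]
    _ ≤ (1 / 1000 : ℝ) ^ Γ.card := pow_le_pow_of_le_one (by norm_num) (by norm_num) hc

theorem KE_nbh_self (z : ℤ × ℤ) : z ∈ nbh z := by
  unfold nbh
  rw [Finset.mem_Icc, Prod.le_def, Prod.le_def]
  exact ⟨⟨by simp, by simp⟩, ⟨by simp, by simp⟩⟩

theorem KE_nbh_nb {z z' : ℤ × ℤ} (h : nb2 z z') : z' ∈ nbh z := by
  unfold nbh
  rw [Finset.mem_Icc, Prod.le_def, Prod.le_def]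
  unfold nb2 at h
  refine ⟨⟨?_, ?_⟩, ⟨?_, ?_⟩⟩ <;> simp only <;> omega

/-- Module KE (M). -/
theorem HP_conn {d : ℕ} (hd : 3 ≤ d) (κ : ℝ) (hκ : 0 < κ) (ℓ : ℕ) (hℓ : 1 ≤ ℓ)
    (η ξ : Finset (Ed d)) (K : ℕ) (h : HP (fun z => ¬ fine κ ℓ η ξ z) K) :
    κ / 4 * (ℓ : ℝ) ^ (d - 2) ≤
      (fl (B0 d ℓ) (fun w => Far ((4 : ℤ) ^ K) (↑((η ∪ ξ) ∩ Rg d ℓ K)) w)).card := by
  classical
  set N : ℝ := (ℓ : ℝ) ^ (d - 2) with hN
  have hN0 : 0 < N := by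
    have : (0 : ℝ) < ℓ := by exact_mod_cast hℓ
    positivity
  set ω : Set (Ed d) := ↑((η ∪ ξ) ∩ Rg d ℓ K) with hω
  have hVB : ∀ z z', z' ∈ nbh z → fine κ ℓ η ξ z →
      κ / 2 * N ≤ ((VB (blo d z') (bhi d ℓ z') η).card : ℝ) := by
    intro z z' hz' hz
    have h1 := V_large (by omega : 2 ≤ d) κ hκ.le (blo d z') (bhi d ℓ z')
      (VB (blo d z') (bhi d ℓ z') η) (hz.1 z' hz')
    rw [blk_card d ℓ (by omega) z'] at h1
    push_cast at h1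
    exact h1
  have hT : ∀ z, fine κ ℓ η ξ z → z ∈ Sq (K + 1) → ∃ T : Finset (Vx d), T ⊆ VU ℓ η z ∧
      (((VU ℓ η z) \ T).card : ℝ) ≤ κ / 100 * (9 * N) ∧ ∀ u ∈ T, ∀ v ∈ T, conn ω u v := by
    intro z hz hzS
    obtain ⟨T, h1, h2, h3⟩ := hz.2
    refine ⟨T, h1, h2, fun u hu v hv => conn_mono ?_ (h3 u hu v hv)⟩
    rw [hω, Finset.coe_subset]
    exact Finset.inter_subset_inter_left (g_sub d ℓ K z hzS)
  choose! T hT1 hT2 hT3 using hT
  have hmiss : ∀ z z', z' ∈ nbh z → fine κ ℓ η ξ z → z ∈ Sq (K + 1) →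
      (((VB (blo d z') (bhi d ℓ z') η) \ T z).card : ℝ) ≤ κ / 100 * (9 * N) := by
    intro z z' hz' hz hzS
    refine le_trans ?_ (hT2 z hz hzS)
    have h1 : (VB (blo d z') (bhi d ℓ z') η) \ T z ⊆ (VU ℓ η z) \ T z := by
      apply Finset.sdiff_subset_sdiff _ (Finset.Subset.refl _)
      intro x hx
      unfold VU
      rw [Finset.mem_biUnion]
      exact ⟨z', hz', hx⟩
    exact_mod_cast Finset.card_le_card h1
  have hmeet : ∀ z z', z' ∈ nbh z → fine κ ℓ η ξ z → z ∈ Sq (K + 1) → fine κ ℓ η ξ z' →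
      z' ∈ Sq (K + 1) → ∃ x, x ∈ T z ∧ x ∈ T z' ∧ x ∈ VB (blo d z') (bhi d ℓ z') η := by
    intro z z' hz' hz hzS hf hzS'
    by_contra hcon
    push Not at hcon
    have h1 : VB (blo d z') (bhi d ℓ z') η ⊆
        ((VB (blo d z') (bhi d ℓ z') η) \ T z) ∪ ((VB (blo d z') (bhi d ℓ z') η) \ T z') := by
      intro x hx
      rw [Finset.mem_union, Finset.mem_sdiff, Finset.mem_sdiff]
      by_cases h2 : x ∈ T z
      · right
        exact ⟨hx, fun h3 => hcon x h2 h3 hx⟩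
      · left
        exact ⟨hx, h2⟩
    have h2 := (Finset.card_le_card h1).trans (Finset.card_union_le _ _)
    have h3 : ((VB (blo d z') (bhi d ℓ z') η).card : ℝ) ≤
        (((VB (blo d z') (bhi d ℓ z') η) \ T z).card : ℝ) +
          (((VB (blo d z') (bhi d ℓ z') η) \ T z').card : ℝ) := by exact_mod_cast h2
    have h4 := hVB z z' hz' hz
    have h5 := hmiss z z' hz' hz hzS
    have h6 := hmiss z' z' (KE_nbh_self z') hf hzS'
    have h7 : 0 < κ * N := mul_pos hκ hN0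
    nlinarith
  obtain ⟨h0, z, hzS, hz1, hpath⟩ := h
  have h0' : fine κ ℓ η ξ (0, 0) := not_not.1 h0
  have h0S : ((0 : ℤ), (0 : ℤ)) ∈ Sq (K + 1) := by
    unfold Sq
    have h1 : (1 : ℤ) ≤ 4 ^ (K + 1) := one_le_pow₀ (by norm_num)
    rw [Finset.mem_Icc, Prod.le_def, Prod.le_def]
    refine ⟨⟨le_rfl, le_rfl⟩, ⟨?_, ?_⟩⟩
    · simp only
      linarith
    · simp only
      linarith
  have hreach : ∀ z, Relation.ReflTransGen (st2 (fun z => ¬ fine κ ℓ η ξ z) (K + 1)) (0, 0) z →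
      fine κ ℓ η ξ z ∧ z ∈ Sq (K + 1) ∧ ∀ u ∈ T (0, 0), ∀ v ∈ T z, conn ω u v := by
    intro z hpath
    induction hpath with
    | refl => exact ⟨h0', h0S, hT3 _ h0' h0S⟩
    | @tail b c _ hst ih =>
      obtain ⟨hnb, hbS, hcS, hb, hc⟩ := hst
      have hb' : fine κ ℓ η ξ b := not_not.1 hb
      have hc' : fine κ ℓ η ξ c := not_not.1 hc
      have hconn := ih.2.2
      obtain ⟨x, hx1, hx2, _⟩ := hmeet b c (KE_nbh_nb hnb) hb' hbS hc' hcS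
      exact ⟨hc', hcS, fun u hu v hv =>
        conn_trans (hconn u hu x hx1) (hT3 c hc' hcS x hx2 v hv)⟩
  obtain ⟨hz, _, hall⟩ := hreach z hpath
  -- a vertex of the giant set of z in the block of z
  obtain ⟨v, hv1, _, hv2⟩ := hmeet z z (KE_nbh_self z) hz hzS hz hzS
  have hvI : v ∈ Finset.Icc (blo d z) (bhi d ℓ z) := fl_subset _ _ hv2
  have hsub : (VB (blo d (0, 0)) (bhi d ℓ (0, 0)) η) ∩ T (0, 0) ⊆
      fl (B0 d ℓ) (fun w => Far ((4 : ℤ) ^ K) ω w) := by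
    intro w hw
    rw [Finset.mem_inter] at hw
    obtain ⟨hw1, hw2⟩ := hw
    have hwI : w ∈ Finset.Icc (blo d (0, 0)) (bhi d ℓ (0, 0)) := fl_subset _ _ hw1
    rw [mem_fl]
    refine ⟨hwI, v, hall w hw2 v hv1, ⟨d - 2, by omega⟩, ?_⟩
    rw [Finset.mem_Icc] at hwI hvI
    have e1 : ∀ z : ℤ × ℤ, blo d z ⟨d - 2, by omega⟩ = z.1 := by
      intro z
      unfold blo
      simp only
      rw [if_neg (by omega), if_pos (by omega)]
    have e2 : ∀ z : ℤ × ℤ, bhi d ℓ z ⟨d - 2, by omega⟩ = z.1 := by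
      intro z
      unfold bhi
      simp only
      rw [if_neg (by omega), if_pos (by omega)]
    have a1 := hwI.1 ⟨d - 2, by omega⟩
    have a2 := hwI.2 ⟨d - 2, by omega⟩
    have a3 := hvI.1 ⟨d - 2, by omega⟩
    have a4 := hvI.2 ⟨d - 2, by omega⟩
    rw [e1] at a1 a3
    rw [e2] at a2 a4
    have a5 : w ⟨d - 2, by omega⟩ = 0 := le_antisymm a2 a1
    have a6 : v ⟨d - 2, by omega⟩ = z.1 := le_antisymm a4 a3
    rw [a5, a6, sub_zero]
    exact hz1.trans (le_abs_self _)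
  have hcard := Finset.card_le_card hsub
  have h4 := hVB (0, 0) (0, 0) (KE_nbh_self _) h0'
  have h5 := hmiss (0, 0) (0, 0) (KE_nbh_self _) h0' h0S
  have h6 : ((VB (blo d (0, 0)) (bhi d ℓ (0, 0)) η) \ T (0, 0)).card +
      ((VB (blo d (0, 0)) (bhi d ℓ (0, 0)) η) ∩ T (0, 0)).card =
      (VB (blo d (0, 0)) (bhi d ℓ (0, 0)) η).card := Finset.card_sdiff_add_card_inter _ _
  have h7 : (((VB (blo d (0, 0)) (bhi d ℓ (0, 0)) η) \ T (0, 0)).card : ℝ) +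
      (((VB (blo d (0, 0)) (bhi d ℓ (0, 0)) η) ∩ T (0, 0)).card : ℝ) =
      ((VB (blo d (0, 0)) (bhi d ℓ (0, 0)) η).card : ℝ) := by exact_mod_cast h6
  have h8 : (((VB (blo d (0, 0)) (bhi d ℓ (0, 0)) η) ∩ T (0, 0)).card : ℝ) ≤
      ((fl (B0 d ℓ) (fun w => Far ((4 : ℤ) ^ K) ω w)).card : ℝ) := by exact_mod_cast hcard
  have h9 : 0 < κ * N := mul_pos hκ hN0
  nlinarith

/-- The weight of a pair. -/
noncomputable def KF_w {d : ℕ} (m : Mdl) (q : ℝ) (E : Finset (Ed d)) (A : Vx d → ZMod 2)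
    (x : Finset (Ed d) × Finset (Ed d)) : ℝ :=
  ind (m.s • bd x.1 = A) * (m.a ^ x.1.card * m.b ^ (E \ x.1).card) *
    (q ^ x.2.card * (1 - q) ^ (E \ x.2).card)

theorem KF_sum {d : ℕ} (m : Mdl) (q : ℝ) (E : Finset (Ed d)) (A : Vx d → ZMod 2)
    (F : Finset (Ed d) → Finset (Ed d) → ℝ) :
    ∑ x ∈ E.powerset ×ˢ E.powerset, KF_w m q E A x * F x.1 x.2 =
      EL m E A (fun η => EB q E (fun ξ => F η ξ)) := by
  unfold EL EB KF_w
  rw [Finset.sum_product]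
  refine Finset.sum_congr rfl fun η _ => ?_
  rw [Finset.mul_sum]
  refine Finset.sum_congr rfl fun ξ _ => ?_
  ring

/-- Module KF (M). -/
theorem fv (κ c' : ℝ) (ℓ : ℕ) (hκ : 0 < κ) (hκ1 : κ ≤ 1) (hc' : 0 < c') (hℓ : 3 ≤ ℓ) :
    ∀ᶠ d : ℕ in atTop, ∀ (m : Mdl) (q : ℝ), 0 ≤ m.a → 0 ≤ m.b → c' ≤ q * (d : ℝ) ^ 2 → q ≤ 1 →
      BG d m κ ℓ → ∀ (E : Finset (Ed d)) (K : ℕ), Rg d ℓ K ⊆ E → ∀ A : Vx d → ZMod 2,
      κ / 8 * (ℓ : ℝ) ^ (d - 2) * ZZ m E A ≤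
        EL m E A (fun η => EB q E (fun ξ =>
          ((fl (B0 d ℓ) (fun w => Far ((4 : ℤ) ^ K) (↑((η ∪ ξ) ∩ Rg d ℓ K)) w)).card : ℝ))) := by
  filter_upwards [fine_prod κ c' ℓ hκ hκ1 hc' hℓ, eventually_ge_atTop 3] with d hfp hd
  intro m q ha hb hq hq1 hBG E K hRE A
  have hq0 : 0 ≤ q := by
    by_contra hcon
    push Not at hcon
    have : q * (d : ℝ) ^ 2 ≤ 0 := mul_nonpos_of_nonpos_of_nonneg hcon.le (by positivity)
    linarith
  have hw : ∀ x ∈ E.powerset ×ˢ E.powerset, 0 ≤ KF_w m q E A x := by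
    intro x _
    unfold KF_w
    have h1 := ind_nonneg (m.s • bd x.1 = A)
    have h2 : 0 ≤ 1 - q := by linarith
    positivity
  have hone : ∑ x ∈ E.powerset ×ˢ E.powerset, KF_w m q E A x = ZZ m E A := by
    have h1 := KF_sum m q E A (fun _ _ => 1)
    simp only [mul_one, EB_const] at h1
    rw [h1]
    rfl
  have hh := hier (E.powerset ×ˢ E.powerset) (KF_w m q E A) hw
    (fun x z => ¬ fine κ ℓ x.1 x.2 z) K (by
      intro Γ hΓ
      rw [hone]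
      have h1 := hfp m q ha hb hq hq1 hBG E Γ
        (fun z hz => (g_sub d ℓ K z (hΓ hz)).trans hRE) A
      rw [← KF_sum m q E A (fun η ξ => ind (∀ z ∈ Γ, ¬ fine κ ℓ η ξ z))] at h1
      exact h1)
  rw [hone] at hh
  rw [← KF_sum m q E A (fun η ξ => ((fl (B0 d ℓ) (fun w => Far ((4 : ℤ) ^ K)
    (↑((η ∪ ξ) ∩ Rg d ℓ K)) w)).card : ℝ))]
  have hN : 0 ≤ κ / 4 * (ℓ : ℝ) ^ (d - 2) := by positivity
  calc κ / 8 * (ℓ : ℝ) ^ (d - 2) * ZZ m E A =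
        κ / 4 * (ℓ : ℝ) ^ (d - 2) * (1 / 2 * ZZ m E A) := by ring
    _ ≤ κ / 4 * (ℓ : ℝ) ^ (d - 2) * ∑ x ∈ E.powerset ×ˢ E.powerset, KF_w m q E A x *
          ind (HP (fun z => ¬ fine κ ℓ x.1 x.2 z) K) := mul_le_mul_of_nonneg_left hh hN
    _ = ∑ x ∈ E.powerset ×ˢ E.powerset, KF_w m q E A x * (κ / 4 * (ℓ : ℝ) ^ (d - 2) *
          ind (HP (fun z => ¬ fine κ ℓ x.1 x.2 z) K)) := by
        rw [Finset.mul_sum]
        refine Finset.sum_congr rfl fun x _ => ?_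
        ring
    _ ≤ _ := by
        refine Finset.sum_le_sum fun x hx => mul_le_mul_of_nonneg_left ?_ (hw x hx)
        by_cases h : HP (fun z => ¬ fine κ ℓ x.1 x.2 z) K
        · rw [ind_true h, mul_one]
          exact HP_conn hd κ hκ ℓ (by omega) x.1 x.2 K h
        · rw [ind_false h, mul_zero]
          exact Nat.cast_nonneg _

/-- Finite-volume percolation of the trace for given parameters. -/
def FVP (d ℓ : ℕ) (x q c0 : ℝ) : Prop :=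
  ∀ (E : Finset (Ed d)) (K : ℕ), Rg d ℓ K ⊆ E →
    c0 * (ℓ : ℝ) ^ (d - 2) * ZZ (loopM x) E 0 ≤
      EL (loopM x) E 0 (fun η => EB q E (fun ξ =>
        ((fl (B0 d ℓ) (fun w => Far ((4 : ℤ) ^ K) (↑((η ∪ ξ) ∩ Rg d ℓ K)) w)).card : ℝ)))

/-- Choice of `k` and goodness of the blocks, for `δ ≤ 1/100`. -/
theorem KG_BG (d : ℕ) (m : Mdl) (κ δ : ℝ) (ℓ k : ℕ) (hd : 2 ≤ d)
    (hk : (k : ℝ) + 4 * δ * d ≤ (d : ℝ) - 2)
    (h : ∀ (lo hi : Vx d) (D : Finset (Fin d)), isB ℓ lo hi D → (k : ℝ) + 4 * δ * d ≤ D.card →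
        ∀ A : Vx d → ZMod 2,
        (d : ℝ) ^ 2 * EL m (bx lo hi) A (fun η => ind (¬ GB κ lo hi η)) ≤ ZZ m (bx lo hi) A) :
    BG d m κ ℓ := by
  intro z A
  refine h _ _ _ (blk_isB d ℓ z) ?_ A
  rw [blk_dim d hd, Nat.cast_sub hd]
  exact_mod_cast hk

theorem KG_k (d : ℕ) (δ : ℝ) (hδ : 0 < δ) (hδ1 : δ ≤ 1 / 100) (hd : 5 ≤ d) :
    ∃ k : ℕ, (k : ℝ) + 4 * δ * d ≤ (d : ℝ) - 2 ∧ (d : ℝ) * (1 - 4 * δ) - 3 ≤ k ∧
      (d : ℝ) ≤ 4 * k := by
  have hd5 : (5 : ℝ) ≤ d := by exact_mod_cast hd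
  have h0 : 0 ≤ (d : ℝ) - 2 - 4 * δ * d := by nlinarith
  refine ⟨⌊(d : ℝ) - 2 - 4 * δ * d⌋₊, ?_, ?_, ?_⟩
  · have := Nat.floor_le h0
    linarith
  · have := Nat.lt_floor_add_one ((d : ℝ) - 2 - 4 * δ * d)
    linarith
  · have h1 := Nat.lt_floor_add_one ((d : ℝ) - 2 - 4 * δ * d)
    have h2 : 4 * δ * (d : ℝ) ≤ (d : ℝ) / 25 := by nlinarith
    linarith

/-- Module KG (M). Regime `x³ d ≤ 1` (`growL`, `exc'`, `fv` with `m = loopM x`); choose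
`δ = ε/100`, `k = ⌊d - 2 - 4 δ d⌋`. -/
theorem reg1 (ε : ℝ) (hε : 0 < ε) (hε1 : ε ≤ 1) (c' : ℝ) (hc' : 0 < c') :
    ∃ (c0 : ℝ) (ℓ : ℕ), 0 < c0 ∧ 1 ≤ ℓ ∧ ∀ᶠ d : ℕ in atTop, ∀ x q : ℝ, 0 < x → x ^ 3 * d ≤ 1 →
      1 + ε ≤ 2 * d * x → c' ≤ q * (d : ℝ) ^ 2 → q ≤ 1 → FVP d ℓ x q c0 := by
  obtain ⟨c, r, hc, hc1, hr, h1⟩ := growL (ε / 2) (by linarith)
  obtain ⟨κ, hκ, hκ1, h2⟩ := exc' c (ε / 100) hc hc1 (by linarith) (by linarith)
  obtain ⟨ℓ, hℓ3, hℓr⟩ : ∃ ℓ : ℕ, 3 ≤ ℓ ∧ 2 * (r : ℝ) ≤ ε / 100 * ℓ := by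
    refine ⟨max 3 ⌈2 * (r : ℝ) / (ε / 100)⌉₊, le_max_left _ _, ?_⟩
    have h3 : 2 * (r : ℝ) / (ε / 100) ≤ (max 3 ⌈2 * (r : ℝ) / (ε / 100)⌉₊ : ℕ) :=
      le_trans (Nat.le_ceil _) (by exact_mod_cast le_max_right _ _)
    rw [div_le_iff₀ (by positivity)] at h3
    linarith
  have h3 := fv κ c' ℓ hκ hκ1 hc' hℓ3
  refine ⟨κ / 8, ℓ, by positivity, by omega, ?_⟩
  have hlarge : ∀ᶠ d : ℕ in atTop, 5 ≤ d ∧ 300 / ε ≤ (d : ℝ) := by
    refine (eventually_ge_atTop 5).and ?_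
    exact (tendsto_natCast_atTop_atTop (R := ℝ)).eventually_ge_atTop (300 / ε)
  filter_upwards [h1, h2, h3, hlarge] with d hd1 hd2 hd3 hd4 x q hx hx3 hdx hq hq1 E K hE
  obtain ⟨hd5, hdε⟩ := hd4
  have hd5' : (5 : ℝ) ≤ d := by exact_mod_cast hd5
  have hd0 : (0 : ℝ) < d := by linarith
  obtain ⟨k, hk1, hk2, hk3⟩ := KG_k d (ε / 100) (by linarith) (by linarith) hd5
  have hk4 : 1 + ε / 2 ≤ 2 * k * x := by
    have h4 : 2 * ((d : ℝ) * (1 - 4 * (ε / 100)) - 3) * x ≤ 2 * k * x := by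
      have := mul_le_mul_of_nonneg_right hk2 hx.le
      nlinarith
    have h5 : (3 : ℝ) ≤ ε / 100 * d := by
      rw [div_le_iff₀ hε] at hdε
      linarith
    have h6 : (d : ℝ) * (1 - ε / 20) ≤ (d : ℝ) * (1 - 4 * (ε / 100)) - 3 := by nlinarith
    have h7 : 2 * ((d : ℝ) * (1 - ε / 20)) * x ≤ 2 * ((d : ℝ) * (1 - 4 * (ε / 100)) - 3) * x := by
      have := mul_le_mul_of_nonneg_right h6 hx.le
      nlinarith
    have h8 : (1 + ε) * (1 - ε / 20) ≤ 2 * ((d : ℝ) * (1 - ε / 20)) * x := by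
      have h9 : 0 ≤ 1 - ε / 20 := by linarith
      have := mul_le_mul_of_nonneg_right hdx h9
      nlinarith
    nlinarith
  have hG : Grow d (loopM x) r k (d ^ 8) c := hd1 x k hx hx3 hk4 hk3
  have hB : BG d (loopM x) κ ℓ := by
    refine KG_BG d (loopM x) κ (ε / 100) ℓ k (by omega) hk1 ?_
    intro lo hi D hD hDk A
    exact hd2 (loopM x) k ℓ r hx.le zero_le_one hr hℓr hG lo hi D hD hDk A
  exact hd3 (loopM x) q hx.le zero_le_one hq hq1 hB E K hE 0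

theorem KH_k (d : ℕ) (hd : 20 ≤ d) :
    ∃ k : ℕ, (k : ℝ) + 4 * (1 / 100) * d ≤ (d : ℝ) - 2 ∧ 3 * (d : ℝ) ≤ 4 * k := by
  have hd5 : (20 : ℝ) ≤ d := by exact_mod_cast hd
  have h0 : 0 ≤ (d : ℝ) - 2 - 4 * (1 / 100) * d := by nlinarith
  refine ⟨⌊(d : ℝ) - 2 - 4 * (1 / 100) * d⌋₊, ?_, ?_⟩
  · have := Nat.floor_le h0
    linarith
  · have := Nat.lt_floor_add_one ((d : ℝ) - 2 - 4 * (1 / 100) * d)
    linarith

/-- Number of vertices of the block of `0` that are far connected in the region. -/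
noncomputable def KH_C (d ℓ K : ℕ) (ω : Finset (Ed d)) : ℝ :=
  ((fl (B0 d ℓ) (fun w => Far ((4 : ℤ) ^ K) (↑(ω ∩ Rg d ℓ K)) w)).card : ℝ)

theorem KH_C_incr (d ℓ K : ℕ) : Incr (KH_C d ℓ K) := by
  intro η ζ h
  unfold KH_C
  have h1 : fl (B0 d ℓ) (fun w => Far ((4 : ℤ) ^ K) (↑(η ∩ Rg d ℓ K)) w) ⊆
      fl (B0 d ℓ) (fun w => Far ((4 : ℤ) ^ K) (↑(ζ ∩ Rg d ℓ K)) w) := by
    refine fl_mono _ (fun w _ hw => ?_)
    obtain ⟨v, hv, hi⟩ := hw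
    refine ⟨v, conn_mono ?_ hv, hi⟩
    have h2 : η ∩ Rg d ℓ K ⊆ ζ ∩ Rg d ℓ K := Finset.inter_subset_inter_right h
    exact_mod_cast h2
  exact_mod_cast Finset.card_le_card h1

/-- Module KH (M). Regime `q ≥ 2/d` (`growB`, `exc'`, `fv` with `m = bernM (1/d)` and `q = 1/d`,
`EB_join`, `EB_mono_p`; then `η ∪ ξ ⊇ ξ`). -/
theorem reg2 : ∃ (c0 : ℝ) (ℓ : ℕ), 0 < c0 ∧ 1 ≤ ℓ ∧ ∀ᶠ d : ℕ in atTop, ∀ x q : ℝ, 0 ≤ x →
      2 ≤ q * d → q ≤ 1 → FVP d ℓ x q c0 := by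
  obtain ⟨c, hc, hc1, h1⟩ := growB (1 / 2) (by norm_num)
  obtain ⟨κ, hκ, hκ1, h2⟩ := exc' c (1 / 100) hc hc1 (by norm_num) (by norm_num)
  have h3 := fv κ 1 203 hκ hκ1 one_pos (by norm_num)
  refine ⟨κ / 8, 203, by positivity, by norm_num, ?_⟩
  filter_upwards [h1, h2, h3, eventually_ge_atTop 20] with d hd1 hd2 hd3 hd4 x q hx hq hq1 E K hE
  have hd5 : (20 : ℝ) ≤ d := by exact_mod_cast hd4
  have hd0 : (0 : ℝ) < d := by linarith
  obtain ⟨k, hk1, hk2⟩ := KH_k d hd4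
  have hp0 : 0 ≤ 1 / (d : ℝ) := by positivity
  have hp1 : 1 / (d : ℝ) ≤ 1 := by
    rw [div_le_one hd0]; linarith
  have hG : Grow d (bernM (1 / d)) 1 k (d ^ 8) c := by
    refine hd1 (1 / d) k hp0 hp1 ?_ (by linarith)
    rw [mul_one_div, le_div_iff₀ hd0]
    linarith
  have hB : BG d (bernM (1 / d)) κ 203 := by
    intro z A
    refine hd2 (bernM (1 / d)) k 203 1 hp0 (by show 0 ≤ 1 - 1 / (d : ℝ); linarith) le_rfl
      (by norm_num) (by exact_mod_cast hG) _ _ _ (blk_isB d 203 z) ?_ A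
    rw [blk_dim d (by omega), Nat.cast_sub (by omega)]
    exact_mod_cast hk1
  have h4 := hd3 (bernM (1 / d)) (1 / d) hp0 (by show 0 ≤ 1 - 1 / (d : ℝ); linarith)
    (by rw [one_div, sq, ← mul_assoc, inv_mul_cancel₀ hd0.ne']; linarith) hp1 hB E K hE 0
  have h5 : ZZ (bernM (1 / (d : ℝ))) E 0 = 1 := by
    unfold ZZ
    rw [EL_bern, EB_const]
  rw [h5, EL_bern] at h4
  have h6 : EB (1 / (d : ℝ)) E (fun η => EB (1 / (d : ℝ)) E (fun ξ => KH_C d 203 K (η ∪ ξ))) =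
      EB (1 / (d : ℝ) + 1 / d - 1 / d * (1 / d)) E (KH_C d 203 K) :=
    EB_join (1 / (d : ℝ)) (1 / d) E (KH_C d 203 K)
  have h7 : κ / 8 * ((203 : ℕ) : ℝ) ^ (d - 2) ≤
      EB (1 / (d : ℝ) + 1 / d - 1 / d * (1 / d)) E (KH_C d 203 K) := by
    rw [← h6]
    have : κ / 8 * ((203 : ℕ) : ℝ) ^ (d - 2) * 1 = κ / 8 * ((203 : ℕ) : ℝ) ^ (d - 2) := mul_one _
    rw [← this]
    exact h4
  have h8 : EB (1 / (d : ℝ) + 1 / d - 1 / d * (1 / d)) E (KH_C d 203 K) ≤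
      EB q E (KH_C d 203 K) := by
    refine EB_mono_p _ _ ?_ ?_ hq1 E _ (KH_C_incr d 203 K)
    · nlinarith
    · have h9 : 2 / (d : ℝ) ≤ q := by
        rw [div_le_iff₀ hd0]; exact hq
      have h10 : 1 / (d : ℝ) + 1 / d - 1 / d * (1 / d) ≤ 2 / d := by
        have : 0 ≤ 1 / (d : ℝ) * (1 / d) := by positivity
        have h11 : 2 / (d : ℝ) = 1 / d + 1 / d := by ring
        linarith
      linarith
  have hq0 : 0 ≤ q := by
    by_contra hcon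
    push Not at hcon
    nlinarith
  have h9 : EL (loopM x) E 0 (fun _ => EB q E (KH_C d 203 K)) ≤
      EL (loopM x) E 0 (fun η => EB q E (fun ξ => KH_C d 203 K (η ∪ ξ))) := by
    refine EL_mono (loopM x) hx zero_le_one E 0 _ _ (fun η _ => ?_)
    exact EB_mono q hq0 hq1 E _ _ (fun ξ _ => KH_C_incr d 203 K ξ (η ∪ ξ) Finset.subset_union_right)
  rw [EL_const] at h9
  have h10 : 0 ≤ ZZ (loopM x) E 0 := le_trans zero_le_one (ZZ_zero_ge x hx E)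
  calc κ / 8 * ((203 : ℕ) : ℝ) ^ (d - 2) * ZZ (loopM x) E 0
      ≤ EB q E (KH_C d 203 K) * ZZ (loopM x) E 0 :=
        mul_le_mul_of_nonneg_right (le_trans h7 h8) h10
    _ ≤ _ := h9

theorem KI_tanh_mono (t β : ℝ) (h : t ≤ β) : Real.tanh t ≤ Real.tanh β := by
  rw [Real.tanh_eq_sinh_div_cosh, Real.tanh_eq_sinh_div_cosh, div_le_div_iff₀ (Real.cosh_pos t) (Real.cosh_pos β)]
  have h1 : 0 ≤ Real.sinh (β - t) := Real.sinh_nonneg_iff.mpr (by linarith)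
  rw [Real.sinh_sub] at h1
  linarith

theorem KI_cosh (β : ℝ) : 1 + β ^ 2 / 2 ≤ Real.cosh β := by
  have h1 : Real.cosh β = Real.cosh (2 * (β / 2)) := by congr 1; ring
  rw [h1, Real.cosh_two_mul, Real.cosh_sq]
  have h2 : (β / 2) ^ 2 ≤ Real.sinh (β / 2) ^ 2 := by
    rcases le_total 0 (β / 2) with h | h
    · have := Real.self_le_sinh_iff.mpr h
      nlinarith
    · have h3 : 0 ≤ -(β / 2) := by linarith
      have := Real.self_le_sinh_iff.mpr h3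
      rw [Real.sinh_neg] at this
      nlinarith
  nlinarith

theorem KI_tanh_low (t : ℝ) (h : 0 ≤ t) : t * (1 - t ^ 2 / 2) ≤ Real.tanh t := by
  have h1 := Real.self_le_sinh_iff.mpr h
  have h2 := Real.cosh_le_exp_half_sq t
  have h3 := Real.cosh_pos t
  rw [Real.tanh_eq_sinh_div_cosh, le_div_iff₀ h3]
  rcases le_total (1 - t ^ 2 / 2) 0 with h4 | h4
  · have h5 : t * (1 - t ^ 2 / 2) * Real.cosh t ≤ 0 := by
      have : t * (1 - t ^ 2 / 2) ≤ 0 := mul_nonpos_of_nonneg_of_nonpos h h4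
      exact mul_nonpos_of_nonpos_of_nonneg this h3.le
    linarith
  · have h5 : (1 - t ^ 2 / 2) * Real.exp (t ^ 2 / 2) ≤ 1 := by
      have h6 : 1 - t ^ 2 / 2 ≤ Real.exp (-(t ^ 2 / 2)) := by
        have := Real.add_one_le_exp (-(t ^ 2 / 2))
        linarith
      calc (1 - t ^ 2 / 2) * Real.exp (t ^ 2 / 2) ≤ Real.exp (-(t ^ 2 / 2)) * Real.exp (t ^ 2 / 2) :=
            mul_le_mul_of_nonneg_right h6 (Real.exp_pos _).le
        _ = 1 := by rw [← Real.exp_add]; simp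
    have h7 : (1 - t ^ 2 / 2) * Real.cosh t ≤ 1 := le_trans (mul_le_mul_of_nonneg_left h2 h4) h5
    calc t * (1 - t ^ 2 / 2) * Real.cosh t = t * ((1 - t ^ 2 / 2) * Real.cosh t) := by ring
      _ ≤ t * 1 := mul_le_mul_of_nonneg_left h7 h
      _ ≤ Real.sinh t := by linarith

theorem KI_FVP_mono (d ℓ : ℕ) (x q c c' : ℝ) (hx : 0 ≤ x) (h : c ≤ c') (hF : FVP d ℓ x q c') :
    FVP d ℓ x q c := by
  intro E K hE
  refine le_trans ?_ (hF E K hE)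
  have h1 : 0 ≤ ZZ (loopM x) E 0 := le_trans zero_le_one (ZZ_zero_ge x hx E)
  have h2 : (0 : ℝ) ≤ (ℓ : ℝ) ^ (d - 2) := by positivity
  exact mul_le_mul_of_nonneg_right (mul_le_mul_of_nonneg_right h h2) h1

/-- Module KI (M). Both regimes in terms of `β`. `x = tanh β`, `q = 1 - 1/cosh β`. For
`β ≥ (1+ε)/(2d)` and `d` large, `2 d tanh β ≥ 1 + ε/2` and `q ≥ min (β²/4) (1/4) ≥ 1/(16 d²)`; if
`x³ d > 1` then `q = 1 - √(1 - x²) ≥ x²/2 ≥ 2/d`. -/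
theorem fv_cur (ε : ℝ) (hε : 0 < ε) : ∃ c0 : ℝ, 0 < c0 ∧ ∀ᶠ d : ℕ in atTop, ∀ β : ℝ,
    (1 + ε) / (2 * d) ≤ β → ∃ ℓ : ℕ, 1 ≤ ℓ ∧
      FVP d ℓ (Real.tanh β) (1 - 1 / Real.cosh β) c0 := by
  obtain ⟨ε1, hε1, hε2, hε3⟩ : ∃ ε1 : ℝ, 0 < ε1 ∧ ε1 ≤ 1 ∧ ε1 ≤ ε :=
    ⟨min ε 1, lt_min hε one_pos, min_le_right _ _, min_le_left _ _⟩
  obtain ⟨c1, ℓ1, hc1, hℓ1, h1⟩ := reg1 (ε1 / 2) (by linarith) (by linarith) (1 / 16) (by norm_num)
  obtain ⟨c2, ℓ2, hc2, hℓ2, h2⟩ := reg2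
  refine ⟨min c1 c2, lt_min hc1 hc2, ?_⟩
  have hlarge : ∀ᶠ d : ℕ in atTop, 64 ≤ d ∧ 2 / ε1 ≤ (d : ℝ) := by
    refine (eventually_ge_atTop 64).and ?_
    exact (tendsto_natCast_atTop_atTop (R := ℝ)).eventually_ge_atTop (2 / ε1)
  filter_upwards [h1, h2, hlarge] with d hd1 hd2 hd3 β hβ
  obtain ⟨hd64, hdε⟩ := hd3
  have hd : (64 : ℝ) ≤ d := by exact_mod_cast hd64
  have hd0 : (0 : ℝ) < d := by linarith
  have ht0 : 0 < (1 + ε1) / (2 * (d : ℝ)) := by positivity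
  have htβ : (1 + ε1) / (2 * (d : ℝ)) ≤ β := by
    refine le_trans ?_ hβ
    exact div_le_div_of_nonneg_right (by linarith) (by positivity)
  have hβ0 : 0 < β := lt_of_lt_of_le ht0 htβ
  have hcosh := KI_cosh β
  have hcp := Real.cosh_pos β
  have hx0 : 0 < Real.tanh β := by
    rw [Real.tanh_eq_sinh_div_cosh]
    exact div_pos (Real.sinh_pos_iff.mpr hβ0) hcp
  have hq1 : 1 - 1 / Real.cosh β ≤ 1 := by
    have : 0 < 1 / Real.cosh β := by positivity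
    linarith
  by_cases hreg : Real.tanh β ^ 3 * d ≤ 1
  · refine ⟨ℓ1, hℓ1, KI_FVP_mono _ _ _ _ _ _ hx0.le (min_le_left _ _) ?_⟩
    refine hd1 _ _ hx0 hreg ?_ ?_ hq1
    · -- 1 + ε1/2 ≤ 2 d tanh β
      have h3 := KI_tanh_low _ ht0.le
      have h4 := KI_tanh_mono _ _ htβ
      have h5 : 1 + ε1 / 2 ≤ 2 * (d : ℝ) * ((1 + ε1) / (2 * d) * (1 - ((1 + ε1) / (2 * d)) ^ 2 / 2)) := by
        have h6 : 2 * (d : ℝ) * ((1 + ε1) / (2 * d) * (1 - ((1 + ε1) / (2 * d)) ^ 2 / 2)) =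
            (1 + ε1) * (1 - ((1 + ε1) / (2 * d)) ^ 2 / 2) := by
          field_simp
        rw [h6]
        have h7 : (1 + ε1) / (2 * (d : ℝ)) ≤ 1 / d := by
          rw [div_le_div_iff₀ (by positivity) hd0]
          nlinarith
        have h8 : ((1 + ε1) / (2 * (d : ℝ))) ^ 2 ≤ (1 / d) * 1 := by
          have h9 : (1 : ℝ) / d ≤ 1 := by
            rw [div_le_one hd0]; linarith
          have h10 : 0 ≤ (1 : ℝ) / d := by positivity
          calc ((1 + ε1) / (2 * (d : ℝ))) ^ 2 ≤ (1 / d) ^ 2 := pow_le_pow_left₀ ht0.le h7 2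
            _ ≤ (1 / d) * 1 := by nlinarith
        have h11 : (1 : ℝ) / d ≤ ε1 / 2 := by
          rw [div_le_iff₀ hd0]
          rw [div_le_iff₀ hε1] at hdε
          linarith
        nlinarith
      have h12 : 2 * (d : ℝ) * ((1 + ε1) / (2 * d) * (1 - ((1 + ε1) / (2 * d)) ^ 2 / 2)) ≤
          2 * d * Real.tanh β := mul_le_mul_of_nonneg_left (le_trans h3 h4) (by positivity)
      linarith
    · -- 1/16 ≤ q d²
      have h3 : 1 / (2 * (d : ℝ)) ≤ β := by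
        refine le_trans ?_ htβ
        exact div_le_div_of_nonneg_right (by linarith) (by positivity)
      have h4 : 1 + (1 / (2 * (d : ℝ))) ^ 2 / 2 ≤ Real.cosh β := by
        have : (1 / (2 * (d : ℝ))) ^ 2 ≤ β ^ 2 := pow_le_pow_left₀ (by positivity) h3 2
        linarith
      have h5 : 1 / Real.cosh β ≤ 1 / (1 + (1 / (2 * (d : ℝ))) ^ 2 / 2) :=
        one_div_le_one_div_of_le (by positivity) h4
      have h6 : 1 / 16 ≤ (1 - 1 / (1 + (1 / (2 * (d : ℝ))) ^ 2 / 2)) * (d : ℝ) ^ 2 := by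
        have h7 : (1 / (2 * (d : ℝ))) ^ 2 / 2 = 1 / (8 * (d : ℝ) ^ 2) := by
          field_simp
          ring
        rw [h7]
        have h8 : (1 - 1 / (1 + 1 / (8 * (d : ℝ) ^ 2))) * (d : ℝ) ^ 2 =
            (d : ℝ) ^ 2 / (8 * (d : ℝ) ^ 2 + 1) := by
          field_simp
          ring
        rw [h8, div_le_div_iff₀ (by norm_num) (by positivity)]
        nlinarith
      have h9 : (1 - 1 / (1 + (1 / (2 * (d : ℝ))) ^ 2 / 2)) * (d : ℝ) ^ 2 ≤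
          (1 - 1 / Real.cosh β) * (d : ℝ) ^ 2 :=
        mul_le_mul_of_nonneg_right (by linarith) (by positivity)
      linarith
  · push Not at hreg
    refine ⟨ℓ2, hℓ2, KI_FVP_mono _ _ _ _ _ _ hx0.le (min_le_right _ _) ?_⟩
    refine hd2 _ _ hx0.le ?_ hq1
    -- 2 ≤ q d
    set x := Real.tanh β with hx
    set y := 1 / Real.cosh β with hy
    have hy0 : 0 < y := by positivity
    have hxy : y ^ 2 = 1 - x ^ 2 := by
      rw [hy, hx, Real.tanh_eq_sinh_div_cosh]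
      have h3 := Real.cosh_sq β
      have h4 : Real.sinh β ^ 2 = Real.cosh β ^ 2 - 1 := by linarith
      field_simp
      rw [h4]
      ring
    have hx1 : x ^ 2 < 1 := by nlinarith [sq_pos_of_pos hy0]
    have h5 : y ≤ 1 - x ^ 2 / 2 := by
      have h6 : y ^ 2 ≤ (1 - x ^ 2 / 2) ^ 2 := by
        rw [hxy]; nlinarith [sq_nonneg (x ^ 2)]
      exact le_of_sq_le_sq h6 (by nlinarith)
    have h7 : 4 ≤ x ^ 2 * d := by
      by_contra hcon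
      push Not at hcon
      have h8 : (x ^ 2 * d) ^ 3 < 4 ^ 3 := pow_lt_pow_left₀ hcon (by positivity) (by norm_num)
      have h9 : (x ^ 2 * d) ^ 3 = (x ^ 3 * d) ^ 2 * d := by ring
      rw [h9] at h8
      have h10 : 1 < (x ^ 3 * d) ^ 2 := by nlinarith
      nlinarith
    nlinarith
where
  le_of_sq_le_sq {a b : ℝ} (h : a ^ 2 ≤ b ^ 2) (hb : 0 ≤ b) : a ≤ b := by
    by_contra hcon
    push Not at hcon
    nlinarith

end Pool.Agent.SRC
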