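import Pool.Agent.SRC.Cur

/-! The infinite-volume measure. Modules YA - YF. -/

set_option autoImplicit false

namespace Pool.Agent.SRC

open Finset Filter MeasureTheory

/-- The current measure on `E`, on configurations of all edges. -/
noncomputable def curM {d : ℕ} (β : ℝ) (E : Finset (Ed d)) : Measure (Ed d → ℕ) :=
  Measure.sum (fun n : E → ℕ =>
    ENNReal.ofReal (ind (srcless E n) * cwt β E n / cS β E (fun _ => 1)) •
      Measure.dirac (ext E n))

theorem YA_w_nonneg {d : ℕ} (β : ℝ) (hβ : 0 < β) (E : Finset (Ed d)) (n : E → ℕ) :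
    0 ≤ ind (srcless E n) * cwt β E n := mul_nonneg (ind_nonneg _) (cwt_nonneg β hβ.le E n)

theorem YA_summable {d : ℕ} (β : ℝ) (hβ : 0 < β) (E : Finset (Ed d)) (f : (E → ℕ) → ℝ)
    (hf : ∀ n, 0 ≤ f n) (hf1 : ∀ n, f n ≤ 1) :
    Summable (fun n : E → ℕ => ind (srcless E n) * cwt β E n * f n) := by
  refine Summable.of_nonneg_of_le (fun n => mul_nonneg (YA_w_nonneg β hβ E n) (hf n)) (fun n => ?_)
    (cwt_summable β hβ.le E)
  have h1 := cwt_nonneg β hβ.le E n
  have h2 : ind (srcless E n) * cwt β E n ≤ 1 * cwt β E n :=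
    mul_le_mul_of_nonneg_right (ind_le_one _) h1
  calc ind (srcless E n) * cwt β E n * f n ≤ ind (srcless E n) * cwt β E n * 1 :=
        mul_le_mul_of_nonneg_left (hf1 n) (YA_w_nonneg β hβ E n)
    _ ≤ cwt β E n := by linarith

theorem YA_Z_pos {d : ℕ} (β : ℝ) (hβ : 0 < β) (E : Finset (Ed d)) :
    0 < cS β E (fun _ => 1) := by
  unfold cS
  have hs := YA_summable β hβ E (fun _ => 1) (fun _ => zero_le_one) (fun _ => le_rfl)
  refine hs.tsum_pos (fun n => mul_nonneg (YA_w_nonneg β hβ E n) zero_le_one) (fun _ => 0) ?_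
  have h1 : srcless E (fun _ => 0) := by
    intro v
    simp
  rw [ind_true h1]
  simp [cwt]

theorem YA_apply {d : ℕ} (β : ℝ) (hβ : 0 < β) (E : Finset (Ed d)) (B : Set (Ed d → ℕ))
    (hB : MeasurableSet B) : curM β E B = ENNReal.ofReal (curP β E B) := by
  have hZ := YA_Z_pos β hβ E
  have h1 : ∀ n : E → ℕ, (ENNReal.ofReal (ind (srcless E n) * cwt β E n / cS β E (fun _ => 1)) •
      Measure.dirac (ext E n)) B =
      ENNReal.ofReal (ind (srcless E n) * cwt β E n * ind (ext E n ∈ B) / cS β E (fun _ => 1)) := by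
    intro n
    rw [Measure.smul_apply, Measure.dirac_apply' _ hB, smul_eq_mul]
    by_cases h : ext E n ∈ B
    · rw [ind_true h, mul_one, Set.indicator_of_mem h, Pi.one_apply, mul_one]
    · rw [ind_false h, mul_zero, zero_div, Set.indicator_of_notMem h, mul_zero,
        ENNReal.ofReal_zero]
  rw [curM, Measure.sum_apply _ hB]
  simp_rw [h1]
  have hs := YA_summable β hβ E (fun n => ind (ext E n ∈ B)) (fun _ => ind_nonneg _)
    (fun _ => ind_le_one _)
  rw [← ENNReal.ofReal_tsum_of_nonneg (fun n => div_nonneg (mul_nonneg (YA_w_nonneg β hβ E n)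
    (ind_nonneg _)) hZ.le) (hs.div_const _), tsum_div_const]
  rfl

theorem curM_prob {d : ℕ} (β : ℝ) (hβ : 0 < β) (E : Finset (Ed d)) :
    IsProbabilityMeasure (curM β E) := by
  refine ⟨?_⟩
  rw [YA_apply β hβ E _ MeasurableSet.univ]
  have h1 : curP β E Set.univ = 1 := by
    unfold curP
    have h2 : (fun n : Ed d → ℕ => ind (n ∈ (Set.univ : Set (Ed d → ℕ)))) = fun _ => (1 : ℝ) := by
      funext n
      exact ind_true (Set.mem_univ n)
    rw [h2]
    exact div_self (YA_Z_pos β hβ E).ne'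
  rw [h1, ENNReal.ofReal_one]

theorem curM_real {d : ℕ} (β : ℝ) (hβ : 0 < β) (E : Finset (Ed d)) (B : Set (Ed d → ℕ))
    (hB : MeasurableSet B) : (curM β E).real B = curP β E B := by
  rw [Measure.real, YA_apply β hβ E B hB]
  refine ENNReal.toReal_ofReal ?_
  unfold curP
  refine div_nonneg ?_ (YA_Z_pos β hβ E).le
  exact tsum_nonneg fun n => mul_nonneg (YA_w_nonneg β hβ E n) (ind_nonneg _)

theorem tight {d : ℕ} (β : ℝ) (hβ : 0 < β) (δ : ℝ) (hδ : 0 < δ) :
    ∃ K : Ed d → ℕ, ∀ E : Finset (Ed d), (curM β E).real {n | ∀ e, n e ≤ K e}ᶜ ≤ δ := by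
  obtain ⟨ε', h1, h2⟩ := ENNReal.exists_pos_sum_of_countable'
    (ε := ENNReal.ofReal δ) (by simpa using hδ) (Ed d)
  set f : ℕ → ENNReal := fun j => ENNReal.ofReal (β ^ j / j.factorial) with hf
  have hsum : ∑' j, f j ≠ ⊤ := by
    have h3 := (Real.summable_pow_div_factorial β).tsum_ofReal_ne_top
    exact h3
  have htail := ENNReal.tendsto_sum_nat_add f hsum
  have hK : ∀ e : Ed d, ∃ N : ℕ, ∑' k, f (k + (N + 1)) ≤ ε' e := by
    intro e
    have h3 := (htail.comp (tendsto_add_atTop_nat 1)).eventually (gt_mem_nhds (h1 e))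
    obtain ⟨N, hN⟩ := h3.exists
    exact ⟨N, hN.le⟩
  choose K hK using hK
  refine ⟨K, fun E => ?_⟩
  haveI := curM_prob β hβ E
  have h3 : (curM β E) {n | ∀ e, n e ≤ K e}ᶜ ≤ ENNReal.ofReal δ := by
    have h4 : {n : Ed d → ℕ | ∀ e, n e ≤ K e}ᶜ ⊆
        ⋃ e : Ed d, ⋃ k : ℕ, {n : Ed d → ℕ | n e = k + (K e + 1)} := by
      intro n hn
      simp only [Set.mem_compl_iff, Set.mem_setOf_eq, not_forall, not_le] at hn
      obtain ⟨e, he⟩ := hn
      simp only [Set.mem_iUnion, Set.mem_setOf_eq]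
      exact ⟨e, n e - (K e + 1), by omega⟩
    calc (curM β E) {n | ∀ e, n e ≤ K e}ᶜ
        ≤ (curM β E) (⋃ e : Ed d, ⋃ k : ℕ, {n : Ed d → ℕ | n e = k + (K e + 1)}) :=
          measure_mono h4
      _ ≤ ∑' e : Ed d, (curM β E) (⋃ k : ℕ, {n : Ed d → ℕ | n e = k + (K e + 1)}) :=
          measure_iUnion_le _
      _ ≤ ∑' e : Ed d, ε' e := by
          refine ENNReal.tsum_le_tsum fun e => ?_
          refine le_trans (measure_iUnion_le _) (le_trans ?_ (hK e))
          refine ENNReal.tsum_le_tsum fun k => ?_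
          have hm : MeasurableSet {n : Ed d → ℕ | n e = k + (K e + 1)} :=
            (measurable_pi_apply (X := fun _ : Ed d => ℕ) e) (measurableSet_singleton (k + (K e + 1)))
          have h5 := curM_real β hβ E _ hm
          have h6 : (curM β E).real {n : Ed d → ℕ | n e = k + (K e + 1)} ≤
              β ^ (k + (K e + 1)) / (k + (K e + 1)).factorial := by
            rw [h5]
            rcases cyl_one β hβ E e (k + (K e + 1)) with h7 | ⟨-, h7⟩
            · exact h7
            · omega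
          rw [← ENNReal.ofReal_toReal (measure_ne_top (curM β E) _)]
          exact ENNReal.ofReal_le_ofReal h6
      _ ≤ ENNReal.ofReal δ := h2.le
  rw [Measure.real]
  exact ENNReal.toReal_le_of_le_ofReal hδ.le h3

theorem YC_clopen {d : ℕ} (F : Finset (Ed d)) (k : Ed d → ℕ) : IsClopen (cyl F k) := by
  have h : cyl F k = ⋂ e ∈ F, (fun n : Ed d → ℕ => n e) ⁻¹' {k e} := by
    ext n
    simp [cyl]
  rw [h]
  exact isClopen_biInter_finset fun e _ =>
    (isClopen_discrete ({k e} : Set ℕ)).preimage (continuous_apply e)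

theorem ex_mu {d : ℕ} (β : ℝ) (hβ : 0 < β) (E : ℕ → Finset (Ed d)) (hE : Monotone E)
    (hE' : ∀ e, ∃ L, e ∈ E L) : ∃ μ : Measure (Ed d → ℕ), IsProbabilityMeasure μ ∧
      ∀ (F : Finset (Ed d)) (k : Ed d → ℕ),
        Tendsto (fun L => curP β (E L) (cyl F k)) atTop (nhds (μ.real (cyl F k))) := by
  set P : ℕ → ProbabilityMeasure (Ed d → ℕ) := fun L => ⟨curM β (E L), curM_prob β hβ (E L)⟩
    with hP
  have hT : IsTightMeasureSet
      {x | ∃ μ ∈ Set.range P, ((μ : ProbabilityMeasure (Ed d → ℕ)) : Measure (Ed d → ℕ)) = x} := by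
    rw [isTightMeasureSet_iff_exists_isCompact_measure_compl_le]
    intro ε hε
    have h1 : 0 < (min ε 1).toReal := by
      refine ENNReal.toReal_pos ?_ ?_
      · exact (lt_min hε (by norm_num)).ne'
      · exact ne_top_of_le_ne_top ENNReal.one_ne_top (min_le_right _ _)
    obtain ⟨K, hK⟩ := tight (d := d) β hβ _ h1
    refine ⟨{n | ∀ e, n e ≤ K e}, ?_, ?_⟩
    · have h2 : {n : Ed d → ℕ | ∀ e, n e ≤ K e} = Set.univ.pi fun e => Set.Iic (K e) := by
        ext n
        simp only [Set.mem_setOf_eq, Set.mem_pi, Set.mem_univ, forall_true_left, Set.mem_Iic]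
      rw [h2]
      exact isCompact_univ_pi fun e => (Set.finite_Iic (K e)).isCompact
    · rintro μ ⟨ν, ⟨L, rfl⟩, rfl⟩
      have h3 := hK (E L)
      haveI := curM_prob β hβ (E L)
      have h4 : (curM β (E L)) {n | ∀ e, n e ≤ K e}ᶜ ≤ min ε 1 := by
        rw [Measure.real] at h3
        exact (ENNReal.toReal_le_toReal (measure_ne_top _ _)
          (ne_top_of_le_ne_top ENNReal.one_ne_top (min_le_right _ _))).1 h3
      exact h4.trans (min_le_left _ _)
  have hc := isCompact_closure_of_isTightMeasureSet hT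
  obtain ⟨μ, -, hμ⟩ := hc.exists_mapClusterPt (f := atTop) (u := P) (by
    rw [le_principal_iff, Filter.mem_map]
    exact Filter.univ_mem' fun L => subset_closure ⟨L, rfl⟩)
  rw [mapClusterPt_iff_ultrafilter] at hμ
  obtain ⟨U, hU, hlim⟩ := hμ
  refine ⟨(μ : Measure (Ed d → ℕ)), inferInstance, fun F k => ?_⟩
  obtain ⟨a, ha⟩ := cyl_lim β hβ F k
  have h1 := ha E hE hE'
  have h2 := ProbabilityMeasure.tendsto_measure_of_isClopen_of_tendsto hlim (YC_clopen F k)
  have h3 : Tendsto (fun L => curP β (E L) (cyl F k)) U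
      (nhds ((μ : Measure (Ed d → ℕ)).real (cyl F k))) := by
    have h4 : ∀ L, curP β (E L) (cyl F k) = ((P L (cyl F k) : NNReal) : ℝ) := by
      intro L
      rw [← curM_real β hβ (E L) (cyl F k) (YC_clopen F k).isOpen.measurableSet]
      rfl
    simp_rw [h4]
    have h5 : (μ : Measure (Ed d → ℕ)).real (cyl F k) = ((μ (cyl F k) : NNReal) : ℝ) := rfl
    rw [h5]
    exact (NNReal.tendsto_coe.2 h2)
  have h6 := tendsto_nhds_unique (h1.mono_left hU) h3
  rw [← h6]
  exact h1

/-- probability measures on a countable space -/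
theorem YD_count {α : Type*} [Countable α] [MeasurableSpace α] [MeasurableSingletonClass α]
    (ν : ℕ → Measure α) (μ : Measure α) [∀ L, IsProbabilityMeasure (ν L)] [IsProbabilityMeasure μ]
    (h : ∀ a, Tendsto (fun L => (ν L).real {a}) atTop (nhds (μ.real {a}))) (s : Set α) :
    Tendsto (fun L => (ν L).real s) atTop (nhds (μ.real s)) := by
  have hm : ∀ t : Set α, MeasurableSet t := fun t => t.to_countable.measurableSet
  have hfin : ∀ T : Finset α, Tendsto (fun L => (ν L).real (T : Set α)) atTop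
      (nhds (μ.real (T : Set α))) := by
    intro T
    have h1 : ∀ ρ : Measure α, IsProbabilityMeasure ρ →
        ρ.real (T : Set α) = ∑ a ∈ T, ρ.real {a} := by
      intro ρ hρ
      exact (sum_measureReal_singleton T).symm
    rw [h1 μ inferInstance]
    have h2 : (fun L => (ν L).real (T : Set α)) = fun L => ∑ a ∈ T, (ν L).real {a} := by
      funext L
      exact h1 _ inferInstance
    rw [h2]
    exact tendsto_finset_sum _ fun a _ => h a
  rw [Metric.tendsto_atTop]
  intro ε hε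
  -- a finite set with almost all mass
  obtain ⟨T, hT⟩ : ∃ T : Finset α, 1 - ε / 4 < μ.real (T : Set α) := by
    have h1 : HasSum (fun a => μ.real {a}) 1 := by
      have h2 : ∑' a, μ {a} = 1 := by
        have h3 := (measure_iUnion (μ := μ) (f := fun a : α => ({a} : Set α)) (by
          intro a b hab
          simpa [Function.onFun] using hab) fun a => hm _)
        rw [Set.iUnion_of_singleton, measure_univ] at h3
        exact h3.symm
      have h4 : Summable (fun a => μ.real {a}) := by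
        refine ENNReal.summable_toReal ?_
        rw [h2]
        exact ENNReal.one_ne_top
      have h5 : ∑' a, μ.real {a} = 1 := by
        have h6 := ENNReal.tsum_toReal_eq (f := fun a => μ {a}) fun a => measure_ne_top μ _
        rw [h2] at h6
        rw [ENNReal.toReal_one] at h6
        exact h6.symm
      rw [← h5]
      exact h4.hasSum
    have h2 := h1.eventually (lt_mem_nhds (show 1 - ε / 4 < 1 by linarith))
    obtain ⟨T, hT⟩ := h2.exists
    refine ⟨T, ?_⟩
    have h3 : μ.real (T : Set α) = ∑ a ∈ T, μ.real {a} := (sum_measureReal_singleton T).symm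
    rw [h3]
    exact hT
  have hc := hfin T
  have hd : Tendsto (fun L => (ν L).real (s ∩ T)) atTop (nhds (μ.real (s ∩ T))) := by
    classical
    have h1 : (s ∩ T : Set α) = ((T.filter (fun a => a ∈ s) : Finset α) : Set α) := by
      ext a
      simp [and_comm]
    rw [h1]
    exact hfin _
  rw [Metric.tendsto_atTop] at hc hd
  obtain ⟨N1, hN1⟩ := hc (ε / 4) (by linarith)
  obtain ⟨N2, hN2⟩ := hd (ε / 4) (by linarith)
  refine ⟨max N1 N2, fun L hL => ?_⟩
  have a1 := hN1 L (le_trans (le_max_left _ _) hL)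
  have a2 := hN2 L (le_trans (le_max_right _ _) hL)
  rw [Real.dist_eq, abs_lt] at a1 a2
  rw [Real.dist_eq, abs_lt]
  have key : ∀ ρ : Measure α, IsProbabilityMeasure ρ →
      ρ.real s ≤ ρ.real (s ∩ T) + (1 - ρ.real (T : Set α)) ∧ ρ.real (s ∩ T) ≤ ρ.real s := by
    intro ρ hρ
    constructor
    · have h1 : ρ.real s ≤ ρ.real (s ∩ T) + ρ.real (T : Set α)ᶜ := by
        refine le_trans (measureReal_mono (s₂ := (s ∩ T) ∪ (T : Set α)ᶜ) ?_)
          (measureReal_union_le _ _)
        intro x hx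
        by_cases h : x ∈ (T : Set α)
        · exact Or.inl ⟨hx, h⟩
        · exact Or.inr h
      rw [probReal_compl_eq_one_sub (hm _)] at h1
      exact h1
    · exact measureReal_mono Set.inter_subset_left
  obtain ⟨b1, b2⟩ := key (ν L) inferInstance
  obtain ⟨b3, b4⟩ := key μ inferInstance
  constructor <;> linarith

theorem ev_lim {d : ℕ} (β : ℝ) (hβ : 0 < β) (E : ℕ → Finset (Ed d)) (μ : Measure (Ed d → ℕ))
    (hμ : IsProbabilityMeasure μ)
    (h : ∀ (F : Finset (Ed d)) (k : Ed d → ℕ),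
      Tendsto (fun L => curP β (E L) (cyl F k)) atTop (nhds (μ.real (cyl F k))))
    (R : Finset (Ed d)) (B : Set (Ed d → ℕ))
    (hB : ∀ n n' : Ed d → ℕ, (∀ e ∈ R, n e = n' e) → (n ∈ B ↔ n' ∈ B)) :
    Tendsto (fun L => curP β (E L) B) atTop (nhds (μ.real B)) := by
  classical
  set π : (Ed d → ℕ) → (R → ℕ) := fun n e => n e with hπ
  have hπm : Measurable π := measurable_pi_lambda _ fun e => measurable_pi_apply _
  have hB' : B = π ⁻¹' {a | ext R a ∈ B} := by
    ext n
    rw [Set.mem_preimage, Set.mem_setOf_eq]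
    refine hB n _ fun e he => ?_
    simp [ext, he, hπ]
  have hcyl : ∀ a : R → ℕ, π ⁻¹' {a} = cyl R (ext R a) := by
    intro a
    ext n
    rw [Set.mem_preimage, Set.mem_singleton_iff, cyl, Set.mem_setOf_eq]
    constructor
    · intro h1 e he
      rw [← h1]
      simp [ext, he, hπ]
    · intro h1
      funext e
      have := h1 e e.2
      simp only [ext, e.2, dif_pos] at this
      exact this
  have hms : ∀ t : Set (R → ℕ), MeasurableSet t := fun t => t.to_countable.measurableSet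
  have hprob : ∀ L, IsProbabilityMeasure ((curM β (E L)).map π) := fun L => by
    haveI := curM_prob β hβ (E L)
    exact Measure.isProbabilityMeasure_map hπm.aemeasurable
  haveI hprob' : IsProbabilityMeasure (μ.map π) :=
    Measure.isProbabilityMeasure_map hπm.aemeasurable
  have hreal : ∀ (ρ : Measure (Ed d → ℕ)) (t : Set (R → ℕ)),
      (ρ.map π).real t = ρ.real (π ⁻¹' t) := by
    intro ρ t
    rw [Measure.real, Measure.real, Measure.map_apply hπm (hms t)]
  have h1 := YD_count (fun L => (curM β (E L)).map π) (μ.map π) (by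
    intro a
    simp_rw [hreal]
    rw [hcyl]
    have h2 := h R (ext R a)
    have h3 : ∀ L, (curM β (E L)).real (cyl R (ext R a)) = curP β (E L) (cyl R (ext R a)) :=
      fun L => curM_real β hβ (E L) _ (YC_clopen _ _).isOpen.measurableSet
    simp_rw [h3]
    exact h2) {a | ext R a ∈ B}
  simp_rw [hreal] at h1
  rw [← hB'] at h1
  have h4 : ∀ L, (curM β (E L)).real B = curP β (E L) B := fun L => by
    refine curM_real β hβ (E L) _ ?_
    rw [hB']
    exact hπm (hms _)
  simp_rw [h4] at h1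
  exact h1

theorem YE_sh {d : ℕ} (a : Vx d) (e : Ed d) : shE a (shE (-a) e) = e := by
  unfold shE
  simp

theorem YE_sh' {d : ℕ} (a : Vx d) (e : Ed d) : shE (-a) (shE a e) = e := by
  unfold shE
  simp

theorem YE_tip {d : ℕ} (a : Vx d) (e : Ed d) : tip (shE a e) = tip e + a := by
  unfold shE tip
  simp only
  abel

/-- Relabelling of the edges. -/
noncomputable def YE_eq {d : ℕ} (a : Vx d) (E : Finset (Ed d)) : E ≃ (E.image (shE a)) where
  toFun e := ⟨shE a e, Finset.mem_image_of_mem _ e.2⟩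
  invFun e := ⟨shE (-a) e, by
    obtain ⟨e', he'⟩ := e
    rw [Finset.mem_image] at he'
    obtain ⟨e'', h1, rfl⟩ := he'
    simp only [YE_sh']
    exact h1⟩
  left_inv e := Subtype.ext (YE_sh' a _)
  right_inv e := Subtype.ext (YE_sh a _)

theorem YE_src {d : ℕ} (a : Vx d) (E : Finset (Ed d)) (n : E → ℕ) :
    srcless (E.image (shE a)) (n ∘ (YE_eq a E).symm) ↔ srcless E n := by
  have h1 : ∀ v : Vx d, (∑ e : (E.image (shE a)), if (e : Ed d).1 = v ∨ tip (e : Ed d) = v then
      (n ∘ (YE_eq a E).symm) e else 0) =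
      ∑ e : E, if (e : Ed d).1 = v - a ∨ tip (e : Ed d) = v - a then n e else 0 := by
    intro v
    rw [← (YE_eq a E).sum_comp]
    refine Finset.sum_congr rfl fun e _ => ?_
    have h2 : (((YE_eq a E) e : (E.image (shE a))) : Ed d) = shE a e := rfl
    rw [h2, YE_tip, Function.comp_apply, Equiv.symm_apply_apply]
    have h3 : (shE a (e : Ed d)).1 = (e : Ed d).1 + a := rfl
    rw [h3]
    have h4 : ((e : Ed d).1 + a = v ∨ tip (e : Ed d) + a = v) ↔
        ((e : Ed d).1 = v - a ∨ tip (e : Ed d) = v - a) := by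
      rw [eq_sub_iff_add_eq, eq_sub_iff_add_eq]
    by_cases h5 : ((e : Ed d).1 = v - a ∨ tip (e : Ed d) = v - a)
    · rw [if_pos h5, if_pos (h4.2 h5)]
    · rw [if_neg h5, if_neg (fun h6 => h5 (h4.1 h6))]
  unfold srcless
  constructor
  · intro h v
    have h2 := h (v + a)
    rw [h1, add_sub_cancel_right] at h2
    exact h2
  · intro h v
    rw [h1]
    exact h (v - a)

theorem YE_wt {d : ℕ} (β : ℝ) (a : Vx d) (E : Finset (Ed d)) (n : E → ℕ) :
    cwt β (E.image (shE a)) (n ∘ (YE_eq a E).symm) = cwt β E n := by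
  unfold cwt
  rw [← (YE_eq a E).prod_comp]
  refine Finset.prod_congr rfl fun e _ => ?_
  rw [Function.comp_apply, Equiv.symm_apply_apply]

theorem YE_ext {d : ℕ} (a : Vx d) (E : Finset (Ed d)) (n : E → ℕ) :
    ext (E.image (shE a)) (n ∘ (YE_eq a E).symm) = ext E n ∘ shE (-a) := by
  classical
  funext e
  rw [Function.comp_apply]
  unfold ext
  by_cases h : shE (-a) e ∈ E
  · have h1 : e ∈ E.image (shE a) := by
      rw [Finset.mem_image]
      exact ⟨_, h, YE_sh a e⟩
    rw [dif_pos h, dif_pos h1]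
    rfl
  · have h1 : e ∉ E.image (shE a) := by
      intro h2
      rw [Finset.mem_image] at h2
      obtain ⟨e', h3, rfl⟩ := h2
      rw [YE_sh'] at h
      exact h h3
    rw [dif_neg h, dif_neg h1]

theorem YE_cS {d : ℕ} (β : ℝ) (a : Vx d) (E : Finset (Ed d)) (f : (Ed d → ℕ) → ℝ) :
    cS β (E.image (shE a)) f = cS β E (fun n => f (n ∘ shE (-a))) := by
  unfold cS
  rw [← (Equiv.arrowCongr (YE_eq a E) (Equiv.refl ℕ)).tsum_eq]
  refine tsum_congr fun n => ?_
  have h1 : (Equiv.arrowCongr (YE_eq a E) (Equiv.refl ℕ)) n = n ∘ (YE_eq a E).symm := rfl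
  rw [h1, YE_wt, YE_ext, ind_congr (YE_src a E n)]

theorem YE_cur {d : ℕ} (β : ℝ) (a : Vx d) (E F : Finset (Ed d)) (k : Ed d → ℕ) :
    curP β (E.image (shE a)) (cyl (F.image (shE a)) (k ∘ shE (-a))) = curP β E (cyl F k) := by
  unfold curP
  rw [YE_cS, YE_cS]
  congr 2
  funext n
  apply ind_congr
  unfold cyl
  rw [Set.mem_ofPred_eq, Set.mem_ofPred_eq]
  constructor
  · intro h e he
    have h1 := h (shE a e) (Finset.mem_image_of_mem _ he)
    rw [Function.comp_apply, Function.comp_apply, YE_sh'] at h1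
    exact h1
  · intro h e he
    rw [Finset.mem_image] at he
    obtain ⟨e', he', rfl⟩ := he
    rw [Function.comp_apply, Function.comp_apply, YE_sh']
    exact h e' he'

theorem YE_meas {d : ℕ} (F : Finset (Ed d)) (k : Ed d → ℕ) : MeasurableSet (cyl F k) := by
  have h1 : cyl F k = ⋂ e ∈ F, {n : Ed d → ℕ | n e = k e} := by
    ext n
    unfold cyl
    simp
  rw [h1]
  refine Finset.measurableSet_biInter F fun e _ => ?_
  have hme : Measurable (fun n : Ed d → ℕ => n e) := measurable_pi_apply e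
  exact hme (MeasurableSet.of_discrete (s := {m : ℕ | m = k e}))

theorem YE_gen {d : ℕ} : (MeasurableSpace.pi : MeasurableSpace (Ed d → ℕ)) =
    MeasurableSpace.generateFrom {s | ∃ (F : Finset (Ed d)) (k : Ed d → ℕ), s = cyl F k} := by
  apply le_antisymm
  · refine iSup_le fun e => ?_
    rintro s ⟨t, _, rfl⟩
    have h1 : (fun n : Ed d → ℕ => n e) ⁻¹' t = ⋃ j ∈ t, cyl ({e} : Finset (Ed d)) (fun _ => j) := by
      ext n
      unfold cyl
      simp
    rw [h1]
    refine @MeasurableSet.biUnion _ _ (MeasurableSpace.generateFrom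
      {s | ∃ (F : Finset (Ed d)) (k : Ed d → ℕ), s = cyl F k}) _ t (Set.to_countable t)
      fun j _ => ?_
    exact MeasurableSpace.measurableSet_generateFrom ⟨{e}, fun _ => j, rfl⟩
  · apply MeasurableSpace.generateFrom_le
    rintro s ⟨F, k, rfl⟩
    exact YE_meas F k

theorem YE_pi {d : ℕ} :
    IsPiSystem {s : Set (Ed d → ℕ) | ∃ (F : Finset (Ed d)) (k : Ed d → ℕ), s = cyl F k} := by
  classical
  rintro _ ⟨F, k, rfl⟩ _ ⟨F', k', rfl⟩ ⟨n, h1, h2⟩
  refine ⟨F ∪ F', n, ?_⟩
  ext m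
  unfold cyl at *
  rw [Set.mem_ofPred_eq] at h1 h2
  rw [Set.mem_inter_iff, Set.mem_ofPred_eq, Set.mem_ofPred_eq, Set.mem_ofPred_eq]
  constructor
  · rintro ⟨h3, h4⟩ e he
    rcases Finset.mem_union.1 he with h5 | h5
    · rw [h3 e h5, h1 e h5]
    · rw [h4 e h5, h2 e h5]
  · intro h3
    exact ⟨fun e he => by rw [h3 e (Finset.mem_union_left _ he), h1 e he],
      fun e he => by rw [h3 e (Finset.mem_union_right _ he), h2 e he]⟩

/-- Module YE (M). Translation invariance. -/
theorem mu_shift {d : ℕ} (β : ℝ) (hβ : 0 < β) (E : ℕ → Finset (Ed d)) (hE : Monotone E)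
    (hE' : ∀ e, ∃ L, e ∈ E L) (μ : Measure (Ed d → ℕ)) (hμ : IsProbabilityMeasure μ)
    (h : ∀ (F : Finset (Ed d)) (k : Ed d → ℕ),
      Tendsto (fun L => curP β (E L) (cyl F k)) atTop (nhds (μ.real (cyl F k)))) (a : Vx d) :
    μ.map (fun n => n ∘ shE a) = μ := by
  classical
  have hm : Measurable (fun n : Ed d → ℕ => n ∘ shE a) := by
    rw [measurable_pi_iff]
    intro e
    exact measurable_pi_apply (shE a e)
  have hprob : IsProbabilityMeasure (μ.map (fun n : Ed d → ℕ => n ∘ shE a)) :=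
    Measure.isProbabilityMeasure_map hm.aemeasurable
  refine ext_of_generate_finite _ YE_gen YE_pi ?_ ?_
  · rintro _ ⟨F, k, rfl⟩
    have h1 : (fun n : Ed d → ℕ => n ∘ shE a) ⁻¹' (cyl F k) =
        cyl (F.image (shE a)) (k ∘ shE (-a)) := by
      ext n
      unfold cyl
      rw [Set.mem_preimage, Set.mem_ofPred_eq, Set.mem_ofPred_eq]
      constructor
      · intro h e he
        rw [Finset.mem_image] at he
        obtain ⟨e', he', rfl⟩ := he
        rw [Function.comp_apply, YE_sh']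
        exact h e' he'
      · intro h e he
        have h1 := h (shE a e) (Finset.mem_image_of_mem _ he)
        rw [Function.comp_apply, YE_sh'] at h1
        exact h1
    rw [Measure.map_apply hm (YE_meas F k), h1]
    obtain ⟨c, hc⟩ := cyl_lim β hβ (F.image (shE a)) (k ∘ shE (-a))
    have h2 := tendsto_nhds_unique (hc E hE hE') (h (F.image (shE a)) (k ∘ shE (-a)))
    have h3 := hc (fun L => (E L).image (shE a)) (fun L L' hL => Finset.image_subset_image (hE hL))
      (fun e => by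
        obtain ⟨L, hL⟩ := hE' (shE (-a) e)
        exact ⟨L, Finset.mem_image.2 ⟨_, hL, YE_sh a e⟩⟩)
    simp only [YE_cur] at h3
    have h4 := tendsto_nhds_unique h3 (h F k)
    have h5 : μ.real (cyl (F.image (shE a)) (k ∘ shE (-a))) = μ.real (cyl F k) := by
      rw [← h2, h4]
    rw [Measure.real, Measure.real, ENNReal.toReal_eq_toReal_iff' (measure_ne_top _ _)
      (measure_ne_top _ _)] at h5
    exact h5
  · rw [measure_univ, measure_univ]

/-- The box `[-L, L]^d`. -/
noncomputable def boxE (d L : ℕ) : Finset (Ed d) :=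
  bx (fun _ => -(L : ℤ)) (fun _ => (L : ℤ))

theorem YF_conn {d : ℕ} (ω : Set (Ed d)) (u v : Vx d) :
    conn ω u v ↔ ∃ F : Finset (Ed d), (↑F : Set (Ed d)) ⊆ ω ∧ conn (↑F : Set (Ed d)) u v := by
  classical
  constructor
  · intro h
    unfold conn at h
    induction h with
    | refl => exact ⟨∅, by simp, Relation.ReflTransGen.refl⟩
    | @tail b c _ h2 ih =>
      obtain ⟨F, hF1, hF2⟩ := ih
      obtain ⟨i, hi⟩ := h2
      rcases hi with ⟨h3, h4⟩ | ⟨h3, h4⟩
      · refine ⟨insert (b, i) F, ?_, ?_⟩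
        · rw [Finset.coe_insert]
          exact Set.insert_subset h3 hF1
        · refine Relation.ReflTransGen.tail (conn_mono ?_ hF2) ⟨i, Or.inl ⟨?_, h4⟩⟩
          · rw [Finset.coe_insert]
            exact Set.subset_insert _ _
          · rw [Finset.coe_insert]
            exact Set.mem_insert _ _
      · refine ⟨insert (c, i) F, ?_, ?_⟩
        · rw [Finset.coe_insert]
          exact Set.insert_subset h3 hF1
        · refine Relation.ReflTransGen.tail (conn_mono ?_ hF2) ⟨i, Or.inr ⟨?_, h4⟩⟩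
          · rw [Finset.coe_insert]
            exact Set.subset_insert _ _
          · rw [Finset.coe_insert]
            exact Set.mem_insert _ _
  · rintro ⟨F, hF1, hF2⟩
    exact conn_mono hF1 hF2

/-- Module YF (M). Measurability of the connection events. -/
theorem meas_far {d : ℕ} (M : ℤ) (w : Vx d) :
    MeasurableSet {n : Ed d → ℕ | Far M {e | 0 < n e} w} := by
  have h1 : {n : Ed d → ℕ | Far M {e | 0 < n e} w} =
      ⋃ v : Vx d, ⋃ _ : (∃ i, M ≤ |v i - w i|), ⋃ F : Finset (Ed d),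
        ⋃ _ : conn (↑F : Set (Ed d)) w v, ⋂ e ∈ F, {n : Ed d → ℕ | 0 < n e} := by
    ext n
    simp only [Set.mem_ofPred_eq, Set.mem_iUnion, Set.mem_iInter]
    unfold Far
    constructor
    · rintro ⟨v, h1, h2⟩
      obtain ⟨F, h3, h4⟩ := (YF_conn _ _ _).1 h1
      exact ⟨v, h2, F, h4, fun e he => h3 he⟩
    · rintro ⟨v, h2, F, h4, h3⟩
      exact ⟨v, (YF_conn _ _ _).2 ⟨F, fun e he => h3 e he, h4⟩, h2⟩
  rw [h1]
  refine MeasurableSet.iUnion fun v => MeasurableSet.iUnion fun _ => MeasurableSet.iUnion fun F =>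
    MeasurableSet.iUnion fun _ => ?_
  refine Finset.measurableSet_biInter F fun e _ => ?_
  exact measurable_pi_apply e (MeasurableSet.of_discrete (s := {m : ℕ | 0 < m}))

theorem boxE_mono (d : ℕ) : Monotone (boxE d) := by
  intro L L' h e he
  unfold boxE bx at he ⊢
  rw [mem_edg, Finset.mem_Icc, Finset.mem_Icc] at he ⊢
  have h0 : (L : ℤ) ≤ L' := by exact_mod_cast h
  obtain ⟨⟨h1, h2⟩, h3, h4⟩ := he
  exact ⟨⟨fun i => (neg_le_neg h0).trans (h1 i), fun i => (h2 i).trans h0⟩,
    fun i => (neg_le_neg h0).trans (h3 i), fun i => (h4 i).trans h0⟩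

theorem boxE_exh (d : ℕ) (e : Ed d) : ∃ L, e ∈ boxE d L := by
  refine ⟨(∑ j, (e.1 j).natAbs) + 1, ?_⟩
  have h1 : ∀ j, |e.1 j| ≤ (∑ j, (e.1 j).natAbs : ℕ) := by
    intro j
    rw [Int.abs_eq_natAbs]
    exact_mod_cast Finset.single_le_sum (f := fun j => (e.1 j).natAbs) (fun _ _ => Nat.zero_le _)
      (Finset.mem_univ j)
  have h2 : ∀ j, 0 ≤ tip e j - e.1 j ∧ tip e j - e.1 j ≤ 1 := by
    intro j
    have h3 : tip e j - e.1 j = uv e.2 j := by
      unfold tip
      rw [Pi.add_apply]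
      ring
    rw [h3]
    unfold uv
    rw [Pi.single_apply]
    split_ifs
    · exact ⟨zero_le_one, le_rfl⟩
    · exact ⟨le_rfl, zero_le_one⟩
  unfold boxE bx
  rw [mem_edg, Finset.mem_Icc, Finset.mem_Icc]
  refine ⟨⟨fun j => ?_, fun j => ?_⟩, fun j => ?_, fun j => ?_⟩
  · have := abs_le.1 (h1 j)
    push_cast at this ⊢
    linarith [this.1]
  · have := abs_le.1 (h1 j)
    push_cast at this ⊢
    linarith [this.2]
  · have := abs_le.1 (h1 j)
    have h3 := h2 j
    push_cast at this ⊢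
    linarith [this.1, h3.1]
  · have := abs_le.1 (h1 j)
    have h3 := h2 j
    push_cast at this ⊢
    linarith [this.2, h3.2]

theorem YG_adj {d : ℕ} (w : Vx d) (n : Ed d → ℕ) (u v : Vx d) :
    adj {e | 0 < (n ∘ shE w) e} u v ↔ adj {e | 0 < n e} (u + w) (v + w) := by
  unfold adj
  refine exists_congr fun i => ?_
  have h1 : ∀ a b : Vx d, a + w = b + w + uv i ↔ a = b + uv i := by
    intro a b
    constructor
    · intro h
      have : a + w = (b + uv i) + w := by rw [h]; abel
      exact add_right_cancel this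
    · intro h
      rw [h]
      abel
  have h2 : ∀ a : Vx d, ((a, i) : Ed d) ∈ {e : Ed d | 0 < (n ∘ shE w) e} ↔
      ((a + w, i) : Ed d) ∈ {e : Ed d | 0 < n e} := by
    intro a
    rfl
  rw [h1, h1, h2, h2]

theorem YG_conn {d : ℕ} (w : Vx d) (n : Ed d → ℕ) (u v : Vx d) :
    conn {e | 0 < (n ∘ shE w) e} u v ↔ conn {e | 0 < n e} (u + w) (v + w) := by
  unfold conn
  constructor
  · intro h
    induction h with
    | refl => exact Relation.ReflTransGen.refl
    | tail _ h2 ih => exact Relation.ReflTransGen.tail ih ((YG_adj w n _ _).1 h2)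
  · intro h
    have key : ∀ x, Relation.ReflTransGen (adj {e | 0 < n e}) (u + w) x →
        Relation.ReflTransGen (adj {e | 0 < (n ∘ shE w) e}) u (x - w) := by
      intro x hx
      induction hx with
      | refl => rw [add_sub_cancel_right]
      | tail _ h2 ih =>
        refine Relation.ReflTransGen.tail ih ((YG_adj w n _ _).2 ?_)
        rw [sub_add_cancel, sub_add_cancel]
        exact h2
    have := key _ h
    rwa [add_sub_cancel_right] at this

theorem YG_far {d : ℕ} (M : ℤ) (w : Vx d) (n : Ed d → ℕ) :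
    Far M {e | 0 < (n ∘ shE w) e} 0 ↔ Far M {e | 0 < n e} w := by
  unfold Far
  constructor
  · rintro ⟨v, h1, i, h2⟩
    refine ⟨v + w, ?_, i, ?_⟩
    · have := (YG_conn w n 0 v).1 h1
      rwa [zero_add] at this
    · rw [Pi.add_apply, add_sub_cancel_right]
      rwa [Pi.zero_apply, sub_zero] at h2
  · rintro ⟨v, h1, i, h2⟩
    refine ⟨v - w, ?_, i, ?_⟩
    · refine (YG_conn w n 0 (v - w)).2 ?_
      rwa [zero_add, sub_add_cancel]
    · rwa [Pi.zero_apply, sub_zero, Pi.sub_apply]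

theorem inf_of_fv {d : ℕ} (hd : 2 ≤ d) (β : ℝ) (hβ : 0 < β) (ℓ : ℕ) (hℓ : 1 ≤ ℓ) (c0 : ℝ)
    (hc0 : 0 < c0) (h : FVP d ℓ (Real.tanh β) (1 - 1 / Real.cosh β) c0)
    (μ : Measure (Ed d → ℕ)) (hμ : IsProbabilityMeasure μ)
    (hlim : ∀ (F : Finset (Ed d)) (k : Ed d → ℕ),
      Tendsto (fun L => curP β (boxE d L) (cyl F k)) atTop (nhds (μ.real (cyl F k)))) :
    c0 ≤ μ.real {n | {v | conn {e | 0 < n e} 0 v}.Infinite} := by
  set A : ℕ → Set (Ed d → ℕ) := fun K => {n | Far ((4 : ℤ) ^ K) {e | 0 < n e} 0} with hA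
  have hAm : ∀ K, MeasurableSet (A K) := fun K => meas_far _ _
  -- every scale
  have hK : ∀ K, c0 ≤ μ.real (A K) := by
    intro K
    have hex : ∃ L0, Rg d ℓ K ⊆ boxE d L0 := by
      classical
      have h1 : ∀ e ∈ Rg d ℓ K, ∃ L, e ∈ boxE d L := fun e _ => boxE_exh d e
      choose! g hg using h1
      refine ⟨(Rg d ℓ K).sup g, fun e he => ?_⟩
      exact boxE_mono d (Finset.le_sup he) (hg e he)
    obtain ⟨L0, hL0⟩ := hex
    have h1 : ∀ w, Tendsto (fun L => curP β (boxE d L)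
        {n | Far ((4 : ℤ) ^ K) {e | e ∈ Rg d ℓ K ∧ 0 < n e} w}) atTop
        (nhds (μ.real {n | Far ((4 : ℤ) ^ K) {e | e ∈ Rg d ℓ K ∧ 0 < n e} w})) := by
      intro w
      refine ev_lim β hβ (boxE d) μ hμ hlim (Rg d ℓ K) _ fun n n' hn => ?_
      have h2 : {e | e ∈ Rg d ℓ K ∧ 0 < n e} = {e | e ∈ Rg d ℓ K ∧ 0 < n' e} := by
        ext e
        constructor
        · rintro ⟨a, b⟩
          exact ⟨a, by rwa [← hn e a]⟩
        · rintro ⟨a, b⟩
          exact ⟨a, by rwa [hn e a]⟩
      rw [Set.mem_setOf_eq, Set.mem_setOf_eq, h2]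
    have h2 := tendsto_finset_sum (B0 d ℓ) fun w _ => h1 w
    have h3 : c0 * (ℓ : ℝ) ^ (d - 2) ≤ ∑ w ∈ B0 d ℓ,
        μ.real {n | Far ((4 : ℤ) ^ K) {e | e ∈ Rg d ℓ K ∧ 0 < n e} w} := by
      refine ge_of_tendsto h2 ?_
      filter_upwards [eventually_ge_atTop L0] with L hL
      exact cur_far β hβ ℓ c0 h (boxE d L) K (hL0.trans (boxE_mono d hL))
    have h4 : ∀ w ∈ B0 d ℓ, μ.real {n | Far ((4 : ℤ) ^ K) {e | e ∈ Rg d ℓ K ∧ 0 < n e} w} ≤
        μ.real (A K) := by
      intro w _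
      have h5 : μ.real {n | Far ((4 : ℤ) ^ K) {e | e ∈ Rg d ℓ K ∧ 0 < n e} w} ≤
          μ.real {n | Far ((4 : ℤ) ^ K) {e | 0 < n e} w} := by
        refine measureReal_mono fun n hn => ?_
        obtain ⟨v, h6, i, h7⟩ := hn
        exact ⟨v, conn_mono (fun e he => he.2) h6, i, h7⟩
      refine h5.trans (le_of_eq ?_)
      have h6 := mu_shift β hβ (boxE d) (boxE_mono d) (boxE_exh d) μ hμ hlim w
      have h7 : Measurable (fun n : Ed d → ℕ => n ∘ shE w) :=
        measurable_pi_lambda _ fun e => measurable_pi_apply _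
      have h8 : {n : Ed d → ℕ | Far ((4 : ℤ) ^ K) {e | 0 < n e} w} =
          (fun n : Ed d → ℕ => n ∘ shE w) ⁻¹' A K := by
        ext n
        exact (YG_far _ w n).symm
      rw [h8, Measure.real, ← Measure.map_apply h7 (hAm K), h6]
      rfl
    have h5 := h3.trans (Finset.sum_le_sum h4)
    rw [Finset.sum_const, nsmul_eq_mul] at h5
    have h6 : ((B0 d ℓ).card : ℝ) = (ℓ : ℝ) ^ (d - 2) := by
      rw [B0, blk_card d ℓ hd]
      push_cast
      rfl
    rw [h6, mul_comm] at h5
    have h7 : (0 : ℝ) < (ℓ : ℝ) ^ (d - 2) := by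
      have : (0 : ℝ) < ℓ := by exact_mod_cast hℓ
      positivity
    exact le_of_mul_le_mul_left h5 h7
  -- the intersection
  have hanti : Antitone A := by
    intro K K' hKK n hn
    obtain ⟨v, h1, i, h2⟩ := hn
    exact ⟨v, h1, i, (pow_le_pow_right₀ (by norm_num) hKK).trans h2⟩
  have hlimA : Tendsto (fun K => μ.real (A K)) atTop (nhds (μ.real (⋂ K, A K))) := by
    have h1 := tendsto_measure_iInter_atTop (μ := μ) (s := A)
      (fun K => (hAm K).nullMeasurableSet) hanti ⟨0, measure_ne_top μ _⟩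
    exact (ENNReal.tendsto_toReal (measure_ne_top μ _)).comp h1
  have h1 : c0 ≤ μ.real (⋂ K, A K) := ge_of_tendsto' hlimA hK
  refine h1.trans (measureReal_mono fun n hn => ?_)
  rw [Set.mem_iInter] at hn
  intro hfin
  -- a bound for a finite cluster
  obtain ⟨M, hM⟩ : ∃ M : ℕ, ∀ v ∈ {v | conn {e | 0 < n e} 0 v}, ∀ i, |v i| ≤ (M : ℤ) := by
    classical
    set S := hfin.toFinset with hS
    refine ⟨S.sup fun v => Finset.univ.sup fun i => (v i).natAbs, fun v hv i => ?_⟩
    have h2 : v ∈ S := by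
      rw [hS, Set.Finite.mem_toFinset]
      exact hv
    have h3 : (v i).natAbs ≤ S.sup fun v => Finset.univ.sup fun i => (v i).natAbs :=
      le_trans (Finset.le_sup (f := fun i => (v i).natAbs) (Finset.mem_univ i))
        (Finset.le_sup (f := fun v : Vx d => Finset.univ.sup fun i => (v i).natAbs) h2)
    rw [Int.abs_eq_natAbs]
    exact_mod_cast h3
  obtain ⟨v, h2, i, h3⟩ := hn (M + 1)
  have h4 := hM v h2 i
  have h5 : (M : ℤ) < (4 : ℤ) ^ (M + 1) := by
    have h6 : M + 1 < 4 ^ (M + 1) := Nat.lt_pow_self (by norm_num)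
    have h7 : ((M + 1 : ℕ) : ℤ) < ((4 ^ (M + 1) : ℕ) : ℤ) := by exact_mod_cast h6
    push_cast at h7
    linarith
  rw [Pi.zero_apply, sub_zero] at h3
  linarith

/-- Final theorem. -/
theorem main (ε : ℝ) (hε : 0 < ε) : ∃ d₀ : ℕ, ∀ d ≥ d₀, ∀ β : ℝ, (1 + ε) / (2 * d) ≤ β →
    ∃ μ : Measure (Ed d → ℕ), IsProbabilityMeasure μ ∧
      (∀ (F : Finset (Ed d)) (k : Ed d → ℕ),
        Tendsto (fun L => curP β (boxE d L) (cyl F k)) atTop (nhds (μ.real (cyl F k)))) ∧
      0 < μ {n | {v | conn {e | 0 < n e} 0 v}.Infinite} := by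
  obtain ⟨c0, hc0, h⟩ := fv_cur ε hε
  obtain ⟨d₀, hd₀⟩ := (h.and (eventually_ge_atTop 2)).exists_forall_of_atTop
  refine ⟨d₀, fun d hd β hβ => ?_⟩
  obtain ⟨h1, h2⟩ := hd₀ d hd
  have hd0 : (0 : ℝ) < d := by
    have : 0 < d := by omega
    exact_mod_cast this
  have hβ0 : 0 < β := lt_of_lt_of_le (by positivity) hβ
  obtain ⟨ℓ, hℓ, hF⟩ := h1 β hβ
  obtain ⟨μ, hμ, hlim⟩ := ex_mu β hβ0 (boxE d) (boxE_mono d) (boxE_exh d)
  refine ⟨μ, hμ, hlim, ?_⟩
  have h3 := inf_of_fv h2 β hβ0 ℓ hℓ c0 hc0 hF μ hμ hlim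
  have h4 : 0 < μ.real {n | {v | conn {e | 0 < n e} 0 v}.Infinite} := lt_of_lt_of_le hc0 h3
  by_contra hcon
  have h5 : μ {n | {v | conn {e | 0 < n e} 0 v}.Infinite} = 0 := by
    exact nonpos_iff_eq_zero.mp (not_lt.mp hcon)
  rw [Measure.real, h5] at h4
  simp at h4

end Pool.Agent.SRC
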