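import Pool.Agent.SRC.Loops

/-! Bernoulli percolation and the comparison of correlations. Modules BA - BF, RA - RC. -/

set_option autoImplicit false

namespace Pool.Agent.SRC

open Finset

/-! ### Module BA (S) -/

theorem EL_bern {d : ℕ} (p : ℝ) (E : Finset (Ed d)) (f : Finset (Ed d) → ℝ) :
    EL (bernM p) E 0 f = EB p E f := by
  unfold EL EB
  refine Finset.sum_congr rfl fun η _ => ?_
  have h1 : (bernM p).s • bd η = 0 := zero_smul (ZMod 2) (bd η)
  have h2 : (bernM p).a = p := rfl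
  have h3 : (bernM p).b = 1 - p := rfl
  rw [h1, h2, h3, ind_true rfl, one_mul]

theorem EL_bern_ne {d : ℕ} (p : ℝ) (E : Finset (Ed d)) (f : Finset (Ed d) → ℝ)
    (A : Vx d → ZMod 2) (hA : A ≠ 0) : EL (bernM p) E A f = 0 := by
  unfold EL
  refine Finset.sum_eq_zero fun η _ => ?_
  have h1 : (bernM p).s • bd η = 0 := zero_smul (ZMod 2) (bd η)
  rw [h1, ind_false fun h => hA h.symm, zero_mul, zero_mul]

theorem EB_const {d : ℕ} (p : ℝ) (E : Finset (Ed d)) (c : ℝ) : EB p E (fun _ => c) = c := by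
  unfold EB
  rw [← Finset.sum_mul]
  have h1 : ∑ η ∈ E.powerset, p ^ η.card * (1 - p) ^ (E \ η).card = 1 := by
    have h2 := Finset.sum_pow_mul_eq_add_pow p (1 - p) E
    rw [add_sub_cancel, one_pow] at h2
    refine Eq.trans ?_ h2
    refine Finset.sum_congr rfl fun η hη => ?_
    rw [Finset.card_sdiff_of_subset (Finset.mem_powerset.mp hη)]
  rw [h1, one_mul]

theorem EB_mono {d : ℕ} (p : ℝ) (h0 : 0 ≤ p) (h1 : p ≤ 1) (E : Finset (Ed d))
    (f g : Finset (Ed d) → ℝ) (h : ∀ η, η ⊆ E → f η ≤ g η) : EB p E f ≤ EB p E g := by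
  unfold EB
  refine Finset.sum_le_sum fun η hη => ?_
  rw [Finset.mem_powerset] at hη
  exact mul_le_mul_of_nonneg_left (h η hη)
    (mul_nonneg (pow_nonneg h0 _) (pow_nonneg (sub_nonneg.mpr h1) _))

theorem EB_congr {d : ℕ} (p : ℝ) (E : Finset (Ed d))
    (f g : Finset (Ed d) → ℝ) (h : ∀ η, η ⊆ E → f η = g η) : EB p E f = EB p E g := by
  unfold EB
  refine Finset.sum_congr rfl fun η hη => ?_
  rw [Finset.mem_powerset] at hη
  rw [h η hη]

theorem EB_add {d : ℕ} (p : ℝ) (E : Finset (Ed d)) (f g : Finset (Ed d) → ℝ) :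
    EB p E (fun η => f η + g η) = EB p E f + EB p E g := by
  unfold EB
  rw [← Finset.sum_add_distrib]
  exact Finset.sum_congr rfl fun η _ => mul_add _ _ _

theorem EB_smul {d : ℕ} (p : ℝ) (E : Finset (Ed d)) (c : ℝ) (f : Finset (Ed d) → ℝ) :
    EB p E (fun η => c * f η) = c * EB p E f := by
  unfold EB
  rw [Finset.mul_sum]
  refine Finset.sum_congr rfl fun η _ => ?_
  ring

theorem EB_sum {d : ℕ} {ι : Type*} (p : ℝ) (E : Finset (Ed d)) (J : Finset ι)
    (f : ι → Finset (Ed d) → ℝ) :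
    EB p E (fun η => ∑ i ∈ J, f i η) = ∑ i ∈ J, EB p E (f i) := by
  unfold EB
  rw [Finset.sum_comm]
  refine Finset.sum_congr rfl fun η _ => ?_
  rw [Finset.mul_sum]

/-! ### Module BB (M): independence. -/

theorem EB_union {d : ℕ} (p : ℝ) (E1 E2 : Finset (Ed d)) (hd : Disjoint E1 E2)
    (f : Finset (Ed d) → ℝ) :
    EB p (E1 ∪ E2) f = EB p E1 (fun η => EB p E2 (fun ζ => f (η ∪ ζ))) := by
  rw [← EL_bern, EL_union (bernM p) E1 E2 hd 0 f]
  unfold EB
  refine Finset.sum_congr rfl fun η _ => ?_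
  have h1 : (bernM p).s • bd η = 0 := zero_smul (ZMod 2) (bd η)
  have h2 : (bernM p).a = p := rfl
  have h3 : (bernM p).b = 1 - p := rfl
  rw [h1, h2, h3, add_zero, EL_bern]
  rfl

private theorem BB_two {d : ℕ} (p : ℝ) (E U : Finset (Ed d)) (hU : U ⊆ E)
    (f : Finset (Ed d) → ℝ) :
    EB p E f = EB p (E \ U) (fun η => EB p U (fun ζ => f (η ∪ ζ))) := by
  have h := EB_union p (E \ U) U Finset.sdiff_disjoint f
  rw [Finset.sdiff_union_of_subset hU] at h
  exact h

private theorem BB_int {α : Type*} [DecidableEq α] (E U η ζ : Finset α) (h1 : η ⊆ E \ U)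
    (h2 : ζ ⊆ U) : (η ∪ ζ) ∩ U = ζ := by
  rw [Finset.union_inter_distrib_right, Finset.inter_eq_left.mpr h2,
    Finset.disjoint_iff_inter_eq_empty.mp (Finset.sdiff_disjoint.mono_left h1),
    Finset.empty_union]

theorem EB_restrict {d : ℕ} (p : ℝ) (E U : Finset (Ed d)) (hU : U ⊆ E)
    (f : Finset (Ed d) → ℝ) : EB p E (fun η => f (η ∩ U)) = EB p U f := by
  rw [BB_two p E U hU]
  have h1 : EB p (E \ U) (fun η => EB p U (fun ζ => f ((η ∪ ζ) ∩ U))) =
      EB p (E \ U) (fun _ => EB p U f) := by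
    refine EB_congr _ _ _ _ fun η hη => ?_
    exact EB_congr _ _ _ _ fun ζ hζ => by rw [BB_int E U η ζ hη hζ]
  rw [h1, EB_const]

theorem EB_prod {d : ℕ} {ι : Type*} [DecidableEq ι] (p : ℝ) (E : Finset (Ed d)) (J : Finset ι)
    (U : ι → Finset (Ed d)) (hU : ∀ i ∈ J, U i ⊆ E)
    (hd : ∀ i ∈ J, ∀ j ∈ J, i ≠ j → Disjoint (U i) (U j)) (f : ι → Finset (Ed d) → ℝ) :
    EB p E (fun η => ∏ i ∈ J, f i (η ∩ U i)) = ∏ i ∈ J, EB p (U i) (f i) := by
  induction J using Finset.induction_on generalizing E with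
  | empty =>
    simp only [Finset.prod_empty]
    exact EB_const p E 1
  | insert i J hi ih =>
    have hUi : U i ⊆ E := hU i (Finset.mem_insert_self i J)
    have hdis : ∀ j ∈ J, Disjoint (U i) (U j) := fun j hj =>
      hd i (Finset.mem_insert_self i J) j (Finset.mem_insert_of_mem hj) fun hh => hi (hh ▸ hj)
    have ih' := ih (E \ U i) (fun j hj e he => by
        rw [Finset.mem_sdiff]
        exact ⟨hU j (Finset.mem_insert_of_mem hj) he, fun h =>
          Finset.disjoint_left.mp (hdis j hj) h he⟩)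
      (fun j hj k hk hjk => hd j (Finset.mem_insert_of_mem hj) k (Finset.mem_insert_of_mem hk) hjk)
    rw [BB_two p E (U i) hUi, Finset.prod_insert hi, ← ih', ← EB_smul]
    refine EB_congr _ _ _ _ fun η hη => ?_
    have h1 : EB p (U i) (fun ζ => ∏ j ∈ insert i J, f j ((η ∪ ζ) ∩ U j)) =
        EB p (U i) (fun ζ => (∏ j ∈ J, f j (η ∩ U j)) * f i ζ) := by
      refine EB_congr _ _ _ _ fun ζ hζ => ?_
      rw [Finset.prod_insert hi, BB_int E (U i) η ζ hη hζ, mul_comm]
      congr 1
      refine Finset.prod_congr rfl fun j hj => ?_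
      rw [Finset.union_inter_distrib_right,
        Finset.disjoint_iff_inter_eq_empty.mp ((hdis j hj).mono_left hζ), Finset.union_empty]
    rw [h1, EB_smul, mul_comm]

private theorem BB_pair {d : ℕ} (p : ℝ) (E U1 U2 : Finset (Ed d)) (h1 : U1 ⊆ E) (h2 : U2 ⊆ E)
    (hd : Disjoint U1 U2) (f g : Finset (Ed d) → ℝ) :
    EB p E (fun η => f (η ∩ U1) * g (η ∩ U2)) = EB p U1 f * EB p U2 g := by
  have h := EB_prod p E (Finset.univ : Finset Bool) (fun b => if b then U1 else U2)
    (fun b _ => by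
      cases b
      · exact h2
      · exact h1)
    (fun b _ b' _ hb => by
      cases b <;> cases b'
      · exact absurd rfl hb
      · exact hd.symm
      · exact hd
      · exact absurd rfl hb) (fun b => if b then f else g)
  simp only [Fintype.prod_bool, if_true, Bool.false_eq_true, if_false] at h
  exact h

/-- Two independent fields, two disjoint sets of edges. -/
theorem EB_indep2 {d : ℕ} (p q : ℝ) (E U1 U2 : Finset (Ed d)) (h1 : U1 ⊆ E) (h2 : U2 ⊆ E)
    (hd : Disjoint U1 U2) (f g : Finset (Ed d) → Finset (Ed d) → ℝ) :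
    EB p E (fun η => EB q E (fun ζ => f (η ∩ U1) (ζ ∩ U1) * g (η ∩ U2) (ζ ∩ U2))) =
      EB p U1 (fun η => EB q U1 (fun ζ => f η ζ)) * EB p U2 (fun η => EB q U2 (fun ζ => g η ζ)) := by
  have h3 : EB p E (fun η => EB q E (fun ζ => f (η ∩ U1) (ζ ∩ U1) * g (η ∩ U2) (ζ ∩ U2))) =
      EB p E (fun η => EB q U1 (fun ζ => f (η ∩ U1) ζ) * EB q U2 (fun ζ => g (η ∩ U2) ζ)) :=
    EB_congr _ _ _ _ fun η _ => BB_pair q E U1 U2 h1 h2 hd (f (η ∩ U1)) (g (η ∩ U2))
  rw [h3]
  exact BB_pair p E U1 U2 h1 h2 hd (fun η => EB q U1 (fun ζ => f η ζ))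
    (fun η => EB q U2 (fun ζ => g η ζ))

/-! ### Module BC (M) -/

theorem EB_sub {d : ℕ} (p : ℝ) (E F : Finset (Ed d)) (hF : F ⊆ E) :
    EB p E (fun η => ind (F ⊆ η)) = p ^ F.card := by
  have h1 : EB p E (fun η => ind (F ⊆ η)) = EB p E (fun η => ind (F ⊆ η ∩ F)) :=
    EB_congr _ _ _ _ fun η _ => ind_congr
      ⟨fun h => Finset.subset_inter h (Finset.Subset.refl F), fun h =>
        h.trans Finset.inter_subset_left⟩
  rw [h1, EB_restrict p E F hF (fun η => ind (F ⊆ η))]
  unfold EB
  rw [Finset.sum_eq_single_of_mem F (Finset.mem_powerset_self F)]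
  · beta_reduce
    rw [ind_true (Finset.Subset.refl F), Finset.sdiff_self, Finset.card_empty, pow_zero]
    ring
  · intro η hη hne
    rw [Finset.mem_powerset] at hη
    beta_reduce
    rw [ind_false fun h => hne (Finset.Subset.antisymm hη h), mul_zero]

/-- Disjoint sets of at most three edges: the probability that none of them is open. -/
theorem EB_none {d : ℕ} (p : ℝ) (h0 : 0 ≤ p) (h1 : p ≤ 1) (E : Finset (Ed d))
    (PP : Finset (Finset (Ed d))) (hE : ∀ P ∈ PP, P ⊆ E) (hc : ∀ P ∈ PP, P.card ≤ 3)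
    (hd : ∀ P ∈ PP, ∀ Q ∈ PP, P ≠ Q → Disjoint P Q) :
    EB p E (fun η => ind (∀ P ∈ PP, ¬ P ⊆ η)) ≤ (1 - p ^ 3) ^ PP.card := by
  have h2 : ∀ η : Finset (Ed d), ind (∀ P ∈ PP, ¬ P ⊆ η) =
      ∏ P ∈ PP, (1 - ind (P ⊆ η ∩ P)) := by
    intro η
    have h3 : ∀ P : Finset (Ed d), (P ⊆ η ∩ P) ↔ P ⊆ η := fun P =>
      ⟨fun h => h.trans Finset.inter_subset_left, fun h =>
        Finset.subset_inter h (Finset.Subset.refl P)⟩
    by_cases h : ∀ P ∈ PP, ¬ P ⊆ η
    · rw [ind_true h]
      symm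
      refine Finset.prod_eq_one fun P hP => ?_
      rw [ind_false fun hh => h P hP ((h3 P).mp hh), sub_zero]
    · rw [ind_false h]
      push Not at h
      obtain ⟨P, hP, hPη⟩ := h
      symm
      refine Finset.prod_eq_zero hP ?_
      rw [ind_true ((h3 P).mpr hPη), sub_self]
  have h3 : EB p E (fun η => ind (∀ P ∈ PP, ¬ P ⊆ η)) =
      EB p E (fun η => ∏ P ∈ PP, (fun P ζ => 1 - ind (P ⊆ ζ)) P (η ∩ (fun P => P) P)) :=
    EB_congr _ _ _ _ fun η _ => h2 η
  rw [h3, EB_prod p E PP (fun P => P) hE hd (fun P ζ => 1 - ind (P ⊆ ζ)), ← Finset.prod_const]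
  have h4 : ∀ P : Finset (Ed d), EB p P (fun ζ => 1 - ind (P ⊆ ζ)) = 1 - p ^ P.card := by
    intro P
    have h5 := EB_add p P (fun _ => 1) (fun ζ => -1 * ind (P ⊆ ζ))
    rw [EB_const, EB_smul, EB_sub p P P (Finset.Subset.refl P)] at h5
    rw [show (fun ζ => 1 - ind (P ⊆ ζ)) = fun ζ => 1 + -1 * ind (P ⊆ ζ) by
      funext ζ
      ring, h5]
    ring
  refine Finset.prod_le_prod (fun P _ => ?_) fun P hP => ?_
  · rw [h4]
    exact sub_nonneg.mpr (pow_le_one₀ h0 h1)
  · rw [h4]
    exact sub_le_sub_left (pow_le_pow_of_le_one h0 h1 (hc P hP)) 1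

/-! ### Module BD (M): Harris inequality (induction on `E`, or Mathlib's `fkg`). -/

private theorem BD_insert {d : ℕ} (p : ℝ) (E : Finset (Ed d)) (e : Ed d) (he : e ∉ E)
    (f : Finset (Ed d) → ℝ) :
    EB p (insert e E) f = (1 - p) * EB p E f + p * EB p E (fun η => f (insert e η)) := by
  have h1 : Disjoint ({e} : Finset (Ed d)) E := Finset.disjoint_singleton_left.mpr he
  have h3 : ({e} : Finset (Ed d)) ∪ E = insert e E := rfl
  have h2 := EB_union p {e} E h1 f
  rw [h3] at h2
  have h6 : ({e} : Finset (Ed d)).powerset = {∅, {e}} := by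
    ext t
    rw [Finset.mem_powerset, Finset.subset_singleton_iff, Finset.mem_insert,
      Finset.mem_singleton]
  have h7 : ∀ F : Finset (Ed d) → ℝ, EB p {e} F = (1 - p) * F ∅ + p * F {e} := by
    intro F
    unfold EB
    rw [h6, Finset.sum_insert (by
      rw [Finset.mem_singleton]
      exact (Finset.singleton_ne_empty e).symm), Finset.sum_singleton, Finset.card_empty, pow_zero,
      Finset.sdiff_empty, Finset.card_singleton, Finset.sdiff_self, Finset.card_empty, pow_zero,
      pow_one, pow_one, one_mul, mul_one]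
  rw [h2, h7]
  simp only [Finset.empty_union]
  rfl

private theorem BD_incr {d : ℕ} (f : Finset (Ed d) → ℝ) (hf : Incr f) (e : Ed d) :
    Incr (fun η => f (insert e η)) := fun _ _ h =>
  hf _ _ (Finset.insert_subset_insert e h)

theorem harris {d : ℕ} (p : ℝ) (h0 : 0 ≤ p) (h1 : p ≤ 1) (E : Finset (Ed d))
    (f g : Finset (Ed d) → ℝ) (hf : Incr f) (hg : Incr g) :
    EB p E f * EB p E g ≤ EB p E (fun η => f η * g η) := by
  induction E using Finset.induction_on generalizing f g with
  | empty =>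
    have h2 : ∀ F : Finset (Ed d) → ℝ, EB p ∅ F = F ∅ := by
      intro F
      unfold EB
      rw [Finset.powerset_empty, Finset.sum_singleton, Finset.sdiff_self, Finset.card_empty,
        pow_zero, pow_zero, one_mul, one_mul]
    rw [h2, h2, h2]
  | insert e E he ih =>
    rw [BD_insert p E e he, BD_insert p E e he, BD_insert p E e he]
    have h2 := ih f g hf hg
    have h3 := ih _ _ (BD_incr f hf e) (BD_incr g hg e)
    have h4 : EB p E f ≤ EB p E (fun η => f (insert e η)) :=
      EB_mono p h0 h1 E _ _ fun η _ => hf _ _ (Finset.subset_insert e η)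
    have h5 : EB p E g ≤ EB p E (fun η => g (insert e η)) :=
      EB_mono p h0 h1 E _ _ fun η _ => hg _ _ (Finset.subset_insert e η)
    have h6 : 0 ≤ p * (1 - p) := mul_nonneg h0 (sub_nonneg.mpr h1)
    have h7 := mul_nonneg h6 (mul_nonneg (sub_nonneg.mpr h4) (sub_nonneg.mpr h5))
    have h8 := mul_le_mul_of_nonneg_left h2 (sub_nonneg.mpr h1)
    have h9 := mul_le_mul_of_nonneg_left h3 h0
    nlinarith

/-! ### Module BE (M): monotonicity and superposition (all by induction on `E`, one edge at a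
time, from `EB_union` with `E2 = {e}`). -/

theorem EB_mono_p {d : ℕ} (p p' : ℝ) (h0 : 0 ≤ p) (h : p ≤ p') (h1 : p' ≤ 1)
    (E : Finset (Ed d)) (f : Finset (Ed d) → ℝ) (hf : Incr f) : EB p E f ≤ EB p' E f := by
  induction E using Finset.induction_on generalizing f with
  | empty =>
    have h2 : ∀ (q : ℝ) (F : Finset (Ed d) → ℝ), EB q ∅ F = F ∅ := by
      intro q F
      unfold EB
      rw [Finset.powerset_empty, Finset.sum_singleton, Finset.sdiff_self, Finset.card_empty,
        pow_zero, pow_zero, one_mul, one_mul]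
    rw [h2, h2]
  | insert e E he ih =>
    rw [BD_insert p E e he, BD_insert p' E e he]
    have h2 := ih f hf
    have h3 := ih _ (BD_incr f hf e)
    have h4 : EB p E f ≤ EB p E (fun η => f (insert e η)) :=
      EB_mono p h0 (h.trans h1) E _ _ fun η _ => hf _ _ (Finset.subset_insert e η)
    have h5 := mul_le_mul_of_nonneg_left h2 (sub_nonneg.mpr h1)
    have h6 := mul_le_mul_of_nonneg_left h3 (h0.trans h)
    have h7 := mul_nonneg (sub_nonneg.mpr h) (sub_nonneg.mpr h4)
    nlinarith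

theorem EB_join {d : ℕ} (p q : ℝ) (E : Finset (Ed d)) (f : Finset (Ed d) → ℝ) :
    EB p E (fun η => EB q E (fun ζ => f (η ∪ ζ))) = EB (p + q - p * q) E f := by
  induction E using Finset.induction_on generalizing f with
  | empty =>
    have h2 : ∀ (q : ℝ) (F : Finset (Ed d) → ℝ), EB q ∅ F = F ∅ := by
      intro q F
      unfold EB
      rw [Finset.powerset_empty, Finset.sum_singleton, Finset.sdiff_self, Finset.card_empty,
        pow_zero, pow_zero, one_mul, one_mul]
    rw [h2, h2, h2, Finset.empty_union]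
  | insert e E he ih =>
    rw [BD_insert p E e he, BD_insert (p + q - p * q) E e he]
    have h1 : ∀ η : Finset (Ed d), EB q (insert e E) (fun ζ => f (η ∪ ζ)) =
        (1 - q) * EB q E (fun ζ => f (η ∪ ζ)) + q * EB q E (fun ζ => f (insert e (η ∪ ζ))) := by
      intro η
      rw [BD_insert q E e he]
      simp only [Finset.union_insert]
    have h2 : ∀ η : Finset (Ed d), EB q (insert e E) (fun ζ => f (insert e η ∪ ζ)) =
        EB q E (fun ζ => f (insert e (η ∪ ζ))) := by
      intro η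
      rw [BD_insert q E e he]
      simp only [Finset.union_insert, Finset.insert_union, Finset.insert_idem]
      ring
    have h3 : EB p E (fun η => EB q (insert e E) (fun ζ => f (insert e η ∪ ζ))) =
        EB p E (fun η => EB q E fun ζ => f (insert e (η ∪ ζ))) :=
      EB_congr _ _ _ _ fun η _ => h2 η
    have h4 : EB p E (fun η => EB q (insert e E) (fun ζ => f (η ∪ ζ))) =
        (1 - q) * EB p E (fun η => EB q E fun ζ => f (η ∪ ζ)) +
          q * EB p E (fun η => EB q E fun ζ => f (insert e (η ∪ ζ))) := by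
      rw [← EB_smul, ← EB_smul, ← EB_add]
      exact EB_congr _ _ _ _ fun η _ => h1 η
    rw [h3, h4, ih f, ih (fun η => f (insert e η))]
    ring

/-! ### Module BF (M): translations. -/

/-- Translation of an edge. -/
def shE {d : ℕ} (a : Vx d) (e : Ed d) : Ed d := (e.1 + a, e.2)

theorem shE_inj {d : ℕ} (a : Vx d) : Function.Injective (shE a) := by
  intro e e' h
  have h1 : (shE a e).1 = (shE a e').1 := congrArg Prod.fst h
  have h2 : (shE a e).2 = (shE a e').2 := congrArg Prod.snd h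
  exact Prod.ext (add_right_cancel h1) h2

theorem EB_shift {d : ℕ} (p : ℝ) (a : Vx d) (E : Finset (Ed d)) (f : Finset (Ed d) → ℝ) :
    EB p (E.image (shE a)) f = EB p E (fun η => f (η.image (shE a))) := by
  classical
  unfold EB
  have h1 : (E.image (shE a)).powerset = E.powerset.image (fun η => η.image (shE a)) := by
    ext t
    rw [Finset.mem_powerset, Finset.mem_image]
    constructor
    · intro h
      obtain ⟨s, hs, rfl⟩ := Finset.subset_image_iff.mp h
      exact ⟨s, Finset.mem_powerset.mpr (by exact_mod_cast hs), rfl⟩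
    · rintro ⟨s, hs, rfl⟩
      exact Finset.image_subset_image (Finset.mem_powerset.mp hs)
  rw [h1, Finset.sum_image (fun η _ η' _ h => Finset.image_injective (shE_inj a) h)]
  refine Finset.sum_congr rfl fun η _ => ?_
  rw [Finset.card_image_of_injective _ (shE_inj a), ← Finset.image_sdiff _ _ (shE_inj a),
    Finset.card_image_of_injective _ (shE_inj a)]

private theorem BF_tip {d : ℕ} (a : Vx d) (e : Ed d) : tip (shE a e) = tip e + a := by
  unfold tip shE
  change e.1 + a + uv e.2 = e.1 + uv e.2 + a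
  abel

private theorem BF_mem {d : ℕ} (a : Vx d) (lo hi v : Vx d) :
    v + a ∈ Finset.Icc (lo + a) (hi + a) ↔ v ∈ Finset.Icc lo hi := by
  rw [Finset.mem_Icc, Finset.mem_Icc, add_le_add_iff_right, add_le_add_iff_right]

private theorem BF_back {d : ℕ} (a : Vx d) (e : Ed d) : shE a (shE (-a) e) = e := by
  unfold shE
  refine Prod.ext ?_ rfl
  change e.1 + -a + a = e.1
  abel

theorem bx_shift {d : ℕ} (a lo hi : Vx d) :
    bx (lo + a) (hi + a) = (bx lo hi).image (shE a) := by
  ext e
  rw [Finset.mem_image]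
  unfold bx
  constructor
  · intro h
    refine ⟨shE (-a) e, ?_, BF_back a e⟩
    rw [mem_edg] at h ⊢
    rw [← BF_back a e, BF_tip, BF_mem] at h
    exact ⟨(BF_mem a lo hi _).mp h.1, h.2⟩
  · rintro ⟨e', h, rfl⟩
    rw [mem_edg] at h ⊢
    rw [BF_tip, BF_mem]
    exact ⟨(BF_mem a lo hi _).mpr h.1, h.2⟩

private theorem BF_adj {d : ℕ} (a : Vx d) (ω : Set (Ed d)) (u v : Vx d) :
    adj (shE a '' ω) (u + a) (v + a) ↔ adj ω u v := by
  have h1 : ∀ (w : Vx d) (i : Fin d), ((w + a, i) ∈ shE a '' ω) ↔ (w, i) ∈ ω := by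
    intro w i
    constructor
    · rintro ⟨e, he, h⟩
      have h2 : e = (w, i) := shE_inj a h
      rwa [← h2]
    · intro h
      exact ⟨(w, i), h, rfl⟩
  have h2 : ∀ w w' : Vx d, ∀ i, (w' + a = w + a + uv i) ↔ w' = w + uv i := by
    intro w w' i
    rw [add_right_comm, add_left_inj]
  unfold adj
  simp only [h1, h2]

theorem conn_shift {d : ℕ} (a : Vx d) (ω : Set (Ed d)) (u v : Vx d) :
    conn (shE a '' ω) (u + a) (v + a) ↔ conn ω u v := by
  constructor
  · have key : ∀ x y : Vx d, conn (shE a '' ω) x y → conn ω (x - a) (y - a) := by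
      intro x y h
      unfold conn at *
      induction h with
      | refl => exact Relation.ReflTransGen.refl
      | tail _ h2 ih =>
        refine Relation.ReflTransGen.tail ih ?_
        rw [← BF_adj a, sub_add_cancel, sub_add_cancel]
        exact h2
    intro h
    have h1 := key _ _ h
    rw [add_sub_cancel_right, add_sub_cancel_right] at h1
    exact h1
  · intro h
    unfold conn at *
    induction h with
    | refl => exact Relation.ReflTransGen.refl
    | tail _ h2 ih => exact Relation.ReflTransGen.tail ih ((BF_adj a ω _ _).mpr h2)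

theorem big_shift {d : ℕ} (a : Vx d) (ω : Set (Ed d)) (s : ℕ) (u : Vx d) :
    big (shE a '' ω) s (u + a) ↔ big ω s u := by
  classical
  constructor
  · rintro ⟨T, h1, h2⟩
    refine ⟨T.image (fun v => v - a), ?_, ?_⟩
    · rw [Finset.card_image_of_injective _ (sub_left_injective)]
      exact h1
    · intro v hv
      obtain ⟨w, hw, rfl⟩ := Finset.mem_image.mp hv
      rw [← conn_shift a, sub_add_cancel]
      exact h2 w hw
  · rintro ⟨T, h1, h2⟩
    refine ⟨T.image (fun v => v + a), ?_, ?_⟩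
    · rw [Finset.card_image_of_injective _ (add_left_injective a)]
      exact h1
    · intro v hv
      obtain ⟨w, hw, rfl⟩ := Finset.mem_image.mp hv
      exact (conn_shift a ω u w).mpr (h2 w hw)

/-! ### Modules RA, RB, RC: correlations are at least Bernoulli connection probabilities. -/

/-- Number of subsets of `ω` with parity boundary `A`. -/
noncomputable def nsub {d : ℕ} (ω : Finset (Ed d)) (A : Vx d → ZMod 2) : ℕ :=
  (fl ω.powerset (fun η => bd η = A)).card

private theorem RA_two {d : ℕ} (A : Vx d → ZMod 2) : A + A = 0 := by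
  funext v
  exact CharTwo.add_self_eq_zero (A v)

private theorem RA_symm {d : ℕ} (η ζ : Finset (Ed d)) :
    bd (symmDiff η ζ) = bd η + bd ζ := by
  have h1 : bd η = bd (η \ ζ) + bd (η ∩ ζ) := by
    unfold bd
    rw [← Finset.sum_union (Finset.disjoint_sdiff_inter η ζ), Finset.sdiff_union_inter]
  have h2 : bd ζ = bd (ζ \ η) + bd (η ∩ ζ) := by
    unfold bd
    rw [Finset.inter_comm, ← Finset.sum_union (Finset.disjoint_sdiff_inter ζ η),
      Finset.sdiff_union_inter]
  have h3 : bd (symmDiff η ζ) = bd (η \ ζ) + bd (ζ \ η) := by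
    have h4 : symmDiff η ζ = (η \ ζ) ∪ (ζ \ η) := rfl
    unfold bd
    rw [h4, Finset.sum_union]
    exact Finset.disjoint_left.mpr fun e he he' =>
      (Finset.mem_sdiff.mp he).2 (Finset.mem_sdiff.mp he').1
  rw [h3, h1, h2]
  have h5 : bd (η \ ζ) + bd (η ∩ ζ) + (bd (ζ \ η) + bd (η ∩ ζ)) =
      bd (η \ ζ) + bd (ζ \ η) + (bd (η ∩ ζ) + bd (η ∩ ζ)) := by abel
  rw [h5, RA_two, add_zero]

private theorem RA_pt {d : ℕ} (u v w : Vx d) : pt u v + pt v w = pt u w := by
  unfold pt
  have h : (Pi.single u 1 + Pi.single v 1 + (Pi.single v 1 + Pi.single w 1) : Vx d → ZMod 2) =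
      Pi.single u 1 + Pi.single w 1 + (Pi.single v 1 + Pi.single v 1) := by abel
  rw [h, RA_two, add_zero]

private theorem RA_ptc {d : ℕ} (u v : Vx d) : pt u v = pt v u := add_comm _ _

private theorem RA_path {d : ℕ} (ω : Finset (Ed d)) (u v : Vx d) (h : conn (↑ω) u v) :
    ∃ η, η ⊆ ω ∧ bd η = pt u v := by
  unfold conn at h
  induction h with
  | refl =>
    refine ⟨∅, Finset.empty_subset _, ?_⟩
    have h4 : bd (∅ : Finset (Ed d)) = 0 := Finset.sum_empty
    rw [h4]
    exact (RA_two _).symm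
  | tail _ h2 ih =>
    rename_i b c _
    obtain ⟨η, h3, h4⟩ := ih
    have h5 : ∃ e ∈ ω, bde e = pt b c := by
      obtain ⟨i, hi⟩ := h2
      rcases hi with ⟨hi, h6⟩ | ⟨hi, h6⟩
      · refine ⟨(b, i), hi, ?_⟩
        rw [h6]
        rfl
      · refine ⟨(c, i), hi, ?_⟩
        rw [RA_ptc, h6]
        rfl
    obtain ⟨e, he, h6⟩ := h5
    refine ⟨symmDiff η {e}, ?_, ?_⟩
    · intro e' he'
      rw [Finset.mem_symmDiff, Finset.mem_singleton] at he'
      rcases he' with h | h
      · exact h3 h.1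
      · rw [h.1]
        exact he
    · have h7 : bd ({e} : Finset (Ed d)) = bde e := Finset.sum_singleton _ _
      rw [RA_symm, h4, h7, h6, RA_pt]

private theorem RA_ends {d : ℕ} (ω : Finset (Ed d)) (u : Vx d) (S : Finset (Vx d))
    (hS : ∀ e ∈ ω, e.1 ∈ S ∧ tip e ∈ S) (η : Finset (Ed d)) (hη : η ⊆ ω) :
    ∑ w ∈ fl S (fun w => conn (↑ω) u w), bd η w = 0 := by
  unfold bd
  simp only [Finset.sum_apply]
  rw [Finset.sum_comm]
  refine Finset.sum_eq_zero fun e he => ?_
  have h1 : ∀ w, bde e w = (Pi.single e.1 1 : Vx d → ZMod 2) w + (Pi.single (tip e) 1 :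
      Vx d → ZMod 2) w := fun w => rfl
  simp only [h1]
  rw [Finset.sum_add_distrib]
  have h2 : ∀ x : Vx d, ∑ w ∈ fl S (fun w => conn (↑ω) u w), (Pi.single x 1 : Vx d → ZMod 2) w =
      if x ∈ fl S (fun w => conn (↑ω) u w) then 1 else 0 := by
    intro x
    rw [← Finset.sum_ite_eq' (fl S (fun w => conn (↑ω) u w)) x (fun _ => (1 : ZMod 2))]
    refine Finset.sum_congr rfl fun w _ => ?_
    rw [Pi.single_apply]
  rw [h2, h2]
  have h3 : e.1 ∈ fl S (fun w => conn (↑ω) u w) ↔ tip e ∈ fl S (fun w => conn (↑ω) u w) := by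
    rw [mem_fl, mem_fl]
    have h4 : adj (↑ω) e.1 (tip e) := ⟨e.2, Or.inl ⟨hη he, rfl⟩⟩
    have h5 := hS e (hη he)
    constructor
    · intro h
      exact ⟨h5.2, Relation.ReflTransGen.tail h.2 h4⟩
    · intro h
      exact ⟨h5.1, Relation.ReflTransGen.tail h.2 (adj_symm h4)⟩
  by_cases h4 : e.1 ∈ fl S (fun w => conn (↑ω) u w)
  · rw [if_pos h4, if_pos (h3.mp h4)]
    rfl
  · rw [if_neg h4, if_neg fun h => h4 (h3.mpr h)]
    rfl

/-- Module RA (M). If `u, v` are connected in `ω`, there is `η₀ ⊆ ω` with `bd η₀ = pt u v` and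
`η ↦ η ∆ η₀` is a bijection; otherwise the sum of `bd η` over the cluster of `u` (intersected with
the finite set of endpoints) is `0` for every `η ⊆ ω`, but that of `pt u v` is `1`. -/
theorem nsub_pt {d : ℕ} (ω : Finset (Ed d)) (u v : Vx d) :
    (nsub ω (pt u v) : ℝ) = ind (conn (↑ω) u v) * nsub ω 0 := by
  classical
  by_cases h : conn (↑ω) u v
  · rw [ind_true h, one_mul]
    obtain ⟨η₀, h1, h2⟩ := RA_path ω u v h
    have h3 : nsub ω (pt u v) = nsub ω 0 := by
      unfold nsub
      refine Finset.card_bij' (fun η _ => symmDiff η η₀) (fun η _ => symmDiff η η₀) ?_ ?_ ?_ ?_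
      · intro η hη
        rw [mem_fl, Finset.mem_powerset] at hη ⊢
        refine ⟨?_, ?_⟩
        · intro e he
          rw [Finset.mem_symmDiff] at he
          rcases he with h | h
          · exact hη.1 h.1
          · exact h1 h.1
        · rw [RA_symm, hη.2, h2, RA_two]
      · intro η hη
        rw [mem_fl, Finset.mem_powerset] at hη ⊢
        refine ⟨?_, ?_⟩
        · intro e he
          rw [Finset.mem_symmDiff] at he
          rcases he with h | h
          · exact hη.1 h.1
          · exact h1 h.1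
        · rw [RA_symm, hη.2, h2, zero_add]
      · intro η _
        exact symmDiff_symmDiff_cancel_right η₀ η
      · intro η _
        exact symmDiff_symmDiff_cancel_right η₀ η
    rw [h3]
  · rw [ind_false h, zero_mul]
    have h3 : nsub ω (pt u v) = 0 := by
      unfold nsub
      rw [Finset.card_eq_zero, Finset.eq_empty_iff_forall_notMem]
      intro η hη
      rw [mem_fl, Finset.mem_powerset] at hη
      set S : Finset (Vx d) := insert u (ω.image Prod.fst ∪ ω.image tip) with hS
      have h4 := RA_ends ω u S (fun e he => by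
        rw [hS]
        exact ⟨Finset.mem_insert_of_mem (Finset.mem_union_left _ (Finset.mem_image_of_mem _ he)),
          Finset.mem_insert_of_mem (Finset.mem_union_right _ (Finset.mem_image_of_mem _ he))⟩)
        η hη.1
      rw [hη.2] at h4
      have h5 : ∑ w ∈ fl S (fun w => conn (↑ω) u w), pt u v w = 1 := by
        have h6 : ∀ w, pt u v w = (Pi.single u 1 : Vx d → ZMod 2) w + (Pi.single v 1 :
            Vx d → ZMod 2) w := fun w => rfl
        simp only [h6]
        rw [Finset.sum_add_distrib]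
        have h7 : ∀ x : Vx d, ∑ w ∈ fl S (fun w => conn (↑ω) u w),
            (Pi.single x 1 : Vx d → ZMod 2) w =
            if x ∈ fl S (fun w => conn (↑ω) u w) then 1 else 0 := by
          intro x
          rw [← Finset.sum_ite_eq' (fl S (fun w => conn (↑ω) u w)) x (fun _ => (1 : ZMod 2))]
          refine Finset.sum_congr rfl fun w _ => ?_
          rw [Pi.single_apply]
        rw [h7, h7, if_pos, if_neg, add_zero]
        · rw [mem_fl]
          exact fun hh => h hh.2
        · rw [mem_fl]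
          exact ⟨Finset.mem_insert_self u _, conn_refl _ _⟩
      rw [h5] at h4
      exact one_ne_zero h4
    rw [h3, Nat.cast_zero]

private theorem RB_nsub {d : ℕ} (E ω : Finset (Ed d)) (h : ω ⊆ E) (A : Vx d → ZMod 2) :
    (nsub ω A : ℝ) = ∑ η ∈ E.powerset, ind (bd η = A) * ind (η ⊆ ω) := by
  unfold nsub
  rw [card_fl]
  rw [← Finset.sum_subset (Finset.powerset_mono.mpr h)]
  · refine Finset.sum_congr rfl fun η hη => ?_
    rw [ind_true (Finset.mem_powerset.mp hη), mul_one]
  · intro η _ hη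
    rw [ind_false fun hh => hη (Finset.mem_powerset.mpr hh), mul_zero]

/-- Module RB (M). `∑_{η ⊆ ω ⊆ E} x^|ω| (1-x)^{|E \ ω|} = x^|η|`. -/
theorem ZZ_fk {d : ℕ} (x : ℝ) (E : Finset (Ed d)) (A : Vx d → ZMod 2) :
    ZZ (loopM x) E A = EB x E (fun ω => (nsub ω A : ℝ)) := by
  have h1 : EB x E (fun ω => (nsub ω A : ℝ)) =
      EB x E (fun ω => ∑ η ∈ E.powerset, ind (bd η = A) * ind (η ⊆ ω)) :=
    EB_congr _ _ _ _ fun ω hω => RB_nsub E ω hω A
  rw [h1, EB_sum]
  unfold ZZ EL
  refine Finset.sum_congr rfl fun η hη => ?_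
  rw [EB_smul, EB_sub x E η (Finset.mem_powerset.mp hη)]
  have h1 : (loopM x).s • bd η = bd η := one_smul (ZMod 2) (bd η)
  have h2 : (loopM x).a = x := rfl
  have h3 : (loopM x).b = 1 := rfl
  rw [h1, h2, h3, one_pow, mul_one, mul_one]

theorem nsub_mono {d : ℕ} (ω ω' : Finset (Ed d)) (h : ω ⊆ ω') (A : Vx d → ZMod 2) :
    nsub ω A ≤ nsub ω' A := by
  unfold nsub
  refine Finset.card_le_card fun η hη => ?_
  rw [mem_fl, Finset.mem_powerset] at hη ⊢
  exact ⟨hη.1.trans h, hη.2⟩

/-- Module RC (S), from RA, RB and `harris`. -/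
theorem cor_ge_conn {d : ℕ} (x : ℝ) (hx : 0 ≤ x) (hx1 : x ≤ 1) (E : Finset (Ed d))
    (u v : Vx d) :
    EB x E (fun ω => ind (conn (↑ω) u v)) * ZZ (loopM x) E 0 ≤ ZZ (loopM x) E (pt u v) := by
  rw [ZZ_fk, ZZ_fk]
  have h1 := harris x hx hx1 E (fun ω => ind (conn (↑ω) u v)) (fun ω => (nsub ω 0 : ℝ))
    (fun η ζ h => ind_mono fun hc => conn_mono (by exact_mod_cast h) hc)
    (fun η ζ h => by
      have := nsub_mono η ζ h 0
      change (nsub η 0 : ℝ) ≤ nsub ζ 0
      exact_mod_cast this)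
  refine h1.trans (le_of_eq ?_)
  exact EB_congr _ _ _ _ fun ω _ => (nsub_pt ω u v).symm

end Pool.Agent.SRC
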