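import Pool.Agent.SRC.Merge

/-! Lower bound for the correlations, from Bernoulli percolation in thin slices.
Modules CA - CJ. -/

set_option autoImplicit false

namespace Pool.Agent.SRC

open Finset Filter

/-- Vertices of the box with a big cluster inside the box. -/
noncomputable def VB {d : ℕ} (lo hi : Vx d) (Y : Finset (Ed d)) : Finset (Vx d) :=
  fl (Finset.Icc lo hi) (fun v => big (↑(Y ∩ bx lo hi)) (d ^ 8) v)

/-- The box is good: few exceptional vertices. -/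
def GB {d : ℕ} (κ : ℝ) (lo hi : Vx d) (Y : Finset (Ed d)) : Prop :=
  (d : ℝ) ^ 2 * (ex0 κ lo hi (VB lo hi Y)).card ≤ (Finset.Icc lo hi).card

/-- A box with active coordinates `D`, of side `ℓ`. -/
def isB {d : ℕ} (ℓ : ℕ) (lo hi : Vx d) (D : Finset (Fin d)) : Prop :=
  (∀ i ∈ D, hi i = lo i + ℓ - 1) ∧ ∀ i, i ∉ D → hi i = lo i

/-- Module CA (M). Clusters inside a box; the cluster of a big vertex consists of big vertices. -/
theorem conn_bx {d : ℕ} (lo hi : Vx d) (Y : Finset (Ed d)) (u v : Vx d)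
    (hu : u ∈ Finset.Icc lo hi) (h : conn (↑(Y ∩ bx lo hi)) u v) : v ∈ Finset.Icc lo hi := by
  unfold conn at h
  induction h with
  | refl => exact hu
  | tail _ h2 ih =>
    rename_i b c
    obtain ⟨i, hi'⟩ := h2
    rcases hi' with ⟨h3, h4⟩ | ⟨h3, h4⟩
    · have h5 := (mem_edg _ _).1 (Finset.mem_inter.1 (Finset.mem_coe.1 h3)).2
      rw [h4]
      exact h5.2
    · have h5 := (mem_edg _ _).1 (Finset.mem_inter.1 (Finset.mem_coe.1 h3)).2
      exact h5.1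

private theorem CA_mem_VB {d : ℕ} (lo hi : Vx d) (Y : Finset (Ed d)) (v : Vx d) :
    v ∈ VB lo hi Y ↔ v ∈ Finset.Icc lo hi ∧ big (↑(Y ∩ bx lo hi)) (d ^ 8) v :=
  mem_fl _ _ _

theorem VB_closed {d : ℕ} (lo hi : Vx d) (Y : Finset (Ed d)) (v : Vx d) (hv : v ∈ VB lo hi Y) :
    ∃ T : Finset (Vx d), T ⊆ VB lo hi Y ∧ d ^ 8 ≤ T.card ∧
      ∀ u ∈ T, conn (↑(Y ∩ bx lo hi)) v u := by
  rw [CA_mem_VB] at hv
  obtain ⟨h1, T, h2, h3⟩ := hv
  refine ⟨T, ?_, h2, h3⟩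
  intro u hu
  rw [CA_mem_VB]
  exact ⟨conn_bx lo hi Y v u h1 (h3 u hu), T, h2,
    fun w hw => conn_trans (conn_symm (h3 u hu)) (h3 w hw)⟩

theorem exs_eq {d : ℕ} (κ : ℝ) (lo hi : Vx d) (Y : Finset (Ed d)) :
    exs κ lo hi (d ^ 8) (Y ∩ bx lo hi) = ex0 κ lo hi (VB lo hi Y) := by
  have h : ∀ w, fw lo hi (d ^ 8) (Y ∩ bx lo hi) w = nf (VB lo hi Y) w := by
    intro w
    ext i
    unfold fw nf
    rw [mem_fl, mem_fl, CA_mem_VB]
  unfold exs ex0
  ext w
  rw [mem_fl, mem_fl, h]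

/-- Goodness in the general model (from `exc`). -/
theorem exc' (c δ : ℝ) (hc : 0 < c) (hc1 : c ≤ 1) (hδ : 0 < δ) (hδ1 : δ ≤ 1) :
    ∃ κ : ℝ, 0 < κ ∧ κ ≤ 1 ∧ ∀ᶠ d : ℕ in atTop, ∀ (m : Mdl) (k ℓ r : ℕ), 0 ≤ m.a → 0 ≤ m.b →
      1 ≤ r → 2 * (r : ℝ) ≤ δ * ℓ → Grow d m r k (d ^ 8) c →
      ∀ (lo hi : Vx d) (D : Finset (Fin d)), isB ℓ lo hi D → (k : ℝ) + 4 * δ * d ≤ D.card →
        ∀ A : Vx d → ZMod 2,
        (d : ℝ) ^ 2 * EL m (bx lo hi) A (fun η => ind (¬ GB κ lo hi η)) ≤ ZZ m (bx lo hi) A := by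
  obtain ⟨κ, h0, h1, h⟩ := exc c δ hc hc1 hδ hδ1
  refine ⟨κ, h0, h1, ?_⟩
  filter_upwards [h] with d hd
  intro m k ℓ r ha hb hr hrl hG lo hi D hB hD A
  refine le_trans ?_ (hd m k ℓ r ha hb hr hrl hG lo hi D hB.1 hB.2 hD A)
  refine mul_le_mul_of_nonneg_left ?_ (by positivity)
  refine EL_mono m ha hb _ _ _ _ fun η hη => ind_mono ?_
  intro h2
  unfold GB at h2
  push Not at h2
  have h3 : ((Finset.Icc lo hi).card : ℝ) = (ℓ : ℝ) ^ D.card := by
    rw [card_box lo hi ℓ D hB.1 hB.2]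
    push_cast
    rfl
  rw [h3, ← exs_eq, Finset.inter_eq_left.2 hη] at h2
  exact h2

/-- Boxes with at least `k + 4 δ d` active coordinates of side `ℓ` are good for Bernoulli
percolation with parameter `p`. -/
def BX (d : ℕ) (p κ δ : ℝ) (ℓ k : ℕ) : Prop :=
  ∀ (lo hi : Vx d) (D : Finset (Fin d)), isB ℓ lo hi D → (k : ℝ) + 4 * δ * d ≤ D.card →
    (d : ℝ) ^ 2 * EB p (bx lo hi) (fun η => ind (¬ GB κ lo hi η)) ≤ 1

/-- Module CB (S), from `growB`, `exc'`. -/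
theorem bern_exc (ε δ : ℝ) (hε : 0 < ε) (hδ : 0 < δ) (hδ1 : δ ≤ 1) :
    ∃ κ : ℝ, 0 < κ ∧ κ ≤ 1 ∧ ∀ᶠ d : ℕ in atTop, ∀ (p : ℝ) (k ℓ : ℕ), 0 ≤ p → p ≤ 1 →
      1 + ε ≤ 2 * k * p → (d : ℝ) ≤ 8 * k → 2 ≤ δ * ℓ → BX d p κ δ ℓ k := by
  obtain ⟨c, hc, hc1, h1⟩ := growB ε hε
  obtain ⟨κ, h0, hκ1, h2⟩ := exc' c δ hc hc1 hδ hδ1
  refine ⟨κ, h0, hκ1, ?_⟩
  filter_upwards [h1, h2] with d hd1 hd2
  intro p k ℓ hp0 hp1 hk1 hk2 hl lo hi D hB hD
  have hG := hd1 p k hp0 hp1 hk1 hk2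
  have h3 := hd2 (bernM p) k ℓ 1 hp0 (sub_nonneg.2 hp1) le_rfl (by push_cast; linarith)
    (by exact_mod_cast hG) lo hi D hB hD 0
  rw [EL_bern] at h3
  have h4 : ZZ (bernM p) (bx lo hi) 0 = 1 := by
    unfold ZZ
    rw [EL_bern, EB_const]
  rw [h4] at h3
  exact h3

/-- `u` is connected inside the box to at least `θ N` vertices with a big cluster. -/
def Att {d : ℕ} (θ : ℝ) (lo hi : Vx d) (Y ξ : Finset (Ed d)) (u : Vx d) : Prop :=
  θ * (Finset.Icc lo hi).card ≤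
    (fl (VB lo hi Y) (fun v => conn (↑((Y ∪ ξ) ∩ bx lo hi)) u v)).card

private theorem CC_aux {d : ℕ} (hd : 2 ≤ d) (κ : ℝ) (hκ : 0 < κ) (lo hi : Vx d)
    (Y ξ : Finset (Ed d)) (hξ : ξ ⊆ bx lo hi) (hG : GB κ lo hi Y)
    (hGi : Gi (κ / 100 * (Finset.Icc lo hi).card) (VB lo hi Y)
      (↑(Y ∩ bx lo hi) ∪ ↑ξ)) :
    κ / 4 * (Finset.Icc lo hi).card ≤
      ∑ w ∈ Finset.Icc lo hi, ind (Att (κ / 4) lo hi Y ξ w) := by
  classical
  obtain ⟨T, hT, hTc, hTconn⟩ := hGi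
  have hV := V_large hd κ hκ.le lo hi (VB lo hi Y) hG
  have hsum : (((VB lo hi Y) \ T).card : ℝ) + T.card = (VB lo hi Y).card := by
    exact_mod_cast Finset.card_sdiff_add_card_eq_card hT
  have hN : (0 : ℝ) ≤ (Finset.Icc lo hi).card := Nat.cast_nonneg _
  have hTN : κ / 4 * (Finset.Icc lo hi).card ≤ T.card := by
    have : 0 ≤ κ * (Finset.Icc lo hi).card := mul_nonneg hκ.le hN
    linarith
  have hsub : (↑(Y ∩ bx lo hi) ∪ ↑ξ : Set (Ed d)) ⊆ ↑((Y ∪ ξ) ∩ bx lo hi) := by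
    intro e he
    rw [Finset.mem_coe, Finset.mem_inter, Finset.mem_union]
    rcases he with he | he
    · have := Finset.mem_inter.1 (Finset.mem_coe.1 he)
      exact ⟨Or.inl this.1, this.2⟩
    · exact ⟨Or.inr he, hξ he⟩
  have hAtt : ∀ u ∈ T, Att (κ / 4) lo hi Y ξ u := by
    intro u hu
    unfold Att
    refine le_trans hTN ?_
    have : T ⊆ fl (VB lo hi Y) (fun v => conn (↑((Y ∪ ξ) ∩ bx lo hi)) u v) := by
      intro v hv
      rw [mem_fl]
      exact ⟨hT hv, conn_mono hsub (hTconn u hu v hv)⟩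
    exact_mod_cast Finset.card_le_card this
  rw [← card_fl]
  refine le_trans hTN ?_
  have : T ⊆ fl (Finset.Icc lo hi) (fun w => Att (κ / 4) lo hi Y ξ w) := by
    intro v hv
    rw [mem_fl]
    exact ⟨((CA_mem_VB _ _ _ _).1 (hT hv)).1, hAtt v hv⟩
  exact_mod_cast Finset.card_le_card this

private theorem CC_EB_nonneg {d : ℕ} (p : ℝ) (h0 : 0 ≤ p) (h1 : p ≤ 1) (E : Finset (Ed d))
    (f : Finset (Ed d) → ℝ) (h : ∀ η, η ⊆ E → 0 ≤ f η) : 0 ≤ EB p E f := by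
  have := EB_mono p h0 h1 E (fun _ => 0) f h
  rwa [EB_const] at this

private theorem CC_EB_not {d : ℕ} (p c : ℝ) (E : Finset (Ed d)) (P : Finset (Ed d) → Prop) :
    EB p E (fun η => c * (1 - ind (P η))) = c * (1 - EB p E (fun η => ind (P η))) := by
  have h1 : EB p E (fun η => c * (1 - ind (P η))) =
      EB p E (fun η => c + (-c) * ind (P η)) :=
    EB_congr p E _ _ fun η _ => by ring
  rw [h1, EB_add p E (fun _ => c) (fun η => (-c) * ind (P η)), EB_const,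
    EB_smul p E (-c) (fun η => ind (P η))]
  ring

private theorem CC_exp (d : ℕ) (hd : 2 ≤ d) : Real.exp (-(d : ℝ) ^ 2) ≤ 1 / 4 := by
  have h1 : (2 : ℝ) ≤ d := by exact_mod_cast hd
  have h2 : (4 : ℝ) ≤ (d : ℝ) ^ 2 := by nlinarith
  have h3 := Real.add_one_le_exp ((d : ℝ) ^ 2)
  have h4 : (4 : ℝ) ≤ Real.exp ((d : ℝ) ^ 2) := by linarith
  rw [Real.exp_neg]
  rw [show (1 / 4 : ℝ) = (4 : ℝ)⁻¹ by norm_num]
  exact inv_anti₀ (by norm_num) h4

/-- Module CC (M). Some vertex of the box is attached with probability at least `κ/8`. With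
probability at least `1/2` the box is good and `Gi (αN)` holds (`merge` with `F = ∅`); then the
vertices of `T` (at least `κN/2 - αN ≥ κN/4` of them, `V_large`) are attached. Average. -/
theorem att_exists (κ δ c' : ℝ) (ℓ : ℕ) (hκ : 0 < κ) (hκ1 : κ ≤ 1) (hδ : 0 < δ) (hc' : 0 < c')
    (hℓ : 1 ≤ ℓ) : ∀ᶠ d : ℕ in atTop, ∀ (p q : ℝ) (k : ℕ), 0 ≤ p → p ≤ 1 →
      c' ≤ q * (d : ℝ) ^ 2 → q ≤ 1 → BX d p κ δ ℓ k →
      ∀ (lo hi : Vx d) (D : Finset (Fin d)), isB ℓ lo hi D → (k : ℝ) + 4 * δ * d ≤ D.card →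
        (d : ℝ) ^ 10 ≤ (Finset.Icc lo hi).card →
        ∃ w ∈ Finset.Icc lo hi, κ / 8 ≤ EB p (bx lo hi) (fun Y => EB q (bx lo hi)
          (fun ξ => ind (Att (κ / 4) lo hi Y ξ w))) := by
  have hm := merge κ (κ / 100) c' ℓ hκ (by positivity) le_rfl hκ1 hc' hℓ
  filter_upwards [hm, eventually_ge_atTop 2] with d hd hd2
  intro p q k hp0 hp1 hcq hq1 hBX lo hi D hB hD hN
  have hdR : (2 : ℝ) ≤ d := by exact_mod_cast hd2
  have hd2R : (4 : ℝ) ≤ (d : ℝ) ^ 2 := by nlinarith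
  have hq0 : 0 ≤ q := by
    by_contra h
    push Not at h
    nlinarith
  have hNpos : (0 : ℝ) < (Finset.Icc lo hi).card := lt_of_lt_of_le (by positivity) hN
  have hexp := CC_exp d hd2
  have hside : ∀ i, hi i - lo i + 1 ≤ ℓ := by
    intro i
    by_cases h : i ∈ D
    · rw [hB.1 i h]
      linarith
    · rw [hB.2 i h]
      simp
      exact hℓ
  have key : ∀ Y, Y ⊆ bx lo hi → κ / 4 * (Finset.Icc lo hi).card * (3 / 4) *
      (1 - ind (¬ GB κ lo hi Y)) ≤ EB q (bx lo hi)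
        (fun ξ => ∑ w ∈ Finset.Icc lo hi, ind (Att (κ / 4) lo hi Y ξ w)) := by
    intro Y _
    by_cases hG : GB κ lo hi Y
    · have h1 := hd lo hi ∅ (Y ∩ bx lo hi) (VB lo hi Y) q hside hN (by simp)
        (fun v hv => ((CA_mem_VB _ _ _ _).1 hv).1) (VB_closed lo hi Y) hG hcq hq1
      rw [Finset.sdiff_empty] at h1
      rw [ind_false (not_not.2 hG), sub_zero, mul_one]
      have h2 : EB q (bx lo hi) (fun ξ => κ / 4 * (Finset.Icc lo hi).card *
          (1 - ind (¬ Gi (κ / 100 * (Finset.Icc lo hi).card) (VB lo hi Y)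
            (↑(Y ∩ bx lo hi) ∪ ↑ξ)))) ≤ EB q (bx lo hi)
        (fun ξ => ∑ w ∈ Finset.Icc lo hi, ind (Att (κ / 4) lo hi Y ξ w)) := by
        refine EB_mono q hq0 hq1 _ _ _ fun ξ hξ => ?_
        by_cases hGi : Gi (κ / 100 * (Finset.Icc lo hi).card) (VB lo hi Y)
            (↑(Y ∩ bx lo hi) ∪ ↑ξ)
        · rw [ind_false (not_not.2 hGi), sub_zero, mul_one]
          exact CC_aux hd2 κ hκ lo hi Y ξ hξ hG hGi
        · rw [ind_true hGi, sub_self, mul_zero]
          exact Finset.sum_nonneg fun w _ => ind_nonneg _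
      refine le_trans ?_ h2
      rw [CC_EB_not]
      refine mul_le_mul_of_nonneg_left ?_ (by positivity)
      linarith
    · rw [ind_true hG, sub_self, mul_zero]
      exact CC_EB_nonneg q hq0 hq1 _ _ fun ξ _ => Finset.sum_nonneg fun w _ => ind_nonneg _
  have h3 : κ / 4 * (Finset.Icc lo hi).card * (3 / 4) * (3 / 4) ≤
      EB p (bx lo hi) (fun Y => EB q (bx lo hi)
        (fun ξ => ∑ w ∈ Finset.Icc lo hi, ind (Att (κ / 4) lo hi Y ξ w))) := by
    refine le_trans ?_ (EB_mono p hp0 hp1 _ _ _ key)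
    rw [CC_EB_not]
    refine mul_le_mul_of_nonneg_left ?_ (by positivity)
    have h4 := hBX lo hi D hB hD
    nlinarith
  have h4 : EB p (bx lo hi) (fun Y => EB q (bx lo hi)
        (fun ξ => ∑ w ∈ Finset.Icc lo hi, ind (Att (κ / 4) lo hi Y ξ w))) =
      ∑ w ∈ Finset.Icc lo hi, EB p (bx lo hi) (fun Y => EB q (bx lo hi)
        (fun ξ => ind (Att (κ / 4) lo hi Y ξ w))) := by
    rw [← EB_sum]
    exact EB_congr p _ _ _ fun Y _ => EB_sum q _ _ _
  rw [h4] at h3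
  have hne : (Finset.Icc lo hi).Nonempty := by
    rw [← Finset.card_pos]
    exact_mod_cast hNpos
  refine Finset.exists_le_of_sum_le hne ?_
  refine le_trans ?_ h3
  rw [Finset.sum_const, nsmul_eq_mul]
  have : 0 < κ * (Finset.Icc lo hi).card := mul_pos hκ hNpos
  linarith

private theorem CD_Icc {d : ℕ} (a lo hi v : Vx d) :
    v + a ∈ Finset.Icc (lo + a) (hi + a) ↔ v ∈ Finset.Icc lo hi := by
  rw [Finset.mem_Icc, Finset.mem_Icc, add_le_add_iff_right, add_le_add_iff_right]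

private theorem CD_card {d : ℕ} (a lo hi : Vx d) :
    (Finset.Icc (lo + a) (hi + a)).card = (Finset.Icc lo hi).card := by
  symm
  refine Finset.card_nbij' (fun v => v + a) (fun v => v - a) ?_ ?_ ?_ ?_
  · intro v hv
    rw [Finset.mem_coe] at hv ⊢
    exact (CD_Icc a lo hi v).2 hv
  · intro v hv
    rw [Finset.mem_coe] at hv ⊢
    rw [← CD_Icc a lo hi, sub_add_cancel]
    exact hv
  · intro v _
    exact add_sub_cancel_right v a
  · intro v _
    exact sub_add_cancel v a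

private theorem CD_inter {d : ℕ} (a lo hi : Vx d) (Y : Finset (Ed d)) :
    (Y.image (shE a)) ∩ bx (lo + a) (hi + a) = (Y ∩ bx lo hi).image (shE a) := by
  rw [bx_shift, Finset.image_inter _ _ (shE_inj a)]

private theorem CD_VB {d : ℕ} (a lo hi : Vx d) (Y : Finset (Ed d)) (v : Vx d) :
    v + a ∈ VB (lo + a) (hi + a) (Y.image (shE a)) ↔ v ∈ VB lo hi Y := by
  rw [CA_mem_VB, CA_mem_VB, CD_Icc, CD_inter, Finset.coe_image, big_shift]

private theorem CD_Att {d : ℕ} (θ : ℝ) (a lo hi : Vx d) (Y ξ : Finset (Ed d)) (w : Vx d) :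
    Att θ (lo + a) (hi + a) (Y.image (shE a)) (ξ.image (shE a)) (w + a) ↔
      Att θ lo hi Y ξ w := by
  have h1 : (fl (VB (lo + a) (hi + a) (Y.image (shE a))) (fun v =>
      conn (↑(((Y.image (shE a)) ∪ (ξ.image (shE a))) ∩ bx (lo + a) (hi + a))) (w + a) v)).card =
      (fl (VB lo hi Y) (fun v => conn (↑((Y ∪ ξ) ∩ bx lo hi)) w v)).card := by
    have h2 : ∀ v, v + a ∈ fl (VB (lo + a) (hi + a) (Y.image (shE a))) (fun v =>
        conn (↑(((Y.image (shE a)) ∪ (ξ.image (shE a))) ∩ bx (lo + a) (hi + a))) (w + a) v) ↔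
        v ∈ fl (VB lo hi Y) (fun v => conn (↑((Y ∪ ξ) ∩ bx lo hi)) w v) := by
      intro v
      rw [mem_fl, mem_fl, CD_VB, ← Finset.image_union, CD_inter, Finset.coe_image, conn_shift]
    symm
    refine Finset.card_nbij' (fun v => v + a) (fun v => v - a) ?_ ?_ ?_ ?_
    · intro v hv
      rw [Finset.mem_coe] at hv ⊢
      exact (h2 v).2 hv
    · intro v hv
      rw [Finset.mem_coe] at hv ⊢
      rw [← h2, sub_add_cancel]
      exact hv
    · intro v _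
      exact add_sub_cancel_right v a
    · intro v _
      exact sub_add_cancel v a
  unfold Att
  rw [h1, CD_card]

/-- Module CD (M). Translation of `Att`. -/
theorem att_shift {d : ℕ} (θ p q : ℝ) (lo hi a w : Vx d) :
    EB p (bx (lo + a) (hi + a)) (fun Y => EB q (bx (lo + a) (hi + a))
      (fun ξ => ind (Att θ (lo + a) (hi + a) Y ξ (w + a)))) =
    EB p (bx lo hi) (fun Y => EB q (bx lo hi) (fun ξ => ind (Att θ lo hi Y ξ w))) := by
  rw [bx_shift, EB_shift]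
  refine EB_congr _ _ _ _ fun Y _ => ?_
  rw [EB_shift]
  exact EB_congr _ _ _ _ fun ξ _ => ind_congr (CD_Att θ a lo hi Y ξ w)

/-- Slices: coordinates in `I` between `a i` and `a i + ℓ - 1`, the others those of `p`. -/
def slo {d : ℕ} (I : Finset (Fin d)) (a p : Vx d) : Vx d := fun i => if i ∈ I then a i else p i
def shi {d : ℕ} (I : Finset (Fin d)) (ℓ : ℕ) (a p : Vx d) : Vx d :=
  fun i => if i ∈ I then a i + ℓ - 1 else p i

private theorem CE_isB {d : ℕ} (ℓ : ℕ) (I : Finset (Fin d)) (a u : Vx d) :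
    isB ℓ (slo I a u) (shi I ℓ a u) I := by
  refine ⟨fun i hi => ?_, fun i hi => ?_⟩
  · unfold slo shi
    rw [if_pos hi, if_pos hi]
  · unfold slo shi
    rw [if_neg hi, if_neg hi]

private theorem CE_pow (c : ℝ) (hc : 0 < c) :
    ∀ᶠ d : ℕ in atTop, (d : ℝ) ^ 10 ≤ (2 : ℝ) ^ (c * d) := by
  have h1 : Tendsto (fun x : ℝ => x ^ (10 : ℕ) / Real.exp (c * Real.log 2 * x)) atTop
      (nhds 0) := by
    have h2 := Real.tendsto_pow_mul_exp_neg_atTop_nhds_zero 10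
    have hc2 : 0 < c * Real.log 2 := mul_pos hc (Real.log_pos (by norm_num))
    have h3 : Tendsto (fun x : ℝ => c * Real.log 2 * x) atTop atTop :=
      Tendsto.const_mul_atTop hc2 tendsto_id
    have h4 := (h2.comp h3).const_mul ((c * Real.log 2) ^ 10)⁻¹
    rw [mul_zero] at h4
    refine h4.congr fun x => ?_
    simp only [Function.comp]
    rw [Real.exp_neg, mul_pow (c * Real.log 2) x 10, ← mul_assoc, ← mul_assoc,
      inv_mul_cancel₀ (pow_ne_zero _ hc2.ne'), one_mul, div_eq_mul_inv]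
  have h5 := (h1.comp tendsto_natCast_atTop_atTop).eventually (ge_mem_nhds (zero_lt_one))
  filter_upwards [h5] with d hd
  simp only [Function.comp] at hd
  rw [div_le_one (Real.exp_pos _)] at hd
  rw [Real.rpow_def_of_pos (by norm_num)]
  refine hd.trans (le_of_eq ?_)
  congr 1
  ring

private theorem CE_big (ℓ : ℕ) (hℓ : 2 ≤ ℓ) : ∀ᶠ d : ℕ in atTop, ∀ n : ℕ, (d : ℝ) ≤ 8 * n →
    (d : ℝ) ^ 10 ≤ (ℓ : ℝ) ^ n := by
  filter_upwards [CE_pow (1 / 8) (by norm_num)] with d hd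
  intro n hn
  refine hd.trans ?_
  have h1 : (2 : ℝ) ^ (1 / 8 * (d : ℝ)) ≤ (2 : ℝ) ^ (n : ℝ) :=
    Real.rpow_le_rpow_of_exponent_le (by norm_num) (by linarith)
  refine h1.trans ?_
  rw [Real.rpow_natCast]
  exact pow_le_pow_left₀ (by norm_num) (by exact_mod_cast hℓ) n

/-- Module CE (M). A common offset: `w` from `att_exists` for the slice with offset `y`, then
`a = y - (w - u)`, i.e. `a i = 2 y i - w i` for `i ∈ I`; translate by `u - w` and by `v - w`. -/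
theorem offset (κ δ c' : ℝ) (ℓ : ℕ) (hκ : 0 < κ) (hκ1 : κ ≤ 1) (hδ : 0 < δ) (hc' : 0 < c')
    (hℓ : 2 ≤ ℓ) : ∀ᶠ d : ℕ in atTop, ∀ (p q : ℝ) (k : ℕ), 0 ≤ p → p ≤ 1 →
      c' ≤ q * (d : ℝ) ^ 2 → q ≤ 1 → (d : ℝ) ≤ 8 * k → BX d p κ δ ℓ k →
      ∀ (y : Vx d) (I S : Finset (Fin d)), Disjoint I S → (k : ℝ) + 4 * δ * d ≤ I.card →
        ∃ a : Vx d, (∀ i ∈ I, a i ≤ y i ∧ y i ≤ a i + ℓ - 1) ∧ ∀ u ∈ near y S,
          κ / 8 ≤ EB p (bx (slo I a u) (shi I ℓ a u)) (fun Y => EB q (bx (slo I a u) (shi I ℓ a u))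
            (fun ξ => ind (Att (κ / 4) (slo I a u) (shi I ℓ a u) Y ξ u))) := by
  filter_upwards [att_exists κ δ c' ℓ hκ hκ1 hδ hc' (by omega), CE_big ℓ hℓ] with d hd hbig
  intro p q k hp0 hp1 hcq hq1 hdk hBX y I S hIS hk
  have hkI : (k : ℝ) ≤ I.card := by
    have : 0 ≤ 4 * δ * d := by positivity
    linarith
  have hB := CE_isB ℓ I y y
  have hN : (d : ℝ) ^ 10 ≤ (Finset.Icc (slo I y y) (shi I ℓ y y)).card := by
    rw [card_box _ _ ℓ I hB.1 hB.2]
    push_cast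
    exact hbig I.card (by linarith)
  obtain ⟨w, hw, hw1⟩ := hd p q k hp0 hp1 hcq hq1 hBX _ _ I hB hk hN
  rw [Finset.mem_Icc] at hw
  have hwI : ∀ i ∈ I, y i ≤ w i ∧ w i ≤ y i + ℓ - 1 := by
    intro i hi
    have h1 := hw.1 i
    have h2 := hw.2 i
    unfold slo at h1
    unfold shi at h2
    rw [if_pos hi] at h1 h2
    exact ⟨h1, h2⟩
  have hwn : ∀ i, i ∉ I → w i = y i := by
    intro i hi
    have h1 := hw.1 i
    have h2 := hw.2 i
    unfold slo at h1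
    unfold shi at h2
    rw [if_neg hi] at h1 h2
    exact le_antisymm h2 h1
  refine ⟨fun i => 2 * y i - w i, ?_, ?_⟩
  · intro i hi
    have := hwI i hi
    constructor
    · linarith [this.1]
    · linarith [this.2]
  · intro u hu
    have huI : ∀ i ∈ I, u i = y i := fun i hi => hu.2 i (Finset.disjoint_left.1 hIS hi)
    have e1 : slo I (fun i => 2 * y i - w i) u = slo I y y + (u - w) := by
      funext i
      simp only [slo, Pi.add_apply, Pi.sub_apply]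
      by_cases hi : i ∈ I
      · rw [if_pos hi, if_pos hi, huI i hi]
        ring
      · rw [if_neg hi, if_neg hi, hwn i hi]
        ring
    have e2 : shi I ℓ (fun i => 2 * y i - w i) u = shi I ℓ y y + (u - w) := by
      funext i
      simp only [shi, Pi.add_apply, Pi.sub_apply]
      by_cases hi : i ∈ I
      · rw [if_pos hi, if_pos hi, huI i hi]
        ring
      · rw [if_neg hi, if_neg hi, hwn i hi]
        ring
    have e3 : u = w + (u - w) := by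
      rw [add_sub_cancel]
    rw [e1, e2]
    have h5 := att_shift (κ / 4) p q (slo I y y) (shi I ℓ y y) (u - w) w
    rw [← e3] at h5
    rw [h5]
    exact hw1

/-- Module CF (M). Geometry of the slices, for an offset `a` with `a i ≤ y i ≤ a i + ℓ - 1` on `I`,
`I, S` disjoint and contained in `marg lo hi r y`, `ℓ ≤ r`. -/
theorem slice_isB {d : ℕ} (ℓ : ℕ) (I : Finset (Fin d)) (a u : Vx d) :
    isB ℓ (slo I a u) (shi I ℓ a u) I := by
  exact CE_isB ℓ I a u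

private theorem CF_slo {d : ℕ} {I : Finset (Fin d)} (a u : Vx d) {i : Fin d} (h : i ∈ I) :
    slo I a u i = a i := if_pos h

private theorem CF_slo' {d : ℕ} {I : Finset (Fin d)} (a u : Vx d) {i : Fin d} (h : i ∉ I) :
    slo I a u i = u i := if_neg h

private theorem CF_shi {d : ℕ} {I : Finset (Fin d)} (ℓ : ℕ) (a u : Vx d) {i : Fin d}
    (h : i ∈ I) : shi I ℓ a u i = a i + ℓ - 1 := if_pos h

private theorem CF_shi' {d : ℕ} {I : Finset (Fin d)} (ℓ : ℕ) (a u : Vx d) {i : Fin d}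
    (h : i ∉ I) : shi I ℓ a u i = u i := if_neg h

private theorem CF_le {d : ℕ} {u v : Vx d} (h : u ≤ v) (i : Fin d) : u i ≤ v i := h i

private theorem CF_uv {d : ℕ} (i j : Fin d) (w : Vx d) :
    (w + uv i) j = w j + (if j = i then 1 else 0) := by
  rw [Pi.add_apply, uv, Pi.single_apply]

private theorem CF_tip {d : ℕ} (e : Ed d) : tip e e.2 = e.1 e.2 + 1 := by
  unfold tip
  rw [CF_uv, if_pos rfl]

private theorem CF_near {d : ℕ} {y w : Vx d} {S : Finset (Fin d)} (h : w ∈ near y S) (i : Fin d) :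
    y i - 1 ≤ w i ∧ w i ≤ y i + 1 := by
  by_cases hi : i ∈ S
  · have := abs_le.1 (h.1 i hi)
    constructor <;> linarith [this.1, this.2]
  · rw [h.2 i hi]
    constructor <;> linarith

private theorem CF_dir {d : ℕ} {y : Vx d} {S : Finset (Fin d)} {e : Ed d} (h1 : e.1 ∈ near y S)
    (h2 : tip e ∈ near y S) : e.2 ∈ S := by
  by_contra h
  have h3 := h1.2 e.2 h
  have h4 := h2.2 e.2 h
  rw [CF_tip] at h4
  omega

private theorem CF_sub {d : ℕ} (lo hi y a u v : Vx d) (hy : y ∈ Finset.Icc lo hi) (ℓ r : ℕ)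
    (hr : ℓ ≤ r) (h1 : 1 ≤ ℓ) (I S : Finset (Fin d))
    (hI : I ⊆ marg lo hi r y) (hS : S ⊆ marg lo hi r y)
    (ha : ∀ i ∈ I, a i ≤ y i ∧ y i ≤ a i + ℓ - 1)
    (hu : u ∈ near y S) (hv : v ∈ near y S) :
    bx (slo I a u) (shi I ℓ a v) ⊆ bx lo hi := by
  have hr' : (ℓ : ℤ) ≤ r := by exact_mod_cast hr
  have hl' : (1 : ℤ) ≤ ℓ := by exact_mod_cast h1
  have hy' := Finset.mem_Icc.1 hy
  have hub : ∀ w ∈ near y S, ∀ i, lo i ≤ w i ∧ w i ≤ hi i := by
    intro w hw i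
    by_cases hiS : i ∈ S
    · have h2 := (mem_marg _ _ _ _ _).1 (hS hiS)
      have h3 := CF_near hw i
      constructor
      · linarith [h2.1, h3.1]
      · linarith [h2.2, h3.2]
    · rw [hw.2 i hiS]
      exact ⟨hy'.1 i, hy'.2 i⟩
  have hlo : lo ≤ slo I a u := by
    intro i
    by_cases hi' : i ∈ I
    · rw [CF_slo a u hi']
      have h2 := (mem_marg _ _ _ _ _).1 (hI hi')
      have h3 := ha i hi'
      linarith [h2.1, h3.2]
    · rw [CF_slo' a u hi']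
      exact (hub u hu i).1
  have hhi : shi I ℓ a v ≤ hi := by
    intro i
    by_cases hi' : i ∈ I
    · rw [CF_shi ℓ a v hi']
      have h2 := (mem_marg _ _ _ _ _).1 (hI hi')
      have h3 := ha i hi'
      linarith [h2.2, h3.1]
    · rw [CF_shi' ℓ a v hi']
      exact (hub v hv i).2
  intro e he
  unfold bx at he ⊢
  rw [mem_edg, Finset.mem_Icc, Finset.mem_Icc] at he ⊢
  exact ⟨⟨hlo.trans he.1.1, he.1.2.trans hhi⟩, ⟨hlo.trans he.2.1, he.2.2.trans hhi⟩⟩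

theorem slice_sub {d : ℕ} (lo hi y a u : Vx d) (hy : y ∈ Finset.Icc lo hi) (ℓ r : ℕ)
    (hr : ℓ ≤ r) (h1 : 1 ≤ ℓ) (I S : Finset (Fin d)) (hIS : Disjoint I S)
    (hI : I ⊆ marg lo hi r y) (hS : S ⊆ marg lo hi r y)
    (ha : ∀ i ∈ I, a i ≤ y i ∧ y i ≤ a i + ℓ - 1) (F : Finset (Ed d))
    (hF : ∀ e ∈ F, e.1 ∈ near y S ∧ tip e ∈ near y S) (hu : u ∈ near y S) :
    bx (slo I a u) (shi I ℓ a u) ⊆ bx lo hi \ F ∧
      u ∈ Finset.Icc (slo I a u) (shi I ℓ a u) := by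
  refine ⟨?_, ?_⟩
  · intro e he
    rw [Finset.mem_sdiff]
    refine ⟨CF_sub lo hi y a u u hy ℓ r hr h1 I S hI hS ha hu hu he, ?_⟩
    intro heF
    have h2 := hF e heF
    have h3 := CF_dir h2.1 h2.2
    have h4 : e.2 ∉ I := fun h => Finset.disjoint_left.1 hIS h h3
    unfold bx at he
    rw [mem_edg, Finset.mem_Icc, Finset.mem_Icc] at he
    have h5 := CF_le he.1.1 e.2
    have h6 := CF_le he.2.2 e.2
    rw [CF_slo' a u h4] at h5
    rw [CF_shi' ℓ a u h4, CF_tip] at h6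
    omega
  · rw [Finset.mem_Icc]
    constructor
    · intro i
      by_cases hi' : i ∈ I
      · rw [CF_slo a u hi', hu.2 i (Finset.disjoint_left.1 hIS hi')]
        exact (ha i hi').1
      · rw [CF_slo' a u hi']
    · intro i
      by_cases hi' : i ∈ I
      · rw [CF_shi ℓ a u hi', hu.2 i (Finset.disjoint_left.1 hIS hi')]
        exact (ha i hi').2
      · rw [CF_shi' ℓ a u hi']

/-- The double box of two adjacent slices. -/
theorem slice_two {d : ℕ} (lo hi y a u : Vx d) (hy : y ∈ Finset.Icc lo hi) (ℓ r : ℕ)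
    (hr : ℓ ≤ r) (h1 : 2 ≤ ℓ) (I S : Finset (Fin d)) (hIS : Disjoint I S)
    (hI : I ⊆ marg lo hi r y) (hS : S ⊆ marg lo hi r y)
    (ha : ∀ i ∈ I, a i ≤ y i ∧ y i ≤ a i + ℓ - 1) (F : Finset (Ed d))
    (hF : ∀ e ∈ F, e.1 ∈ near y S ∧ tip e ∈ near y S) (hu : u ∈ near y S) (i : Fin d)
    (hi' : i ∈ S) (hv : u + uv i ∈ near y S) :
    Finset.Icc (slo I a u) (shi I ℓ a (u + uv i)) =
        Finset.Icc (slo I a u) (shi I ℓ a u) ∪
          Finset.Icc (slo I a (u + uv i)) (shi I ℓ a (u + uv i)) ∧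
      Disjoint (Finset.Icc (slo I a u) (shi I ℓ a u))
        (Finset.Icc (slo I a (u + uv i)) (shi I ℓ a (u + uv i))) ∧
      (F ∩ bx (slo I a u) (shi I ℓ a (u + uv i))).card ≤ 1 ∧
      bx (slo I a u) (shi I ℓ a (u + uv i)) ⊆ bx lo hi ∧
      ∀ j, shi I ℓ a (u + uv i) j - slo I a u j + 1 ≤ ℓ := by
  have hiI : i ∉ I := fun h => Finset.disjoint_left.1 hIS h hi'
  have hl' : (2 : ℤ) ≤ ℓ := by exact_mod_cast h1
  have hsl : slo I a (u + uv i) = fun j => slo I a u j + (if j = i then 1 else 0) := by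
    funext j
    by_cases hj : j ∈ I
    · have : j ≠ i := fun h => hiI (h ▸ hj)
      rw [CF_slo _ _ hj, CF_slo _ _ hj, if_neg this, add_zero]
    · rw [CF_slo' _ _ hj, CF_slo' _ _ hj, CF_uv]
  have hsh : shi I ℓ a (u + uv i) = fun j => shi I ℓ a u j + (if j = i then 1 else 0) := by
    funext j
    by_cases hj : j ∈ I
    · have : j ≠ i := fun h => hiI (h ▸ hj)
      rw [CF_shi _ _ _ hj, CF_shi _ _ _ hj, if_neg this, add_zero]
    · rw [CF_shi' _ _ _ hj, CF_shi' _ _ _ hj, CF_uv]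
  have hs1 : slo I a u i = u i := CF_slo' a u hiI
  have hs2 : shi I ℓ a u i = u i := CF_shi' ℓ a u hiI
  refine ⟨?_, ?_, ?_, ?_, ?_⟩
  · ext w
    rw [Finset.mem_union, Finset.mem_Icc, Finset.mem_Icc, Finset.mem_Icc, hsl, hsh]
    simp only [Pi.le_def]
    constructor
    · rintro ⟨h2, h3⟩
      by_cases hw : w i ≤ u i
      · left
        refine ⟨h2, fun j => ?_⟩
        by_cases hj : j = i
        · rw [hj, hs2]
          exact hw
        · have := h3 j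
          rw [if_neg hj, add_zero] at this
          exact this
      · right
        refine ⟨fun j => ?_, h3⟩
        by_cases hj : j = i
        · rw [hj, hs1, if_pos rfl]
          omega
        · rw [if_neg hj, add_zero]
          exact h2 j
    · rintro (⟨h2, h3⟩ | ⟨h2, h3⟩)
      · refine ⟨h2, fun j => (h3 j).trans ?_⟩
        split_ifs <;> omega
      · refine ⟨fun j => le_trans ?_ (h2 j), h3⟩
        split_ifs <;> omega
  · rw [Finset.disjoint_left]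
    intro w hw1 hw2
    rw [Finset.mem_Icc] at hw1 hw2
    have h2 := CF_le hw1.2 i
    have h3 := CF_le hw2.1 i
    rw [hsl] at h3
    simp only [if_true] at h3
    rw [hs2] at h2
    rw [hs1] at h3
    omega
  · rw [Finset.card_le_one]
    have key : ∀ e ∈ F ∩ bx (slo I a u) (shi I ℓ a (u + uv i)), e.2 = i ∧
        ∀ j, e.1 j = if j ∈ I then y j else u j := by
      intro e he
      rw [Finset.mem_inter] at he
      have h2 := hF e he.1
      have h3 := CF_dir h2.1 h2.2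
      have h4 : e.2 ∉ I := fun h => Finset.disjoint_left.1 hIS h h3
      have h5 := he.2
      unfold bx at h5
      rw [mem_edg, Finset.mem_Icc, Finset.mem_Icc, hsh] at h5
      have h6 : e.2 = i := by
        by_contra hne
        have h7 := CF_le h5.1.1 e.2
        have h8 := CF_le h5.2.2 e.2
        rw [CF_slo' _ _ h4] at h7
        simp only [if_neg hne, add_zero] at h8
        rw [CF_tip, CF_shi' _ _ _ h4] at h8
        omega
      refine ⟨h6, fun j => ?_⟩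
      by_cases hj : j ∈ I
      · rw [if_pos hj]
        exact h2.1.2 j (Finset.disjoint_left.1 hIS hj)
      · rw [if_neg hj]
        have h7 := CF_le h5.1.1 j
        have h8 := CF_le h5.1.2 j
        have h9 := CF_le h5.2.2 j
        rw [CF_slo' _ _ hj] at h7
        by_cases hji : j = i
        · rw [hji, ← h6, CF_tip, h6] at h9
          simp only [if_true] at h9
          rw [hs2] at h9
          rw [hji] at h7 ⊢
          omega
        · simp only [if_neg hji, add_zero] at h8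
          rw [CF_shi' _ _ _ hj] at h8
          omega
    intro e he e' he'
    have k1 := key e he
    have k2 := key e' he'
    apply Prod.ext
    · funext j
      rw [k1.2, k2.2]
    · rw [k1.1, k2.1]
  · exact CF_sub lo hi y a u (u + uv i) hy ℓ r hr (by omega) I S hI hS ha hu hv
  · intro j
    rw [hsh]
    by_cases hj : j ∈ I
    · have : j ≠ i := fun h => hiI (h ▸ hj)
      simp only [if_neg this, add_zero]
      rw [CF_shi _ _ _ hj, CF_slo _ _ hj]
      linarith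
    · simp only
      rw [CF_shi' _ _ _ hj, CF_slo' _ _ hj]
      split_ifs <;> omega

theorem slice_disj {d : ℕ} (y a u v : Vx d) (ℓ : ℕ) (I S : Finset (Fin d)) (hIS : Disjoint I S)
    (hu : u ∈ near y S) (hv : v ∈ near y S) (huv : u ≠ v) :
    Disjoint (bx (slo I a u) (shi I ℓ a u)) (bx (slo I a v) (shi I ℓ a v)) := by
  obtain ⟨j, hj⟩ : ∃ j, u j ≠ v j := by
    by_contra h
    push Not at h
    exact huv (funext h)
  have hjS : j ∈ S := by
    by_contra h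
    exact hj (by rw [hu.2 j h, hv.2 j h])
  have hjI : j ∉ I := fun h => Finset.disjoint_left.1 hIS h hjS
  rw [Finset.disjoint_left]
  intro e he1 he2
  unfold bx at he1 he2
  rw [mem_edg, Finset.mem_Icc, Finset.mem_Icc] at he1 he2
  have h1 := CF_le he1.1.1 j
  have h2 := CF_le he1.1.2 j
  have h3 := CF_le he2.1.1 j
  have h4 := CF_le he2.1.2 j
  rw [CF_slo' _ _ hjI] at h1 h3
  rw [CF_shi' _ _ _ hjI] at h2 h4
  exact hj (by omega)

theorem slice_card {d : ℕ} (ℓ : ℕ) (I : Finset (Fin d)) (a u : Vx d) :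
    (Finset.Icc (slo I a u) (shi I ℓ a u)).card = ℓ ^ I.card := by
  exact card_box _ _ ℓ I (CE_isB ℓ I a u).1 (CE_isB ℓ I a u).2

private theorem CG_aux {d : ℕ} (y : Vx d) (S : Finset (Fin d)) (v : Vx d)
    (hv : v ∈ near y S) : ∀ (n : ℕ) (u : Vx d), u ∈ near y S →
      ∑ i ∈ S, (u i - v i).natAbs = n → ∃ P : ℕ → Vx d, P 0 = u ∧ P n = v ∧
      (∀ j ≤ n, P j ∈ near y S) ∧
      ∀ j < n, ∃ i ∈ S, P (j + 1) = P j + uv i ∨ P j = P (j + 1) + uv i := by
  intro n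
  induction n with
  | zero =>
    intro u hu hs
    refine ⟨fun _ => u, rfl, ?_, fun _ _ => hu, fun j hj => absurd hj (Nat.not_lt_zero j)⟩
    funext i
    by_cases hi : i ∈ S
    · have h1 := (Finset.sum_eq_zero_iff.1 hs) i hi
      rw [Int.natAbs_eq_zero] at h1
      exact sub_eq_zero.1 h1
    · change u i = v i
      rw [hu.2 i hi, hv.2 i hi]
  | succ n ih =>
    intro u hu hs
    obtain ⟨i, hi, hne⟩ : ∃ i ∈ S, (u i - v i).natAbs ≠ 0 := by
      by_contra h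
      push Not at h
      rw [Finset.sum_eq_zero h] at hs
      exact absurd hs (Nat.succ_ne_zero n).symm
    have hui := CF_near hu i
    have hvi := CF_near hv i
    have step : ∀ u' : Vx d, (∀ j, j ≠ i → u' j = u j) → (y i - 1 ≤ u' i ∧ u' i ≤ y i + 1) →
        (u' i - v i).natAbs + 1 = (u i - v i).natAbs → (u' = u + uv i ∨ u = u' + uv i) →
        ∃ P : ℕ → Vx d, P 0 = u ∧ P (n + 1) = v ∧ (∀ j ≤ n + 1, P j ∈ near y S) ∧
        ∀ j < n + 1, ∃ i ∈ S, P (j + 1) = P j + uv i ∨ P j = P (j + 1) + uv i := by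
      intro u' h1 h2 h3 h4
      have hu' : u' ∈ near y S := by
        refine ⟨fun j hj => ?_, fun j hj => ?_⟩
        · by_cases hji : j = i
          · rw [hji, abs_le]
            constructor <;> linarith [h2.1, h2.2]
          · rw [h1 j hji]
            exact hu.1 j hj
        · have : j ≠ i := fun h => hj (h ▸ hi)
          rw [h1 j this]
          exact hu.2 j hj
      have hs' : ∑ j ∈ S, (u' j - v j).natAbs = n := by
        rw [← Finset.add_sum_erase S _ hi] at hs ⊢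
        have h5 : ∑ j ∈ S.erase i, (u' j - v j).natAbs =
            ∑ j ∈ S.erase i, (u j - v j).natAbs := by
          refine Finset.sum_congr rfl fun j hj => ?_
          rw [h1 j (Finset.mem_erase.1 hj).1]
        rw [h5]
        omega
      obtain ⟨P, hP0, hPn, hPm, hPs⟩ := ih u' hu' hs'
      refine ⟨fun j => Nat.casesOn j u P, rfl, hPn, ?_, ?_⟩
      · intro j hj
        cases j with
        | zero => exact hu
        | succ j => exact hPm j (by omega)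
      · intro j hj
        cases j with
        | zero =>
          refine ⟨i, hi, ?_⟩
          change P 0 = u + uv i ∨ u = P 0 + uv i
          rw [hP0]
          exact h4
        | succ j => exact hPs j (by omega)
    rcases lt_or_gt_of_ne (show u i ≠ v i by
      intro h
      apply hne
      rw [h, sub_self]
      rfl) with hlt | hgt
    · refine step (u + uv i) (fun j hj => ?_) ?_ ?_ (Or.inl rfl)
      · rw [CF_uv, if_neg hj, add_zero]
      · rw [CF_uv, if_pos rfl]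
        constructor <;> linarith [hui.1, hvi.2]
      · rw [CF_uv, if_pos rfl]
        omega
    · have e1 : ∀ j, (u - uv i) j = u j - (if j = i then 1 else 0) := by
        intro j
        rw [Pi.sub_apply, uv, Pi.single_apply]
      refine step (u - uv i) (fun j hj => ?_) ?_ ?_ (Or.inr (sub_add_cancel _ _).symm)
      · rw [e1, if_neg hj, sub_zero]
      · rw [e1, if_pos rfl]
        constructor <;> linarith [hui.2, hvi.1]
      · rw [e1, if_pos rfl]
        omega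

/-- Module CG (M). Chain of adjacent vertices between two points of `near y S`. -/
theorem chain {d : ℕ} (y : Vx d) (S : Finset (Fin d)) (u v : Vx d) (hu : u ∈ near y S)
    (hv : v ∈ near y S) : ∃ (n : ℕ) (P : ℕ → Vx d), n ≤ 2 * S.card ∧ P 0 = u ∧ P n = v ∧
      (∀ j ≤ n, P j ∈ near y S) ∧
      ∀ j < n, ∃ i ∈ S, P (j + 1) = P j + uv i ∨ P j = P (j + 1) + uv i := by
  obtain ⟨P, h⟩ := CG_aux y S v hv _ u hu rfl
  refine ⟨_, P, ?_, h⟩
  have h1 : ∀ i ∈ S, (u i - v i).natAbs ≤ 2 := by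
    intro i _
    have hui := CF_near hu i
    have hvi := CF_near hv i
    omega
  have h2 := Finset.sum_le_card_nsmul S _ 2 h1
  rw [smul_eq_mul, mul_comm] at h2
  exact h2

private theorem CH_Gi_mono {d : ℕ} {t : ℝ} {V : Finset (Vx d)} {ω ω' : Set (Ed d)}
    (h : ω ⊆ ω') (hG : Gi t V ω) : Gi t V ω' := by
  obtain ⟨T, h1, h2, h3⟩ := hG
  exact ⟨T, h1, h2, fun u hu v hv => conn_mono h (h3 u hu v hv)⟩

private theorem CH_nf_mono {d : ℕ} {V V' : Finset (Vx d)} (h : V ⊆ V') (w : Vx d) :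
    (nf V w).card ≤ (nf V' w).card := by
  refine Finset.card_le_card ?_
  intro i hi
  unfold nf at hi ⊢
  rw [mem_fl] at hi ⊢
  exact ⟨hi.1, h hi.2⟩

private theorem CH_q {d : ℕ} {c' q : ℝ} (hc' : 0 < c') (h : c' ≤ q * (d : ℝ) ^ 2) : 0 ≤ q := by
  by_contra hq
  push Not at hq
  have : 0 ≤ (d : ℝ) ^ 2 := by positivity
  nlinarith

/-- Module CH (M). Two adjacent slices: the probability that both are good but the merging
fails. `merge` for the double box (`N = 2 ℓ^|I|`), `V = VB (slice u) Y ∪ VB (slice v) Y`; the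
exceptional vertices of the double box are exceptional in their own slice. -/
theorem two_slices (κ c' : ℝ) (ℓ : ℕ) (hκ : 0 < κ) (hκ1 : κ ≤ 1) (hc' : 0 < c')
    (hℓ : 2 ≤ ℓ) : ∀ᶠ d : ℕ in atTop, ∀ (q : ℝ), c' ≤ q * (d : ℝ) ^ 2 → q ≤ 1 →
      ∀ (lo hi y a : Vx d) (r : ℕ) (I S : Finset (Fin d)) (F : Finset (Ed d)) (i : Fin d)
        (u v : Vx d) (Y : Finset (Ed d)), y ∈ Finset.Icc lo hi → ℓ ≤ r → Disjoint I S →
        I ⊆ marg lo hi r y → S ⊆ marg lo hi r y → (d : ℝ) ≤ 8 * I.card →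
        (∀ i ∈ I, a i ≤ y i ∧ y i ≤ a i + ℓ - 1) →
        (∀ e ∈ F, e.1 ∈ near y S ∧ tip e ∈ near y S) → u ∈ near y S → v ∈ near y S → i ∈ S →
        v = u + uv i →
        GB κ (slo I a u) (shi I ℓ a u) Y → GB κ (slo I a v) (shi I ℓ a v) Y →
        EB q (bx lo hi \ F) (fun ξ => ind (¬ Gi (κ / 100 * (2 * (ℓ : ℝ) ^ I.card))
          (VB (slo I a u) (shi I ℓ a u) Y ∪ VB (slo I a v) (shi I ℓ a v) Y) (↑Y ∪ ↑ξ))) ≤
          Real.exp (- (d : ℝ) ^ 2) := by
  have hm := merge κ (κ / 100) c' ℓ hκ (by positivity) le_rfl hκ1 hc' (by omega)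
  filter_upwards [hm, CE_big ℓ hℓ] with d hd hbig
  intro q hcq hq1 lo hi y a r I S F i u v Y hy hr hIS hI hS hdI ha hF hu hv hi' huv hGu hGv
  subst huv
  obtain ⟨hU, hDj, hFc, hBsub, hside⟩ :=
    slice_two lo hi y a u hy ℓ r hr hℓ I S hIS hI hS ha F hF hu i hi' hv
  have hN : ((Finset.Icc (slo I a u) (shi I ℓ a (u + uv i))).card : ℝ) =
      2 * (ℓ : ℝ) ^ I.card := by
    rw [hU, Finset.card_union_of_disjoint hDj, slice_card, slice_card]
    push_cast
    ring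
  have hq0 := CH_q hc' hcq
  have hp : (0 : ℝ) ≤ (ℓ : ℝ) ^ I.card := by positivity
  have hmem : ∀ v : Vx d, v ∈ VB (slo I a u) (shi I ℓ a u) Y ∪
      VB (slo I a (u + uv i)) (shi I ℓ a (u + uv i)) Y →
      v ∈ Finset.Icc (slo I a u) (shi I ℓ a (u + uv i)) := by
    intro v hv
    rw [hU, Finset.mem_union]
    rw [Finset.mem_union] at hv
    rcases hv with hv | hv
    · exact Or.inl ((CA_mem_VB _ _ _ _).1 hv).1
    · exact Or.inr ((CA_mem_VB _ _ _ _).1 hv).1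
  have hcl : ∀ v ∈ VB (slo I a u) (shi I ℓ a u) Y ∪
      VB (slo I a (u + uv i)) (shi I ℓ a (u + uv i)) Y, ∃ T : Finset (Vx d),
      T ⊆ VB (slo I a u) (shi I ℓ a u) Y ∪
        VB (slo I a (u + uv i)) (shi I ℓ a (u + uv i)) Y ∧ d ^ 8 ≤ T.card ∧
      ∀ u ∈ T, conn (↑Y) v u := by
    intro v hv
    rw [Finset.mem_union] at hv
    rcases hv with hv | hv
    · obtain ⟨T, h1, h2, h3⟩ := VB_closed _ _ _ _ hv
      refine ⟨T, h1.trans Finset.subset_union_left, h2, fun w hw => conn_mono ?_ (h3 w hw)⟩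
      exact_mod_cast Finset.inter_subset_left
    · obtain ⟨T, h1, h2, h3⟩ := VB_closed _ _ _ _ hv
      refine ⟨T, h1.trans Finset.subset_union_right, h2, fun w hw => conn_mono ?_ (h3 w hw)⟩
      exact_mod_cast Finset.inter_subset_left
  have hex : (d : ℝ) ^ 2 * (ex0 κ (slo I a u) (shi I ℓ a (u + uv i))
      (VB (slo I a u) (shi I ℓ a u) Y ∪
        VB (slo I a (u + uv i)) (shi I ℓ a (u + uv i)) Y)).card ≤
      (Finset.Icc (slo I a u) (shi I ℓ a (u + uv i))).card := by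
    have hsub : ex0 κ (slo I a u) (shi I ℓ a (u + uv i))
      (VB (slo I a u) (shi I ℓ a u) Y ∪
        VB (slo I a (u + uv i)) (shi I ℓ a (u + uv i)) Y) ⊆
        ex0 κ (slo I a u) (shi I ℓ a u) (VB (slo I a u) (shi I ℓ a u) Y) ∪
        ex0 κ (slo I a (u + uv i)) (shi I ℓ a (u + uv i))
          (VB (slo I a (u + uv i)) (shi I ℓ a (u + uv i)) Y) := by
      intro w hw
      unfold ex0 at hw ⊢
      rw [mem_fl, hU, Finset.mem_union] at hw
      rw [Finset.mem_union, mem_fl, mem_fl]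
      rcases hw.1 with h1 | h1
      · refine Or.inl ⟨h1, lt_of_le_of_lt ?_ hw.2⟩
        exact_mod_cast CH_nf_mono Finset.subset_union_left w
      · refine Or.inr ⟨h1, lt_of_le_of_lt ?_ hw.2⟩
        exact_mod_cast CH_nf_mono Finset.subset_union_right w
    have hc : ((ex0 κ (slo I a u) (shi I ℓ a (u + uv i))
      (VB (slo I a u) (shi I ℓ a u) Y ∪
        VB (slo I a (u + uv i)) (shi I ℓ a (u + uv i)) Y)).card : ℝ) ≤
        (ex0 κ (slo I a u) (shi I ℓ a u) (VB (slo I a u) (shi I ℓ a u) Y)).card +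
        (ex0 κ (slo I a (u + uv i)) (shi I ℓ a (u + uv i))
          (VB (slo I a (u + uv i)) (shi I ℓ a (u + uv i)) Y)).card := by
      exact_mod_cast (Finset.card_le_card hsub).trans (Finset.card_union_le _ _)
    unfold GB at hGu hGv
    rw [slice_card] at hGu hGv
    push_cast at hGu hGv
    rw [hN]
    have h5 := mul_le_mul_of_nonneg_left hc (by positivity : (0 : ℝ) ≤ (d : ℝ) ^ 2)
    rw [mul_add] at h5
    linarith
  have hNd : (d : ℝ) ^ 10 ≤ (Finset.Icc (slo I a u) (shi I ℓ a (u + uv i))).card := by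
    rw [hN]
    have := hbig I.card hdI
    linarith
  have h1 := hd (slo I a u) (shi I ℓ a (u + uv i))
    (F ∩ bx (slo I a u) (shi I ℓ a (u + uv i))) Y _ q hside hNd hFc hmem hcl hex hcq hq1
  rw [hN] at h1
  refine le_trans ?_ h1
  have hBs : bx (slo I a u) (shi I ℓ a (u + uv i)) \
      (F ∩ bx (slo I a u) (shi I ℓ a (u + uv i))) ⊆ bx lo hi \ F := by
    intro e he
    rw [Finset.mem_sdiff, Finset.mem_inter] at he
    rw [Finset.mem_sdiff]
    exact ⟨hBsub he.1, fun h => he.2 ⟨h, he.1⟩⟩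
  rw [← EB_restrict q (bx lo hi \ F) _ hBs]
  refine EB_mono q hq0 hq1 _ _ _ fun ξ _ => ind_mono fun h hG => h (CH_Gi_mono ?_ hG)
  refine Set.union_subset_union_right _ ?_
  exact_mod_cast Finset.inter_subset_left

private theorem CI_inter {α : Type} [DecidableEq α] (A W T : Finset α) (s : ℝ) (hA : A ⊆ W)
    (h1 : ((W \ T).card : ℝ) ≤ s) (h2 : s < A.card) : ∃ x ∈ A, x ∈ T := by
  by_contra h
  push Not at h
  have h3 : A ⊆ W \ T := fun x hx => Finset.mem_sdiff.2 ⟨hA hx, h x hx⟩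
  have h4 : (A.card : ℝ) ≤ (W \ T).card := by exact_mod_cast Finset.card_le_card h3
  linarith

/-- Module CI (M). Deterministic part: attached ends, good slices and mergings along the chain
give a connection. Consecutive giant sets intersect in the common slice (`V_large`), as
`κ/2 > 4 κ/100`. -/
theorem chain_conn {d : ℕ} (hd : 2 ≤ d) (κ : ℝ) (hκ : 0 < κ) (ℓ : ℕ) (I : Finset (Fin d))
    (hℓ : 1 ≤ ℓ) (a : Vx d) (Y ξ : Finset (Ed d)) (n : ℕ) (hn : 1 ≤ n) (P : ℕ → Vx d)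
    (h1 : Att (κ / 4) (slo I a (P 0)) (shi I ℓ a (P 0)) Y ξ (P 0))
    (h2 : Att (κ / 4) (slo I a (P n)) (shi I ℓ a (P n)) Y ξ (P n))
    (h3 : ∀ j ≤ n, GB κ (slo I a (P j)) (shi I ℓ a (P j)) Y)
    (h4 : ∀ j < n, Gi (κ / 100 * (2 * (ℓ : ℝ) ^ I.card))
      (VB (slo I a (P j)) (shi I ℓ a (P j)) Y ∪ VB (slo I a (P (j + 1))) (shi I ℓ a (P (j + 1))) Y)
      (↑Y ∪ ↑ξ)) :
    conn (↑Y ∪ ↑ξ) (P 0) (P n) := by
  classical
  have hM : (0 : ℝ) < (ℓ : ℝ) ^ I.card := by positivity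
  have hκM : 0 < κ * (ℓ : ℝ) ^ I.card := mul_pos hκ hM
  obtain ⟨V, hV⟩ : ∃ V : ℕ → Finset (Vx d), V = fun j =>
    VB (slo I a (P j)) (shi I ℓ a (P j)) Y := ⟨_, rfl⟩
  have hVj : ∀ j, VB (slo I a (P j)) (shi I ℓ a (P j)) Y = V j := by
    intro j
    rw [hV]
  have hVl : ∀ j ≤ n, κ / 2 * (ℓ : ℝ) ^ I.card ≤ (V j).card := by
    intro j hj
    have h5 := V_large hd κ hκ.le _ _ _ (h3 j hj)
    rw [hVj, slice_card] at h5
    push_cast at h5
    exact h5
  have hG : ∀ j, ∃ T : Finset (Vx d), j < n → (T ⊆ V j ∪ V (j + 1) ∧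
      (((V j ∪ V (j + 1)) \ T).card : ℝ) ≤ κ / 100 * (2 * (ℓ : ℝ) ^ I.card) ∧
      ∀ u ∈ T, ∀ v ∈ T, conn (↑Y ∪ ↑ξ) u v) := by
    intro j
    by_cases hj : j < n
    · obtain ⟨T, hT⟩ := h4 j hj
      rw [hVj, hVj] at hT
      exact ⟨T, fun _ => hT⟩
    · exact ⟨∅, fun h => absurd h hj⟩
  choose T hT using hG
  have hAtt : ∀ j, Att (κ / 4) (slo I a (P j)) (shi I ℓ a (P j)) Y ξ (P j) →
      ∃ A : Finset (Vx d), A ⊆ V j ∧ κ / 4 * (ℓ : ℝ) ^ I.card ≤ A.card ∧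
        ∀ x ∈ A, conn (↑Y ∪ ↑ξ) (P j) x := by
    intro j hj
    unfold Att at hj
    rw [slice_card, hVj] at hj
    push_cast at hj
    refine ⟨_, fl_subset _ _, hj, fun x hx => ?_⟩
    rw [mem_fl] at hx
    refine conn_mono ?_ hx.2
    intro e he
    exact he.1
  obtain ⟨A0, hA0, hA0c, hA0conn⟩ := hAtt 0 h1
  obtain ⟨An, hAn, hAnc, hAnconn⟩ := hAtt n h2
  have key : ∀ j, j < n → ∃ x ∈ T j, conn (↑Y ∪ ↑ξ) (P 0) x := by
    intro j
    induction j with
    | zero =>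
      intro hj
      obtain ⟨x, hx1, hx2⟩ := CI_inter A0 (V 0 ∪ V (0 + 1)) (T 0) _
        (hA0.trans Finset.subset_union_left) (hT 0 hj).2.1 (by linarith)
      exact ⟨x, hx2, hA0conn x hx1⟩
    | succ j ih =>
      intro hj
      obtain ⟨x0, hx0, hc0⟩ := ih (by omega)
      have hTj := hT j (by omega)
      have hTj1 := hT (j + 1) hj
      have hc1 : ((V (j + 1) ∩ T j).card : ℝ) + (V (j + 1) \ T j).card = (V (j + 1)).card := by
        exact_mod_cast Finset.card_inter_add_card_sdiff (V (j + 1)) (T j)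
      have hc2 : ((V (j + 1) \ T j).card : ℝ) ≤ ((V j ∪ V (j + 1)) \ T j).card := by
        exact_mod_cast Finset.card_le_card
          (Finset.sdiff_subset_sdiff Finset.subset_union_right (Finset.Subset.refl _))
      have hc3 := hVl (j + 1) (by omega)
      obtain ⟨x, hx1, hx2⟩ := CI_inter (V (j + 1) ∩ T j) (V (j + 1) ∪ V (j + 1 + 1)) (T (j + 1)) _
        (Finset.inter_subset_left.trans Finset.subset_union_left) hTj1.2.1
        (by linarith [hTj.2.1])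
      rw [Finset.mem_inter] at hx1
      exact ⟨x, hx2, conn_trans hc0 (hTj.2.2 x0 hx0 x hx1.2)⟩
  obtain ⟨x0, hx0, hc0⟩ := key (n - 1) (by omega)
  have hTn := hT (n - 1) (by omega)
  have hn1 : n - 1 + 1 = n := by omega
  rw [hn1] at hTn
  obtain ⟨x, hx1, hx2⟩ := CI_inter An (V (n - 1) ∪ V n) (T (n - 1)) _
    (hAn.trans Finset.subset_union_right) hTn.2.1 (by linarith)
  exact conn_trans (conn_trans hc0 (hTn.2.2 x0 hx0 x hx2)) (conn_symm (hAnconn x hx1))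

private theorem CJ_small (c : ℝ) (hc : 0 < c) (d s : ℕ) (h : s ^ 4 ≤ d)
    (hd : 1 / c ^ 2 ≤ d) : (s : ℝ) ≤ c * d := by
  have h4 : (s : ℝ) ^ 4 ≤ d := by exact_mod_cast h
  by_cases hs : 1 / c ≤ (s : ℝ)
  · rcases Nat.eq_zero_or_pos s with h0 | h0
    · rw [h0]
      simp only [Nat.cast_zero]
      positivity
    · have h1 : (1 : ℝ) ≤ s := by exact_mod_cast h0
      have h2 : (s : ℝ) * (1 / c) ≤ (s : ℝ) ^ 4 := by
        have h3 : (s : ℝ) ^ 2 ≤ (s : ℝ) ^ 4 := pow_le_pow_right₀ h1 (by norm_num)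
        nlinarith
      have h5 := h2.trans h4
      rw [mul_one_div, div_le_iff₀ hc] at h5
      linarith
  · push Not at hs
    refine hs.le.trans ?_
    rw [div_le_iff₀ (by positivity)] at hd
    rw [div_le_iff₀ hc]
    nlinarith

private theorem CJ_num (ε : ℝ) (hε : 0 < ε) (hε1 : ε ≤ 1) : ∀ᶠ d : ℕ in atTop,
    ∀ (x : ℝ) (k s : ℕ), 0 < x → 1 + ε ≤ 2 * k * x → (d : ℝ) ≤ 4 * k → s ^ 4 ≤ d →
      ∃ k₁ : ℕ, (k₁ : ℝ) + 4 * (ε / 200) * d ≤ k - s ∧ (d : ℝ) ≤ 8 * k₁ ∧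
        1 + ε / 2 ≤ 2 * k₁ * ((1 - ε / 16) * x) := by
  have hev : ∀ᶠ d : ℕ in atTop, 1 / (ε / 2000) ^ 2 ≤ (d : ℝ) :=
    tendsto_natCast_atTop_atTop.eventually (eventually_ge_atTop _)
  filter_upwards [hev, eventually_ge_atTop 1] with d hd hd1
  intro x k s hx hk hdk hs
  have hsd := CJ_small (ε / 2000) (by positivity) d s hs hd
  have h1d := CJ_small (ε / 2000) (by positivity) d 1 (by simpa using hd1) hd
  push_cast at h1d
  have hdp : (1 : ℝ) ≤ d := by exact_mod_cast hd1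
  have hεk : ε * d ≤ 4 * (ε * k) := by nlinarith
  have hk0 : (0 : ℝ) < k := by linarith
  have hlow : (k : ℝ) * (1 - 84 / 1000 * ε) ≤ k - s - 4 * (ε / 200) * d - 1 := by
    nlinarith
  have hpos : (0 : ℝ) < (k : ℝ) * (1 - 84 / 1000 * ε) := mul_pos hk0 (by linarith)
  refine ⟨⌊(k : ℝ) - s - 4 * (ε / 200) * d⌋₊, ?_, ?_, ?_⟩
  · have := Nat.floor_le (show (0 : ℝ) ≤ (k : ℝ) - s - 4 * (ε / 200) * d by linarith)
    linarith
  · have := Nat.lt_floor_add_one ((k : ℝ) - s - 4 * (ε / 200) * d)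
    nlinarith
  · have h1 := Nat.lt_floor_add_one ((k : ℝ) - s - 4 * (ε / 200) * d)
    have h2 : (k : ℝ) * (1 - 84 / 1000 * ε) ≤ (⌊(k : ℝ) - s - 4 * (ε / 200) * d⌋₊ : ℝ) := by
      linarith
    have h3 : 0 < (1 - ε / 16) * x := mul_pos (by linarith) hx
    have h4 := mul_le_mul_of_nonneg_right h2 h3.le
    have h5 : 1 + ε / 2 ≤ (1 + ε) * ((1 - 84 / 1000 * ε) * (1 - ε / 16)) := by
      nlinarith [mul_pos hε hε, mul_pos (mul_pos hε hε) hε]
    have h6 : 0 < (1 - 84 / 1000 * ε) * (1 - ε / 16) :=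
      mul_pos (by linarith) (by linarith)
    have h7 := mul_le_mul_of_nonneg_right hk h6.le
    nlinarith

private theorem CJ_VB {d : ℕ} (lo hi : Vx d) (Y : Finset (Ed d)) :
    VB lo hi (Y ∩ bx lo hi) = VB lo hi Y := by
  ext v
  rw [CA_mem_VB, CA_mem_VB, Finset.inter_assoc, Finset.inter_self]

private theorem CJ_Att {d : ℕ} (θ : ℝ) (lo hi : Vx d) (Y ξ : Finset (Ed d)) (u : Vx d) :
    Att θ lo hi (Y ∩ bx lo hi) (ξ ∩ bx lo hi) u ↔ Att θ lo hi Y ξ u := by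
  unfold Att
  rw [CJ_VB, ← Finset.union_inter_distrib_right, Finset.inter_assoc, Finset.inter_self]

private theorem CJ_GB {d : ℕ} (κ : ℝ) (lo hi : Vx d) (Y : Finset (Ed d)) :
    GB κ lo hi (Y ∩ bx lo hi) ↔ GB κ lo hi Y := by
  unfold GB
  rw [CJ_VB]

private theorem CJ_point {d : ℕ} (hd : 2 ≤ d) (κ : ℝ) (hκ : 0 < κ) (ℓ : ℕ) (I : Finset (Fin d))
    (hℓ : 1 ≤ ℓ) (a : Vx d) (Y ξ : Finset (Ed d)) (n : ℕ) (hn : 1 ≤ n) (P : ℕ → Vx d) :
    ind (Att (κ / 4) (slo I a (P 0)) (shi I ℓ a (P 0)) Y ξ (P 0)) *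
      ind (Att (κ / 4) (slo I a (P n)) (shi I ℓ a (P n)) Y ξ (P n)) ≤
    ind (conn (↑(Y ∪ ξ)) (P 0) (P n)) +
      (∑ j ∈ Finset.range (n + 1), ind (¬ GB κ (slo I a (P j)) (shi I ℓ a (P j)) Y)) +
      ∑ j ∈ Finset.range n, ind (GB κ (slo I a (P j)) (shi I ℓ a (P j)) Y ∧
        GB κ (slo I a (P (j + 1))) (shi I ℓ a (P (j + 1))) Y) *
        ind (¬ Gi (κ / 100 * (2 * (ℓ : ℝ) ^ I.card))
          (VB (slo I a (P j)) (shi I ℓ a (P j)) Y ∪
            VB (slo I a (P (j + 1))) (shi I ℓ a (P (j + 1))) Y) (↑Y ∪ ↑ξ)) := by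
  have hs1 : 0 ≤ ∑ j ∈ Finset.range (n + 1), ind (¬ GB κ (slo I a (P j)) (shi I ℓ a (P j)) Y) :=
    Finset.sum_nonneg fun j _ => ind_nonneg _
  have hs2 : 0 ≤ ∑ j ∈ Finset.range n, ind (GB κ (slo I a (P j)) (shi I ℓ a (P j)) Y ∧
        GB κ (slo I a (P (j + 1))) (shi I ℓ a (P (j + 1))) Y) *
        ind (¬ Gi (κ / 100 * (2 * (ℓ : ℝ) ^ I.card))
          (VB (slo I a (P j)) (shi I ℓ a (P j)) Y ∪
            VB (slo I a (P (j + 1))) (shi I ℓ a (P (j + 1))) Y) (↑Y ∪ ↑ξ)) :=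
    Finset.sum_nonneg fun j _ => mul_nonneg (ind_nonneg _) (ind_nonneg _)
  have hc0 := ind_nonneg (conn (↑(Y ∪ ξ)) (P 0) (P n))
  by_cases hA0 : Att (κ / 4) (slo I a (P 0)) (shi I ℓ a (P 0)) Y ξ (P 0)
  swap
  · rw [ind_false hA0, zero_mul]
    linarith
  by_cases hAn : Att (κ / 4) (slo I a (P n)) (shi I ℓ a (P n)) Y ξ (P n)
  swap
  · rw [ind_false hAn, mul_zero]
    linarith
  rw [ind_true hA0, ind_true hAn, one_mul]
  by_cases hGB : ∀ j ≤ n, GB κ (slo I a (P j)) (shi I ℓ a (P j)) Y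
  swap
  · push Not at hGB
    obtain ⟨j, hj, hj2⟩ := hGB
    have h1 : ind (¬ GB κ (slo I a (P j)) (shi I ℓ a (P j)) Y) ≤
        ∑ j ∈ Finset.range (n + 1), ind (¬ GB κ (slo I a (P j)) (shi I ℓ a (P j)) Y) :=
      Finset.single_le_sum (f := fun j => ind (¬ GB κ (slo I a (P j)) (shi I ℓ a (P j)) Y))
        (fun j _ => ind_nonneg _) (Finset.mem_range.2 (by omega))
    rw [ind_true hj2] at h1
    linarith
  by_cases hGi : ∀ j < n, Gi (κ / 100 * (2 * (ℓ : ℝ) ^ I.card))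
      (VB (slo I a (P j)) (shi I ℓ a (P j)) Y ∪
        VB (slo I a (P (j + 1))) (shi I ℓ a (P (j + 1))) Y) (↑Y ∪ ↑ξ)
  swap
  · push Not at hGi
    obtain ⟨j, hj, hj2⟩ := hGi
    have h1 := Finset.single_le_sum (f := fun j => ind (GB κ (slo I a (P j)) (shi I ℓ a (P j)) Y ∧
        GB κ (slo I a (P (j + 1))) (shi I ℓ a (P (j + 1))) Y) *
        ind (¬ Gi (κ / 100 * (2 * (ℓ : ℝ) ^ I.card))
          (VB (slo I a (P j)) (shi I ℓ a (P j)) Y ∪
            VB (slo I a (P (j + 1))) (shi I ℓ a (P (j + 1))) Y) (↑Y ∪ ↑ξ)))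
      (fun j _ => mul_nonneg (ind_nonneg _) (ind_nonneg _)) (Finset.mem_range.2 hj)
    rw [ind_true ⟨hGB j (by omega), hGB (j + 1) (by omega)⟩, ind_true hj2, mul_one] at h1
    linarith
  have h2 := chain_conn hd κ hκ ℓ I hℓ a Y ξ n hn P hA0 hAn hGB hGi
  have h3 : conn (↑(Y ∪ ξ)) (P 0) (P n) := by
    rw [Finset.coe_union]
    exact h2
  rw [ind_true h3]
  linarith

private theorem CJ_x1 (x : ℝ) (d : ℕ) (hd : 2 ≤ d) (hxd : x ^ 3 * d ≤ 1) : x ≤ 1 := by
  have hdR : (2 : ℝ) ≤ d := by exact_mod_cast hd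
  by_contra hcon
  push Not at hcon
  have h4 : 1 < x ^ 3 := one_lt_pow₀ hcon (by norm_num)
  nlinarith

private theorem CJ_hcq (ε x k d : ℝ) (hε : 0 < ε) (hx : 0 < x) (hd : 2 ≤ d) (hkd : k ≤ d)
    (hk : 1 + ε ≤ 2 * k * x) : ε / 32 ≤ ε / 16 * x * d ^ 2 := by
  have h1 : 1 ≤ 2 * d * x := by nlinarith
  have h2 : 1 ≤ 2 * d * x * d := by nlinarith
  have h3 := mul_le_mul_of_nonneg_left h2 (by positivity : 0 ≤ ε / 32)
  linarith

private theorem CJ_err (κ n d e : ℝ) (hκ : 0 < κ) (hd : 2 ≤ d) (hn : n ≤ 2 * d) (hn0 : 0 ≤ n)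
    (hb : 640 / κ ^ 2 ≤ d) (he : e ≤ 1 / d ^ 2) :
    (n + 1) * (1 / d ^ 2) + n * e ≤ κ ^ 2 / 128 := by
  have h1 : n * e ≤ n * (1 / d ^ 2) := mul_le_mul_of_nonneg_left he hn0
  have h2 : (n + 1 + n) * (1 / d ^ 2) ≤ κ ^ 2 / 128 := by
    have hd0 : 0 < d := by linarith
    rw [mul_one_div, div_le_iff₀ (by positivity)]
    rw [div_le_iff₀ (by positivity)] at hb
    have h3 : 640 * d ≤ κ ^ 2 * d ^ 2 := by nlinarith
    linarith
  linarith

private theorem CJ_incr {d : ℕ} (u v : Vx d) :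
    Incr (fun ω : Finset (Ed d) => ind (conn (↑ω) u v)) := by
  intro η ζ h
  exact ind_mono fun h1 => conn_mono (by exact_mod_cast h) h1

/-- Module CJ (L). Bernoulli connection probability. `δ = ε/200`, `ℓ = r` an integer
`≥ 2/δ + 2`, `p = (1 - ε/16) x`, `q = (ε/16) x`, `k₁ = ⌊k - |S| - 4 δ d⌋`, `I = marg \ S`. The
probability is at least `(κ/8)² - (2|S|+1)/d² - 2|S| exp(-d²) ≥ κ²/128` (`EB_indep2` for the two
ends, `EB_restrict`, `EB_join`, `EB_mono_p`). -/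
theorem bern_conn (ε : ℝ) (hε : 0 < ε) (hε1 : ε ≤ 1) : ∃ (g : ℝ) (r : ℕ), 0 < g ∧ g ≤ 1 ∧ 1 ≤ r ∧
    ∀ᶠ d : ℕ in atTop, ∀ (x : ℝ) (k : ℕ) (lo hi y : Vx d) (S : Finset (Fin d))
      (F : Finset (Ed d)), 0 < x → x ^ 3 * d ≤ 1 → 1 + ε ≤ 2 * k * x → (d : ℝ) ≤ 4 * k →
      y ∈ Finset.Icc lo hi → k ≤ (marg lo hi r y).card → S ⊆ marg lo hi r y → S.card ^ 4 ≤ d →
      (∀ e ∈ F, e.1 ∈ near y S ∧ tip e ∈ near y S) → ∀ u ∈ near y S, ∀ v ∈ near y S,
      g ≤ EB x (bx lo hi \ F) (fun ω => ind (conn (↑ω) u v)) := by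
  obtain ⟨κ, hκ, hκ1, hbe⟩ := bern_exc (ε / 2) (ε / 200) (by positivity) (by positivity)
    (by linarith)
  obtain ⟨ℓ, hℓ⟩ := exists_nat_ge (2 / (ε / 200) + 2)
  have hℓ2' : (2 : ℝ) ≤ ℓ := le_trans (by
    have : 0 < 2 / (ε / 200) := by positivity
    linarith) hℓ
  have hℓ2 : 2 ≤ ℓ := by exact_mod_cast hℓ2'
  have hℓδ : 2 ≤ ε / 200 * ℓ := by
    have h1 : 2 / (ε / 200) ≤ ℓ := by linarith
    rw [div_le_iff₀ (by positivity)] at h1
    linarith
  have hg1 : κ ^ 2 / 128 ≤ 1 := by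
    have := pow_le_one₀ (n := 2) hκ.le hκ1
    linarith
  refine ⟨κ ^ 2 / 128, ℓ, by positivity, hg1, by omega, ?_⟩
  have hoff := offset κ (ε / 200) (ε / 32) ℓ hκ hκ1 (by positivity) (by positivity) hℓ2
  have htwo := two_slices κ (ε / 32) ℓ hκ hκ1 (by positivity) hℓ2
  have hev : ∀ᶠ d : ℕ in atTop, 640 / κ ^ 2 ≤ (d : ℝ) :=
    tendsto_natCast_atTop_atTop.eventually (eventually_ge_atTop _)
  filter_upwards [hbe, hoff, htwo, CJ_num ε hε hε1, hev, eventually_ge_atTop 2] with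
    d hbe hoff htwo hnum hbig hd2
  intro x k lo hi y S F hx hxd hk hdk hy hkm hS hSc hF u hu v hv
  have hdR : (2 : ℝ) ≤ d := by exact_mod_cast hd2
  have hx1 : x ≤ 1 := CJ_x1 x d hd2 hxd
  obtain ⟨k₁, hk1, hk2, hk3⟩ := hnum x k S.card hx hk hdk hSc
  -- the two parameters
  obtain ⟨p, hp⟩ : ∃ p, p = (1 - ε / 16) * x := ⟨_, rfl⟩
  obtain ⟨q, hq⟩ : ∃ q, q = ε / 16 * x := ⟨_, rfl⟩
  rw [← hp] at hk3
  have hp0 : 0 ≤ p := by
    rw [hp]
    exact mul_nonneg (by linarith) hx.le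
  have hp1 : p ≤ 1 := by
    rw [hp]
    exact mul_le_one₀ (by linarith) hx.le hx1
  have hq0 : 0 ≤ q := by
    rw [hq]
    positivity
  have hq1 : q ≤ 1 := by
    rw [hq]
    exact mul_le_one₀ (by linarith) hx.le hx1
  have hpq : p + q = x := by
    rw [hp, hq]
    ring
  have hkd : (k : ℝ) ≤ d := by
    have h1 : (marg lo hi ℓ y).card ≤ d := by
      have := Finset.card_le_univ (marg lo hi ℓ y)
      rwa [Fintype.card_fin] at this
    exact_mod_cast hkm.trans h1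
  have hcq : ε / 32 ≤ q * (d : ℝ) ^ 2 := by
    rw [hq]
    exact CJ_hcq ε x k d hε hx hdR hkd hk
  have hBX := hbe p k₁ ℓ hp0 hp1 hk3 hk2 hℓδ
  -- the slices
  obtain ⟨I, hI⟩ : ∃ I, I = marg lo hi ℓ y \ S := ⟨_, rfl⟩
  have hIS : Disjoint I S := by
    rw [hI]
    exact Finset.sdiff_disjoint
  have hIm : I ⊆ marg lo hi ℓ y := by
    rw [hI]
    exact Finset.sdiff_subset
  have hIc : (k₁ : ℝ) + 4 * (ε / 200) * d ≤ I.card := by
    have h1 : (I.card : ℝ) + S.card = (marg lo hi ℓ y).card := by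
      rw [hI]
      exact_mod_cast Finset.card_sdiff_add_card_eq_card hS
    have h2 : (k : ℝ) ≤ (marg lo hi ℓ y).card := by exact_mod_cast hkm
    linarith
  have hdI : (d : ℝ) ≤ 8 * I.card := by
    have : 0 ≤ 4 * (ε / 200) * d := by positivity
    linarith
  obtain ⟨a, ha, hatt⟩ := hoff p q k₁ hp0 hp1 hcq hq1 hk2 hBX y I S hIS hIc
  -- the case of equal ends
  by_cases huv : u = v
  · have h1 : EB x (bx lo hi \ F) (fun ω => ind (conn (↑ω) u v)) = 1 := by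
      rw [← EB_const x (bx lo hi \ F) 1]
      refine EB_congr _ _ _ _ fun ω _ => ?_
      rw [huv]
      exact ind_true (conn_refl _ _)
    rw [h1]
    exact hg1
  obtain ⟨n, P, hn, hP0, hPn, hPm, hPs⟩ := chain y S u v hu hv
  have hn1 : 1 ≤ n := by
    rcases Nat.eq_zero_or_pos n with h | h
    · exfalso
      rw [h] at hPn
      exact huv (hP0.symm.trans hPn)
    · exact h
  have hsl := fun j (hj : j ≤ n) => slice_sub lo hi y a (P j) hy ℓ ℓ le_rfl (by omega) I S hIS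
    hIm hS ha F hF (hPm j hj)
  obtain ⟨E, hE⟩ : ∃ E, E = bx lo hi \ F := ⟨_, rfl⟩
  rw [← hE] at hsl ⊢
  have step1 : EB p E (fun Y => EB q E (fun ξ => ind (conn (↑(Y ∪ ξ)) u v))) ≤
      EB x E (fun ω => ind (conn (↑ω) u v)) := by
    rw [EB_join p q E (fun ω => ind (conn (↑ω) u v))]
    have h0 : 0 ≤ p * q := mul_nonneg hp0 hq0
    have h1 : 0 ≤ p + q - p * q := by
      have : p * q ≤ p * 1 := mul_le_mul_of_nonneg_left hq1 hp0
      linarith
    exact EB_mono_p _ x h1 (by linarith) hx1 E _ (CJ_incr u v)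
  refine le_trans ?_ step1
  rw [← hP0, ← hPn]
  -- the inequality
  have step2 : EB p E (fun Y => EB q E (fun ξ =>
      ind (Att (κ / 4) (slo I a (P 0)) (shi I ℓ a (P 0)) Y ξ (P 0)) *
      ind (Att (κ / 4) (slo I a (P n)) (shi I ℓ a (P n)) Y ξ (P n)))) ≤
      EB p E (fun Y => EB q E (fun ξ => ind (conn (↑(Y ∪ ξ)) (P 0) (P n)))) +
      EB p E (fun Y => ∑ j ∈ Finset.range (n + 1),
        ind (¬ GB κ (slo I a (P j)) (shi I ℓ a (P j)) Y)) +
      EB p E (fun Y => EB q E (fun ξ => ∑ j ∈ Finset.range n,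
        ind (GB κ (slo I a (P j)) (shi I ℓ a (P j)) Y ∧
        GB κ (slo I a (P (j + 1))) (shi I ℓ a (P (j + 1))) Y) *
        ind (¬ Gi (κ / 100 * (2 * (ℓ : ℝ) ^ I.card))
          (VB (slo I a (P j)) (shi I ℓ a (P j)) Y ∪
            VB (slo I a (P (j + 1))) (shi I ℓ a (P (j + 1))) Y) (↑Y ∪ ↑ξ)))) := by
    rw [← EB_add, ← EB_add]
    refine EB_mono p hp0 hp1 _ _ _ fun Y _ => ?_
    rw [← EB_const q E (∑ j ∈ Finset.range (n + 1),
        ind (¬ GB κ (slo I a (P j)) (shi I ℓ a (P j)) Y)), ← EB_add, ← EB_add]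
    exact EB_mono q hq0 hq1 _ _ _ fun ξ _ =>
      CJ_point hd2 κ hκ ℓ I (by omega) a Y ξ n hn1 P
  have step3 : EB p E (fun Y => EB q E (fun ξ =>
      ind (Att (κ / 4) (slo I a (P 0)) (shi I ℓ a (P 0)) Y ξ (P 0)) *
      ind (Att (κ / 4) (slo I a (P n)) (shi I ℓ a (P n)) Y ξ (P n)))) =
      EB p (bx (slo I a (P 0)) (shi I ℓ a (P 0))) (fun Y =>
        EB q (bx (slo I a (P 0)) (shi I ℓ a (P 0))) (fun ξ =>
          ind (Att (κ / 4) (slo I a (P 0)) (shi I ℓ a (P 0)) Y ξ (P 0)))) *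
      EB p (bx (slo I a (P n)) (shi I ℓ a (P n))) (fun Y =>
        EB q (bx (slo I a (P n)) (shi I ℓ a (P n))) (fun ξ =>
          ind (Att (κ / 4) (slo I a (P n)) (shi I ℓ a (P n)) Y ξ (P n)))) := by
    have hdis := slice_disj y a (P 0) (P n) ℓ I S hIS (hPm 0 (Nat.zero_le _)) (hPm n le_rfl)
      (by rw [hP0, hPn]; exact huv)
    rw [← EB_indep2 p q E _ _ (hsl 0 (Nat.zero_le _)).1 (hsl n le_rfl).1 hdis]
    refine EB_congr _ _ _ _ fun Y _ => EB_congr _ _ _ _ fun ξ _ => ?_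
    rw [ind_congr (CJ_Att _ _ _ Y ξ _), ind_congr (CJ_Att _ _ _ Y ξ _)]
  have hdd : (0 : ℝ) < (d : ℝ) ^ 2 := by positivity
  have step4 : EB p E (fun Y => ∑ j ∈ Finset.range (n + 1),
        ind (¬ GB κ (slo I a (P j)) (shi I ℓ a (P j)) Y)) ≤ (n + 1) * (1 / (d : ℝ) ^ 2) := by
    rw [EB_sum p E (Finset.range (n + 1))
      (fun j Y => ind (¬ GB κ (slo I a (P j)) (shi I ℓ a (P j)) Y))]
    have h1 : ∀ j ∈ Finset.range (n + 1),
        EB p E (fun Y => ind (¬ GB κ (slo I a (P j)) (shi I ℓ a (P j)) Y)) ≤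
          1 / (d : ℝ) ^ 2 := by
      intro j hj
      have hj' : j ≤ n := by
        have := Finset.mem_range.1 hj
        omega
      have h2 := EB_restrict p E _ (hsl j hj').1
        (fun Y => ind (¬ GB κ (slo I a (P j)) (shi I ℓ a (P j)) Y))
      have h3 : EB p E (fun Y => ind (¬ GB κ (slo I a (P j)) (shi I ℓ a (P j)) Y)) =
          EB p E (fun Y => ind (¬ GB κ (slo I a (P j)) (shi I ℓ a (P j))
            (Y ∩ bx (slo I a (P j)) (shi I ℓ a (P j))))) := by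
        refine EB_congr _ _ _ _ fun Y _ => ?_
        rw [ind_congr (not_congr (CJ_GB κ _ _ Y))]
      rw [h3, h2, le_div_iff₀ hdd, mul_comm]
      exact hBX _ _ I (slice_isB ℓ I a (P j)) hIc
    refine (Finset.sum_le_sum h1).trans ?_
    rw [Finset.sum_const, Finset.card_range, nsmul_eq_mul]
    push_cast
    exact le_rfl
  have step5 : EB p E (fun Y => EB q E (fun ξ => ∑ j ∈ Finset.range n,
        ind (GB κ (slo I a (P j)) (shi I ℓ a (P j)) Y ∧
        GB κ (slo I a (P (j + 1))) (shi I ℓ a (P (j + 1))) Y) *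
        ind (¬ Gi (κ / 100 * (2 * (ℓ : ℝ) ^ I.card))
          (VB (slo I a (P j)) (shi I ℓ a (P j)) Y ∪
            VB (slo I a (P (j + 1))) (shi I ℓ a (P (j + 1))) Y) (↑Y ∪ ↑ξ)))) ≤
      n * Real.exp (- (d : ℝ) ^ 2) := by
    rw [← EB_const p E (n * Real.exp (- (d : ℝ) ^ 2))]
    refine EB_mono p hp0 hp1 _ _ _ fun Y _ => ?_
    rw [EB_sum q E (Finset.range n) (fun j ξ =>
        ind (GB κ (slo I a (P j)) (shi I ℓ a (P j)) Y ∧
        GB κ (slo I a (P (j + 1))) (shi I ℓ a (P (j + 1))) Y) *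
        ind (¬ Gi (κ / 100 * (2 * (ℓ : ℝ) ^ I.card))
          (VB (slo I a (P j)) (shi I ℓ a (P j)) Y ∪
            VB (slo I a (P (j + 1))) (shi I ℓ a (P (j + 1))) Y) (↑Y ∪ ↑ξ)))]
    have h1 : ∀ j ∈ Finset.range n, EB q E (fun ξ =>
        ind (GB κ (slo I a (P j)) (shi I ℓ a (P j)) Y ∧
        GB κ (slo I a (P (j + 1))) (shi I ℓ a (P (j + 1))) Y) *
        ind (¬ Gi (κ / 100 * (2 * (ℓ : ℝ) ^ I.card))
          (VB (slo I a (P j)) (shi I ℓ a (P j)) Y ∪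
            VB (slo I a (P (j + 1))) (shi I ℓ a (P (j + 1))) Y) (↑Y ∪ ↑ξ))) ≤
        Real.exp (- (d : ℝ) ^ 2) := by
      intro j hj
      have hj' := Finset.mem_range.1 hj
      rw [EB_smul]
      by_cases hG : GB κ (slo I a (P j)) (shi I ℓ a (P j)) Y ∧
        GB κ (slo I a (P (j + 1))) (shi I ℓ a (P (j + 1))) Y
      swap
      · rw [ind_false hG, zero_mul]
        positivity
      rw [ind_true hG, one_mul, hE]
      obtain ⟨i, hi', hs⟩ := hPs j hj'
      rcases hs with hs | hs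
      · exact htwo q hcq hq1 lo hi y a ℓ I S F i (P j) (P (j + 1)) Y hy le_rfl hIS hIm hS hdI ha
          hF (hPm j (by omega)) (hPm (j + 1) (by omega)) hi' hs hG.1 hG.2
      · have h2 := htwo q hcq hq1 lo hi y a ℓ I S F i (P (j + 1)) (P j) Y hy le_rfl hIS hIm hS hdI
          ha hF (hPm (j + 1) (by omega)) (hPm j (by omega)) hi' hs hG.2 hG.1
        rw [Finset.union_comm] at h2
        exact h2
    refine (Finset.sum_le_sum h1).trans ?_
    rw [Finset.sum_const, Finset.card_range, nsmul_eq_mul]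
  -- the numbers
  have hA0 := hatt (P 0) (hPm 0 (Nat.zero_le _))
  have hAn := hatt (P n) (hPm n le_rfl)
  rw [step3] at step2
  have hκ8 : 0 ≤ κ / 8 := by positivity
  have hprod : κ / 8 * (κ / 8) ≤
      EB p (bx (slo I a (P 0)) (shi I ℓ a (P 0))) (fun Y =>
        EB q (bx (slo I a (P 0)) (shi I ℓ a (P 0))) (fun ξ =>
          ind (Att (κ / 4) (slo I a (P 0)) (shi I ℓ a (P 0)) Y ξ (P 0)))) *
      EB p (bx (slo I a (P n)) (shi I ℓ a (P n))) (fun Y =>
        EB q (bx (slo I a (P n)) (shi I ℓ a (P n))) (fun ξ =>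
          ind (Att (κ / 4) (slo I a (P n)) (shi I ℓ a (P n)) Y ξ (P n)))) :=
    mul_le_mul hA0 hAn hκ8 (hκ8.trans hA0)
  have hSd : (S.card : ℝ) ≤ d := by
    have h1 : S.card ≤ S.card ^ 4 := Nat.le_self_pow (by norm_num) _
    exact_mod_cast h1.trans hSc
  have hnd : (n : ℝ) ≤ 2 * d := by
    have h1 : (n : ℝ) ≤ 2 * S.card := by exact_mod_cast hn
    linarith
  have hexp : Real.exp (- (d : ℝ) ^ 2) ≤ 1 / (d : ℝ) ^ 2 := by
    rw [Real.exp_neg, one_div]
    refine inv_anti₀ hdd ?_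
    have := Real.add_one_le_exp ((d : ℝ) ^ 2)
    linarith
  have hn0 : (0 : ℝ) ≤ n := Nat.cast_nonneg n
  have herr := CJ_err κ n d _ hκ hdR hnd hn0 hbig hexp
  have hsq : κ / 8 * (κ / 8) = κ ^ 2 / 128 + κ ^ 2 / 128 := by ring
  linarith

/-- Correlations (from `bern_conn` and `cor_ge_conn`). -/
theorem corr (ε : ℝ) (hε : 0 < ε) (hε1 : ε ≤ 1) : ∃ (g : ℝ) (r : ℕ), 0 < g ∧ g ≤ 1 ∧ 1 ≤ r ∧
    ∀ᶠ d : ℕ in atTop, ∀ (x : ℝ) (k : ℕ) (lo hi y : Vx d) (S : Finset (Fin d))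
      (F : Finset (Ed d)), 0 < x → x ^ 3 * d ≤ 1 → 1 + ε ≤ 2 * k * x → (d : ℝ) ≤ 4 * k →
      y ∈ Finset.Icc lo hi → k ≤ (marg lo hi r y).card → S ⊆ marg lo hi r y → S.card ^ 4 ≤ d →
      (∀ e ∈ F, e.1 ∈ near y S ∧ tip e ∈ near y S) → ∀ u ∈ near y S, ∀ v ∈ near y S,
      g * ZZ (loopM x) (bx lo hi \ F) 0 ≤ ZZ (loopM x) (bx lo hi \ F) (pt u v) := by
  obtain ⟨g, r, hg, hg1, hr, h⟩ := bern_conn ε hε hε1
  refine ⟨g, r, hg, hg1, hr, ?_⟩
  filter_upwards [h, eventually_ge_atTop 1] with d hd hd1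
  intro x k lo hi y S F hx hxd h1 h2 hy hk hS hSc hF u hu v hv
  have hx1 : x ≤ 1 := by
    by_contra hcon
    push Not at hcon
    have h3 : (1 : ℝ) ≤ d := by exact_mod_cast hd1
    have h4 : 1 < x ^ 3 := one_lt_pow₀ hcon (by norm_num)
    nlinarith
  have h5 := hd x k lo hi y S F hx hxd h1 h2 hy hk hS hSc hF u hu v hv
  have h6 := cor_ge_conn x hx.le hx1 (bx lo hi \ F) u v
  have h7 : 0 ≤ ZZ (loopM x) (bx lo hi \ F) 0 := le_trans zero_le_one (ZZ_zero_ge x hx.le _)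
  exact le_trans (mul_le_mul_of_nonneg_right h5 h7) h6

private theorem CK_co {d : ℕ} (t : ℕ) (I : Finset (Fin d)) (l : List (Stp d))
    (hl : l ∈ PL t I) : co l ⊆ I ∧ (co l).card ≤ t := by
  rw [mem_PL] at hl
  refine ⟨?_, ?_⟩
  · intro i hi
    unfold co at hi
    rw [List.mem_toFinset, List.mem_map] at hi
    obtain ⟨s, hs, rfl⟩ := hi
    exact hl.2.2 s hs
  · unfold co
    refine (List.toFinset_card_le _).trans ?_
    rw [List.length_map, hl.1]

private theorem CK_sub {d : ℕ} (lo hi y : Vx d) (hy : y ∈ Finset.Icc lo hi) (r : ℕ) (hr : 1 ≤ r)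
    (S : Finset (Fin d)) (hS : S ⊆ marg lo hi r y) (F : Finset (Ed d))
    (hF : ∀ e ∈ F, e.1 ∈ near y S ∧ tip e ∈ near y S) : F ⊆ bx lo hi := by
  intro e he
  have hr' : (1 : ℤ) ≤ r := by exact_mod_cast hr
  unfold bx
  rw [mem_edg]
  exact ⟨near_bx lo hi y hy r hr' S hS _ (hF e he).1, near_bx lo hi y hy r hr' S hS _ (hF e he).2⟩

private theorem CK_gc (G b ε : ℝ) (hG : 1 ≤ G) (hb : 0 < b) (hb1 : b ≤ 1) (hε : 0 < ε)
    (hε1 : ε ≤ 1) : 0 < gc G b ε ∧ gc G b ε ≤ 1 := by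
  unfold gc
  have h1 : (0 : ℝ) < 256 * G ^ 2 := by positivity
  refine ⟨by positivity, ?_⟩
  rw [div_le_one h1]
  have h2 : b ^ 2 ≤ 1 := pow_le_one₀ hb.le hb1
  have h3 : b ^ 2 * ε ≤ 1 := mul_le_one₀ h2 hε.le hε1
  have h4 : 1 ≤ G ^ 2 := one_le_pow₀ hG
  linarith

/-- Module CK (L). Growth in the loop model, for all source sets: `grow_core` with
`w η = ind (bd η = A) x^|η|`, `G = 1/g`, `b = g/2`, `t` from `ex_t`, `I` a subset with `k` elements
of the margin, `EL_sub_le`, `EL_sub_ge`, `PS_union`, `card_pe_union`, `corr` with `S` the set of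
coordinates of `l` and `l'` (at most `2t` of them). -/
theorem growL (ε : ℝ) (hε : 0 < ε) : ∃ (c : ℝ) (r : ℕ), 0 < c ∧ c ≤ 1 ∧ 1 ≤ r ∧
    ∀ᶠ d : ℕ in atTop, ∀ (x : ℝ) (k : ℕ), 0 < x → x ^ 3 * d ≤ 1 → 1 + ε ≤ 2 * k * x →
      (d : ℝ) ≤ 4 * k → Grow d (loopM x) r k (d ^ 8) c := by
  obtain ⟨ε', hε'⟩ : ∃ ε', ε' = min ε 1 := ⟨_, rfl⟩
  have he0 : 0 < ε' := by
    rw [hε']
    exact lt_min hε one_pos
  have he1 : ε' ≤ 1 := by
    rw [hε']
    exact min_le_right _ _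
  have hee : ε' ≤ ε := by
    rw [hε']
    exact min_le_left _ _
  obtain ⟨g, r, hg, hg1, hr, hcorr⟩ := corr ε' he0 he1
  have hG : 1 ≤ 1 / g := by
    rw [le_div_iff₀ hg, one_mul]
    exact hg1
  have hb : 0 < g / 2 := by positivity
  have hb1 : g / 2 ≤ 1 := by linarith
  obtain ⟨hc0, hc1⟩ := CK_gc (1 / g) (g / 2) ε' hG hb hb1 he0 he1
  refine ⟨gc (1 / g) (g / 2) ε', r, hc0, hc1, hr, ?_⟩
  filter_upwards [hcorr, ex_t ε' (1 / g) (g / 2) he0 hG hb] with d hcorr hext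
  intro x k hx hxd hk hdk lo hi y hy hm A
  obtain ⟨t, ht1, ht4, ht8, hts, htx⟩ := hext
  obtain ⟨hx1, htx1, htx2, htx3⟩ := htx x hx hxd
  obtain ⟨I, hI, hIc⟩ := Finset.exists_subset_card_eq hm
  have hk' : 1 + ε' ≤ 2 * (k : ℝ) * x := by linarith
  have hS4 : ∀ S : Finset (Fin d), S.card ≤ 2 * t → S.card ^ 4 ≤ d := fun S hS =>
    (Nat.pow_le_pow_left hS 4).trans ht4
  have hV : ∀ (S : Finset (Fin d)) (F : Finset (Ed d)), S ⊆ marg lo hi r y → S.card ≤ 2 * t →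
      (∀ e ∈ F, e.1 ∈ near y S ∧ tip e ∈ near y S) → ∀ u ∈ near y S, ∀ v ∈ near y S,
      g * ZZ (loopM x) (bx lo hi \ F) 0 ≤ ZZ (loopM x) (bx lo hi \ F) (pt u v) :=
    fun S F hS hSc hF => hcorr x k lo hi y S F hx hxd hk' hdk hy hm hS (hS4 S hSc) hF
  have hZ : ZZ (loopM x) (bx lo hi) A = ∑ η ∈ (bx lo hi).powerset,
      ind ((loopM x).s • bd η = A) * ((loopM x).a ^ η.card *
        (loopM x).b ^ (bx lo hi \ η).card) := by
    unfold ZZ EL
    refine Finset.sum_congr rfl fun η _ => ?_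
    rw [mul_one]
  have h7 : t ^ 2 ≤ I.card := by
    rw [hIc]
    have h1 : ((t : ℝ) ^ 2) * 8 ≤ d := by exact_mod_cast ht8
    have h2 : (t : ℝ) ^ 2 ≤ k := by linarith
    exact_mod_cast h2
  have hmain := grow_core y I t (d ^ 8) x (1 / g) (g / 2) ε' (bx lo hi)
    (fun η => ind ((loopM x).s • bd η = A) * ((loopM x).a ^ η.card *
        (loopM x).b ^ (bx lo hi \ η).card)) ?_ hx hx1 hG hb hb1 he0 he1 (by rw [hIc]; exact hk')
    htx1 htx2 h7 (by push_cast; exact hts) ?_ ?_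
  · rw [← hZ] at hmain
    exact hmain
  · intro η _
    refine mul_nonneg (ind_nonneg _) (mul_nonneg (pow_nonneg hx.le _) ?_)
    exact pow_nonneg zero_le_one _
  · intro l hl
    rw [← hZ]
    obtain ⟨hco, hcoc⟩ := CK_co t I l hl
    have hSm := hco.trans hI
    have hF := pe_near t I (co l) y l hl (Finset.Subset.refl _)
    have hsub := CK_sub lo hi y hy r hr (co l) hSm _ hF
    have hy0 : y ∈ near y (co l) := ⟨fun i _ => by rw [sub_self, abs_zero]; exact zero_le_one,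
      fun i _ => rfl⟩
    have hyt : en y l ∈ near y (co l) := by
      have h1 := en_near t I (co l) y l hl (Finset.Subset.refl _) l.length
      rw [List.take_length] at h1
      exact h1
    have h1 := EL_sub_ge x hx.le hx1 (bx lo hi) (pe y l) hsub g hg (near y (co l))
      (hV (co l) (pe y l) hSm (hcoc.trans (by omega)) hF) hF y (en y l) hy0 hyt
      (bd_pe t I y l hl) A
    rw [card_pe t I y l hl] at h1
    have h2 : (1 + x / g) ^ t ≤ 2 := by
      rw [mul_one_div] at htx3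
      exact htx3
    have h3 : 0 ≤ EL (loopM x) (bx lo hi) A (fun η => ind (pe y l ⊆ η)) :=
      EL_nonneg (loopM x) hx.le zero_le_one _ _ _ fun η _ => ind_nonneg _
    have h4 := h1.trans (mul_le_mul_of_nonneg_right h2 h3)
    have h5 : g / 2 * x ^ t * ZZ (loopM x) (bx lo hi) A ≤
        EL (loopM x) (bx lo hi) A (fun η => ind (pe y l ⊆ η)) := by
      have h6 : g / 2 * x ^ t * ZZ (loopM x) (bx lo hi) A =
        (x ^ t * g * ZZ (loopM x) (bx lo hi) A) / 2 := by ring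
      rw [h6]
      linarith
    exact h5
  · intro l hl l' hl'
    rw [← hZ]
    obtain ⟨hco, hcoc⟩ := CK_co t I l hl
    obtain ⟨hco', hcoc'⟩ := CK_co t I l' hl'
    obtain ⟨S, hSd⟩ : ∃ S, S = co l ∪ co l' := ⟨_, rfl⟩
    have hSl : co l ⊆ S := by
      rw [hSd]
      exact Finset.subset_union_left
    have hSl' : co l' ⊆ S := by
      rw [hSd]
      exact Finset.subset_union_right
    have hSm : S ⊆ marg lo hi r y := by
      rw [hSd]
      exact Finset.union_subset (hco.trans hI) (hco'.trans hI)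
    have hSc : S.card ≤ 2 * t := by
      rw [hSd]
      refine (Finset.card_union_le _ _).trans ?_
      omega
    have hF : ∀ e ∈ pe y l ∪ pe y l', e.1 ∈ near y S ∧ tip e ∈ near y S := by
      intro e he
      rcases Finset.mem_union.1 he with he | he
      · exact pe_near t I S y l hl hSl e he
      · exact pe_near t I S y l' hl' hSl' e he
    have hsub := CK_sub lo hi y hy r hr S hSm _ hF
    have hPS := PS_union t I y l l' hl hl' (near y S)
      (fun k _ => ⟨en_near t I S y l hl hSl k, en_near t I S y l' hl' hSl' k⟩)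
    have h1 := EL_sub_le x hx.le hx1 (bx lo hi) (pe y l ∪ pe y l') hsub g hg (near y S)
      (hV S _ hSm hSc hF) _ hPS A
    have h2 : (pe y l ∪ pe y l').card = 2 * t - sh l l' t := by
      have := card_pe_union t I y l l' hl hl'
      omega
    rw [h2] at h1
    have hgp : 0 < g ^ (dv l l' t + 1) := pow_pos hg _
    have h3 : EL (loopM x) (bx lo hi) A (fun η => ind (pe y l ∪ pe y l' ⊆ η)) ≤
        x ^ (2 * t - sh l l' t) * (1 / g) ^ (dv l l' t + 1) * ZZ (loopM x) (bx lo hi) A := by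
      have h4 : x ^ (2 * t - sh l l' t) * (1 / g) ^ (dv l l' t + 1) *
          ZZ (loopM x) (bx lo hi) A =
          (x ^ (2 * t - sh l l' t) * ZZ (loopM x) (bx lo hi) A) / g ^ (dv l l' t + 1) := by
        rw [one_div, inv_pow]
        ring
      rw [h4, le_div_iff₀ hgp, mul_comm]
      exact h1
    exact h3

end Pool.Agent.SRC
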