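import Pool.Agent.SRC.Block

/-! Random currents on finite graphs. Modules XA - XF. -/

set_option autoImplicit false

namespace Pool.Agent.SRC

open Finset Filter

/-- Extension of a current by zero. -/
noncomputable def ext {d : ℕ} (E : Finset (Ed d)) (n : E → ℕ) : Ed d → ℕ := by
  classical exact fun e => if h : e ∈ E then n ⟨e, h⟩ else 0

/-- No sources: at every vertex the sum over the incident edges is even. -/
def srcless {d : ℕ} (E : Finset (Ed d)) (n : E → ℕ) : Prop :=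
  ∀ v : Vx d, Even (∑ e : E, if (e : Ed d).1 = v ∨ tip (e : Ed d) = v then n e else 0)

/-- Weight of a current. -/
noncomputable def cwt {d : ℕ} (β : ℝ) (E : Finset (Ed d)) (n : E → ℕ) : ℝ :=
  ∏ e : E, β ^ n e / (n e).factorial

/-- Unnormalised expectation for sourceless currents. -/
noncomputable def cS {d : ℕ} (β : ℝ) (E : Finset (Ed d)) (f : (Ed d → ℕ) → ℝ) : ℝ :=
  ∑' n : E → ℕ, ind (srcless E n) * cwt β E n * f (ext E n)

/-- Probability of `B` under the sourceless current measure on `E`. -/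
noncomputable def curP {d : ℕ} (β : ℝ) (E : Finset (Ed d)) (B : Set (Ed d → ℕ)) : ℝ :=
  cS β E (fun n => ind (n ∈ B)) / cS β E (fun _ => 1)

/-- Cylinder. -/
def cyl {d : ℕ} (F : Finset (Ed d)) (k : Ed d → ℕ) : Set (Ed d → ℕ) := {n | ∀ e ∈ F, n e = k e}

/-- Currents with prescribed sources. -/
noncomputable def cSA {d : ℕ} (β : ℝ) (E : Finset (Ed d)) (A : Vx d → ZMod 2)
    (f : (Ed d → ℕ) → ℝ) : ℝ :=
  ∑' n : E → ℕ, ind (∑ e : E, (n e : ZMod 2) • bde (e : Ed d) = A) * cwt β E n * f (ext E n)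

/-- The trace. -/
def tr {d : ℕ} (E : Finset (Ed d)) (n : Ed d → ℕ) : Finset (Ed d) := E.filter (fun e => 0 < n e)

/-! ### XA -/

private theorem XA_bde {d : ℕ} (e : Ed d) (v : Vx d) [Decidable (e.1 = v ∨ tip e = v)] :
    bde e v = if e.1 = v ∨ tip e = v then 1 else 0 := by
  have hne : e.1 ≠ tip e := by
    intro h
    have h1 := congrFun h e.2
    simp [tip, uv] at h1
  rw [bde, Pi.add_apply, Pi.single_apply, Pi.single_apply]
  by_cases h1 : e.1 = v
  · have h2 : ¬ v = tip e := by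
      rw [← h1]
      exact hne
    rw [if_pos h1.symm, if_neg h2, if_pos (Or.inl h1), add_zero]
  · by_cases h2 : tip e = v
    · rw [if_neg (fun h => h1 h.symm), if_pos h2.symm, if_pos (Or.inr h2), zero_add]
    · rw [if_neg (fun h => h1 h.symm), if_neg (fun h => h2 h.symm), if_neg (not_or.2 ⟨h1, h2⟩),
        add_zero]

/-- Module XA (M). -/
theorem srcless_iff {d : ℕ} (E : Finset (Ed d)) (n : E → ℕ) :
    srcless E n ↔ ∑ e : E, (n e : ZMod 2) • bde (e : Ed d) = 0 := by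
  unfold srcless
  rw [funext_iff]
  refine forall_congr' fun v => ?_
  rw [← ZMod.natCast_eq_zero_iff_even, Nat.cast_sum, Finset.sum_apply, Pi.zero_apply]
  have h : ∀ e : E, (((if (e : Ed d).1 = v ∨ tip (e : Ed d) = v then n e else 0 : ℕ)) : ZMod 2) =
      ((n e : ZMod 2) • bde (e : Ed d)) v := by
    intro e
    rw [Pi.smul_apply, XA_bde, smul_eq_mul]
    split_ifs <;> simp
  rw [Finset.sum_congr rfl fun e _ => h e]

private theorem XA_hasSum {ι : Type*} [Fintype ι] (g : ι → ℕ → ℝ) (h0 : ∀ i k, 0 ≤ g i k)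
    (hs : ∀ i, Summable (g i)) :
    HasSum (fun n : ι → ℕ => ∏ i, g i (n i)) (∏ i, ∑' k, g i k) := by
  classical
  have hsum : Summable (fun n : ι → ℕ => ∏ i, g i (n i)) := by
    refine summable_of_sum_le (c := ∏ i, ∑' k, g i k)
      (fun n => Finset.prod_nonneg fun i _ => h0 i _) (fun s => ?_)
    obtain ⟨N, hN⟩ : ∃ N, ∀ n ∈ s, ∀ i, n i < N :=
      ⟨(s.sup fun n => univ.sup n) + 1, fun n hn i => Nat.lt_succ_of_le
        (le_trans (Finset.le_sup (f := n) (mem_univ i))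
          (Finset.le_sup (f := fun n : ι → ℕ => univ.sup n) hn))⟩
    calc ∑ n ∈ s, ∏ i, g i (n i) ≤
          ∑ n ∈ Fintype.piFinset (fun _ : ι => range N), ∏ i, g i (n i) := by
            refine Finset.sum_le_sum_of_subset_of_nonneg (fun n hn => ?_)
              (fun n _ _ => Finset.prod_nonneg fun i _ => h0 i _)
            rw [Fintype.mem_piFinset]
            exact fun i => mem_range.2 (hN n hn i)
      _ = ∏ i, ∑ k ∈ range N, g i k := (Finset.prod_univ_sum _ _).symm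
      _ ≤ ∏ i, ∑' k, g i k := Finset.prod_le_prod
          (fun i _ => Finset.sum_nonneg fun k _ => h0 i k)
          (fun i _ => (hs i).sum_le_tsum _ fun k _ => h0 i k)
  have hcof : Tendsto (fun N : ℕ => Fintype.piFinset (fun _ : ι => range N)) atTop atTop := by
    refine tendsto_atTop_finset_of_monotone (fun a b hab n hn => ?_) (fun n => ?_)
    · rw [Fintype.mem_piFinset] at hn ⊢
      exact fun i => range_mono hab (hn i)
    · refine ⟨univ.sup n + 1, ?_⟩
      rw [Fintype.mem_piFinset]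
      exact fun i => mem_range.2 (Nat.lt_succ_of_le (Finset.le_sup (f := n) (mem_univ i)))
  have hlim1 : Tendsto (fun N : ℕ => ∑ n ∈ Fintype.piFinset (fun _ : ι => range N),
      ∏ i, g i (n i)) atTop (nhds (∑' n : ι → ℕ, ∏ i, g i (n i))) := hsum.hasSum.comp hcof
  have hlim2 : Tendsto (fun N : ℕ => ∑ n ∈ Fintype.piFinset (fun _ : ι => range N),
      ∏ i, g i (n i)) atTop (nhds (∏ i, ∑' k, g i k)) := by
    have h1 : ∀ N : ℕ, ∑ n ∈ Fintype.piFinset (fun _ : ι => range N), ∏ i, g i (n i) =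
        ∏ i, ∑ k ∈ range N, g i k := fun N => (Finset.prod_univ_sum _ _).symm
    simp only [h1]
    exact tendsto_finsetProd _ fun i _ => (hs i).hasSum.tendsto_sum_nat
  rw [← tendsto_nhds_unique hlim1 hlim2]
  exact hsum.hasSum

private theorem XA_exp (β : ℝ) : Summable (fun k : ℕ => β ^ k / (k.factorial : ℝ)) :=
  Real.summable_pow_div_factorial β

private theorem XA_nn {β : ℝ} (hβ : 0 ≤ β) (k : ℕ) : 0 ≤ β ^ k / (k.factorial : ℝ) := by
  positivity

theorem cwt_summable {d : ℕ} (β : ℝ) (hβ : 0 ≤ β) (E : Finset (Ed d)) :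
    Summable (fun n : E → ℕ => cwt β E n) :=
  (XA_hasSum (fun (_ : E) k => β ^ k / (k.factorial : ℝ)) (fun _ k => XA_nn hβ k)
    (fun _ => XA_exp β)).summable

theorem cwt_nonneg {d : ℕ} (β : ℝ) (hβ : 0 ≤ β) (E : Finset (Ed d)) (n : E → ℕ) :
    0 ≤ cwt β E n :=
  Finset.prod_nonneg fun e _ => XA_nn hβ (n e)

/-! ### XB -/

private theorem XB_pat {ι κ : Type*} [Fintype ι] [DecidableEq ι] [Fintype κ] [DecidableEq κ]
    (g : ι → ℕ → ℝ) (h0 : ∀ i k, 0 ≤ g i k) (hs : ∀ i, Summable (g i)) (pat : ℕ → κ)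
    (H : (ι → κ) → ℝ) :
    ∑' n : ι → ℕ, H (fun i => pat (n i)) * ∏ i, g i (n i) =
      ∑ c : ι → κ, H c * ∏ i, ∑' k, (if pat k = c i then g i k else 0) := by
  have h1 : ∀ c : ι → κ, HasSum (fun n : ι → ℕ => H c *
      ∏ i, (if pat (n i) = c i then g i (n i) else 0))
      (H c * ∏ i, ∑' k, (if pat k = c i then g i k else 0)) := by
    intro c
    refine HasSum.mul_left _ (XA_hasSum (fun i k => if pat k = c i then g i k else 0) ?_ ?_)
    · intro i k
      show 0 ≤ if pat k = c i then g i k else 0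
      split_ifs
      · exact h0 i k
      · exact le_refl _
    · intro i
      refine Summable.of_nonneg_of_le (fun k => ?_) (fun k => ?_) (hs i)
      · split_ifs
        · exact h0 i k
        · exact le_refl _
      · split_ifs
        · exact le_refl _
        · exact h0 i k
  have h2 := hasSum_sum (s := (univ : Finset (ι → κ))) (fun c _ => h1 c)
  have h3 : (fun n : ι → ℕ => ∑ c : ι → κ, H c *
      ∏ i, (if pat (n i) = c i then g i (n i) else 0)) =
      fun n : ι → ℕ => H (fun i => pat (n i)) * ∏ i, g i (n i) := by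
    funext n
    rw [Finset.sum_eq_single (fun i => pat (n i))]
    · congr 1
      exact Finset.prod_congr rfl fun i _ => if_pos rfl
    · intro c _ hc
      obtain ⟨i, hi⟩ := Function.ne_iff.1 hc
      rw [Finset.prod_eq_zero (mem_univ i), mul_zero]
      exact if_neg (fun h => hi h.symm)
    · intro h
      exact absurd (mem_univ _) h
  rw [h3] at h2
  exact h2.tsum_eq

private def XB_p (k : ℕ) : Fin 3 := if k = 0 then 0 else if Even k then 2 else 1

private theorem XB_p0 (k : ℕ) : XB_p k = 0 ↔ k = 0 := by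
  unfold XB_p
  split_ifs with h1 h2 <;> simp [h1]

private theorem XB_p1 (k : ℕ) : XB_p k = 1 ↔ ¬ Even k := by
  unfold XB_p
  split_ifs with h1 h2 <;> simp_all

private theorem XB_p2 (k : ℕ) : XB_p k = 2 ↔ k ≠ 0 ∧ Even k := by
  unfold XB_p
  split_ifs with h1 h2 <;> simp_all

private theorem XB_W (β : ℝ) (t : Fin 3) :
    ∑' k : ℕ, (if XB_p k = t then β ^ k / (k.factorial : ℝ) else 0) =
      (if t = 1 then Real.sinh β else 1) * (if t = 2 then Real.cosh β - 1 else 1) := by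
  have hodd : HasSum (fun k : ℕ => if XB_p k = 1 then β ^ k / (k.factorial : ℝ) else 0)
      (Real.sinh β) := by
    have hinj : Function.Injective (fun n : ℕ => 2 * n + 1) := fun a b h => by
      simpa using h
    refine (hinj.hasSum_iff ?_).1 ?_
    · intro k hk
      rw [if_neg]
      intro h
      rw [XB_p1, Nat.not_even_iff_odd] at h
      obtain ⟨m, hm⟩ := h
      exact hk ⟨m, hm.symm⟩
    · have h1 := Real.hasSum_sinh β
      have h2 : ((fun k : ℕ => if XB_p k = 1 then β ^ k / (k.factorial : ℝ) else 0) ∘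
          fun n : ℕ => 2 * n + 1) = fun n : ℕ => β ^ (2 * n + 1) / ((2 * n + 1).factorial : ℝ) := by
        funext n
        have h3 : XB_p (2 * n + 1) = 1 := by
          rw [XB_p1]
          simp
        simp only [Function.comp, h3, if_true]
      rw [h2]
      exact h1
  have heven0 : HasSum (fun k : ℕ => if Even k then β ^ k / (k.factorial : ℝ) else 0)
      (Real.cosh β) := by
    have hinj : Function.Injective (fun n : ℕ => 2 * n) := fun a b h => by
      simpa using h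
    refine (hinj.hasSum_iff ?_).1 ?_
    · intro k hk
      rw [if_neg]
      intro h
      obtain ⟨m, hm⟩ := h
      exact hk ⟨m, by show 2 * m = k; omega⟩
    · have h1 := Real.hasSum_cosh β
      have h2 : ((fun k : ℕ => if Even k then β ^ k / (k.factorial : ℝ) else 0) ∘
          fun n : ℕ => 2 * n) = fun n : ℕ => β ^ (2 * n) / ((2 * n).factorial : ℝ) := by
        funext n
        simp
      rw [h2]
      exact h1
  have hzero : HasSum (fun k : ℕ => if XB_p k = 0 then β ^ k / (k.factorial : ℝ) else 0) 1 := by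
    have h1 : (fun k : ℕ => if XB_p k = 0 then β ^ k / (k.factorial : ℝ) else 0) =
        fun k : ℕ => if k = 0 then (1 : ℝ) else 0 := by
      funext k
      by_cases hk : k = 0
      · subst hk
        rw [if_pos ((XB_p0 0).2 rfl), if_pos rfl]
        simp
      · rw [if_neg (fun h => hk ((XB_p0 k).1 h)), if_neg hk]
    rw [h1]
    exact hasSum_ite_eq 0 1
  have heven : HasSum (fun k : ℕ => if XB_p k = 2 then β ^ k / (k.factorial : ℝ) else 0)
      (Real.cosh β - 1) := by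
    have h1 : (fun k : ℕ => if XB_p k = 2 then β ^ k / (k.factorial : ℝ) else 0) =
        fun k : ℕ => (if Even k then β ^ k / (k.factorial : ℝ) else 0) -
          (if XB_p k = 0 then β ^ k / (k.factorial : ℝ) else 0) := by
      funext k
      by_cases hk : k = 0
      · subst hk
        rw [if_neg (by rw [XB_p2]; simp), if_pos (by simp), if_pos ((XB_p0 0).2 rfl), sub_self]
      · rw [if_neg (fun h => hk ((XB_p0 k).1 h)), sub_zero]
        by_cases he : Even k
        · rw [if_pos ((XB_p2 k).2 ⟨hk, he⟩), if_pos he]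
        · rw [if_neg (fun h => he ((XB_p2 k).1 h).2), if_neg he]
    rw [h1]
    exact heven0.sub hzero
  fin_cases t
  · rw [show ((⟨0, by norm_num⟩ : Fin 3)) = 0 from rfl, hzero.tsum_eq]
    simp
  · rw [show ((⟨1, by norm_num⟩ : Fin 3)) = 1 from rfl, hodd.tsum_eq]
    simp
  · rw [show ((⟨2, by norm_num⟩ : Fin 3)) = 2 from rfl, heven.tsum_eq]
    simp

/-- the set of the edges with the label `t` -/
private def XB_s {d : ℕ} (E : Finset (Ed d)) (c : E → Fin 3) (t : Fin 3) : Finset (Ed d) :=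
  (univ.filter fun e : E => c e = t).image Subtype.val

private theorem XB_mem {d : ℕ} (E : Finset (Ed d)) (c : E → Fin 3) (t : Fin 3) (e : Ed d) :
    e ∈ XB_s E c t ↔ ∃ h : e ∈ E, c ⟨e, h⟩ = t := by
  unfold XB_s
  rw [mem_image]
  constructor
  · rintro ⟨a, ha, rfl⟩
    exact ⟨a.2, (mem_filter.1 ha).2⟩
  · rintro ⟨h, hc⟩
    exact ⟨⟨e, h⟩, mem_filter.2 ⟨mem_univ _, hc⟩, rfl⟩

private theorem XB_prod {d : ℕ} (E : Finset (Ed d)) (c : E → Fin 3) (t : Fin 3) (a : ℝ) :
    ∏ e : E, (if c e = t then a else 1) = a ^ (XB_s E c t).card := by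
  rw [XB_s, card_image_of_injective _ Subtype.val_injective, Finset.prod_ite, Finset.prod_const,
    Finset.prod_const_one, mul_one]

private theorem XB_bd {d : ℕ} (E : Finset (Ed d)) (c : E → Fin 3) :
    bd (XB_s E c 1) = ∑ e : E, (if c e = 1 then (1 : ZMod 2) else 0) • bde (e : Ed d) := by
  rw [bd, XB_s, sum_image (fun a _ b _ h => Subtype.val_injective h), sum_filter]
  refine Finset.sum_congr rfl fun e _ => ?_
  split_ifs
  · rw [one_smul]
  · rw [zero_smul]

private theorem XB_gen {d : ℕ} (β : ℝ) (hβ : 0 ≤ β) (E : Finset (Ed d)) (A : Vx d → ZMod 2)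
    (f : Finset (Ed d) → ℝ) :
    ∑' n : E → ℕ, ind (∑ e : E, (n e : ZMod 2) • bde (e : Ed d) = A) * cwt β E n *
        f (tr E (ext E n)) =
      ∑ η ∈ E.powerset, ∑ ζ ∈ (E \ η).powerset, ind (bd η = A) *
        (Real.sinh β ^ η.card * (Real.cosh β - 1) ^ ζ.card) * f (η ∪ ζ) := by
  set H : (E → Fin 3) → ℝ := fun c => ind (bd (XB_s E c 1) = A) * f (XB_s E c 1 ∪ XB_s E c 2)
    with hH
  have h1 : ∀ n : E → ℕ, ind (∑ e : E, (n e : ZMod 2) • bde (e : Ed d) = A) * cwt β E n *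
        f (tr E (ext E n)) = H (fun e => XB_p (n e)) * ∏ e : E, β ^ n e / ((n e).factorial : ℝ) := by
    intro n
    have h2 : ∑ e : E, (n e : ZMod 2) • bde (e : Ed d) = bd (XB_s E (fun e => XB_p (n e)) 1) := by
      rw [XB_bd]
      refine Finset.sum_congr rfl fun e _ => ?_
      congr 1
      by_cases he : Even (n e)
      · rw [if_neg (by rw [XB_p1]; exact not_not.2 he)]
        exact (ZMod.natCast_eq_zero_iff_even).2 he
      · rw [if_pos ((XB_p1 _).2 he)]
        exact (ZMod.natCast_eq_one_iff_odd).2 (Nat.not_even_iff_odd.1 he)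
    have h3 : tr E (ext E n) = XB_s E (fun e => XB_p (n e)) 1 ∪ XB_s E (fun e => XB_p (n e)) 2 := by
      ext e
      rw [tr, mem_filter, mem_union, XB_mem, XB_mem]
      constructor
      · rintro ⟨he, hpos⟩
        rw [ext, dif_pos he] at hpos
        by_cases hev : Even (n ⟨e, he⟩)
        · exact Or.inr ⟨he, (XB_p2 _).2 ⟨hpos.ne', hev⟩⟩
        · exact Or.inl ⟨he, (XB_p1 _).2 hev⟩
      · rintro (⟨he, h⟩ | ⟨he, h⟩)
        · refine ⟨he, ?_⟩
          rw [ext, dif_pos he]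
          rw [XB_p1] at h
          refine Nat.pos_of_ne_zero fun h0 => h ?_
          rw [h0]
          exact Even.zero
        · refine ⟨he, ?_⟩
          rw [ext, dif_pos he]
          exact Nat.pos_of_ne_zero ((XB_p2 _).1 h).1
    rw [hH, h2, h3]
    unfold cwt
    ring
  rw [tsum_congr h1, XB_pat (fun (_ : E) k => β ^ k / (k.factorial : ℝ)) (fun _ k => XA_nn hβ k)
    (fun _ => XA_exp β) XB_p H]
  rw [Finset.sum_sigma']
  refine Finset.sum_bij' (fun c _ => (⟨XB_s E c 1, XB_s E c 2⟩ :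
      (_ : Finset (Ed d)) × Finset (Ed d)))
    (fun p _ => fun e : E => if (e : Ed d) ∈ p.1 then 1 else if (e : Ed d) ∈ p.2 then 2 else 0)
    ?_ ?_ ?_ ?_ ?_
  · intro c _
    rw [mem_sigma, mem_powerset, mem_powerset]
    constructor
    · intro e he
      exact ((XB_mem E c 1 e).1 he).1
    · intro e he
      obtain ⟨h, hc⟩ := (XB_mem E c 2 e).1 he
      show e ∈ E \ XB_s E c 1
      rw [Finset.mem_sdiff]
      refine ⟨h, fun h' => ?_⟩
      obtain ⟨_, hc'⟩ := (XB_mem E c 1 e).1 h'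
      rw [hc] at hc'
      exact absurd hc' (by decide)
  · intro p _
    exact mem_univ _
  · intro c _
    funext e
    show (if (e : Ed d) ∈ XB_s E c 1 then (1 : Fin 3) else
      if (e : Ed d) ∈ XB_s E c 2 then 2 else 0) = c e
    have hm : ∀ t, (e : Ed d) ∈ XB_s E c t ↔ c e = t := by
      intro t
      rw [XB_mem]
      exact ⟨fun h => h.2, fun h => ⟨e.2, h⟩⟩
    rw [if_congr (hm 1) rfl rfl, if_congr (hm 2) rfl rfl]
    generalize c e = t
    fin_cases t <;> rfl
  · rintro ⟨η, ζ⟩ hp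
    rw [mem_sigma, mem_powerset, mem_powerset] at hp
    obtain ⟨hη, hζ⟩ := hp
    simp only at hη hζ
    have hd : ∀ e ∈ ζ, e ∉ η := fun e he => (Finset.mem_sdiff.1 (hζ he)).2
    have e1 : XB_s E (fun e : E => if (e : Ed d) ∈ η then (1 : Fin 3) else
        if (e : Ed d) ∈ ζ then 2 else 0) 1 = η := by
      ext e
      rw [XB_mem]
      constructor
      · rintro ⟨h, hc⟩
        by_contra hne
        simp only [if_neg hne] at hc
        split_ifs at hc
        · exact absurd hc (by decide)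
        · exact absurd hc (by decide)
      · intro he
        exact ⟨hη he, if_pos he⟩
    have e2 : XB_s E (fun e : E => if (e : Ed d) ∈ η then (1 : Fin 3) else
        if (e : Ed d) ∈ ζ then 2 else 0) 2 = ζ := by
      ext e
      rw [XB_mem]
      constructor
      · rintro ⟨h, hc⟩
        by_contra hne
        simp only [if_neg hne] at hc
        split_ifs at hc
        · exact absurd hc (by decide)
        · exact absurd hc (by decide)
      · intro he
        refine ⟨(Finset.mem_sdiff.1 (hζ he)).1, ?_⟩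
        simp only [if_neg (hd e he), if_pos he]
    exact Sigma.ext e1 (heq_of_eq e2)
  · intro c _
    have h2 : ∏ e : E, ∑' k : ℕ, (if XB_p k = c e then β ^ k / (k.factorial : ℝ) else 0) =
        Real.sinh β ^ (XB_s E c 1).card * (Real.cosh β - 1) ^ (XB_s E c 2).card := by
      rw [Finset.prod_congr rfl fun e _ => XB_W β (c e), Finset.prod_mul_distrib, XB_prod, XB_prod]
    rw [h2, hH]
    ring

private theorem XB_cS {d : ℕ} (β : ℝ) (E : Finset (Ed d)) (f : (Ed d → ℕ) → ℝ) :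
    cS β E f = cSA β E 0 f := by
  unfold cS cSA
  refine tsum_congr fun n => ?_
  rw [ind_congr (srcless_iff E n)]

private theorem XB_EB {d : ℕ} (q : ℝ) (E η : Finset (Ed d)) (hη : η ⊆ E)
    (f : Finset (Ed d) → ℝ) :
    EB q E (fun ξ => f (η ∪ ξ)) = EB q (E \ η) (fun ζ => f (η ∪ ζ)) := by
  have h1 : E = η ∪ (E \ η) := (union_sdiff_of_subset hη).symm
  conv_lhs => rw [h1]
  rw [EB_union q η (E \ η) disjoint_sdiff]
  have h2 := EB_congr q η
    (fun ξ => EB q (E \ η) (fun ζ => f (η ∪ (ξ ∪ ζ)))) (fun _ => EB q (E \ η) (fun ζ => f (η ∪ ζ)))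
    (fun ξ hξ => by
      refine EB_congr q (E \ η) _ _ fun ζ _ => ?_
      rw [← union_assoc, union_eq_left.2 hξ])
  rw [h2, EB_const]

/-- Module XB (L). Law of the trace. For each `(η, T)`, `η ⊆ T ⊆ E`, the currents with odd part
`η` and trace `T` have total weight `sinh β ^ |η| (cosh β - 1) ^ |T \ η|`; and
`∑_{ξ : η ∪ ξ = T} q^|ξ| (1-q)^|E \ ξ| = q^|T \ η| (1-q)^|E \ T|`. -/
theorem cS_trace {d : ℕ} (β : ℝ) (hβ : 0 ≤ β) (E : Finset (Ed d)) (f : Finset (Ed d) → ℝ) :
    cS β E (fun n => f (tr E n)) = Real.cosh β ^ E.card *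
      EL (loopM (Real.tanh β)) E 0 (fun η => EB (1 - 1 / Real.cosh β) E (fun ξ => f (η ∪ ξ))) := by
  rw [XB_cS]
  unfold cSA
  rw [XB_gen β hβ E 0 f, EL, Finset.mul_sum]
  refine Finset.sum_congr rfl fun η hη => ?_
  rw [mem_powerset] at hη
  rw [XB_EB _ E η hη, EB, Finset.mul_sum, Finset.mul_sum]
  refine Finset.sum_congr rfl fun ζ hζ => ?_
  rw [mem_powerset] at hζ
  have hc : 0 < Real.cosh β := Real.cosh_pos β
  have hcard : E.card = η.card + (ζ.card + ((E \ η) \ ζ).card) := by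
    have h1 := card_sdiff_add_card_eq_card hη
    have h2 := card_sdiff_add_card_eq_card hζ
    omega
  have ht : Real.sinh β = Real.cosh β * Real.tanh β := by
    rw [Real.tanh_eq_sinh_div_cosh, mul_div_cancel₀ _ hc.ne']
  have hq : Real.cosh β - 1 = Real.cosh β * (1 - 1 / Real.cosh β) := by
    field_simp
  have hq1 : Real.cosh β * (1 - (1 - 1 / Real.cosh β)) = 1 := by
    field_simp
    ring
  have hind : ind ((loopM (Real.tanh β)).s • bd η = 0) = ind (bd η = 0) := by
    refine ind_congr ?_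
    show (1 : ZMod 2) • bd η = 0 ↔ bd η = 0
    rw [one_smul]
  rw [hind]
  show ind (bd η = 0) * (Real.sinh β ^ η.card * (Real.cosh β - 1) ^ ζ.card) * f (η ∪ ζ) =
    Real.cosh β ^ E.card * (ind (bd η = 0) * (Real.tanh β ^ η.card * 1 ^ (E \ η).card) *
      ((1 - 1 / Real.cosh β) ^ ζ.card * (1 - (1 - 1 / Real.cosh β)) ^ ((E \ η) \ ζ).card *
        f (η ∪ ζ)))
  rw [hcard, pow_add, pow_add, one_pow, mul_one, ht, hq, mul_pow, mul_pow]
  have h3 : Real.cosh β ^ ((E \ η) \ ζ).card *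
      (1 - (1 - 1 / Real.cosh β)) ^ ((E \ η) \ ζ).card = 1 := by
    rw [← mul_pow, hq1, one_pow]
  linear_combination (-(Real.cosh β ^ η.card * Real.cosh β ^ ζ.card * ind (bd η = 0) *
    Real.tanh β ^ η.card * (1 - 1 / Real.cosh β) ^ ζ.card * f (η ∪ ζ))) * h3

/-! ### XC -/

/-- Module XC (M). Total weight with sources. -/
theorem cSA_one {d : ℕ} (β : ℝ) (hβ : 0 ≤ β) (E : Finset (Ed d)) (A : Vx d → ZMod 2) :
    cSA β E A (fun _ => 1) = Real.cosh β ^ E.card * ZZ (loopM (Real.tanh β)) E A := by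
  unfold cSA
  rw [XB_gen β hβ E A (fun _ => 1), ZZ, EL, Finset.mul_sum]
  refine Finset.sum_congr rfl fun η hη => ?_
  rw [mem_powerset] at hη
  have hc : 0 < Real.cosh β := Real.cosh_pos β
  have ht : Real.sinh β = Real.cosh β * Real.tanh β := by
    rw [Real.tanh_eq_sinh_div_cosh, mul_div_cancel₀ _ hc.ne']
  have h1 : ∑ ζ ∈ (E \ η).powerset, (Real.cosh β - 1) ^ ζ.card = Real.cosh β ^ (E \ η).card := by
    have h2 := Finset.sum_pow_mul_eq_add_pow (Real.cosh β - 1) 1 (E \ η)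
    simp only [one_pow, mul_one, sub_add_cancel] at h2
    exact h2
  have hcard : E.card = η.card + (E \ η).card := by
    have h1 := card_sdiff_add_card_eq_card hη
    omega
  have hind : ind ((loopM (Real.tanh β)).s • bd η = A) = ind (bd η = A) := by
    refine ind_congr ?_
    show (1 : ZMod 2) • bd η = A ↔ bd η = A
    rw [one_smul]
  rw [hind]
  show _ = Real.cosh β ^ E.card * (ind (bd η = A) * (Real.tanh β ^ η.card * 1 ^ (E \ η).card) * 1)
  rw [hcard, pow_add, one_pow, ← h1, ht, mul_pow]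
  simp only [Finset.mul_sum, Finset.sum_mul]
  refine Finset.sum_congr rfl fun ζ _ => ?_
  ring

/-! ### XD -/

private theorem XD_two {d : ℕ} (x y : Vx d → ZMod 2) : x + y = 0 ↔ x = y := by
  have hy : y + y = 0 := by
    funext v
    exact CharTwo.add_self_eq_zero _
  constructor
  · intro h
    calc x = x + (y + y) := by rw [hy, add_zero]
      _ = (x + y) + y := (add_assoc _ _ _).symm
      _ = y := by rw [h, zero_add]
  · rintro rfl
    exact hy

/-- Module XD (M). Cylinders: `(E → ℕ) ≃ (F → ℕ) × (E \ F → ℕ)`, then `cSA_one`. -/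
theorem cS_cyl {d : ℕ} (β : ℝ) (hβ : 0 ≤ β) (E F : Finset (Ed d)) (hF : F ⊆ E) (k : Ed d → ℕ) :
    cS β E (fun n => ind (n ∈ cyl F k)) =
      (∏ e ∈ F, β ^ k e / (k e).factorial) * (Real.cosh β ^ (E \ F).card *
        ZZ (loopM (Real.tanh β)) (E \ F) (∑ e ∈ F, (k e : ZMod 2) • bde e)) := by
  classical
  rw [← cSA_one β hβ]
  set Φ : (↥(E \ F) → ℕ) → Ed d → ℕ := fun m e => if h : e ∈ E \ F then m ⟨e, h⟩ else k e with hΦ
  set φ : (↥(E \ F) → ℕ) → E → ℕ := fun m e => Φ m e with hφ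
  have hΦ1 : ∀ (m : ↥(E \ F) → ℕ) (e : Ed d) (h : e ∈ E \ F), Φ m e = m ⟨e, h⟩ := fun m e h =>
    dif_pos h
  have hΦ2 : ∀ (m : ↥(E \ F) → ℕ) (e : Ed d), e ∈ F → Φ m e = k e := fun m e h =>
    dif_neg (fun h' => (Finset.mem_sdiff.1 h').2 h)
  have hinj : Function.Injective φ := by
    intro m m' h
    funext e
    have h1 := congrFun h ⟨e.1, (Finset.mem_sdiff.1 e.2).1⟩
    have h2 : Φ m e.1 = Φ m' e.1 := h1
    rw [hΦ1 m e.1 e.2, hΦ1 m' e.1 e.2] at h2
    exact h2
  rw [XB_cS]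
  unfold cSA
  rw [← hinj.tsum_eq, ← tsum_mul_left]
  · refine tsum_congr fun m => ?_
    have hcyl : ext E (φ m) ∈ cyl F k := by
      intro e he
      rw [ext, dif_pos (hF he)]
      exact hΦ2 m e he
    have hsum : ∑ e : E, (φ m e : ZMod 2) • bde (e : Ed d) =
        ∑ e : ↥(E \ F), (m e : ZMod 2) • bde (e : Ed d) +
          ∑ e ∈ F, (k e : ZMod 2) • bde e := by
      have h1 : ∑ e : E, (φ m e : ZMod 2) • bde (e : Ed d) =
          ∑ e ∈ E, (Φ m e : ZMod 2) • bde e :=
        Finset.sum_coe_sort E (fun e => (Φ m e : ZMod 2) • bde e)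
      have h2 : ∑ e : ↥(E \ F), (m e : ZMod 2) • bde (e : Ed d) =
          ∑ e ∈ E \ F, (Φ m e : ZMod 2) • bde e := by
        rw [← Finset.sum_coe_sort (E \ F) (fun e => (Φ m e : ZMod 2) • bde e)]
        refine Finset.sum_congr rfl fun e _ => ?_
        rw [hΦ1 m e.1 e.2]
      have h3 : ∑ e ∈ F, (k e : ZMod 2) • bde e = ∑ e ∈ F, (Φ m e : ZMod 2) • bde e :=
        Finset.sum_congr rfl fun e he => by rw [hΦ2 m e he]
      rw [h1, h2, h3, Finset.sum_sdiff hF]
    have hprod : cwt β E (φ m) = (∏ e ∈ F, β ^ k e / ((k e).factorial : ℝ)) * cwt β (E \ F) m := by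
      unfold cwt
      have h1 : ∏ e : E, β ^ φ m e / ((φ m e).factorial : ℝ) =
          ∏ e ∈ E, β ^ Φ m e / ((Φ m e).factorial : ℝ) :=
        Finset.prod_coe_sort E (fun e => β ^ Φ m e / ((Φ m e).factorial : ℝ))
      have h2 : ∏ e : ↥(E \ F), β ^ m e / ((m e).factorial : ℝ) =
          ∏ e ∈ E \ F, β ^ Φ m e / ((Φ m e).factorial : ℝ) := by
        rw [← Finset.prod_coe_sort (E \ F) (fun e => β ^ Φ m e / ((Φ m e).factorial : ℝ))]
        refine Finset.prod_congr rfl fun e _ => ?_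
        rw [hΦ1 m e.1 e.2]
      have h3 : ∏ e ∈ F, β ^ k e / ((k e).factorial : ℝ) =
          ∏ e ∈ F, β ^ Φ m e / ((Φ m e).factorial : ℝ) :=
        Finset.prod_congr rfl fun e he => by rw [hΦ2 m e he]
      rw [h1, h2, h3, mul_comm, Finset.prod_sdiff hF]
    have hi : (fun n : Ed d → ℕ => ind (n ∈ cyl F k)) (ext E (φ m)) = 1 := ind_true hcyl
    rw [hi, hsum, hprod, ind_congr (XD_two _ _)]
    ring
  · intro n hn
    rw [Function.mem_support] at hn
    have hcyl : ext E n ∈ cyl F k := by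
      by_contra h
      have hi : (fun n : Ed d → ℕ => ind (n ∈ cyl F k)) (ext E n) = 0 := ind_false h
      rw [hi, mul_zero] at hn
      exact hn rfl
    set m : ↥(E \ F) → ℕ := fun e => n ⟨e.1, (Finset.mem_sdiff.1 e.2).1⟩ with hm
    refine ⟨m, ?_⟩
    funext e
    have hval : φ m e = Φ m e.1 := rfl
    rw [hval]
    by_cases he : (e : Ed d) ∈ F
    · have h1 := hcyl e he
      rw [ext, dif_pos e.2] at h1
      rw [hΦ2 m e.1 he]
      exact h1.symm
    · rw [hΦ1 m e.1 (Finset.mem_sdiff.2 ⟨e.2, he⟩)]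

/-! ### XE -/

/-- The normalised correlation off `F`. -/
private noncomputable def XE_c {d : ℕ} (x : ℝ) (F : Finset (Ed d)) (B : Vx d → ZMod 2)
    (E : Finset (Ed d)) : ℝ := ZZ (loopM x) (E \ F) B / ZZ (loopM x) (E \ F) 0

private theorem XE_mono {d : ℕ} (x : ℝ) (hx : 0 ≤ x) (hx1 : x ≤ 1) (F : Finset (Ed d))
    (B : Vx d → ZMod 2) {E E' : Finset (Ed d)} (h : E ⊆ E') : XE_c x F B E ≤ XE_c x F B E' := by
  have h1 := ZZ_zero_ge x hx (E \ F)
  have h2 := ZZ_zero_ge x hx (E' \ F)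
  unfold XE_c
  rw [div_le_div_iff₀ (by linarith) (by linarith)]
  exact cor_mono x hx hx1 (E \ F) (E' \ F) (sdiff_subset_sdiff h (le_refl _)) B

private theorem XE_le {d : ℕ} (x : ℝ) (hx : 0 ≤ x) (hx1 : x ≤ 1) (F : Finset (Ed d))
    (B : Vx d → ZMod 2) (E : Finset (Ed d)) : XE_c x F B E ≤ 1 := by
  have h1 := ZZ_zero_ge x hx (E \ F)
  unfold XE_c
  rw [div_le_one (by linarith)]
  exact ZZ_le_zero x hx hx1 _ B

private theorem XE_nn {d : ℕ} (x : ℝ) (hx : 0 ≤ x) (F : Finset (Ed d))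
    (B : Vx d → ZMod 2) (E : Finset (Ed d)) : 0 ≤ XE_c x F B E := by
  unfold XE_c
  have h0 : 0 ≤ (loopM x).a := hx
  have h1 : 0 ≤ (loopM x).b := zero_le_one
  exact div_nonneg (ZZ_nonneg _ h0 h1 _ _) (ZZ_nonneg _ h0 h1 _ _)

private theorem XE_bdd {d : ℕ} (x : ℝ) (hx : 0 ≤ x) (hx1 : x ≤ 1) (F : Finset (Ed d))
    (B : Vx d → ZMod 2) : BddAbove (Set.range (XE_c x F B)) := by
  refine ⟨1, ?_⟩
  rintro _ ⟨E, rfl⟩
  exact XE_le x hx hx1 F B E

private theorem XE_ex {d : ℕ} (E : ℕ → Finset (Ed d)) (hm : Monotone E)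
    (he : ∀ e, ∃ L, e ∈ E L) (S : Finset (Ed d)) : ∃ L, S ⊆ E L := by
  classical
  induction S using Finset.induction_on with
  | empty => exact ⟨0, empty_subset _⟩
  | insert e s _ ih =>
    obtain ⟨L1, h1⟩ := ih
    obtain ⟨L2, h2⟩ := he e
    refine ⟨max L1 L2, ?_⟩
    rw [insert_subset_iff]
    exact ⟨hm (le_max_right _ _) h2, h1.trans (hm (le_max_left _ _))⟩

private theorem XE_tend {d : ℕ} (x : ℝ) (hx : 0 ≤ x) (hx1 : x ≤ 1) (F : Finset (Ed d))
    (B : Vx d → ZMod 2) (E : ℕ → Finset (Ed d)) (hm : Monotone E) (he : ∀ e, ∃ L, e ∈ E L) :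
    Tendsto (fun L => XE_c x F B (E L)) atTop (nhds (⨆ S, XE_c x F B S)) := by
  refine tendsto_atTop_isLUB (fun a b hab => XE_mono x hx hx1 F B (hm hab)) ⟨?_, ?_⟩
  · rintro _ ⟨L, rfl⟩
    exact le_ciSup (XE_bdd x hx hx1 F B) (E L)
  · intro u hu
    refine ciSup_le fun S => ?_
    obtain ⟨L, hL⟩ := XE_ex E hm he S
    exact (XE_mono x hx hx1 F B hL).trans (hu ⟨L, rfl⟩)

private theorem XE_split {d : ℕ} (x : ℝ) (E F : Finset (Ed d)) (hF : F ⊆ E) :
    ZZ (loopM x) E 0 = ∑ η ∈ F.powerset, x ^ η.card * ZZ (loopM x) (E \ F) (bd η) := by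
  have h1 : E = F ∪ (E \ F) := (union_sdiff_of_subset hF).symm
  conv_lhs => rw [h1]
  rw [ZZ, EL_union _ F (E \ F) disjoint_sdiff]
  refine Finset.sum_congr rfl fun η _ => ?_
  show (x ^ η.card * 1 ^ (F \ η).card) * EL (loopM x) (E \ F) (0 + (1 : ZMod 2) • bd η)
    (fun _ => 1) = _
  rw [one_pow, mul_one, one_smul, zero_add]
  rfl

/-- Module XE (M). `curP β E (cyl F k) = (∏ β^k/k!) cosh^{-|F|} U_E / V_E` with
`U_E = ZZ (E \ F) B / ZZ (E \ F) 0` and `V_E = ZZ E 0 / ZZ (E \ F) 0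
= ∑_{η ⊆ F} x^|η| ZZ (E \ F) (bd η) / ZZ (E \ F) 0`, and the correlations are nondecreasing in
`E` (`cor_mono`), at most `1` (`ZZ_le_zero`); the limit along any increasing exhausting sequence
is the supremum over all finite sets. -/
theorem cyl_lim {d : ℕ} (β : ℝ) (hβ : 0 < β) (F : Finset (Ed d)) (k : Ed d → ℕ) :
    ∃ a : ℝ, ∀ E : ℕ → Finset (Ed d), Monotone E → (∀ e, ∃ L, e ∈ E L) →
      Tendsto (fun L => curP β (E L) (cyl F k)) atTop (nhds a) := by
  set x : ℝ := Real.tanh β with hxdef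
  have hc : 0 < Real.cosh β := Real.cosh_pos β
  have hx : 0 ≤ x := by
    rw [hxdef, Real.tanh_eq_sinh_div_cosh]
    exact div_nonneg (Real.sinh_nonneg_iff.2 hβ.le) hc.le
  have hx1 : x ≤ 1 := (Real.tanh_lt_one β).le
  set P : ℝ := ∏ e ∈ F, β ^ k e / ((k e).factorial : ℝ) with hP
  set B : Vx d → ZMod 2 := ∑ e ∈ F, (k e : ZMod 2) • bde e with hB
  refine ⟨P * (Real.cosh β ^ F.card)⁻¹ * ((⨆ S, XE_c x F B S) /
    ∑ η ∈ F.powerset, x ^ η.card * ⨆ S, XE_c x F (bd η) S), fun E hm he => ?_⟩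
  have hden : Tendsto (fun L => ∑ η ∈ F.powerset, x ^ η.card * XE_c x F (bd η) (E L)) atTop
      (nhds (∑ η ∈ F.powerset, x ^ η.card * ⨆ S, XE_c x F (bd η) S)) :=
    tendsto_finsetSum _ fun η _ => (XE_tend x hx hx1 F (bd η) E hm he).const_mul _
  have hsup0 : ∀ A : Vx d → ZMod 2, 0 ≤ ⨆ S, XE_c x F A S := fun A =>
    (XE_nn x hx F A ∅).trans (le_ciSup (XE_bdd x hx hx1 F A) ∅)
  have hpos : 0 < ∑ η ∈ F.powerset, x ^ η.card * ⨆ S, XE_c x F (bd η) S := by
    have h1 : (1 : ℝ) ≤ x ^ (∅ : Finset (Ed d)).card * ⨆ S, XE_c x F (bd (∅ : Finset (Ed d))) S := by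
      rw [card_empty, pow_zero, one_mul]
      have h2 : bd (∅ : Finset (Ed d)) = 0 := by
        rw [bd, sum_empty]
      rw [h2]
      refine le_trans ?_ (le_ciSup (XE_bdd x hx hx1 F 0) ∅)
      have h3 := ZZ_zero_ge x hx ((∅ : Finset (Ed d)) \ F)
      unfold XE_c
      rw [div_self (by linarith)]
    have h2 := Finset.single_le_sum (f := fun η : Finset (Ed d) =>
      x ^ η.card * ⨆ S, XE_c x F (bd η) S)
      (fun η _ => mul_nonneg (pow_nonneg hx _) (hsup0 _)) (empty_mem_powerset F)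
    exact lt_of_lt_of_le one_pos (h1.trans h2)
  have hlim := (XE_tend x hx hx1 F B E hm he).div hden hpos.ne'
  refine (hlim.const_mul (P * (Real.cosh β ^ F.card)⁻¹)).congr' ?_
  obtain ⟨L0, hL0⟩ := XE_ex E hm he F
  filter_upwards [eventually_ge_atTop L0] with L hL
  have hFE : F ⊆ E L := hL0.trans (hm hL)
  have hz := ZZ_zero_ge x hx (E L \ F)
  have hz' := ZZ_zero_ge x hx (E L)
  unfold curP
  rw [cS_cyl β hβ.le (E L) F hFE k, XB_cS, cSA_one β hβ.le]
  have hcard : (E L).card = F.card + (E L \ F).card := by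
    have h1 := card_sdiff_add_card_eq_card hFE
    omega
  have h1 : ∑ η ∈ F.powerset, x ^ η.card * XE_c x F (bd η) (E L) =
      ZZ (loopM x) (E L) 0 / ZZ (loopM x) (E L \ F) 0 := by
    rw [XE_split x (E L) F hFE, Finset.sum_div]
    refine Finset.sum_congr rfl fun η _ => ?_
    unfold XE_c
    rw [mul_div_assoc]
  have hdiv : ((fun L => XE_c x F B (E L)) / fun L => ∑ η ∈ F.powerset, x ^ η.card *
      XE_c x F (bd η) (E L)) L = XE_c x F B (E L) / ∑ η ∈ F.powerset, x ^ η.card *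
      XE_c x F (bd η) (E L) := rfl
  rw [hdiv, h1, hcard, pow_add]
  unfold XE_c
  rw [← hxdef, ← hP, ← hB]
  have hz0 : ZZ (loopM x) (E L \ F) 0 ≠ 0 := by linarith
  have hz0' : ZZ (loopM x) (E L) 0 ≠ 0 := by linarith
  have hcF : Real.cosh β ^ F.card ≠ 0 := pow_ne_zero _ hc.ne'
  have hcE : Real.cosh β ^ (E L \ F).card ≠ 0 := pow_ne_zero _ hc.ne'
  field_simp

theorem XF_tanh {β : ℝ} (hβ : 0 < β) : 0 ≤ Real.tanh β ∧ Real.tanh β ≤ 1 := by
  rw [Real.tanh_eq_sinh_div_cosh]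
  constructor
  · exact div_nonneg (Real.sinh_nonneg_iff.2 hβ.le) (Real.cosh_pos β).le
  · rw [div_le_one (Real.cosh_pos β)]
    exact (Real.sinh_lt_cosh β).le

theorem XF_one {d : ℕ} (β : ℝ) (hβ : 0 < β) (E : Finset (Ed d)) :
    cS β E (fun _ => 1) = Real.cosh β ^ E.card * ZZ (loopM (Real.tanh β)) E 0 := by
  have h1 := cS_trace β hβ.le E (fun _ => 1)
  simp only [EB_const] at h1
  exact h1

theorem XF_pos {d : ℕ} (β : ℝ) (hβ : 0 < β) (E : Finset (Ed d)) :
    0 < cS β E (fun _ => 1) := by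
  rw [XF_one β hβ]
  have h1 := ZZ_zero_ge (Real.tanh β) (XF_tanh hβ).1 E
  have h2 := Real.cosh_pos β
  have h3 : 0 < ZZ (loopM (Real.tanh β)) E 0 := by linarith
  positivity

/-- Module XF (S). Uniform bound for one edge. -/
theorem cyl_one {d : ℕ} (β : ℝ) (hβ : 0 < β) (E : Finset (Ed d)) (e : Ed d) (j : ℕ) :
    curP β E {n | n e = j} ≤ β ^ j / j.factorial ∨ (e ∉ E ∧ j = 0) := by
  classical
  obtain ⟨hx0, hx1⟩ := XF_tanh hβ
  have hjf : 0 ≤ β ^ j / j.factorial := by positivity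
  by_cases he : e ∈ E
  · left
    have hF : ({e} : Finset (Ed d)) ⊆ E := Finset.singleton_subset_iff.2 he
    have h1 := cS_cyl β hβ.le E {e} hF (fun _ => j)
    have h2 : cyl ({e} : Finset (Ed d)) (fun _ => j) = {n | n e = j} := by
      ext n
      unfold cyl
      simp
    rw [h2, Finset.prod_singleton] at h1
    unfold curP
    rw [div_le_iff₀ (XF_pos β hβ E), h1, XF_one β hβ]
    apply mul_le_mul_of_nonneg_left _ hjf
    have h3 := ZZ_le_zero (Real.tanh β) hx0 hx1 (E \ {e})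
      (∑ e ∈ ({e} : Finset (Ed d)), ((j : ℕ) : ZMod 2) • bde e)
    have h4 := ZZ_mono (Real.tanh β) hx0 (E \ {e}) E Finset.sdiff_subset 0
    have h5 := ZZ_zero_ge (Real.tanh β) hx0 (E \ {e})
    have h6 : Real.cosh β ^ (E \ {e}).card ≤ Real.cosh β ^ E.card :=
      pow_le_pow_right₀ (Real.one_le_cosh β) (Finset.card_le_card Finset.sdiff_subset)
    have h7 := Real.cosh_pos β
    exact mul_le_mul h6 (h3.trans h4) (ZZ_nonneg (loopM (Real.tanh β)) hx0 zero_le_one _ _)
      (by positivity)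
  · by_cases hj : j = 0
    · right
      exact ⟨he, hj⟩
    · left
      have h1 : cS β E (fun n => ind (n ∈ {n : Ed d → ℕ | n e = j})) = 0 := by
        unfold cS
        have h2 : ∀ n : E → ℕ, ind (srcless E n) * cwt β E n *
            ind (ext E n ∈ {n : Ed d → ℕ | n e = j}) = 0 := by
          intro n
          have h3 : ¬ (ext E n ∈ {n : Ed d → ℕ | n e = j}) := by
            intro h3
            have h4 : ext E n e = j := h3
            have h5 : ext E n e = 0 := by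
              unfold ext
              rw [dif_neg he]
            omega
          rw [ind_false h3, mul_zero]
        simp only [h2]
        exact tsum_zero
      unfold curP
      rw [h1, zero_div]
      exact hjf

/-- Percolation of the trace in finite volume, in terms of currents. -/
theorem cur_far {d : ℕ} (β : ℝ) (hβ : 0 < β) (ℓ : ℕ) (c0 : ℝ)
    (h : FVP d ℓ (Real.tanh β) (1 - 1 / Real.cosh β) c0) (E : Finset (Ed d)) (K : ℕ)
    (hE : Rg d ℓ K ⊆ E) :
    c0 * (ℓ : ℝ) ^ (d - 2) ≤ ∑ w ∈ B0 d ℓ,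
      curP β E {n | Far ((4 : ℤ) ^ K) {e | e ∈ Rg d ℓ K ∧ 0 < n e} w} := by
  classical
  set g : Vx d → Finset (Ed d) → ℝ := fun w T => ind (Far ((4 : ℤ) ^ K) (↑(T ∩ Rg d ℓ K)) w)
    with hg
  have h1 : ∀ w, cS β E (fun n => ind (n ∈ {n : Ed d → ℕ |
      Far ((4 : ℤ) ^ K) {e | e ∈ Rg d ℓ K ∧ 0 < n e} w})) = Real.cosh β ^ E.card *
      EL (loopM (Real.tanh β)) E 0 (fun η => EB (1 - 1 / Real.cosh β) E (fun ξ => g w (η ∪ ξ))) := by
    intro w
    rw [← cS_trace β hβ.le E (g w)]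
    congr 1
    funext n
    simp only [hg]
    apply ind_congr
    have h2 : (↑(tr E n ∩ Rg d ℓ K) : Set (Ed d)) = {e | e ∈ Rg d ℓ K ∧ 0 < n e} := by
      ext e
      rw [Finset.mem_coe, Finset.mem_inter, tr, Finset.mem_filter, Set.mem_ofPred_eq]
      constructor
      · rintro ⟨⟨_, h4⟩, h5⟩
        exact ⟨h5, h4⟩
      · rintro ⟨h4, h5⟩
        exact ⟨⟨hE h4, h5⟩, h4⟩
    rw [h2]
    exact Iff.rfl
  have hpos := XF_pos β hβ E
  have h3 : ∑ w ∈ B0 d ℓ, curP β E {n | Far ((4 : ℤ) ^ K) {e | e ∈ Rg d ℓ K ∧ 0 < n e} w} =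
      (Real.cosh β ^ E.card * EL (loopM (Real.tanh β)) E 0 (fun η =>
        EB (1 - 1 / Real.cosh β) E (fun ξ => ((fl (B0 d ℓ) (fun w => Far ((4 : ℤ) ^ K)
          (↑((η ∪ ξ) ∩ Rg d ℓ K)) w)).card : ℝ)))) / cS β E (fun _ => 1) := by
    unfold curP
    rw [← Finset.sum_div]
    congr 1
    simp only [h1]
    rw [← Finset.mul_sum, ← EL_sum]
    congr 1
    apply EL_congr
    intro η _
    rw [← EB_sum]
    apply EB_congr
    intro ξ _
    rw [card_fl]
  rw [h3, le_div_iff₀ hpos, XF_one β hβ]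
  have h4 := h E K hE
  have h5 : 0 ≤ Real.cosh β ^ E.card := by
    have := Real.cosh_pos β
    positivity
  calc c0 * (ℓ : ℝ) ^ (d - 2) * (Real.cosh β ^ E.card * ZZ (loopM (Real.tanh β)) E 0) =
      Real.cosh β ^ E.card * (c0 * (ℓ : ℝ) ^ (d - 2) * ZZ (loopM (Real.tanh β)) E 0) := by ring
    _ ≤ _ := mul_le_mul_of_nonneg_left h4 h5

end Pool.Agent.SRC
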