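import Mathlib

/-! Definitions for the single random current in high dimension.
Vertices `Fin d → ℤ`, edges `(v, i)` = the edge from `v` to `v + e_i`. -/

set_option autoImplicit false

namespace Pool.Agent.SRC

open Finset

/-- Vertices. -/
abbrev Vx (d : ℕ) := Fin d → ℤ

/-- Edges: `(v, i)` is the edge between `v` and `v + e_i`. -/
abbrev Ed (d : ℕ) := (Fin d → ℤ) × Fin d

/-- Unit vector. -/
def uv {d : ℕ} (i : Fin d) : Vx d := Pi.single i 1

/-- Second endpoint of an edge. -/
def tip {d : ℕ} (e : Ed d) : Vx d := e.1 + uv e.2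

/-- Indicator of a proposition. -/
noncomputable def ind (p : Prop) : ℝ := by classical exact if p then 1 else 0

theorem ind_true {p : Prop} (h : p) : ind p = 1 := by simp [ind, h]
theorem ind_false {p : Prop} (h : ¬ p) : ind p = 0 := by simp [ind, h]
theorem ind_nonneg (p : Prop) : 0 ≤ ind p := by
  by_cases h : p
  · rw [ind_true h]; norm_num
  · rw [ind_false h]
theorem ind_le_one (p : Prop) : ind p ≤ 1 := by
  by_cases h : p
  · rw [ind_true h]
  · rw [ind_false h]; norm_num
theorem ind_mono {p q : Prop} (h : p → q) : ind p ≤ ind q := by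
  by_cases hp : p
  · rw [ind_true hp, ind_true (h hp)]
  · rw [ind_false hp]; exact ind_nonneg q
theorem ind_congr {p q : Prop} (h : p ↔ q) : ind p = ind q := by
  rw [propext h]
theorem ind_not (p : Prop) : ind (¬ p) = 1 - ind p := by
  by_cases h : p
  · rw [ind_true h, ind_false (not_not.mpr h)]; norm_num
  · rw [ind_false h, ind_true h]; norm_num
theorem ind_and (p q : Prop) : ind (p ∧ q) = ind p * ind q := by
  by_cases hp : p <;> by_cases hq : q <;> simp [ind, hp, hq]
theorem ind_or_le (p q : Prop) : ind (p ∨ q) ≤ ind p + ind q := by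
  by_cases hp : p <;> by_cases hq : q <;> simp [ind, hp, hq]

/-- The elements of `s` with property `p`. -/
noncomputable def fl {α : Type*} (s : Finset α) (p : α → Prop) : Finset α := by
  classical exact s.filter p

theorem mem_fl {α : Type*} (s : Finset α) (p : α → Prop) (a : α) : a ∈ fl s p ↔ a ∈ s ∧ p a := by
  classical
  unfold fl
  simp [Finset.mem_filter]

theorem fl_subset {α : Type*} (s : Finset α) (p : α → Prop) : fl s p ⊆ s := fun a h =>
  ((mem_fl s p a).mp h).1

theorem card_fl {α : Type*} (s : Finset α) (p : α → Prop) :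
    ((fl s p).card : ℝ) = ∑ a ∈ s, ind (p a) := by
  classical
  unfold fl ind
  rw [Finset.card_filter]
  push_cast
  rfl

theorem fl_mono {α : Type*} (s : Finset α) {p q : α → Prop} (h : ∀ a ∈ s, p a → q a) :
    fl s p ⊆ fl s q := fun a ha => by
  rw [mem_fl] at ha ⊢
  exact ⟨ha.1, h a ha.1 ha.2⟩

/-- Adjacency in an edge set. -/
def adj {d : ℕ} (ω : Set (Ed d)) (u v : Vx d) : Prop :=
  ∃ i, ((u, i) ∈ ω ∧ v = u + uv i) ∨ ((v, i) ∈ ω ∧ u = v + uv i)

/-- Connection in an edge set. -/
def conn {d : ℕ} (ω : Set (Ed d)) : Vx d → Vx d → Prop := Relation.ReflTransGen (adj ω)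

/-- The cluster of `u` in `ω` has at least `s` vertices. -/
def big {d : ℕ} (ω : Set (Ed d)) (s : ℕ) (u : Vx d) : Prop :=
  ∃ T : Finset (Vx d), s ≤ T.card ∧ ∀ v ∈ T, conn ω u v

/-- Edges with both ends in a finite vertex set. -/
def edg {d : ℕ} (S : Finset (Vx d)) : Finset (Ed d) :=
  (S ×ˢ (Finset.univ : Finset (Fin d))).filter (fun e => tip e ∈ S)

/-- Edges of the box `[lo, hi]`. -/
noncomputable def bx {d : ℕ} (lo hi : Vx d) : Finset (Ed d) := edg (Finset.Icc lo hi)

/-- Coordinates in which `y` has distance at least `r` from the faces of the box `[lo, hi]`. -/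
noncomputable def marg {d : ℕ} (lo hi : Vx d) (r : ℤ) (y : Vx d) : Finset (Fin d) :=
  Finset.univ.filter (fun i => lo i + r ≤ y i ∧ y i + r ≤ hi i)

/-- Parity boundary of one edge, of a set of edges; a pair of points. -/
def bde {d : ℕ} (e : Ed d) : Vx d → ZMod 2 := Pi.single e.1 1 + Pi.single (tip e) 1
def bd {d : ℕ} (η : Finset (Ed d)) : Vx d → ZMod 2 := ∑ e ∈ η, bde e
def pt {d : ℕ} (u v : Vx d) : Vx d → ZMod 2 := Pi.single u 1 + Pi.single v 1

/-- A model: edge weights `a` (present) and `b` (absent), and `s = 1` if the parity boundary is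
prescribed (loop model), `s = 0` if not (Bernoulli). -/
structure Mdl where
  a : ℝ
  b : ℝ
  s : ZMod 2

/-- Unnormalised expectation on the subsets of `E` with sources `A`. -/
noncomputable def EL {d : ℕ} (m : Mdl) (E : Finset (Ed d)) (A : Vx d → ZMod 2)
    (f : Finset (Ed d) → ℝ) : ℝ :=
  ∑ η ∈ E.powerset, ind (m.s • bd η = A) * (m.a ^ η.card * m.b ^ (E \ η).card) * f η

/-- Partition function. -/
noncomputable def ZZ {d : ℕ} (m : Mdl) (E : Finset (Ed d)) (A : Vx d → ZMod 2) : ℝ :=
  EL m E A (fun _ => 1)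

/-- The loop O(1) model. -/
noncomputable def loopM (x : ℝ) : Mdl := ⟨x, 1, 1⟩

/-- Bernoulli percolation. -/
noncomputable def bernM (p : ℝ) : Mdl := ⟨p, 1 - p, 0⟩

/-- Bernoulli expectation. -/
noncomputable def EB {d : ℕ} (p : ℝ) (E : Finset (Ed d)) (f : Finset (Ed d) → ℝ) : ℝ :=
  ∑ η ∈ E.powerset, p ^ η.card * (1 - p) ^ (E \ η).card * f η

/-- Growth property: in every box, for every source set, a vertex with at least `k` coordinates of
margin `r` has a cluster of size at least `s` with conditional probability at least `c`. -/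
def Grow (d : ℕ) (m : Mdl) (r : ℤ) (k s : ℕ) (c : ℝ) : Prop :=
  ∀ lo hi y : Vx d, y ∈ Finset.Icc lo hi → k ≤ (marg lo hi r y).card → ∀ A : Vx d → ZMod 2,
    c * ZZ m (bx lo hi) A ≤ EL m (bx lo hi) A (fun η => ind (big (↑η) s y))

/-- Increasing functions of edge sets. -/
def Incr {d : ℕ} (f : Finset (Ed d) → ℝ) : Prop := ∀ η ζ : Finset (Ed d), η ⊆ ζ → f η ≤ f ζ

theorem adj_mono {d : ℕ} {ω ω' : Set (Ed d)} (h : ω ⊆ ω') {u v : Vx d} (ha : adj ω u v) :
    adj ω' u v := by
  obtain ⟨i, hi⟩ := ha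
  refine ⟨i, ?_⟩
  rcases hi with hi | hi
  · exact Or.inl ⟨h hi.1, hi.2⟩
  · exact Or.inr ⟨h hi.1, hi.2⟩

theorem conn_mono {d : ℕ} {ω ω' : Set (Ed d)} (h : ω ⊆ ω') {u v : Vx d} (ha : conn ω u v) :
    conn ω' u v := by
  unfold conn at *
  induction ha with
  | refl => exact Relation.ReflTransGen.refl
  | tail _ h2 ih => exact Relation.ReflTransGen.tail ih (adj_mono h h2)

theorem big_mono {d : ℕ} {ω ω' : Set (Ed d)} (h : ω ⊆ ω') {s : ℕ} {u : Vx d} (ha : big ω s u) :
    big ω' s u := by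
  obtain ⟨T, h1, h2⟩ := ha
  exact ⟨T, h1, fun v hv => conn_mono h (h2 v hv)⟩

theorem adj_symm {d : ℕ} {ω : Set (Ed d)} {u v : Vx d} (h : adj ω u v) : adj ω v u := by
  obtain ⟨i, hi⟩ := h
  exact ⟨i, hi.symm⟩

theorem conn_symm {d : ℕ} {ω : Set (Ed d)} {u v : Vx d} (h : conn ω u v) : conn ω v u := by
  unfold conn at *
  induction h with
  | refl => exact Relation.ReflTransGen.refl
  | tail _ h2 ih => exact Relation.ReflTransGen.head (adj_symm h2) ih

theorem conn_trans {d : ℕ} {ω : Set (Ed d)} {u v w : Vx d} (h : conn ω u v) (h' : conn ω v w) :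
    conn ω u w := Relation.ReflTransGen.trans h h'

theorem conn_refl {d : ℕ} (ω : Set (Ed d)) (u : Vx d) : conn ω u u := Relation.ReflTransGen.refl

theorem mem_edg {d : ℕ} (S : Finset (Vx d)) (e : Ed d) : e ∈ edg S ↔ e.1 ∈ S ∧ tip e ∈ S := by
  unfold edg
  simp [Finset.mem_filter, Finset.mem_product]

theorem mem_marg {d : ℕ} (lo hi : Vx d) (r : ℤ) (y : Vx d) (i : Fin d) :
    i ∈ marg lo hi r y ↔ lo i + r ≤ y i ∧ y i + r ≤ hi i := by
  unfold marg
  simp [Finset.mem_filter]

end Pool.Agent.SRC
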