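import Pool.Agent.SRC.SM

/-! Few exceptional vertices. Modules FA - FF. -/

set_option autoImplicit false

namespace Pool.Agent.SRC

open Finset Filter

/-- The Chernoff rate. -/
noncomputable def rho (c : ℝ) : ℝ := (1 - c / 2) * (2 : ℝ) ^ (c / 4)

/-- Module FA (S). -/
theorem rho_pos (c : ℝ) (h0 : 0 < c) (h1 : c ≤ 1) : 0 < rho c := by
  unfold rho
  exact mul_pos (by linarith) (Real.rpow_pos_of_pos two_pos _)

theorem rho_lt_one (c : ℝ) (h0 : 0 < c) (h1 : c ≤ 1) : rho c < 1 := by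
  unfold rho
  have h2 : (2 : ℝ) ^ (c / 4) = Real.exp (Real.log 2 * (c / 4)) := Real.rpow_def_of_pos two_pos _
  have h3 : 1 - c / 2 ≤ Real.exp (-(c / 2)) := by
    have := Real.add_one_le_exp (-(c / 2))
    linarith
  have h4 : Real.log 2 < 1 := by
    have := Real.log_two_lt_d9
    linarith
  calc (1 - c / 2) * (2 : ℝ) ^ (c / 4) ≤ Real.exp (-(c / 2)) * Real.exp (Real.log 2 * (c / 4)) := by
        rw [h2]
        exact mul_le_mul_of_nonneg_right h3 (Real.exp_pos _).le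
    _ = Real.exp (-(c / 2) + Real.log 2 * (c / 4)) := (Real.exp_add _ _).symm
    _ < Real.exp 0 := by
        apply Real.exp_lt_exp.mpr
        nlinarith
    _ = 1 := Real.exp_zero

private theorem FB_prod {ι : Type*} (J : Finset ι) (q : ι → Prop) :
    ∏ i ∈ J, (1 - ind (q i) / 2) = (1 / 2 : ℝ) ^ (fl J q).card := by
  classical
  unfold fl
  rw [Finset.card_filter, ← Finset.prod_pow_eq_pow_sum]
  refine Finset.prod_congr rfl fun i _ => ?_
  by_cases h : q i
  · rw [ind_true h, if_pos h, pow_one]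
    norm_num
  · rw [ind_false h, if_neg h, pow_zero]
    norm_num

/-- Module FB (M). Chernoff bound in the general model: `EL_prod_le` for
`f i η = (1/2)^{1[B i η]} = 1 - ind (B i η) / 2`, with `ρ i = 1 - c/2`; on the event
`∏ f i ≥ (1/2)^{c |J|/4}`. -/
theorem chern {d : ℕ} {ι : Type*} [DecidableEq ι] (m : Mdl) (ha : 0 ≤ m.a) (hb : 0 ≤ m.b)
    (E : Finset (Ed d)) (J : Finset ι) (U : ι → Finset (Ed d)) (hU : ∀ i ∈ J, U i ⊆ E)
    (hd : ∀ i ∈ J, ∀ j ∈ J, i ≠ j → Disjoint (U i) (U j))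
    (B : ι → Finset (Ed d) → Prop) (c : ℝ) (hc : 0 < c) (hc1 : c ≤ 1)
    (h : ∀ i ∈ J, ∀ A : Vx d → ZMod 2, c * ZZ m (U i) A ≤ EL m (U i) A (fun η => ind (B i η)))
    (A : Vx d → ZMod 2) :
    EL m E A (fun η => ind (((fl J (fun i => B i (η ∩ U i))).card : ℝ) < c * J.card / 4)) ≤
      rho c ^ J.card * ZZ m E A := by
  have h1 : EL m E A (fun η => ∏ i ∈ J, (fun i ζ => 1 - ind (B i ζ) / 2) i (η ∩ U i)) ≤
      (∏ _i ∈ J, (1 - c / 2)) * ZZ m E A := by
    refine EL_prod_le m ha hb E J U hU hd (fun i ζ => 1 - ind (B i ζ) / 2) ?_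
      (fun _ => 1 - c / 2) ?_ ?_ A
    · intro i _ ζ
      have := ind_le_one (B i ζ)
      change 0 ≤ 1 - ind (B i ζ) / 2
      linarith
    · intro i _
      change 0 ≤ 1 - c / 2
      linarith
    · intro i hi A'
      have h2 := EL_add m (U i) A' (fun _ => 1) (fun ζ => (-1 / 2) * ind (B i ζ))
      rw [EL_smul] at h2
      have h3 : EL m (U i) A' (fun ζ => 1 - ind (B i ζ) / 2) =
          EL m (U i) A' (fun ζ => 1 + (-1 / 2) * ind (B i ζ)) :=
        EL_congr _ _ _ _ _ fun ζ _ => by ring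
      change EL m (U i) A' (fun ζ => 1 - ind (B i ζ) / 2) ≤ (1 - c / 2) * ZZ m (U i) A'
      rw [h3, h2]
      have h4 := h i hi A'
      unfold ZZ at h4 ⊢
      linarith
  rw [Finset.prod_const] at h1
  have h2 : ∀ η : Finset (Ed d),
      ind (((fl J (fun i => B i (η ∩ U i))).card : ℝ) < c * J.card / 4) ≤
      (2 : ℝ) ^ (c * J.card / 4) * ∏ i ∈ J, (1 - ind (B i (η ∩ U i)) / 2) := by
    intro η
    rw [FB_prod J fun i => B i (η ∩ U i)]
    by_cases h : ((fl J (fun i => B i (η ∩ U i))).card : ℝ) < c * J.card / 4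
    · rw [ind_true h]
      have h3 : ((1 : ℝ) / 2) ^ (fl J (fun i => B i (η ∩ U i))).card =
          ((2 : ℝ) ^ (((fl J (fun i => B i (η ∩ U i))).card : ℝ)))⁻¹ := by
        rw [Real.rpow_natCast, one_div, inv_pow]
      rw [h3, ← div_eq_mul_inv, one_le_div (Real.rpow_pos_of_pos two_pos _)]
      exact Real.rpow_le_rpow_of_exponent_le one_le_two h.le
    · rw [ind_false h]
      exact mul_nonneg (Real.rpow_nonneg two_pos.le _) (pow_nonneg (by norm_num) _)
  calc _ ≤ EL m E A (fun η => (2 : ℝ) ^ (c * J.card / 4) *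
        ∏ i ∈ J, (1 - ind (B i (η ∩ U i)) / 2)) := EL_mono m ha hb E A _ _ fun η _ => h2 η
    _ = (2 : ℝ) ^ (c * J.card / 4) * EL m E A (fun η => ∏ i ∈ J, (1 - ind (B i (η ∩ U i)) / 2)) :=
        EL_smul m E A _ _
    _ ≤ (2 : ℝ) ^ (c * J.card / 4) * ((1 - c / 2) ^ J.card * ZZ m E A) :=
        mul_le_mul_of_nonneg_left h1 (Real.rpow_nonneg two_pos.le _)
    _ = _ := by
        unfold rho
        rw [mul_pow, ← Real.rpow_natCast ((2 : ℝ) ^ (c / 4)), ← Real.rpow_mul two_pos.le]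
        have h5 : c / 4 * (J.card : ℝ) = c * J.card / 4 := by ring
        rw [h5]
        ring

/-- Forward neighbours of `w` in the box `[lo, hi]` with a cluster of size at least `s`. -/
noncomputable def fw {d : ℕ} (lo hi : Vx d) (s : ℕ) (η : Finset (Ed d)) (w : Vx d) :
    Finset (Fin d) :=
  fl Finset.univ (fun i => w + uv i ∈ Finset.Icc lo hi ∧ big (↑η) s (w + uv i))

/-- Exceptional vertices: less than `κ d` forward neighbours with a big cluster. -/
noncomputable def exs {d : ℕ} (κ : ℝ) (lo hi : Vx d) (s : ℕ) (η : Finset (Ed d)) :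
    Finset (Vx d) :=
  fl (Finset.Icc lo hi) (fun w => ((fw lo hi s η w).card : ℝ) < κ * d)

/-- The sub-box used for the neighbour `w + e_i`: the coordinates in `J` are those of
`w + e_i`. -/
def flo {d : ℕ} (lo w : Vx d) (J : Finset (Fin d)) (i : Fin d) : Vx d :=
  fun j => if j ∈ J then (w + uv i) j else lo j

def fhi {d : ℕ} (hi w : Vx d) (J : Finset (Fin d)) (i : Fin d) : Vx d :=
  fun j => if j ∈ J then (w + uv i) j else hi j

private theorem FC_uv {d : ℕ} (w : Vx d) (i j : Fin d) (h : j ≠ i) : (w + uv i) j = w j := by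
  change w j + (Pi.single i (1 : ℤ) : Vx d) j = w j
  rw [Pi.single_eq_of_ne h, add_zero]

private theorem FC_uv' {d : ℕ} (w : Vx d) (i : Fin d) : (w + uv i) i = w i + 1 := by
  change w i + (Pi.single i (1 : ℤ) : Vx d) i = w i + 1
  rw [Pi.single_eq_same]

/-- Module FC (M). Geometry of these sub-boxes, for `w` in the box and `J ⊆ marg lo hi r w`,
`r ≥ 1`. -/
theorem fib_mem {d : ℕ} (lo hi w : Vx d) (hw : w ∈ Finset.Icc lo hi) (r : ℤ) (hr : 1 ≤ r)
    (J : Finset (Fin d)) (hJ : J ⊆ marg lo hi r w) (i : Fin d) (hi' : i ∈ J) :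
    w + uv i ∈ Finset.Icc (flo lo w J i) (fhi hi w J i) ∧ w + uv i ∈ Finset.Icc lo hi := by
  rw [Finset.mem_Icc, Pi.le_def, Pi.le_def] at hw
  have h1 := (mem_marg lo hi r w i).mp (hJ hi')
  have h2 : ∀ j, lo j ≤ (w + uv i) j ∧ (w + uv i) j ≤ hi j := by
    intro j
    by_cases h : j = i
    · rw [h, FC_uv']
      constructor
      · linarith
      · linarith
    · rw [FC_uv w i j h]
      exact ⟨hw.1 j, hw.2 j⟩
  rw [Finset.mem_Icc, Finset.mem_Icc, Pi.le_def, Pi.le_def, Pi.le_def, Pi.le_def]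
  refine ⟨⟨fun j => ?_, fun j => ?_⟩, fun j => (h2 j).1, fun j => (h2 j).2⟩
  · unfold flo
    split_ifs
    · exact le_rfl
    · exact (h2 j).1
  · unfold fhi
    split_ifs
    · exact le_rfl
    · exact (h2 j).2

theorem fib_sub {d : ℕ} (lo hi w : Vx d) (hw : w ∈ Finset.Icc lo hi) (r : ℤ) (hr : 1 ≤ r)
    (J : Finset (Fin d)) (hJ : J ⊆ marg lo hi r w) (i : Fin d) (hi' : i ∈ J) :
    bx (flo lo w J i) (fhi hi w J i) ⊆ bx lo hi := by
  have h1 := (fib_mem lo hi w hw r hr J hJ i hi').2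
  rw [Finset.mem_Icc, Pi.le_def, Pi.le_def] at h1
  have h2 : ∀ v ∈ Finset.Icc (flo lo w J i) (fhi hi w J i), v ∈ Finset.Icc lo hi := by
    intro v hv
    rw [Finset.mem_Icc, Pi.le_def, Pi.le_def] at hv ⊢
    refine ⟨fun j => le_trans ?_ (hv.1 j), fun j => le_trans (hv.2 j) ?_⟩
    · unfold flo
      split_ifs
      · exact h1.1 j
      · exact le_rfl
    · unfold fhi
      split_ifs
      · exact h1.2 j
      · exact le_rfl
  intro e he
  unfold bx at he ⊢
  rw [mem_edg] at he ⊢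
  exact ⟨h2 _ he.1, h2 _ he.2⟩

theorem fib_disj {d : ℕ} (lo hi w : Vx d) (J : Finset (Fin d)) (i j : Fin d) (hi' : i ∈ J)
    (hj : j ∈ J) (hij : i ≠ j) :
    Disjoint (bx (flo lo w J i) (fhi hi w J i)) (bx (flo lo w J j) (fhi hi w J j)) := by
  rw [Finset.disjoint_left]
  intro e he he'
  unfold bx at he he'
  rw [mem_edg, Finset.mem_Icc, Pi.le_def, Pi.le_def] at he he'
  have h1 : e.1 i = w i + 1 := by
    have h2 := he.1.1 i
    have h3 := he.1.2 i
    unfold flo at h2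
    unfold fhi at h3
    rw [if_pos hi', FC_uv'] at h2 h3
    exact le_antisymm h3 h2
  have h2 : e.1 i = w i := by
    have h2 := he'.1.1 i
    have h3 := he'.1.2 i
    unfold flo at h2
    unfold fhi at h3
    rw [if_pos hi', FC_uv w j i hij] at h2 h3
    exact le_antisymm h3 h2
  omega

theorem fib_marg {d : ℕ} (lo hi w : Vx d) (r : ℤ) (J : Finset (Fin d)) (i : Fin d)
    (hi' : i ∈ J) :
    marg lo hi r w \ J ⊆ marg (flo lo w J i) (fhi hi w J i) r (w + uv i) := by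
  intro j hj
  rw [Finset.mem_sdiff, mem_marg] at hj
  have h1 : j ≠ i := fun h => hj.2 (h ▸ hi')
  rw [mem_marg, FC_uv w i j h1]
  unfold flo fhi
  rw [if_neg hj.2, if_neg hj.2]
  exact hj.1

/-- Module FD (M). One vertex with many coordinates of margin `r` is exceptional with small
probability. Choose `J ⊆ marg lo hi r w` with `M` elements and apply `chern` to
`U i = bx (flo lo w J i) (fhi hi w J i)`, `B i η = big η s (w + e_i)`, `Grow`. -/
theorem exc_one {d : ℕ} (m : Mdl) (ha : 0 ≤ m.a) (hb : 0 ≤ m.b) (c κ : ℝ) (hc : 0 < c)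
    (hc1 : c ≤ 1) (r : ℤ) (hr : 1 ≤ r) (k s M : ℕ) (hG : Grow d m r k s c) (hκ : κ * d ≤ c * M / 4)
    (lo hi w : Vx d) (hw : w ∈ Finset.Icc lo hi) (hm : k + M ≤ (marg lo hi r w).card)
    (A : Vx d → ZMod 2) :
    EL m (bx lo hi) A (fun η => ind (((fw lo hi s η w).card : ℝ) < κ * d)) ≤
      rho c ^ M * ZZ m (bx lo hi) A := by
  obtain ⟨J, hJ, hJc⟩ := Finset.exists_subset_card_eq (le_trans (Nat.le_add_left M k) hm)
  have h1 := chern m ha hb (bx lo hi) J (fun i => bx (flo lo w J i) (fhi hi w J i))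
    (fun i hi' => fib_sub lo hi w hw r hr J hJ i hi')
    (fun i hi' j hj hij => fib_disj lo hi w J i j hi' hj hij)
    (fun i η => big (↑η) s (w + uv i)) c hc hc1
    (fun i hi' A' => by
      refine hG _ _ _ (fib_mem lo hi w hw r hr J hJ i hi').1 ?_ A'
      refine le_trans ?_ (Finset.card_le_card (fib_marg lo hi w r J i hi'))
      rw [Finset.card_sdiff_of_subset hJ, hJc]
      omega) A
  rw [hJc] at h1
  refine le_trans (EL_mono m ha hb _ A _ _ fun η _ => ind_mono fun h => ?_) h1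
  refine lt_of_le_of_lt ?_ (lt_of_lt_of_le h hκ)
  have h2 : fl J (fun i => big (↑(η ∩ bx (flo lo w J i) (fhi hi w J i))) s (w + uv i)) ⊆
      fw lo hi s η w := by
    intro i hi'
    rw [mem_fl] at hi'
    unfold fw
    rw [mem_fl]
    refine ⟨Finset.mem_univ i, (fib_mem lo hi w hw r hr J hJ i hi'.1).2, ?_⟩
    exact big_mono (by exact_mod_cast Finset.inter_subset_left) hi'.2
  exact_mod_cast Finset.card_le_card h2

private theorem FE_one (lo hi : ℤ) (ℓ r : ℕ) (h1 : hi = lo + ℓ - 1) :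
    ∑ a ∈ Finset.Icc lo hi, (if lo + r ≤ a ∧ a + r ≤ hi then (1 : ℝ) else 2) ≤ ℓ + 2 * r := by
  have h2 : ∀ a : ℤ, (if lo + r ≤ a ∧ a + r ≤ hi then (1 : ℝ) else 2) ≤
      1 + ((if a ∈ Finset.Ico lo (lo + r) then (1 : ℝ) else 0) +
        (if a ∈ Finset.Ioc (hi - r) hi then (1 : ℝ) else 0)) ∨ a ∉ Finset.Icc lo hi := by
    intro a
    by_cases ha : a ∈ Finset.Icc lo hi
    · left
      rw [Finset.mem_Icc] at ha
      by_cases h3 : lo + r ≤ a ∧ a + r ≤ hi
      · rw [if_pos h3]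
        have : (0 : ℝ) ≤ (if a ∈ Finset.Ico lo (lo + r) then (1 : ℝ) else 0) := by
          split_ifs <;> norm_num
        have : (0 : ℝ) ≤ (if a ∈ Finset.Ioc (hi - r) hi then (1 : ℝ) else 0) := by
          split_ifs <;> norm_num
        linarith
      · rw [if_neg h3]
        by_cases h4 : lo + r ≤ a
        · have h5 : a ∈ Finset.Ioc (hi - r) hi := by
            rw [Finset.mem_Ioc]
            constructor
            · by_contra hcon
              exact h3 ⟨h4, by linarith⟩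
            · exact ha.2
          rw [if_pos h5]
          have : (0 : ℝ) ≤ (if a ∈ Finset.Ico lo (lo + r) then (1 : ℝ) else 0) := by
            split_ifs <;> norm_num
          linarith
        · have h5 : a ∈ Finset.Ico lo (lo + r) := by
            rw [Finset.mem_Ico]
            exact ⟨ha.1, lt_of_not_ge h4⟩
          rw [if_pos h5]
          have : (0 : ℝ) ≤ (if a ∈ Finset.Ioc (hi - r) hi then (1 : ℝ) else 0) := by
            split_ifs <;> norm_num
          linarith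
    · right
      exact ha
  have hcount : ∀ (S : Finset ℤ), ∑ a ∈ Finset.Icc lo hi, (if a ∈ S then (1 : ℝ) else 0) ≤
      S.card := by
    intro S
    rw [← Finset.sum_filter, Finset.sum_const, nsmul_eq_mul, mul_one]
    exact_mod_cast Finset.card_le_card fun a ha => (Finset.mem_filter.mp ha).2
  calc ∑ a ∈ Finset.Icc lo hi, (if lo + r ≤ a ∧ a + r ≤ hi then (1 : ℝ) else 2) ≤
        ∑ a ∈ Finset.Icc lo hi, (1 + ((if a ∈ Finset.Ico lo (lo + r) then (1 : ℝ) else 0) +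
        (if a ∈ Finset.Ioc (hi - r) hi then (1 : ℝ) else 0))) :=
        Finset.sum_le_sum fun a ha => (h2 a).resolve_right fun h => h ha
    _ = ((Finset.Icc lo hi).card : ℝ) + (∑ a ∈ Finset.Icc lo hi,
          (if a ∈ Finset.Ico lo (lo + r) then (1 : ℝ) else 0) +
        ∑ a ∈ Finset.Icc lo hi, (if a ∈ Finset.Ioc (hi - r) hi then (1 : ℝ) else 0)) := by
        rw [Finset.sum_add_distrib, Finset.sum_add_distrib, Finset.sum_const, nsmul_eq_mul, mul_one]
    _ ≤ (ℓ : ℝ) + ((Finset.Ico lo (lo + r)).card + (Finset.Ioc (hi - r) hi).card) := by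
        have h3 : (Finset.Icc lo hi).card = ℓ := by
          rw [Int.card_Icc, h1]
          omega
        rw [h3]
        exact add_le_add le_rfl (add_le_add (hcount _) (hcount _))
    _ = _ := by
        have h4 : (Finset.Ico lo (lo + (r : ℤ))).card = r := by
          rw [Int.card_Ico]
          omega
        have h5 : (Finset.Ioc (hi - (r : ℤ)) hi).card = r := by
          rw [Int.card_Ioc]
          omega
        rw [h4, h5]
        ring

/-- Module FE (M). Number of vertices of a box with at least `h` active coordinates outside the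
margin: `2^h #{..} ≤ ∑_w 2^{nb w} ≤ (ℓ + 2 r)^|D|` (product structure). -/
theorem nontyp {d : ℕ} (lo hi : Vx d) (ℓ r : ℕ) (D : Finset (Fin d))
    (h1 : ∀ i ∈ D, hi i = lo i + ℓ - 1) (h2 : ∀ i, i ∉ D → hi i = lo i) (hℓ : 1 ≤ ℓ) (h : ℕ) :
    ((fl (Finset.Icc lo hi) (fun w => h ≤ (D \ marg lo hi r w).card)).card : ℝ) * 2 ^ h ≤
      ((ℓ : ℝ) + 2 * r) ^ D.card := by
  classical
  set g : Fin d → ℤ → ℝ := fun i a =>
    if i ∈ D then (if lo i + r ≤ a ∧ a + r ≤ hi i then 1 else 2) else 1 with hg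
  have hg0 : ∀ i a, 0 ≤ g i a := by
    intro i a
    rw [hg]
    change 0 ≤ (if i ∈ D then (if lo i + r ≤ a ∧ a + r ≤ hi i then (1 : ℝ) else 2) else 1)
    split_ifs <;> norm_num
  have h3 : ∀ w : Vx d, ∏ i, g i (w i) = (2 : ℝ) ^ (D \ marg lo hi r w).card := by
    intro w
    rw [← Finset.prod_const, ← Finset.prod_subset (Finset.subset_univ (D \ marg lo hi r w))]
    · refine Finset.prod_congr rfl fun i hi' => ?_
      rw [Finset.mem_sdiff, mem_marg] at hi'
      change (if i ∈ D then (if lo i + r ≤ w i ∧ w i + r ≤ hi i then (1 : ℝ) else 2) else 1) = 2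
      rw [if_pos hi'.1, if_neg hi'.2]
    · intro i _ hi'
      rw [Finset.mem_sdiff, mem_marg, not_and, not_not] at hi'
      change (if i ∈ D then (if lo i + r ≤ w i ∧ w i + r ≤ hi i then (1 : ℝ) else 2) else 1) = 1
      by_cases h4 : i ∈ D
      · rw [if_pos h4, if_pos (hi' h4)]
      · rw [if_neg h4]
  have h4 : ∑ w ∈ Finset.Icc lo hi, ∏ i, g i (w i) = ∏ i, ∑ a ∈ Finset.Icc (lo i) (hi i), g i a := by
    rw [Finset.prod_univ_sum]
    rfl
  have h5 : ∏ i, ∑ a ∈ Finset.Icc (lo i) (hi i), g i a ≤ ((ℓ : ℝ) + 2 * r) ^ D.card := by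
    rw [← Finset.prod_const, ← Finset.prod_subset (Finset.subset_univ D)]
    · refine Finset.prod_le_prod (fun i _ => Finset.sum_nonneg fun a _ => hg0 i a) fun i hi' => ?_
      have h6 := FE_one (lo i) (hi i) ℓ r (h1 i hi')
      refine le_trans (le_of_eq (Finset.sum_congr rfl fun a _ => ?_)) h6
      change (if i ∈ D then (if lo i + r ≤ a ∧ a + r ≤ hi i then (1 : ℝ) else 2) else 1) = _
      rw [if_pos hi']
    · intro i _ hi'
      rw [h2 i hi', Finset.Icc_self, Finset.sum_singleton]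
      change (if i ∈ D then _ else (1 : ℝ)) = 1
      rw [if_neg hi']
  rw [card_fl, Finset.sum_mul]
  refine le_trans ?_ (h4 ▸ h5 : ∑ w ∈ Finset.Icc lo hi, ∏ i, g i (w i) ≤ _)
  refine Finset.sum_le_sum fun w _ => ?_
  rw [h3]
  by_cases h6 : h ≤ (D \ marg lo hi r w).card
  · rw [ind_true h6, one_mul]
    exact pow_le_pow_right₀ one_le_two h6
  · rw [ind_false h6, zero_mul]
    positivity

theorem card_box {d : ℕ} (lo hi : Vx d) (ℓ : ℕ) (D : Finset (Fin d))
    (h1 : ∀ i ∈ D, hi i = lo i + ℓ - 1) (h2 : ∀ i, i ∉ D → hi i = lo i) :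
    (Finset.Icc lo hi).card = ℓ ^ D.card := by
  classical
  rw [Pi.card_Icc, ← Finset.prod_const, ← Finset.prod_subset (Finset.subset_univ D)]
  · refine Finset.prod_congr rfl fun i hi' => ?_
    rw [Int.card_Icc, h1 i hi']
    omega
  · intro i _ hi'
    rw [h2 i hi', Finset.Icc_self, Finset.card_singleton]

private theorem FF_lim (c δ : ℝ) (hc : 0 < c) (hc1 : c ≤ 1) (hδ : 0 < δ) :
    ∀ᶠ d : ℕ in atTop, 5 ≤ δ * d ∧
      (d : ℝ) ^ 4 * (rho c ^ ⌊δ * d⌋₊ + Real.exp (- (δ * d))) ≤ 1 := by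
  have hρ := rho_pos c hc hc1
  have hρ1 := rho_lt_one c hc hc1
  have h1 : Tendsto (fun n : ℕ => (n : ℝ) ^ 4 * (Real.exp (-δ)) ^ n) atTop (nhds 0) :=
    tendsto_pow_const_mul_const_pow_of_abs_lt_one 4 (by
      rw [abs_of_pos (Real.exp_pos _), Real.exp_lt_one_iff]
      linarith)
  have h2 : Tendsto (fun n : ℕ => (n : ℝ) ^ 4 * (rho c ^ δ) ^ n) atTop (nhds 0) :=
    tendsto_pow_const_mul_const_pow_of_abs_lt_one 4 (by
      rw [abs_of_pos (Real.rpow_pos_of_pos hρ _)]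
      exact Real.rpow_lt_one hρ.le hρ1 hδ)
  have h3 : ∀ᶠ n : ℕ in atTop, (n : ℝ) ^ 4 * (Real.exp (-δ)) ^ n < 1 / 2 :=
    h1.eventually (gt_mem_nhds (by norm_num))
  have h4 : ∀ᶠ n : ℕ in atTop, (n : ℝ) ^ 4 * (rho c ^ δ) ^ n < rho c / 2 :=
    h2.eventually (gt_mem_nhds (by linarith))
  have h5 : ∀ᶠ n : ℕ in atTop, 5 / δ ≤ (n : ℝ) :=
    tendsto_natCast_atTop_atTop.eventually_ge_atTop (5 / δ)
  filter_upwards [h3, h4, h5] with d h3 h4 h5
  rw [div_le_iff₀ hδ] at h5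
  refine ⟨by linarith, ?_⟩
  have h6 : Real.exp (- (δ * d)) = Real.exp (-δ) ^ d := by
    rw [← Real.exp_nat_mul]
    congr 1
    ring
  have h7 : rho c ^ ⌊δ * d⌋₊ * rho c ≤ (rho c ^ δ) ^ d := by
    rw [← pow_succ, ← Real.rpow_natCast (rho c), ← Real.rpow_natCast (rho c ^ δ),
      ← Real.rpow_mul hρ.le]
    refine Real.rpow_le_rpow_of_exponent_ge hρ hρ1.le ?_
    have := (Nat.lt_floor_add_one (δ * (d : ℝ))).le
    push_cast
    exact this
  have h8 : (0 : ℝ) ≤ (d : ℝ) ^ 4 := by positivity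
  have h9 : (d : ℝ) ^ 4 * rho c ^ ⌊δ * d⌋₊ * rho c ≤ 1 / 2 * rho c := by
    calc _ = (d : ℝ) ^ 4 * (rho c ^ ⌊δ * d⌋₊ * rho c) := by ring
      _ ≤ (d : ℝ) ^ 4 * (rho c ^ δ) ^ d := mul_le_mul_of_nonneg_left h7 h8
      _ ≤ _ := by linarith
  have h10 := le_of_mul_le_mul_right h9 hρ
  rw [h6, mul_add]
  linarith

/-- Module FF (L). `κ = c δ / 5`, `M = ⌊δ d⌋`. `E |exs| ≤ #{w : |D \ marg w| ≥ h} + N rho^M` with
`h = ⌈3 δ d⌉` (if `|D \ marg w| < h` then `|marg w| ≥ |D| - h + 1 ≥ k + M`),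
`#.. ≤ N (1 + 2 r/ℓ)^|D| 2^{-h} ≤ N exp (δ d - 3 δ d log 2)`, so `E |exs| ≤ N / d^4` for large
`d`, and Markov's inequality. -/
theorem exc (c δ : ℝ) (hc : 0 < c) (hc1 : c ≤ 1) (hδ : 0 < δ) (hδ1 : δ ≤ 1) :
    ∃ κ : ℝ, 0 < κ ∧ κ ≤ 1 ∧ ∀ᶠ d : ℕ in atTop, ∀ (m : Mdl) (k ℓ r : ℕ), 0 ≤ m.a → 0 ≤ m.b →
      1 ≤ r → 2 * (r : ℝ) ≤ δ * ℓ → Grow d m r k (d ^ 8) c →
      ∀ (lo hi : Vx d) (D : Finset (Fin d)), (∀ i ∈ D, hi i = lo i + ℓ - 1) →
        (∀ i, i ∉ D → hi i = lo i) → (k : ℝ) + 4 * δ * d ≤ D.card → ∀ A : Vx d → ZMod 2,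
        (d : ℝ) ^ 2 * EL m (bx lo hi) A
          (fun η => ind ((ℓ : ℝ) ^ D.card < (d : ℝ) ^ 2 * (exs κ lo hi (d ^ 8) η).card)) ≤
          ZZ m (bx lo hi) A := by
  refine ⟨c * δ / 5, by positivity, ?_, ?_⟩
  · have : c * δ ≤ 1 := mul_le_one₀ hc1 hδ.le hδ1
    linarith
  filter_upwards [FF_lim c δ hc hc1 hδ, eventually_ge_atTop 1] with d hd hd1
  obtain ⟨hd5, hlim⟩ := hd
  intro m k ℓ r ha hb hr hrl hG lo hi D h1 h2 hD A
  have hdpos : (0 : ℝ) < d := by exact_mod_cast hd1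
  have hr1 : (1 : ℝ) ≤ r := by exact_mod_cast hr
  have hℓpos : (0 : ℝ) < ℓ := by
    by_contra hcon
    push Not at hcon
    have : δ * (ℓ : ℝ) ≤ 0 := mul_nonpos_of_nonneg_of_nonpos hδ.le hcon
    linarith
  have hℓ1 : 1 ≤ ℓ := by exact_mod_cast hℓpos
  set M := ⌊δ * (d : ℝ)⌋₊ with hM
  set κ := c * δ / 5 with hκ
  have hMle : (M : ℝ) ≤ δ * d := Nat.floor_le (by positivity)
  have hMge : δ * d - 1 ≤ (M : ℝ) := by
    have := Nat.lt_floor_add_one (δ * (d : ℝ))
    linarith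
  set h := ⌈3 * δ * (d : ℝ)⌉₊ with hh
  have hhge : 3 * δ * (d : ℝ) ≤ h := Nat.le_ceil _
  have hhle : (h : ℝ) < 3 * δ * d + 1 := Nat.ceil_lt_add_one (by positivity)
  have hκM : κ * d ≤ c * M / 4 := by
    rw [hκ]
    have h3 : 4 / 5 * (δ * d) ≤ (M : ℝ) := by linarith
    have h4 := mul_le_mul_of_nonneg_left h3 hc.le
    linarith
  have hN : ((Finset.Icc lo hi).card : ℝ) = (ℓ : ℝ) ^ D.card := by
    rw [card_box lo hi ℓ D h1 h2]
    push_cast
    rfl
  have hNpos : (0 : ℝ) < (ℓ : ℝ) ^ D.card := pow_pos hℓpos _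
  have hZ : 0 ≤ ZZ m (bx lo hi) A := ZZ_nonneg m ha hb _ A
  have hρ := rho_pos c hc hc1
  -- one vertex
  have hone : ∀ w ∈ Finset.Icc lo hi,
      EL m (bx lo hi) A (fun η => ind (((fw lo hi (d ^ 8) η w).card : ℝ) < κ * d)) ≤
      (rho c ^ M + ind (h ≤ (D \ marg lo hi r w).card)) * ZZ m (bx lo hi) A := by
    intro w hw
    by_cases h3 : h ≤ (D \ marg lo hi r w).card
    · rw [ind_true h3]
      have h4 : EL m (bx lo hi) A (fun η => ind (((fw lo hi (d ^ 8) η w).card : ℝ) < κ * d)) ≤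
          ZZ m (bx lo hi) A := EL_mono m ha hb _ A _ _ fun η _ => ind_le_one _
      have h5 : 0 ≤ rho c ^ M * ZZ m (bx lo hi) A := mul_nonneg (pow_nonneg hρ.le _) hZ
      rw [add_mul, one_mul]
      linarith
    · rw [ind_false h3, add_zero]
      refine exc_one m ha hb c κ hc hc1 r (by exact_mod_cast hr) k (d ^ 8) M hG hκM lo hi w hw ?_ A
      have h4 : D.card ≤ (marg lo hi r w).card + (D \ marg lo hi r w).card := by
        have h5 := Finset.card_sdiff_add_card D (marg lo hi r w)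
        have h6 : D.card ≤ (D ∪ marg lo hi r w).card := Finset.card_le_card Finset.subset_union_left
        omega
      have h5 : (D \ marg lo hi r w).card + 1 ≤ h := by omega
      have h6 : ((D \ marg lo hi r w).card : ℝ) + 1 ≤ h := by exact_mod_cast h5
      have h7 : (D.card : ℝ) ≤ (marg lo hi r w).card + (D \ marg lo hi r w).card := by
        exact_mod_cast h4
      have h8 : ((k + M : ℕ) : ℝ) ≤ ((marg lo hi r w).card : ℝ) := by
        push_cast
        linarith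
      exact_mod_cast h8
  have hnt := nontyp lo hi ℓ r D h1 h2 hℓ1 h
  -- the number of untypical vertices
  have hcnt : ((fl (Finset.Icc lo hi) (fun w => h ≤ (D \ marg lo hi r w).card)).card : ℝ) ≤
      (ℓ : ℝ) ^ D.card * Real.exp (- (δ * d)) := by
    have hDd : (D.card : ℝ) ≤ d := by
      have := Finset.card_le_univ D
      rw [Fintype.card_fin] at this
      exact_mod_cast this
    have h3 : ((ℓ : ℝ) + 2 * r) ^ D.card ≤ (ℓ : ℝ) ^ D.card * Real.exp (δ * d) := by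
      calc ((ℓ : ℝ) + 2 * r) ^ D.card ≤ (ℓ * (1 + δ)) ^ D.card :=
            pow_le_pow_left₀ (by positivity) (by linarith) _
        _ = (ℓ : ℝ) ^ D.card * (1 + δ) ^ D.card := mul_pow _ _ _
        _ ≤ (ℓ : ℝ) ^ D.card * Real.exp (δ * d) := by
            refine mul_le_mul_of_nonneg_left ?_ hNpos.le
            calc (1 + δ) ^ D.card ≤ (Real.exp δ) ^ D.card :=
                  pow_le_pow_left₀ (by positivity) (by
                    have := Real.add_one_le_exp δ
                    linarith) _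
              _ = Real.exp (D.card * δ) := (Real.exp_nat_mul δ D.card).symm
              _ ≤ Real.exp (δ * d) := Real.exp_le_exp.mpr (by
                  rw [mul_comm]
                  exact mul_le_mul_of_nonneg_left hDd hδ.le)
    have h4 : Real.exp (2 * (δ * d)) ≤ (2 : ℝ) ^ h := by
      have h5 : (2 : ℝ) ^ h = Real.exp (h * Real.log 2) := by
        rw [Real.exp_nat_mul, Real.exp_log two_pos]
      rw [h5]
      refine Real.exp_le_exp.mpr ?_
      have h6 : (2 / 3 : ℝ) ≤ Real.log 2 := by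
        have := Real.log_two_gt_d9
        linarith
      have h7 : (0 : ℝ) ≤ h := Nat.cast_nonneg _
      calc 2 * (δ * d) = 3 * δ * d * (2 / 3) := by ring
        _ ≤ h * (2 / 3) := mul_le_mul_of_nonneg_right hhge (by norm_num)
        _ ≤ h * Real.log 2 := mul_le_mul_of_nonneg_left h6 h7
    have h5 : (0 : ℝ) ≤ ((fl (Finset.Icc lo hi) (fun w => h ≤ (D \ marg lo hi r w).card)).card :
      ℝ) := Nat.cast_nonneg _
    have h6 := (mul_le_mul_of_nonneg_left h4 h5).trans (hnt.trans h3)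
    have h7 : Real.exp (2 * (δ * d)) * Real.exp (- (δ * d)) = Real.exp (δ * d) := by
      rw [← Real.exp_add]
      congr 1
      ring
    have h8 : 0 < Real.exp (2 * (δ * d)) := Real.exp_pos _
    refine le_of_mul_le_mul_right ?_ h8
    calc _ ≤ _ := h6
      _ = _ := by
        rw [← h7]
        ring
  -- expectation
  have hexp : EL m (bx lo hi) A (fun η => ((exs κ lo hi (d ^ 8) η).card : ℝ)) ≤
      (ℓ : ℝ) ^ D.card * (rho c ^ M + Real.exp (- (δ * d))) * ZZ m (bx lo hi) A := by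
    have h3 : EL m (bx lo hi) A (fun η => ((exs κ lo hi (d ^ 8) η).card : ℝ)) =
        ∑ w ∈ Finset.Icc lo hi,
          EL m (bx lo hi) A (fun η => ind (((fw lo hi (d ^ 8) η w).card : ℝ) < κ * d)) := by
      rw [← EL_sum]
      refine EL_congr _ _ _ _ _ fun η _ => ?_
      unfold exs
      exact card_fl _ _
    rw [h3]
    refine (Finset.sum_le_sum hone).trans ?_
    rw [← Finset.sum_mul, Finset.sum_add_distrib, Finset.sum_const, nsmul_eq_mul, hN, ← card_fl]
    refine mul_le_mul_of_nonneg_right ?_ hZ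
    rw [mul_add]
    exact add_le_add le_rfl hcnt
  -- Markov
  have hmark : ∀ η : Finset (Ed d),
      ind ((ℓ : ℝ) ^ D.card < (d : ℝ) ^ 2 * (exs κ lo hi (d ^ 8) η).card) ≤
      ((d : ℝ) ^ 2 / (ℓ : ℝ) ^ D.card) * ((exs κ lo hi (d ^ 8) η).card : ℝ) := by
    intro η
    by_cases h3 : (ℓ : ℝ) ^ D.card < (d : ℝ) ^ 2 * (exs κ lo hi (d ^ 8) η).card
    · rw [ind_true h3, div_mul_eq_mul_div, one_le_div hNpos]
      exact h3.le
    · rw [ind_false h3]
      positivity
  have hd2 : (0 : ℝ) ≤ (d : ℝ) ^ 2 := by positivity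
  calc (d : ℝ) ^ 2 * EL m (bx lo hi) A
          (fun η => ind ((ℓ : ℝ) ^ D.card < (d : ℝ) ^ 2 * (exs κ lo hi (d ^ 8) η).card)) ≤
        (d : ℝ) ^ 2 * EL m (bx lo hi) A (fun η => ((d : ℝ) ^ 2 / (ℓ : ℝ) ^ D.card) *
          ((exs κ lo hi (d ^ 8) η).card : ℝ)) :=
        mul_le_mul_of_nonneg_left (EL_mono m ha hb _ A _ _ fun η _ => hmark η) hd2
    _ = (d : ℝ) ^ 2 * (((d : ℝ) ^ 2 / (ℓ : ℝ) ^ D.card) *
          EL m (bx lo hi) A (fun η => ((exs κ lo hi (d ^ 8) η).card : ℝ))) := by rw [EL_smul]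
    _ ≤ (d : ℝ) ^ 2 * (((d : ℝ) ^ 2 / (ℓ : ℝ) ^ D.card) *
          ((ℓ : ℝ) ^ D.card * (rho c ^ M + Real.exp (- (δ * d))) * ZZ m (bx lo hi) A)) :=
        mul_le_mul_of_nonneg_left (mul_le_mul_of_nonneg_left hexp (by positivity)) hd2
    _ = (d : ℝ) ^ 4 * (rho c ^ M + Real.exp (- (δ * d))) * ZZ m (bx lo hi) A := by
        field_simp
    _ ≤ 1 * ZZ m (bx lo hi) A := mul_le_mul_of_nonneg_right hlim hZ
    _ = _ := one_mul _

end Pool.Agent.SRC
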