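import Pool.Agent.SRC.Corr

/-! Hierarchical percolation on `ℤ²` with product bounds only. Modules HA - HE. -/

set_option autoImplicit false

namespace Pool.Agent.SRC

open Finset Filter

/-- Nearest neighbours in `ℤ²`. -/
def nb2 (z z' : ℤ × ℤ) : Prop :=
  (z'.1 = z.1 + 1 ∧ z'.2 = z.2) ∨ (z.1 = z'.1 + 1 ∧ z'.2 = z.2) ∨
    (z'.1 = z.1 ∧ z'.2 = z.2 + 1) ∨ (z'.1 = z.1 ∧ z.2 = z'.2 + 1)

/-- The square `[0, 4^k - 1]²`. -/
noncomputable def Sq (k : ℕ) : Finset (ℤ × ℤ) := Finset.Icc (0, 0) ((4 : ℤ) ^ k - 1, (4 : ℤ) ^ k - 1)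

/-- The sixteen sub-boxes of a box. -/
noncomputable def sub4 (z : ℤ × ℤ) : Finset (ℤ × ℤ) :=
  Finset.Icc (4 * z.1, 4 * z.2) (4 * z.1 + 3, 4 * z.2 + 3)

/-- Good boxes of level `k`. -/
def gd (bad : ℤ × ℤ → Prop) : ℕ → ℤ × ℤ → Prop
  | 0, z => ¬ bad z
  | k + 1, z => ∀ s ∈ sub4 z, ∀ s' ∈ sub4 z, ¬ gd bad k s → ¬ gd bad k s' → s = s'

/-- `c` is a cell in the box `z` of level `k`, all intermediate boxes being good. -/
def anc (bad : ℤ × ℤ → Prop) : ℕ → ℤ × ℤ → ℤ × ℤ → Prop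
  | 0, z, c => c = z ∧ ¬ bad z
  | k + 1, z, c => gd bad (k + 1) z ∧ ∃ s ∈ sub4 z, anc bad k s c

/-- One step between good cells of the square. -/
def st2 (bad : ℤ × ℤ → Prop) (k : ℕ) (z z' : ℤ × ℤ) : Prop :=
  nb2 z z' ∧ z ∈ Sq k ∧ z' ∈ Sq k ∧ ¬ bad z ∧ ¬ bad z'

/-- There is a path of good cells of `[0, 4^(K+1) - 1]²` from the origin to a cell with first
coordinate at least `4^K`. -/
def HP (bad : ℤ × ℤ → Prop) (K : ℕ) : Prop :=
  ¬ bad (0, 0) ∧ ∃ z ∈ Sq (K + 1), (4 : ℤ) ^ K ≤ z.1 ∧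
    Relation.ReflTransGen (st2 bad (K + 1)) (0, 0) z

theorem HA_pair (bad : ℤ × ℤ → Prop) (k : ℕ) (z : ℤ × ℤ) :
    ind (¬ gd bad (k + 1) z) ≤
      ∑ T ∈ (sub4 z).powersetCard 2, ind (∀ s ∈ T, ¬ gd bad k s) := by
  classical
  by_cases h : gd bad (k + 1) z
  · rw [ind_false (not_not.mpr h)]
    exact Finset.sum_nonneg fun T _ => ind_nonneg _
  · rw [ind_true h]
    have h' : ∃ s ∈ sub4 z, ∃ s' ∈ sub4 z, ¬ gd bad k s ∧ ¬ gd bad k s' ∧ s ≠ s' := by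
      by_contra hcon
      apply h
      intro s hs s' hs' h1 h2
      by_contra hne
      exact hcon ⟨s, hs, s', hs', h1, h2, hne⟩
    obtain ⟨s, hs, s', hs', h1, h2, hne⟩ := h'
    have hT : ({s, s'} : Finset (ℤ × ℤ)) ∈ (sub4 z).powersetCard 2 := by
      rw [Finset.mem_powersetCard]
      refine ⟨?_, Finset.card_pair hne⟩
      intro t ht
      rw [Finset.mem_insert, Finset.mem_singleton] at ht
      rcases ht with rfl | rfl
      · exact hs
      · exact hs'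
    have h3 : ind (∀ t ∈ ({s, s'} : Finset (ℤ × ℤ)), ¬ gd bad k t) = 1 := by
      apply ind_true
      intro t ht
      rw [Finset.mem_insert, Finset.mem_singleton] at ht
      rcases ht with rfl | rfl
      · exact h1
      · exact h2
    rw [← h3]
    exact Finset.single_le_sum (f := fun T => ind (∀ s ∈ T, ¬ gd bad k s))
      (fun T _ => ind_nonneg _) hT

theorem HA_card (z : ℤ × ℤ) : ((sub4 z).powersetCard 2).card = 120 := by
  have h : (sub4 z).card = 16 := by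
    unfold sub4
    rw [← Finset.Icc_product_Icc, Finset.card_product, Int.card_Icc, Int.card_Icc]
    have e1 : 4 * z.1 + 3 + 1 - 4 * z.1 = 4 := by ring
    have e2 : 4 * z.2 + 3 + 1 - 4 * z.2 = 4 := by ring
    rw [e1, e2]
    rfl
  rw [Finset.card_powersetCard, h]
  rfl

theorem HA_mem_sub4 (z s : ℤ × ℤ) : s ∈ sub4 z ↔
    4 * z.1 ≤ s.1 ∧ 4 * z.2 ≤ s.2 ∧ s.1 ≤ 4 * z.1 + 3 ∧ s.2 ≤ 4 * z.2 + 3 := by
  unfold sub4
  rw [Finset.mem_Icc, Prod.le_def, Prod.le_def]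
  simp only
  tauto

theorem HA_mem_Sq (k : ℕ) (z : ℤ × ℤ) : z ∈ Sq k ↔
    0 ≤ z.1 ∧ 0 ≤ z.2 ∧ z.1 ≤ 4 ^ k - 1 ∧ z.2 ≤ 4 ^ k - 1 := by
  unfold Sq
  rw [Finset.mem_Icc, Prod.le_def, Prod.le_def]
  simp only
  tauto

theorem HA_sub_Sq {K k : ℕ} (hk : k + 1 ≤ K) {z s : ℤ × ℤ} (hz : z ∈ Sq (K - (k + 1)))
    (hs : s ∈ sub4 z) : s ∈ Sq (K - k) := by
  rw [HA_mem_Sq] at hz ⊢
  rw [HA_mem_sub4] at hs
  have e : K - k = (K - (k + 1)) + 1 := by omega
  rw [e, pow_succ]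
  omega

/-- Induction over the boxes of level `k + 1`. -/
theorem HA_step {α : Type*} (Ω : Finset α) (w : α → ℝ) (hw : ∀ a ∈ Ω, 0 ≤ w a)
    (bad : α → ℤ × ℤ → Prop) (K k : ℕ) (hk : k + 1 ≤ K) (q : ℝ)
    (h : ∀ Γ : Finset (ℤ × ℤ), Γ ⊆ Sq (K - k) →
      ∑ a ∈ Ω, w a * ind (∀ z ∈ Γ, ¬ gd (bad a) k z) ≤ q ^ Γ.card * ∑ a ∈ Ω, w a)
    (Γ : Finset (ℤ × ℤ)) : ∀ Δ : Finset (ℤ × ℤ), Γ ⊆ Sq (K - (k + 1)) → Δ ⊆ Sq (K - k) →
      (∀ z ∈ Γ, Disjoint (sub4 z) Δ) →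
      ∑ a ∈ Ω, w a * (ind (∀ z ∈ Γ, ¬ gd (bad a) (k + 1) z) * ind (∀ s ∈ Δ, ¬ gd (bad a) k s)) ≤
        (120 * q ^ 2) ^ Γ.card * q ^ Δ.card * ∑ a ∈ Ω, w a := by
  classical
  induction Γ using Finset.induction_on with
  | empty =>
    intro Δ _ hΔ _
    have h0 : ∀ a, ind (∀ z ∈ (∅ : Finset (ℤ × ℤ)), ¬ gd (bad a) (k + 1) z) = 1 := fun a =>
      ind_true (by simp)
    simp only [h0, one_mul, Finset.card_empty, pow_zero]
    exact h Δ hΔ
  | insert z Γ hz ih =>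
    intro Δ hΓ hΔ hdis
    have hzS : z ∈ Sq (K - (k + 1)) := hΓ (Finset.mem_insert_self z Γ)
    have hΓS : Γ ⊆ Sq (K - (k + 1)) := fun t ht => hΓ (Finset.mem_insert_of_mem ht)
    have h1 : ∀ a ∈ Ω, w a * (ind (∀ z' ∈ insert z Γ, ¬ gd (bad a) (k + 1) z') *
        ind (∀ s ∈ Δ, ¬ gd (bad a) k s)) ≤
        ∑ T ∈ (sub4 z).powersetCard 2, w a * (ind (∀ z ∈ Γ, ¬ gd (bad a) (k + 1) z) *
          ind (∀ s ∈ Δ ∪ T, ¬ gd (bad a) k s)) := by
      intro a ha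
      have e1 : ind (∀ z' ∈ insert z Γ, ¬ gd (bad a) (k + 1) z') =
          ind (¬ gd (bad a) (k + 1) z) * ind (∀ z ∈ Γ, ¬ gd (bad a) (k + 1) z) := by
        rw [← ind_and]
        exact ind_congr (by simp)
      have e2 : ∀ T : Finset (ℤ × ℤ), ind (∀ s ∈ Δ ∪ T, ¬ gd (bad a) k s) =
          ind (∀ s ∈ Δ, ¬ gd (bad a) k s) * ind (∀ s ∈ T, ¬ gd (bad a) k s) := by
        intro T
        rw [← ind_and]
        refine ind_congr ⟨fun h => ⟨fun s hs => h s (Finset.mem_union_left T hs),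
          fun s hs => h s (Finset.mem_union_right Δ hs)⟩, fun h s hs => ?_⟩
        rcases Finset.mem_union.1 hs with h' | h'
        · exact h.1 s h'
        · exact h.2 s h'
      rw [e1]
      simp only [e2]
      have h3 := HA_pair (bad a) k z
      have h4 : 0 ≤ w a * (ind (∀ z ∈ Γ, ¬ gd (bad a) (k + 1) z) *
          ind (∀ s ∈ Δ, ¬ gd (bad a) k s)) :=
        mul_nonneg (hw a ha) (mul_nonneg (ind_nonneg _) (ind_nonneg _))
      calc w a * (ind (¬ gd (bad a) (k + 1) z) * ind (∀ z ∈ Γ, ¬ gd (bad a) (k + 1) z) *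
            ind (∀ s ∈ Δ, ¬ gd (bad a) k s))
          = w a * (ind (∀ z ∈ Γ, ¬ gd (bad a) (k + 1) z) *
            ind (∀ s ∈ Δ, ¬ gd (bad a) k s)) * ind (¬ gd (bad a) (k + 1) z) := by ring
        _ ≤ w a * (ind (∀ z ∈ Γ, ¬ gd (bad a) (k + 1) z) *
            ind (∀ s ∈ Δ, ¬ gd (bad a) k s)) *
            ∑ T ∈ (sub4 z).powersetCard 2, ind (∀ s ∈ T, ¬ gd (bad a) k s) :=
          mul_le_mul_of_nonneg_left h3 h4
        _ = _ := by
          rw [Finset.mul_sum]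
          refine Finset.sum_congr rfl fun T _ => ?_
          ring
    have h2 : ∀ T ∈ (sub4 z).powersetCard 2,
        ∑ a ∈ Ω, w a * (ind (∀ z ∈ Γ, ¬ gd (bad a) (k + 1) z) *
          ind (∀ s ∈ Δ ∪ T, ¬ gd (bad a) k s)) ≤
        (120 * q ^ 2) ^ Γ.card * q ^ (Δ.card + 2) * ∑ a ∈ Ω, w a := by
      intro T hT
      rw [Finset.mem_powersetCard] at hT
      have hdT : Disjoint Δ T := by
        have := hdis z (Finset.mem_insert_self z Γ)
        exact (Finset.disjoint_of_subset_left hT.1 this).symm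
      have hc : (Δ ∪ T).card = Δ.card + 2 := by
        rw [Finset.card_union_of_disjoint hdT, hT.2]
      rw [← hc]
      refine ih (Δ ∪ T) hΓS ?_ ?_
      · intro s hs
        rcases Finset.mem_union.1 hs with h' | h'
        · exact hΔ h'
        · exact HA_sub_Sq hk hzS (hT.1 h')
      · intro z' hz'
        rw [Finset.disjoint_union_right]
        refine ⟨hdis z' (Finset.mem_insert_of_mem hz'), ?_⟩
        refine Finset.disjoint_of_subset_right hT.1 ?_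
        rw [Finset.disjoint_left]
        intro s hs1 hs2
        have hne : z' ≠ z := by
          rintro rfl
          exact hz hz'
        rw [HA_mem_sub4] at hs1 hs2
        apply hne
        refine Prod.ext ?_ ?_
        · omega
        · omega
    calc ∑ a ∈ Ω, w a * (ind (∀ z' ∈ insert z Γ, ¬ gd (bad a) (k + 1) z') *
        ind (∀ s ∈ Δ, ¬ gd (bad a) k s))
        ≤ ∑ a ∈ Ω, ∑ T ∈ (sub4 z).powersetCard 2,
          w a * (ind (∀ z ∈ Γ, ¬ gd (bad a) (k + 1) z) *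
          ind (∀ s ∈ Δ ∪ T, ¬ gd (bad a) k s)) := Finset.sum_le_sum h1
      _ = ∑ T ∈ (sub4 z).powersetCard 2, ∑ a ∈ Ω,
          w a * (ind (∀ z ∈ Γ, ¬ gd (bad a) (k + 1) z) *
          ind (∀ s ∈ Δ ∪ T, ¬ gd (bad a) k s)) := Finset.sum_comm
      _ ≤ ∑ T ∈ (sub4 z).powersetCard 2,
          (120 * q ^ 2) ^ Γ.card * q ^ (Δ.card + 2) * ∑ a ∈ Ω, w a := Finset.sum_le_sum h2
      _ = _ := by
        rw [Finset.sum_const, HA_card, Finset.card_insert_of_notMem hz, nsmul_eq_mul]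
        push_cast
        ring

/-- Module HA (L). Product bound for bad boxes of level `k ≤ K`, by induction on `k`: a bad box
of level `k + 1` has two bad sub-boxes (120 choices), all these sub-boxes are distinct for
distinct boxes, and `120 ((1/1000) (1/8)^k)^2 ≤ (1/1000) (1/8)^(k+1)`. -/
theorem bad_prod {α : Type*} (Ω : Finset α) (w : α → ℝ) (hw : ∀ a ∈ Ω, 0 ≤ w a)
    (bad : α → ℤ × ℤ → Prop) (K : ℕ)
    (h : ∀ Γ : Finset (ℤ × ℤ), Γ ⊆ Sq K →
      ∑ a ∈ Ω, w a * ind (∀ z ∈ Γ, bad a z) ≤ (1 / 1000 : ℝ) ^ Γ.card * ∑ a ∈ Ω, w a)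
    (k : ℕ) (hk : k ≤ K) (Γ : Finset (ℤ × ℤ)) (hΓ : Γ ⊆ Sq (K - k)) :
    ∑ a ∈ Ω, w a * ind (∀ z ∈ Γ, ¬ gd (bad a) k z) ≤
      ((1 / 1000 : ℝ) * (1 / 8) ^ k) ^ Γ.card * ∑ a ∈ Ω, w a := by
  induction k generalizing Γ with
  | zero =>
    have h1 := h Γ hΓ
    rw [pow_zero, mul_one]
    refine le_trans (le_of_eq ?_) h1
    refine Finset.sum_congr rfl fun a _ => ?_
    congr 1
    refine ind_congr ⟨fun h z hz => not_not.1 (h z hz), fun h z hz => not_not.2 (h z hz)⟩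
  | succ k ih =>
    have hk' : k ≤ K := by omega
    have h1 := HA_step Ω w hw bad K k hk ((1 / 1000 : ℝ) * (1 / 8) ^ k)
      (fun Γ' hΓ' => ih hk' Γ' hΓ') Γ ∅ hΓ (Finset.empty_subset _)
      (fun z _ => Finset.disjoint_empty_right _)
    have h0 : ∀ a, ind (∀ s ∈ (∅ : Finset (ℤ × ℤ)), ¬ gd (bad a) k s) = 1 := fun a =>
      ind_true (by simp)
    simp only [h0, mul_one, Finset.card_empty, pow_zero] at h1
    refine le_trans h1 ?_
    refine mul_le_mul_of_nonneg_right ?_ (Finset.sum_nonneg hw)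
    refine pow_le_pow_left₀ (by positivity) ?_ _
    have h8 : (0 : ℝ) < (1 / 8) ^ k := by positivity
    have h8' : ((1 : ℝ) / 8) ^ k ≤ 1 := pow_le_one₀ (by norm_num) (by norm_num)
    have e8 : ((1 : ℝ) / 8) ^ (k + 1) = (1 / 8) ^ k * (1 / 8) := pow_succ _ _
    have h9 : ((1 : ℝ) / 8) ^ k * (1 / 8) ^ k ≤ (1 / 8) ^ k * 1 :=
      mul_le_mul_of_nonneg_left h8' h8.le
    rw [e8]
    calc 120 * ((1 / 1000 : ℝ) * (1 / 8) ^ k) ^ 2
        = 120 / 1000000 * ((1 / 8) ^ k * (1 / 8) ^ k) := by ring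
      _ ≤ 120 / 1000000 * ((1 / 8) ^ k * 1) := mul_le_mul_of_nonneg_left h9 (by norm_num)
      _ ≤ 1 / 1000 * ((1 / 8) ^ k * (1 / 8)) := by linarith

/-- Module HB (S). -/
theorem all_good {α : Type*} (Ω : Finset α) (w : α → ℝ) (hw : ∀ a ∈ Ω, 0 ≤ w a)
    (bad : α → ℤ × ℤ → Prop) (K : ℕ)
    (h : ∀ Γ : Finset (ℤ × ℤ), Γ ⊆ Sq K →
      ∑ a ∈ Ω, w a * ind (∀ z ∈ Γ, bad a z) ≤ (1 / 1000 : ℝ) ^ Γ.card * ∑ a ∈ Ω, w a) :
    1 / 2 * ∑ a ∈ Ω, w a ≤ ∑ a ∈ Ω, w a * ind (∀ k ≤ K, gd (bad a) k (0, 0)) := by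
  classical
  have hW : 0 ≤ ∑ a ∈ Ω, w a := Finset.sum_nonneg hw
  have h1 : ∀ k ∈ Finset.range (K + 1),
      ∑ a ∈ Ω, w a * ind (¬ gd (bad a) k (0, 0)) ≤
        (1 / 1000 : ℝ) * (1 / 8) ^ k * ∑ a ∈ Ω, w a := by
    intro k hk
    have hk' : k ≤ K := by
      have := Finset.mem_range.1 hk
      omega
    have h2 := bad_prod Ω w hw bad K h k hk' {(0, 0)} (by
      rw [Finset.singleton_subset_iff, HA_mem_Sq]
      have : (1 : ℤ) ≤ 4 ^ (K - k) := one_le_pow₀ (by norm_num)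
      simp only
      omega)
    rw [Finset.card_singleton, pow_one] at h2
    refine le_trans (le_of_eq ?_) h2
    refine Finset.sum_congr rfl fun a _ => ?_
    congr 1
    exact ind_congr (by simp)
  have h2 : ∀ a ∈ Ω, w a ≤ w a * ind (∀ k ≤ K, gd (bad a) k (0, 0)) +
      ∑ k ∈ Finset.range (K + 1), w a * ind (¬ gd (bad a) k (0, 0)) := by
    intro a ha
    by_cases hg : ∀ k ≤ K, gd (bad a) k (0, 0)
    · rw [ind_true hg, mul_one]
      have : 0 ≤ ∑ k ∈ Finset.range (K + 1), w a * ind (¬ gd (bad a) k (0, 0)) :=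
        Finset.sum_nonneg fun k _ => mul_nonneg (hw a ha) (ind_nonneg _)
      linarith
    · rw [ind_false hg, mul_zero, zero_add]
      push Not at hg
      obtain ⟨k, hk, hgk⟩ := hg
      have h3 : w a * ind (¬ gd (bad a) k (0, 0)) = w a := by
        rw [ind_true hgk, mul_one]
      calc w a = w a * ind (¬ gd (bad a) k (0, 0)) := h3.symm
        _ ≤ _ := Finset.single_le_sum (f := fun k => w a * ind (¬ gd (bad a) k (0, 0)))
          (fun k _ => mul_nonneg (hw a ha) (ind_nonneg _)) (Finset.mem_range.2 (by omega))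
  have h3 := Finset.sum_le_sum h2
  rw [Finset.sum_add_distrib, Finset.sum_comm] at h3
  have h4 := Finset.sum_le_sum h1
  rw [← Finset.sum_mul, ← Finset.mul_sum] at h4
  have h5 : ∑ k ∈ Finset.range (K + 1), ((1 : ℝ) / 8) ^ k ≤ 2 := by
    rw [geom_sum_eq (by norm_num)]
    have : (0 : ℝ) < (1 / 8) ^ (K + 1) := by positivity
    rw [div_le_iff_of_neg (by norm_num)]
    linarith
  have h6 : (1 / 1000 : ℝ) * ∑ k ∈ Finset.range (K + 1), ((1 : ℝ) / 8) ^ k ≤ 1 / 2 := by linarith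
  have h7 := mul_le_mul_of_nonneg_right h6 hW
  linarith

theorem HC_v {R : ℤ × ℤ → ℤ × ℤ → Prop} (x y : ℤ) (n : ℕ)
    (h : ∀ t : ℤ, y ≤ t → t < y + n → R (x, t) (x, t + 1)) :
    Relation.ReflTransGen R (x, y) (x, y + n) := by
  induction n with
  | zero =>
    have : y + ((0 : ℕ) : ℤ) = y := by simp
    rw [this]
  | succ n ih =>
    refine (ih fun t h1 h2 => h t h1 (by push_cast; omega)).tail ?_
    have h1 := h (y + n) (by omega) (by push_cast; omega)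
    have e : y + ((n + 1 : ℕ) : ℤ) = y + n + 1 := by push_cast; ring
    rw [e]
    exact h1

theorem HC_h {R : ℤ × ℤ → ℤ × ℤ → Prop} (x y : ℤ) (n : ℕ)
    (h : ∀ t : ℤ, x ≤ t → t < x + n → R (t, y) (t + 1, y)) :
    Relation.ReflTransGen R (x, y) (x + n, y) := by
  induction n with
  | zero =>
    have : x + ((0 : ℕ) : ℤ) = x := by simp
    rw [this]
  | succ n ih =>
    refine (ih fun t h1 h2 => h t h1 (by push_cast; omega)).tail ?_
    have h1 := h (x + n) (by omega) (by push_cast; omega)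
    have e : x + ((n + 1 : ℕ) : ℤ) = x + n + 1 := by push_cast; ring
    rw [e]
    exact h1

theorem HC_symm {R : ℤ × ℤ → ℤ × ℤ → Prop} (hR : ∀ u v, R u v → R v u) {u v : ℤ × ℤ}
    (h : Relation.ReflTransGen R u v) : Relation.ReflTransGen R v u := by
  induction h with
  | refl => exact Relation.ReflTransGen.refl
  | tail _ h2 ih => exact Relation.ReflTransGen.head (hR _ _ h2) ih

/-- Two cells of a column all of whose cells (between the bounds) are in `P`. -/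
theorem HC_col {P : ℤ × ℤ → Prop} (x y y' : ℤ)
    (h : ∀ t : ℤ, min y y' ≤ t → t ≤ max y y' → P (x, t)) :
    Relation.ReflTransGen (fun u v => nb2 u v ∧ P u ∧ P v) (x, y) (x, y') := by
  have hR : ∀ u v, (nb2 u v ∧ P u ∧ P v) → (nb2 v u ∧ P v ∧ P u) := by
    rintro u v ⟨h1, h2, h3⟩
    refine ⟨?_, h3, h2⟩
    unfold nb2 at h1 ⊢
    rcases h1 with ⟨a, b⟩ | ⟨a, b⟩ | ⟨a, b⟩ | ⟨a, b⟩
    · exact Or.inr (Or.inl ⟨a, b.symm⟩)
    · exact Or.inl ⟨a, b.symm⟩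
    · exact Or.inr (Or.inr (Or.inr ⟨a.symm, b⟩))
    · exact Or.inr (Or.inr (Or.inl ⟨a.symm, b⟩))
  have key : ∀ y y' : ℤ, y ≤ y' → (∀ t : ℤ, y ≤ t → t ≤ y' → P (x, t)) →
      Relation.ReflTransGen (fun u v => nb2 u v ∧ P u ∧ P v) (x, y) (x, y') := by
    intro y y' hy hP
    obtain ⟨n, hn⟩ := Int.eq_ofNat_of_zero_le (sub_nonneg.2 hy)
    have e : y' = y + n := by omega
    rw [e]
    refine HC_v x y n fun t h1 h2 => ⟨?_, hP t h1 (by omega), hP (t + 1) (by omega) (by omega)⟩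
    exact Or.inr (Or.inr (Or.inl ⟨rfl, rfl⟩))
  rcases le_total y y' with hy | hy
  · rw [min_eq_left hy, max_eq_right hy] at h
    exact key y y' hy h
  · rw [min_eq_right hy, max_eq_left hy] at h
    exact HC_symm hR (key y' y hy h)

theorem HC_row {P : ℤ × ℤ → Prop} (x x' y : ℤ)
    (h : ∀ t : ℤ, min x x' ≤ t → t ≤ max x x' → P (t, y)) :
    Relation.ReflTransGen (fun u v => nb2 u v ∧ P u ∧ P v) (x, y) (x', y) := by
  have hR : ∀ u v, (nb2 u v ∧ P u ∧ P v) → (nb2 v u ∧ P v ∧ P u) := by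
    rintro u v ⟨h1, h2, h3⟩
    refine ⟨?_, h3, h2⟩
    unfold nb2 at h1 ⊢
    rcases h1 with ⟨a, b⟩ | ⟨a, b⟩ | ⟨a, b⟩ | ⟨a, b⟩
    · exact Or.inr (Or.inl ⟨a, b.symm⟩)
    · exact Or.inl ⟨a, b.symm⟩
    · exact Or.inr (Or.inr (Or.inr ⟨a.symm, b⟩))
    · exact Or.inr (Or.inr (Or.inl ⟨a.symm, b⟩))
  have key : ∀ x x' : ℤ, x ≤ x' → (∀ t : ℤ, x ≤ t → t ≤ x' → P (t, y)) →
      Relation.ReflTransGen (fun u v => nb2 u v ∧ P u ∧ P v) (x, y) (x', y) := by
    intro x x' hx hP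
    obtain ⟨n, hn⟩ := Int.eq_ofNat_of_zero_le (sub_nonneg.2 hx)
    have e : x' = x + n := by omega
    rw [e]
    refine HC_h x y n fun t h1 h2 => ⟨?_, hP t h1 (by omega), hP (t + 1) (by omega) (by omega)⟩
    exact Or.inl ⟨rfl, rfl⟩
  rcases le_total x x' with hx | hx
  · rw [min_eq_left hx, max_eq_right hx] at h
    exact key x x' hx h
  · rw [min_eq_right hx, max_eq_left hx] at h
    exact HC_symm hR (key x' x hx h)

/-- One box. -/
theorem HC_box (g : ℤ × ℤ → Prop) (z : ℤ × ℤ) (P : ℤ × ℤ → Prop)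
    (hP : ∀ s ∈ sub4 z, g s → P s)
    (h1 : ∀ s ∈ sub4 z, ∀ s' ∈ sub4 z, ¬ g s → ¬ g s' → s = s')
    (s s' : ℤ × ℤ) (hs : s ∈ sub4 z) (hs' : s' ∈ sub4 z) (hg : g s) (hg' : g s') :
    Relation.ReflTransGen (fun u v => nb2 u v ∧ P u ∧ P v) s s' := by
  classical
  have hR : ∀ u v, (nb2 u v ∧ P u ∧ P v) → (nb2 v u ∧ P v ∧ P u) := by
    rintro u v ⟨h1, h2, h3⟩
    refine ⟨?_, h3, h2⟩
    unfold nb2 at h1 ⊢
    rcases h1 with ⟨a, b⟩ | ⟨a, b⟩ | ⟨a, b⟩ | ⟨a, b⟩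
    · exact Or.inr (Or.inl ⟨a, b.symm⟩)
    · exact Or.inl ⟨a, b.symm⟩
    · exact Or.inr (Or.inr (Or.inr ⟨a.symm, b⟩))
    · exact Or.inr (Or.inr (Or.inl ⟨a.symm, b⟩))
  -- the bad sub-box
  obtain ⟨b, hb⟩ : ∃ b : ℤ × ℤ, ∀ t ∈ sub4 z, ¬ g t → t = b := by
    by_cases hall : ∃ t ∈ sub4 z, ¬ g t
    · obtain ⟨b, hb, hgb⟩ := hall
      exact ⟨b, fun t ht hgt => h1 t ht b hb hgt hgb⟩
    · exact ⟨z, fun t ht hgt => absurd ⟨t, ht, hgt⟩ hall⟩
  obtain ⟨c, hc1, hc2, hcb⟩ : ∃ c : ℤ, 4 * z.1 ≤ c ∧ c ≤ 4 * z.1 + 3 ∧ c ≠ b.1 := by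
    by_cases h : 4 * z.1 = b.1
    · exact ⟨4 * z.1 + 1, by omega, by omega, by omega⟩
    · exact ⟨4 * z.1, by omega, by omega, h⟩
  obtain ⟨r, hr1, hr2, hrb⟩ : ∃ r : ℤ, 4 * z.2 ≤ r ∧ r ≤ 4 * z.2 + 3 ∧ r ≠ b.2 := by
    by_cases h : 4 * z.2 = b.2
    · exact ⟨4 * z.2 + 1, by omega, by omega, by omega⟩
    · exact ⟨4 * z.2, by omega, by omega, h⟩
  have good : ∀ t : ℤ × ℤ, t ∈ sub4 z → t ≠ b → P t := fun t ht hne =>
    hP t ht (by
      by_contra hgt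
      exact hne (hb t ht hgt))
  have hub : ∀ t : ℤ × ℤ, t ∈ sub4 z → g t →
      Relation.ReflTransGen (fun u v => nb2 u v ∧ P u ∧ P v) t (c, r) := by
    intro t ht hgt
    rw [HA_mem_sub4] at ht
    obtain ⟨x, y⟩ := t
    simp only at ht
    by_cases hx : x = b.1
    · have hrow : ∀ t : ℤ, min x c ≤ t → t ≤ max x c → P (t, y) := by
        intro t ht1 ht2
        have htm : ((t, y) : ℤ × ℤ) ∈ sub4 z := by
          rw [HA_mem_sub4]
          simp only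
          rw [min_le_iff] at ht1
          rw [le_max_iff] at ht2
          omega
        by_cases hy : y = b.2
        · -- the bad sub-box is good
          have hbb : ((x, y) : ℤ × ℤ) = b := Prod.ext hx hy
          refine hP _ htm ?_
          by_contra hn
          have := hb _ htm hn
          rw [this, ← hbb] at hn
          exact hn hgt
        · exact good _ htm (fun h => hy (congrArg Prod.snd h))
      have hcol : ∀ t : ℤ, min y r ≤ t → t ≤ max y r → P (c, t) := by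
        intro t ht1 ht2
        refine good _ ?_ (fun h => hcb (congrArg Prod.fst h))
        rw [HA_mem_sub4]
        simp only
        rw [min_le_iff] at ht1
        rw [le_max_iff] at ht2
        omega
      exact (HC_row x c y hrow).trans (HC_col c y r hcol)
    · have hcol : ∀ t : ℤ, min y r ≤ t → t ≤ max y r → P (x, t) := by
        intro t ht1 ht2
        refine good _ ?_ (fun h => hx (congrArg Prod.fst h))
        rw [HA_mem_sub4]
        simp only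
        rw [min_le_iff] at ht1
        rw [le_max_iff] at ht2
        omega
      have hrow : ∀ t : ℤ, min x c ≤ t → t ≤ max x c → P (t, r) := by
        intro t ht1 ht2
        refine good _ ?_ (fun h => hrb (congrArg Prod.snd h))
        rw [HA_mem_sub4]
        simp only
        rw [min_le_iff] at ht1
        rw [le_max_iff] at ht2
        omega
      exact (HC_col x y r hcol).trans (HC_row x c r hrow)
  exact (hub s hs hg).trans (HC_symm hR (hub s' hs' hg'))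

/-- Module HC (M). The finite fact: in two equal or adjacent boxes, each with at most one bad
sub-box, any two good sub-boxes are joined by a path of good sub-boxes. -/
theorem grid (g : ℤ × ℤ → Prop) (z z' : ℤ × ℤ) (hz : z = z' ∨ nb2 z z')
    (h1 : ∀ s ∈ sub4 z, ∀ s' ∈ sub4 z, ¬ g s → ¬ g s' → s = s')
    (h2 : ∀ s ∈ sub4 z', ∀ s' ∈ sub4 z', ¬ g s → ¬ g s' → s = s')
    (s s' : ℤ × ℤ) (hs : s ∈ sub4 z) (hs' : s' ∈ sub4 z') (hg : g s) (hg' : g s') :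
    Relation.ReflTransGen (fun u v => nb2 u v ∧ g u ∧ g v ∧ (u ∈ sub4 z ∨ u ∈ sub4 z') ∧
      (v ∈ sub4 z ∨ v ∈ sub4 z')) s s' := by
  classical
  set P : ℤ × ℤ → Prop := fun u => g u ∧ (u ∈ sub4 z ∨ u ∈ sub4 z') with hPdef
  have hconv : ∀ u v, Relation.ReflTransGen (fun u v => nb2 u v ∧ P u ∧ P v) u v →
      Relation.ReflTransGen (fun u v => nb2 u v ∧ g u ∧ g v ∧ (u ∈ sub4 z ∨ u ∈ sub4 z') ∧
        (v ∈ sub4 z ∨ v ∈ sub4 z')) u v := by
    intro u v h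
    induction h with
    | refl => exact Relation.ReflTransGen.refl
    | tail _ h2 ih => exact ih.tail ⟨h2.1, h2.2.1.1, h2.2.2.1, h2.2.1.2, h2.2.2.2⟩
  apply hconv
  have hP1 : ∀ s ∈ sub4 z, g s → P s := fun s hs hg => ⟨hg, Or.inl hs⟩
  have hP2 : ∀ s ∈ sub4 z', g s → P s := fun s hs hg => ⟨hg, Or.inr hs⟩
  rcases hz with rfl | hz
  · exact HC_box g z P hP1 h1 s s' hs hs' hg hg'
  · -- a crossing
    have hcross : ∃ u ∈ sub4 z, ∃ v ∈ sub4 z', g u ∧ g v ∧ nb2 u v := by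
      have bz : ∃ b : ℤ × ℤ, ∀ t ∈ sub4 z, ¬ g t → t = b := by
        by_cases hall : ∃ t ∈ sub4 z, ¬ g t
        · obtain ⟨b, hb, hgb⟩ := hall
          exact ⟨b, fun t ht hgt => h1 t ht b hb hgt hgb⟩
        · exact ⟨z, fun t ht hgt => absurd ⟨t, ht, hgt⟩ hall⟩
      have bz' : ∃ b : ℤ × ℤ, ∀ t ∈ sub4 z', ¬ g t → t = b := by
        by_cases hall : ∃ t ∈ sub4 z', ¬ g t
        · obtain ⟨b, hb, hgb⟩ := hall
          exact ⟨b, fun t ht hgt => h2 t ht b hb hgt hgb⟩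
        · exact ⟨z, fun t ht hgt => absurd ⟨t, ht, hgt⟩ hall⟩
      obtain ⟨b, hb⟩ := bz
      obtain ⟨b', hb'⟩ := bz'
      have pick : ∀ x a a' : ℤ, ∃ r : ℤ, x ≤ r ∧ r ≤ x + 3 ∧ r ≠ a ∧ r ≠ a' := by
        intro x a a'
        by_cases h3 : x ≠ a ∧ x ≠ a'
        · exact ⟨x, by omega, by omega, h3.1, h3.2⟩
        · by_cases h4 : x + 1 ≠ a ∧ x + 1 ≠ a'
          · exact ⟨x + 1, by omega, by omega, h4.1, h4.2⟩
          · exact ⟨x + 2, by omega, by omega, by omega, by omega⟩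
      have gz : ∀ t : ℤ × ℤ, t ∈ sub4 z → (t.1 ≠ b.1 ∨ t.2 ≠ b.2) → g t := by
        intro t ht hne
        by_contra hn
        have := hb t ht hn
        rw [this] at hne
        tauto
      have gz' : ∀ t : ℤ × ℤ, t ∈ sub4 z' → (t.1 ≠ b'.1 ∨ t.2 ≠ b'.2) → g t := by
        intro t ht hne
        by_contra hn
        have := hb' t ht hn
        rw [this] at hne
        tauto
      rcases hz with ⟨e1, e2⟩ | ⟨e1, e2⟩ | ⟨e1, e2⟩ | ⟨e1, e2⟩
      · obtain ⟨r, r1, r2, r3, r4⟩ := pick (4 * z.2) b.2 b'.2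
        have m1 : ((4 * z.1 + 3, r) : ℤ × ℤ) ∈ sub4 z := by
          rw [HA_mem_sub4]; simp only; omega
        have m2 : ((4 * z.1 + 4, r) : ℤ × ℤ) ∈ sub4 z' := by
          rw [HA_mem_sub4]; simp only; omega
        exact ⟨_, m1, _, m2, gz _ m1 (Or.inr r3), gz' _ m2 (Or.inr r4),
          Or.inl ⟨by ring, rfl⟩⟩
      · obtain ⟨r, r1, r2, r3, r4⟩ := pick (4 * z.2) b.2 b'.2
        have m1 : ((4 * z.1, r) : ℤ × ℤ) ∈ sub4 z := by
          rw [HA_mem_sub4]; simp only; omega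
        have m2 : ((4 * z.1 - 1, r) : ℤ × ℤ) ∈ sub4 z' := by
          rw [HA_mem_sub4]; simp only; omega
        exact ⟨_, m1, _, m2, gz _ m1 (Or.inr r3), gz' _ m2 (Or.inr r4),
          Or.inr (Or.inl ⟨by ring, rfl⟩)⟩
      · obtain ⟨r, r1, r2, r3, r4⟩ := pick (4 * z.1) b.1 b'.1
        have m1 : ((r, 4 * z.2 + 3) : ℤ × ℤ) ∈ sub4 z := by
          rw [HA_mem_sub4]; simp only; omega
        have m2 : ((r, 4 * z.2 + 4) : ℤ × ℤ) ∈ sub4 z' := by
          rw [HA_mem_sub4]; simp only; omega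
        exact ⟨_, m1, _, m2, gz _ m1 (Or.inl r3), gz' _ m2 (Or.inl r4),
          Or.inr (Or.inr (Or.inl ⟨rfl, by ring⟩))⟩
      · obtain ⟨r, r1, r2, r3, r4⟩ := pick (4 * z.1) b.1 b'.1
        have m1 : ((r, 4 * z.2) : ℤ × ℤ) ∈ sub4 z := by
          rw [HA_mem_sub4]; simp only; omega
        have m2 : ((r, 4 * z.2 - 1) : ℤ × ℤ) ∈ sub4 z' := by
          rw [HA_mem_sub4]; simp only; omega
        exact ⟨_, m1, _, m2, gz _ m1 (Or.inl r3), gz' _ m2 (Or.inl r4),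
          Or.inr (Or.inr (Or.inr ⟨rfl, by ring⟩))⟩
    obtain ⟨u, hu, v, hv, hgu, hgv, huv⟩ := hcross
    refine ((HC_box g z P hP1 h1 s u hs hu hg hgu).tail
      ⟨huv, hP1 u hu hgu, hP2 v hv hgv⟩).trans ?_
    exact HC_box g z' P hP2 h2 v s' hv hs' hgv hg'

/-- Module HD (M). Cells with good ancestors in equal or adjacent good boxes are connected:
induction on `k` with `grid`, each good box containing such a cell. -/
theorem anc_exists (bad : ℤ × ℤ → Prop) (k : ℕ) (z : ℤ × ℤ) (h : gd bad k z) :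
    ∃ c, anc bad k z c := by
  induction k generalizing z with
  | zero => exact ⟨z, rfl, h⟩
  | succ k ih =>
    have hs : ∃ s ∈ sub4 z, gd bad k s := by
      by_contra hcon
      push Not at hcon
      have m1 : ((4 * z.1, 4 * z.2) : ℤ × ℤ) ∈ sub4 z := by
        rw [HA_mem_sub4]; simp only; omega
      have m2 : ((4 * z.1 + 1, 4 * z.2) : ℤ × ℤ) ∈ sub4 z := by
        rw [HA_mem_sub4]; simp only; omega
      have := h _ m1 _ m2 (hcon _ m1) (hcon _ m2)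
      have h1 := congrArg Prod.fst this
      simp at h1
    obtain ⟨s, hs, hg⟩ := hs
    obtain ⟨c, hc⟩ := ih s hg
    exact ⟨c, h, s, hs, hc⟩

theorem HD_gd (bad : ℤ × ℤ → Prop) (k : ℕ) (z c : ℤ × ℤ) (h : anc bad k z c) : gd bad k z := by
  cases k with
  | zero => exact h.2
  | succ k => exact h.1

theorem anc_conn (bad : ℤ × ℤ → Prop) (K k : ℕ) (hk : k ≤ K) (z z' c c' : ℤ × ℤ)
    (hz1 : z ∈ Sq (K - k)) (hz2 : z' ∈ Sq (K - k)) (hz : z = z' ∨ nb2 z z')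
    (hc : anc bad k z c) (hc' : anc bad k z' c') :
    Relation.ReflTransGen (st2 bad K) c c' := by
  induction k generalizing z z' c c' with
  | zero =>
    obtain ⟨rfl, hb⟩ := hc
    obtain ⟨rfl, hb'⟩ := hc'
    rcases hz with rfl | hz
    · exact Relation.ReflTransGen.refl
    · rw [Nat.sub_zero] at hz1 hz2
      exact Relation.ReflTransGen.single ⟨hz, hz1, hz2, hb, hb'⟩
  | succ k ih =>
    obtain ⟨hg, s, hs, hsc⟩ := hc
    obtain ⟨hg', s', hs', hsc'⟩ := hc'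
    have hsS : s ∈ Sq (K - k) := HA_sub_Sq hk hz1 hs
    have hp := grid (gd bad k) z z' hz hg hg' s s' hs hs' (HD_gd bad k s c hsc)
      (HD_gd bad k s' c' hsc')
    have key : ∀ v, Relation.ReflTransGen (fun u v => nb2 u v ∧ gd bad k u ∧ gd bad k v ∧
        (u ∈ sub4 z ∨ u ∈ sub4 z') ∧ (v ∈ sub4 z ∨ v ∈ sub4 z')) s v →
        ∀ cv, anc bad k v cv → Relation.ReflTransGen (st2 bad K) c cv := by
      intro v hv
      induction hv with
      | refl =>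
        intro cv hcv
        exact ih (by omega) s s c cv hsS hsS (Or.inl rfl) hsc hcv
      | tail _ h2 ih2 =>
        intro cv hcv
        obtain ⟨hn, hgu, hgv, hu, hv⟩ := h2
        obtain ⟨cu, hcu⟩ := anc_exists bad k _ hgu
        refine (ih2 cu hcu).trans (ih (by omega) _ _ cu cv ?_ ?_ (Or.inr hn) hcu hcv)
        · rcases hu with hu | hu
          · exact HA_sub_Sq hk hz1 hu
          · exact HA_sub_Sq hk hz2 hu
        · rcases hv with hv | hv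
          · exact HA_sub_Sq hk hz1 hv
          · exact HA_sub_Sq hk hz2 hv
    exact key s' hp c' hsc'

theorem HE_pos (bad : ℤ × ℤ → Prop) (k : ℕ) (z c : ℤ × ℤ) (h : anc bad k z c) :
    4 ^ k * z.1 ≤ c.1 ∧ c.1 ≤ 4 ^ k * z.1 + 4 ^ k - 1 ∧
      4 ^ k * z.2 ≤ c.2 ∧ c.2 ≤ 4 ^ k * z.2 + 4 ^ k - 1 := by
  induction k generalizing z with
  | zero =>
    obtain ⟨rfl, -⟩ := h
    simp
  | succ k ih =>
    obtain ⟨-, s, hs, hsc⟩ := h
    obtain ⟨h1, h2, h3, h4⟩ := ih s hsc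
    rw [HA_mem_sub4] at hs
    obtain ⟨s1, s2, s3, s4⟩ := hs
    have hp : (0 : ℤ) < 4 ^ k := by positivity
    rw [pow_succ]
    refine ⟨?_, ?_, ?_, ?_⟩
    · nlinarith
    · nlinarith
    · nlinarith
    · nlinarith

/-- Module HE (M). If all boxes at the origin are good there is the path of `HP`: the cell `0` has
good ancestors, and one of the sub-boxes `(3, 2), (3, 3)` of the box of level `K + 1` is good. -/
theorem good_HP (bad : ℤ × ℤ → Prop) (K : ℕ) (h : ∀ k ≤ K + 1, gd bad k (0, 0)) : HP bad K := by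
  have h0 : ¬ bad (0, 0) := h 0 (by omega)
  have hanc : ∀ k ≤ K + 1, anc bad k (0, 0) (0, 0) := by
    intro k
    induction k with
    | zero => exact fun _ => ⟨rfl, h0⟩
    | succ k ih =>
      intro hk
      refine ⟨h (k + 1) hk, (0, 0), ?_, ih (by omega)⟩
      rw [HA_mem_sub4]
      simp
  have hs : ∃ s ∈ sub4 (0, 0), s.1 = 3 ∧ gd bad K s := by
    by_contra hcon
    push Not at hcon
    have m1 : ((3, 2) : ℤ × ℤ) ∈ sub4 (0, 0) := by
      rw [HA_mem_sub4]; simp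
    have m2 : ((3, 3) : ℤ × ℤ) ∈ sub4 (0, 0) := by
      rw [HA_mem_sub4]; simp
    have := h (K + 1) le_rfl _ m1 _ m2 (hcon _ m1 rfl) (hcon _ m2 rfl)
    have h1 := congrArg Prod.snd this
    simp at h1
  obtain ⟨s, hs, hs3, hgs⟩ := hs
  obtain ⟨c, hc⟩ := anc_exists bad K s hgs
  have hc' : anc bad (K + 1) (0, 0) c := ⟨h (K + 1) le_rfl, s, hs, hc⟩
  have hz : ((0, 0) : ℤ × ℤ) ∈ Sq (K + 1 - (K + 1)) := by
    rw [HA_mem_Sq]
    simp
  have hp := HE_pos bad (K + 1) (0, 0) c hc'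
  have hp' := HE_pos bad K s c hc
  have h4 : (0 : ℤ) < 4 ^ K := by positivity
  refine ⟨h0, c, ?_, ?_, ?_⟩
  · rw [HA_mem_Sq]
    simp only [mul_zero, zero_add] at hp
    exact ⟨hp.1, hp.2.2.1, hp.2.1, hp.2.2.2⟩
  · have := hp'.1
    rw [hs3] at this
    linarith
  · exact anc_conn bad (K + 1) (K + 1) le_rfl (0, 0) (0, 0) (0, 0) c hz hz (Or.inl rfl)
      (hanc (K + 1) le_rfl) hc'

/-- Percolation on all scales with probability at least `1/2`. -/
theorem hier {α : Type*} (Ω : Finset α) (w : α → ℝ) (hw : ∀ a ∈ Ω, 0 ≤ w a)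
    (bad : α → ℤ × ℤ → Prop) (K : ℕ)
    (h : ∀ Γ : Finset (ℤ × ℤ), Γ ⊆ Sq (K + 1) →
      ∑ a ∈ Ω, w a * ind (∀ z ∈ Γ, bad a z) ≤ (1 / 1000 : ℝ) ^ Γ.card * ∑ a ∈ Ω, w a) :
    1 / 2 * ∑ a ∈ Ω, w a ≤ ∑ a ∈ Ω, w a * ind (HP (bad a) K) := by
  refine le_trans (all_good Ω w hw bad (K + 1) h) (Finset.sum_le_sum (fun a ha => ?_))
  exact mul_le_mul_of_nonneg_left (ind_mono (good_HP (bad a) K)) (hw a ha)

end Pool.Agent.SRC
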