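import Pool.Agent.SRC.Exc

/-! Isoperimetry in boxes and merging of big clusters by sprinkling. Modules IA - IC, MA - MG. -/

set_option autoImplicit false

namespace Pool.Agent.SRC

open Finset Filter

/-- Boundary edges of `S` in the box. -/
noncomputable def dS {d : ℕ} (lo hi : Vx d) (S : Finset (Vx d)) : Finset (Ed d) :=
  (bx lo hi).filter (fun e => (e.1 ∈ S ∧ tip e ∉ S) ∨ (e.1 ∉ S ∧ tip e ∈ S))

/-- The vertex of the canonical path from `v` to `w` (coordinates are changed one after the other)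
which has coordinate `i` equal to `a`: coordinates `< i` of `w`, coordinates `> i` of `v`. -/
def mix {d : ℕ} (v w : Vx d) (i : Fin d) (a : ℤ) : Vx d :=
  fun j => if j < i then w j else if j = i then a else v j

private theorem IA_mem {d : ℕ} (lo hi v w : Vx d) (hv : v ∈ Finset.Icc lo hi)
    (hw : w ∈ Finset.Icc lo hi) (i : Fin d) (a : ℤ) (h1 : min (v i) (w i) ≤ a)
    (h2 : a ≤ max (v i) (w i)) : mix v w i a ∈ Finset.Icc lo hi := by
  rw [Finset.mem_Icc] at hv hw ⊢
  constructor
  · intro j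
    unfold mix
    split_ifs with h3 h4
    · exact hw.1 j
    · subst h4
      exact le_trans (le_min (hv.1 j) (hw.1 j)) h1
    · exact hv.1 j
  · intro j
    unfold mix
    split_ifs with h3 h4
    · exact hw.2 j
    · subst h4
      exact le_trans h2 (max_le (hv.2 j) (hw.2 j))
    · exact hv.2 j

private theorem IA_tip {d : ℕ} (v w : Vx d) (i : Fin d) (a : ℤ) :
    tip ((mix v w i a, i) : Ed d) = mix v w i (a + 1) := by
  funext j
  unfold tip mix uv
  simp only [Pi.add_apply]
  by_cases h3 : j < i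
  · rw [if_pos h3, if_pos h3, Pi.single_eq_of_ne (ne_of_lt h3), add_zero]
  · rw [if_neg h3, if_neg h3]
    by_cases h4 : j = i
    · subst h4
      simp
    · rw [if_neg h4, if_neg h4, Pi.single_eq_of_ne h4, add_zero]

/-- Module IA (M). A canonical path from `S` to the complement crosses the boundary of `S`. -/
theorem cross {d : ℕ} (lo hi v w : Vx d) (hv : v ∈ Finset.Icc lo hi) (hw : w ∈ Finset.Icc lo hi)
    (S : Finset (Vx d)) (h1 : v ∈ S) (h2 : w ∉ S) :
    ∃ (i : Fin d) (a : ℤ), min (v i) (w i) ≤ a ∧ a < max (v i) (w i) ∧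
      (mix v w i a, i) ∈ dS lo hi S := by
  by_contra hcon
  push Not at hcon
  -- one step
  have hstep : ∀ (i : Fin d) (a : ℤ), min (v i) (w i) ≤ a → a < max (v i) (w i) →
      (mix v w i a ∈ S ↔ mix v w i (a + 1) ∈ S) := by
    intro i a ha1 ha2
    have hn := hcon i a ha1 ha2
    unfold dS at hn
    rw [Finset.mem_filter, IA_tip] at hn
    have hb : ((mix v w i a, i) : Ed d) ∈ bx lo hi := by
      unfold bx
      rw [mem_edg, IA_tip]
      exact ⟨IA_mem lo hi v w hv hw i a ha1 ha2.le,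
        IA_mem lo hi v w hv hw i (a + 1) (by omega) (by omega)⟩
    have hn2 : ¬ ((mix v w i a ∈ S ∧ mix v w i (a + 1) ∉ S) ∨
        (mix v w i a ∉ S ∧ mix v w i (a + 1) ∈ S)) := fun h => hn ⟨hb, h⟩
    tauto
  have hint : ∀ (i : Fin d) (n : ℕ), min (v i) (w i) + n ≤ max (v i) (w i) →
      (mix v w i (min (v i) (w i)) ∈ S ↔ mix v w i (min (v i) (w i) + n) ∈ S) := by
    intro i n
    induction n with
    | zero => intro _; simp
    | succ n ih =>
      intro hle
      push_cast at hle ⊢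
      rw [ih (by omega), hstep i (min (v i) (w i) + n) (by omega) (by omega), add_assoc]
  have hmm : ∀ i : Fin d, (mix v w i (v i) ∈ S ↔ mix v w i (w i) ∈ S) := by
    intro i
    have hle : min (v i) (w i) ≤ max (v i) (w i) := min_le_max
    have h := hint i (max (v i) (w i) - min (v i) (w i)).toNat (by
      rw [Int.toNat_of_nonneg (by omega)]; omega)
    rw [Int.toNat_of_nonneg (by omega)] at h
    have e1 : min (v i) (w i) + (max (v i) (w i) - min (v i) (w i)) = max (v i) (w i) := by ring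
    rw [e1] at h
    rcases le_total (v i) (w i) with hvw | hvw
    · rw [min_eq_left hvw, max_eq_right hvw] at h
      exact h
    · rw [min_eq_right hvw, max_eq_left hvw] at h
      exact h.symm
  have hq : ∀ k : ℕ, k ≤ d → (fun j : Fin d => if (j : ℕ) < k then w j else v j) ∈ S := by
    intro k
    induction k with
    | zero => intro _; simpa using h1
    | succ k ih =>
      intro hk
      have h := ih (by omega)
      have e1 : (fun j : Fin d => if (j : ℕ) < k then w j else v j) =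
          mix v w ⟨k, by omega⟩ (v ⟨k, by omega⟩) := by
        funext j
        unfold mix
        by_cases h3 : (j : ℕ) < k
        · have h4 : j < (⟨k, by omega⟩ : Fin d) := h3
          rw [if_pos h3, if_pos h4]
        · have h4 : ¬ j < (⟨k, by omega⟩ : Fin d) := h3
          rw [if_neg h3, if_neg h4]
          by_cases h5 : j = (⟨k, by omega⟩ : Fin d)
          · rw [if_pos h5, h5]
          · rw [if_neg h5]
      have e2 : (fun j : Fin d => if (j : ℕ) < k + 1 then w j else v j) =
          mix v w ⟨k, by omega⟩ (w ⟨k, by omega⟩) := by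
        funext j
        unfold mix
        by_cases h3 : (j : ℕ) < k
        · have h4 : j < (⟨k, by omega⟩ : Fin d) := h3
          rw [if_pos (by omega), if_pos h4]
        · have h4 : ¬ j < (⟨k, by omega⟩ : Fin d) := h3
          rw [if_neg h4]
          by_cases h5 : j = (⟨k, by omega⟩ : Fin d)
          · rw [if_pos h5, if_pos (by rw [h5]; simp), h5]
          · rw [if_neg h5, if_neg]
            intro h6
            exact h5 (Fin.ext (by simp; omega))
      rw [e2]
      rw [e1] at h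
      exact (hmm _).1 h
  have := hq d le_rfl
  apply h2
  have e : (fun j : Fin d => if (j : ℕ) < d then w j else v j) = w := by
    funext j
    rw [if_pos j.2]
  rwa [e] at this

private theorem IB_pq (p q n : ℕ) (h : p + q = n) : 4 * (p * q) ≤ n * n := by
  subst h
  nlinarith [sq_nonneg ((p : ℤ) - q), Nat.le_total p q, sq_nonneg ((p : ℤ) + q)]

/-- Module IB (M). Congestion of the canonical paths: an edge of direction `i` is used by at most
`N ℓ / 2` ordered pairs (`N / n_i` choices of the other coordinates, times `2 a (n_i - a) ≤ n_i²/2`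
choices of `v i, w i`, where `n_i ≤ ℓ` is the side). -/
theorem congest {d : ℕ} (lo hi : Vx d) (ℓ : ℕ) (hℓ : ∀ i, hi i - lo i + 1 ≤ ℓ) (e : Ed d)
    (he : e ∈ bx lo hi) :
    2 * (fl (Finset.Icc lo hi ×ˢ Finset.Icc lo hi) (fun p : Vx d × Vx d =>
        e.1 = mix p.1 p.2 e.2 (e.1 e.2) ∧ min (p.1 e.2) (p.2 e.2) ≤ e.1 e.2 ∧
          e.1 e.2 < max (p.1 e.2) (p.2 e.2))).card ≤ (Finset.Icc lo hi).card * ℓ := by
  classical
  obtain ⟨x, i⟩ := e
  simp only
  set a : ℤ := x i with ha
  unfold bx at he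
  rw [mem_edg] at he
  obtain ⟨hx1, hx2⟩ := he
  simp only [Finset.mem_Icc] at hx1 hx2
  have hax : lo i ≤ a := hx1.1 i
  have hax2 : a + 1 ≤ hi i := by
    have := hx2.2 i
    simpa [tip, uv] using this
  -- the two factors
  let B : Finset (Vx d) := Finset.Icc lo (Function.update hi i (lo i))
  let P : Finset ℤ := Finset.Icc (lo i) a
  let Q : Finset ℤ := Finset.Icc (a + 1) (hi i)
  let T : Finset (ℤ × ℤ) := P ×ˢ Q ∪ Q ×ˢ P
  have hcard : (Finset.Icc lo hi).card = (Finset.Icc (lo i) (hi i)).card * B.card := by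
    simp only [B]
    rw [Pi.card_Icc, Pi.card_Icc]
    rw [← Finset.mul_prod_erase Finset.univ (fun j => (Finset.Icc (lo j) (hi j)).card)
      (Finset.mem_univ i)]
    rw [← Finset.mul_prod_erase Finset.univ
      (fun j => (Finset.Icc (lo j) (Function.update hi i (lo i) j)).card) (Finset.mem_univ i)]
    congr 1
    simp only [Function.update_self, Finset.Icc_self, Finset.card_singleton, one_mul]
    apply Finset.prod_congr rfl
    intro j hj
    rw [Finset.mem_erase] at hj
    rw [Function.update_of_ne hj.1]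
  have hinj : (fl (Finset.Icc lo hi ×ˢ Finset.Icc lo hi) (fun p : Vx d × Vx d =>
        x = mix p.1 p.2 i a ∧ min (p.1 i) (p.2 i) ≤ a ∧
          a < max (p.1 i) (p.2 i))).card ≤ (B ×ˢ T).card := by
    apply Finset.card_le_card_of_injOn (fun p : Vx d × Vx d =>
      ((fun j => if j < i then p.1 j else if j = i then lo i else p.2 j), (p.1 i, p.2 i)))
    · intro p hp
      rw [Finset.mem_coe, mem_fl, Finset.mem_product, Finset.mem_Icc, Finset.mem_Icc] at hp
      obtain ⟨⟨⟨h1, h2⟩, ⟨h3, h4⟩⟩, h5, h6, h7⟩ := hp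
      rw [Finset.mem_coe, Finset.mem_product]
      constructor
      · simp only [B]
        rw [Finset.mem_Icc]
        constructor
        · intro j
          simp only
          split_ifs with g1 g2
          · exact h1 j
          · rw [g2]
          · exact h3 j
        · intro j
          simp only
          by_cases g2 : j = i
          · subst g2
            rw [if_neg (lt_irrefl _), if_pos rfl, Function.update_self]
          · rw [Function.update_of_ne g2]
            split_ifs with g1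
            · exact h2 j
            · exact h4 j
      · simp only [T, P, Q]
        rw [Finset.mem_union, Finset.mem_product, Finset.mem_product]
        simp only [Finset.mem_Icc]
        have g1 : lo i ≤ p.1 i := h1 i
        have g2 : p.1 i ≤ hi i := h2 i
        have g3 : lo i ≤ p.2 i := h3 i
        have g4 : p.2 i ≤ hi i := h4 i
        omega
    · intro p hp q hq hpq
      rw [Finset.mem_coe, mem_fl] at hp hq
      obtain ⟨-, hp5, -, -⟩ := hp
      obtain ⟨-, hq5, -, -⟩ := hq
      simp only [Prod.mk.injEq] at hpq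
      obtain ⟨g1, g2, g3⟩ := hpq
      apply Prod.ext
      · funext j
        rcases lt_trichotomy j i with h | h | h
        · have := congrFun g1 j
          simpa [h] using this
        · rw [h]; exact g2
        · have e1 := congrFun hp5 j
          have e2 := congrFun hq5 j
          unfold mix at e1 e2
          rw [if_neg (not_lt_of_gt h), if_neg (ne_of_gt h)] at e1 e2
          rw [← e1, ← e2]
      · funext j
        rcases lt_trichotomy j i with h | h | h
        · have e1 := congrFun hp5 j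
          have e2 := congrFun hq5 j
          unfold mix at e1 e2
          rw [if_pos h] at e1 e2
          rw [← e1, ← e2]
        · rw [h]; exact g3
        · have := congrFun g1 j
          simpa [not_lt_of_gt h, ne_of_gt h] using this
  have hT : T.card ≤ 2 * (P.card * Q.card) := by
    calc T.card ≤ (P ×ˢ Q).card + (Q ×ˢ P).card := Finset.card_union_le _ _
      _ = 2 * (P.card * Q.card) := by rw [Finset.card_product, Finset.card_product]; ring
  have hPQ : P.card + Q.card = (Finset.Icc (lo i) (hi i)).card := by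
    simp only [P, Q, Int.card_Icc]
    omega
  have hn : (Finset.Icc (lo i) (hi i)).card ≤ ℓ := by
    rw [Int.card_Icc]
    have := hℓ i
    omega
  rw [hcard]
  have h4 := IB_pq _ _ _ hPQ
  calc 2 * (fl (Finset.Icc lo hi ×ˢ Finset.Icc lo hi) (fun p : Vx d × Vx d =>
        x = mix p.1 p.2 i a ∧ min (p.1 i) (p.2 i) ≤ a ∧
          a < max (p.1 i) (p.2 i))).card ≤ 2 * (B.card * T.card) := by
        rw [Finset.card_product] at hinj
        exact Nat.mul_le_mul_left 2 hinj
    _ ≤ 2 * (B.card * (2 * (P.card * Q.card))) :=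
        Nat.mul_le_mul_left 2 (Nat.mul_le_mul_left _ hT)
    _ = B.card * (4 * (P.card * Q.card)) := by ring
    _ ≤ B.card * ((Finset.Icc (lo i) (hi i)).card * (Finset.Icc (lo i) (hi i)).card) :=
        Nat.mul_le_mul_left _ h4
    _ = (Finset.Icc (lo i) (hi i)).card * B.card * (Finset.Icc (lo i) (hi i)).card := by ring
    _ ≤ (Finset.Icc (lo i) (hi i)).card * B.card * ℓ := Nat.mul_le_mul_left _ hn

private theorem IC_symm {d : ℕ} (lo hi : Vx d) (S : Finset (Vx d)) (e : Ed d)
    (h : e ∈ dS lo hi (Finset.Icc lo hi \ S)) : e ∈ dS lo hi S := by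
  unfold dS bx at *
  rw [Finset.mem_filter, mem_edg] at *
  obtain ⟨⟨h1, h2⟩, h3⟩ := h
  refine ⟨⟨h1, h2⟩, ?_⟩
  simp only [Finset.mem_sdiff, h1, h2, true_and, not_not] at h3
  tauto

/-- Module IC (S). Isoperimetry, from `cross` and `congest` applied to the ordered pairs `(v, w)`
and `(w, v)` with `v ∈ S`, `w ∉ S` (for the pairs `(w, v)` use the complement of `S`, which has
the same boundary). -/
theorem iso {d : ℕ} (lo hi : Vx d) (ℓ : ℕ) (hℓ : ∀ i, hi i - lo i + 1 ≤ ℓ) (S : Finset (Vx d))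
    (hS : S ⊆ Finset.Icc lo hi) :
    4 * S.card * (Finset.Icc lo hi \ S).card ≤ ℓ * (Finset.Icc lo hi).card * (dS lo hi S).card := by
  classical
  set I := Finset.Icc lo hi with hI
  set R : Ed d → Finset (Vx d × Vx d) := fun e => fl (I ×ˢ I) (fun p : Vx d × Vx d =>
        e.1 = mix p.1 p.2 e.2 (e.1 e.2) ∧ min (p.1 e.2) (p.2 e.2) ≤ e.1 e.2 ∧
          e.1 e.2 < max (p.1 e.2) (p.2 e.2)) with hR
  have hfix : ∀ (v w : Vx d) (i : Fin d) (a : ℤ), mix v w i a i = a := by
    intro v w i a
    unfold mix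
    rw [if_neg (lt_irrefl _), if_pos rfl]
  have hsub : S ×ˢ (I \ S) ∪ (I \ S) ×ˢ S ⊆ (dS lo hi S).biUnion R := by
    intro p hp
    rw [Finset.mem_union, Finset.mem_product, Finset.mem_product] at hp
    rw [Finset.mem_biUnion]
    rcases hp with ⟨h1, h2⟩ | ⟨h1, h2⟩
    · rw [Finset.mem_sdiff] at h2
      obtain ⟨i, a, h3, h4, h5⟩ := cross lo hi p.1 p.2 (hS h1) h2.1 S h1 h2.2
      refine ⟨_, h5, ?_⟩
      simp only [hR]
      rw [mem_fl, Finset.mem_product]
      refine ⟨⟨hS h1, h2.1⟩, ?_⟩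
      simp only [hfix]
      exact ⟨trivial, h3, h4⟩
    · have h1' := Finset.mem_sdiff.mp h1
      obtain ⟨i, a, h3, h4, h5⟩ := cross lo hi p.1 p.2 h1'.1 (hS h2) (I \ S) h1 (by
        rw [Finset.mem_sdiff]; tauto)
      refine ⟨_, IC_symm lo hi S _ h5, ?_⟩
      simp only [hR]
      rw [mem_fl, Finset.mem_product]
      refine ⟨⟨h1'.1, hS h2⟩, ?_⟩
      simp only [hfix]
      exact ⟨trivial, h3, h4⟩
  have hdisj : Disjoint (S ×ˢ (I \ S)) ((I \ S) ×ˢ S) := by
    rw [Finset.disjoint_left]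
    intro p hp hp'
    rw [Finset.mem_product] at hp hp'
    rw [Finset.mem_sdiff] at hp hp'
    exact hp'.1.2 hp.1
  have hc : 2 * (S.card * (I \ S).card) ≤ ∑ e ∈ dS lo hi S, (R e).card := by
    calc 2 * (S.card * (I \ S).card) = (S ×ˢ (I \ S) ∪ (I \ S) ×ˢ S).card := by
          rw [Finset.card_union_of_disjoint hdisj, Finset.card_product, Finset.card_product]
          ring
      _ ≤ ((dS lo hi S).biUnion R).card := Finset.card_le_card hsub
      _ ≤ ∑ e ∈ dS lo hi S, (R e).card := Finset.card_biUnion_le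
  have hb : ∀ e ∈ dS lo hi S, 2 * (R e).card ≤ I.card * ℓ := by
    intro e he
    unfold dS at he
    rw [Finset.mem_filter] at he
    exact congest lo hi ℓ hℓ e he.1
  calc 4 * S.card * (I \ S).card = 2 * (2 * (S.card * (I \ S).card)) := by ring
    _ ≤ 2 * ∑ e ∈ dS lo hi S, (R e).card := Nat.mul_le_mul_left 2 hc
    _ = ∑ e ∈ dS lo hi S, 2 * (R e).card := by rw [Finset.mul_sum]
    _ ≤ ∑ e ∈ dS lo hi S, I.card * ℓ := Finset.sum_le_sum hb
    _ = ℓ * I.card * (dS lo hi S).card := by
        rw [Finset.sum_const, smul_eq_mul]; ring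

/-- A set of vertices of `V`, missing at most `t` of them, pairwise connected in `ω`. -/
def Gi {d : ℕ} (t : ℝ) (V : Finset (Vx d)) (ω : Set (Ed d)) : Prop :=
  ∃ T : Finset (Vx d), T ⊆ V ∧ ((V \ T).card : ℝ) ≤ t ∧ ∀ u ∈ T, ∀ v ∈ T, conn ω u v

/-- Module MA (M). If there is no giant set then `V` has a subset closed under connection, with
both it and its complement of size at least `t/2`. If some class has at least `t/2` elements take
it (it has less than `|V| - t`); otherwise take a union of classes, minimal with size `≥ t/2`: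
its size is `< t`. -/
theorem part {d : ℕ} (t : ℝ) (ht : 0 < t) (V : Finset (Vx d)) (ω : Set (Ed d))
    (hV : 3 / 2 * t ≤ V.card) (h : ¬ Gi t V ω) :
    ∃ A : Finset (Vx d), A ⊆ V ∧ (∀ u ∈ A, ∀ v ∈ V, conn ω u v → v ∈ A) ∧
      t / 2 ≤ A.card ∧ t / 2 ≤ (V \ A).card := by
  classical
  -- the class of u
  let cl : Vx d → Finset (Vx d) := fun u => V.filter (fun v => conn ω u v)
  have hclV : ∀ u, cl u ⊆ V := fun u => Finset.filter_subset _ _
  have hmem : ∀ u v, v ∈ cl u ↔ v ∈ V ∧ conn ω u v := by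
    intro u v
    simp only [cl, Finset.mem_filter]
  by_cases hex : ∃ u ∈ V, t / 2 ≤ ((cl u).card : ℝ)
  · obtain ⟨u, hu, hc⟩ := hex
    refine ⟨cl u, hclV u, ?_, hc, ?_⟩
    · intro x hx v hv hxv
      rw [hmem] at hx ⊢
      exact ⟨hv, conn_trans hx.2 hxv⟩
    · by_contra hlt
      push Not at hlt
      apply h
      refine ⟨cl u, hclV u, by linarith, ?_⟩
      intro x hx y hy
      rw [hmem] at hx hy
      exact conn_trans (conn_symm hx.2) hy.2
  · push Not at hex
    let C : Finset (Finset (Vx d)) := V.powerset.filter (fun A =>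
      (∀ u ∈ A, ∀ v ∈ V, conn ω u v → v ∈ A) ∧ t / 2 ≤ (A.card : ℝ))
    have hC : C.Nonempty := by
      refine ⟨V, ?_⟩
      simp only [C, Finset.mem_filter, Finset.mem_powerset]
      exact ⟨subset_rfl, fun u _ v hv _ => hv, by linarith⟩
    obtain ⟨A, hA, hmin⟩ := Finset.exists_min_image C Finset.card hC
    have hA' : A ⊆ V ∧ (∀ u ∈ A, ∀ v ∈ V, conn ω u v → v ∈ A) ∧ t / 2 ≤ (A.card : ℝ) := by
      simpa only [C, Finset.mem_filter, Finset.mem_powerset] using hA
    obtain ⟨hAV, hcl, hAt⟩ := hA'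
    refine ⟨A, hAV, hcl, hAt, ?_⟩
    have hne : A.Nonempty := by
      rw [← Finset.card_pos]
      have : (0 : ℝ) < A.card := by linarith
      exact_mod_cast this
    obtain ⟨u, hu⟩ := hne
    have hclA : cl u ⊆ A := by
      intro v hv
      rw [hmem] at hv
      exact hcl u hu v hv.1 hv.2
    have huc : u ∈ cl u := by
      rw [hmem]
      exact ⟨hAV hu, conn_refl ω u⟩
    have hlt : ((A \ cl u).card : ℝ) < t / 2 := by
      by_contra hge
      push Not at hge
      have hin : A \ cl u ∈ C := by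
        simp only [C, Finset.mem_filter, Finset.mem_powerset]
        refine ⟨fun x hx => hAV (Finset.mem_sdiff.mp hx).1, ?_, hge⟩
        intro x hx v hv hxv
        rw [Finset.mem_sdiff] at hx ⊢
        refine ⟨hcl x hx.1 v hv hxv, ?_⟩
        intro hvc
        apply hx.2
        rw [hmem] at hvc ⊢
        exact ⟨hAV hx.1, conn_trans hvc.2 (conn_symm hxv)⟩
      have h1 := hmin _ hin
      have h2 : (A \ cl u).card < A.card := by
        apply Finset.card_lt_card
        refine ⟨Finset.sdiff_subset, ?_⟩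
        intro hsub
        exact (Finset.mem_sdiff.mp (hsub hu)).2 huc
      omega
    have hsum : ((A \ cl u).card : ℝ) + (cl u).card = A.card := by
      exact_mod_cast Finset.card_sdiff_add_card_eq_card hclA
    have hsum2 : ((V \ A).card : ℝ) + A.card = V.card := by
      exact_mod_cast Finset.card_sdiff_add_card_eq_card hAV
    have := hex u (hAV hu)
    linarith

/-- Module MB (M). Greedy choice of a disjoint subfamily. -/
theorem greedy {α : Type*} [DecidableEq α] (J : Finset (Finset α)) (D : ℕ) (h1 : ∀ P ∈ J, P.card ≤ 3)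
    (h2 : ∀ P ∈ J, P.Nonempty) (h3 : ∀ e : α, (J.filter (fun P => e ∈ P)).card ≤ D) :
    ∃ J' : Finset (Finset α), J' ⊆ J ∧ (∀ P ∈ J', ∀ Q ∈ J', P ≠ Q → Disjoint P Q) ∧
      J.card ≤ 3 * D * J'.card := by
  classical
  let C : Finset (Finset (Finset α)) :=
    J.powerset.filter (fun K => ∀ P ∈ K, ∀ Q ∈ K, P ≠ Q → Disjoint P Q)
  have hC : C.Nonempty := ⟨∅, by simp [C]⟩
  obtain ⟨J', hJ', hmax⟩ := Finset.exists_max_image C Finset.card hC
  have hJ2 : J' ⊆ J ∧ ∀ P ∈ J', ∀ Q ∈ J', P ≠ Q → Disjoint P Q := by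
    simpa [C] using hJ'
  obtain ⟨hsub, hdis⟩ := hJ2
  refine ⟨J', hsub, hdis, ?_⟩
  have key : J ⊆ J'.biUnion (fun P => P.biUnion (fun e => J.filter (fun R => e ∈ R))) := by
    intro Q hQ
    by_cases hex : ∃ P ∈ J', ¬ Disjoint P Q
    · obtain ⟨P, hP, hPQ⟩ := hex
      rw [Finset.not_disjoint_iff] at hPQ
      obtain ⟨e, heP, heQ⟩ := hPQ
      simp only [Finset.mem_biUnion, Finset.mem_filter]
      exact ⟨P, hP, e, heP, hQ, heQ⟩
    · push Not at hex
      exfalso
      have hQn : Q ∉ J' := by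
        intro hQJ
        have := hex Q hQJ
        rw [disjoint_self] at this
        exact (h2 Q hQ).ne_empty this
      have hins : insert Q J' ∈ C := by
        simp only [C, Finset.mem_filter, Finset.mem_powerset]
        refine ⟨Finset.insert_subset hQ hsub, ?_⟩
        intro P hP R hR hPR
        rw [Finset.mem_insert] at hP hR
        rcases hP with rfl | hP
        · rcases hR with rfl | hR
          · exact absurd rfl hPR
          · exact (hex R hR).symm
        · rcases hR with rfl | hR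
          · exact hex P hP
          · exact hdis P hP R hR hPR
      have := hmax _ hins
      rw [Finset.card_insert_of_notMem hQn] at this
      omega
  calc J.card ≤ (J'.biUnion (fun P => P.biUnion (fun e => J.filter (fun R => e ∈ R)))).card :=
        Finset.card_le_card key
    _ ≤ ∑ P ∈ J', (P.biUnion (fun e => J.filter (fun R => e ∈ R))).card := Finset.card_biUnion_le
    _ ≤ ∑ P ∈ J', 3 * D := by
        apply Finset.sum_le_sum
        intro P hP
        calc (P.biUnion (fun e => J.filter (fun R => e ∈ R))).card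
            ≤ ∑ e ∈ P, (J.filter (fun R => e ∈ R)).card := Finset.card_biUnion_le
          _ ≤ ∑ e ∈ P, D := Finset.sum_le_sum (fun e _ => h3 e)
          _ = P.card * D := by simp
          _ ≤ 3 * D := Nat.mul_le_mul_right D (h1 P (hsub hP))
    _ = 3 * D * J'.card := by rw [Finset.sum_const, smul_eq_mul, mul_comm]

/-- Forward neighbours of `w` in the vertex set `V`. -/
noncomputable def nf {d : ℕ} (V : Finset (Vx d)) (w : Vx d) : Finset (Fin d) :=
  fl Finset.univ (fun i => w + uv i ∈ V)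

/-- Vertices of the box with less than `κ d` forward neighbours in `V`. -/
noncomputable def ex0 {d : ℕ} (κ : ℝ) (lo hi : Vx d) (V : Finset (Vx d)) : Finset (Vx d) :=
  fl (Finset.Icc lo hi) (fun w => ((nf V w).card : ℝ) < κ * d)

/-- A disjoint family of at least `n` connecting sets of at most three edges of `B`. -/
def Fam {d : ℕ} (B : Finset (Ed d)) (A A' : Finset (Vx d)) (n : ℝ) : Prop :=
  ∃ J : Finset (Finset (Ed d)), n ≤ J.card ∧
    (∀ P ∈ J, P ⊆ B ∧ P.card ≤ 3 ∧ ∃ a ∈ A, ∃ a' ∈ A', conn (↑P) a a') ∧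
    ∀ P ∈ J, ∀ Q ∈ J, P ≠ Q → Disjoint P Q

/-- Module MC (M). Many vertices of `A` with a forward neighbour in `A'`: one-edge families. -/
theorem fam_one {d : ℕ} (lo hi : Vx d) (F : Finset (Ed d)) (A A' S : Finset (Vx d))
    (hA : A ⊆ Finset.Icc lo hi) (hA' : A' ⊆ Finset.Icc lo hi) (hd : Disjoint A A')
    (hS : S ⊆ A) (h : ∀ w ∈ S, (nf A' w).Nonempty) :
    Fam (bx lo hi \ F) A A' ((S.card : ℝ) - F.card) := by
  classical
  have hch : ∀ w : Vx d, ∃ g : Option (Fin d), w ∈ S → ∃ i, g = some i ∧ w + uv i ∈ A' := by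
    intro w
    by_cases hw : w ∈ S
    · obtain ⟨i, hi⟩ := h w hw
      unfold nf at hi
      rw [mem_fl] at hi
      exact ⟨some i, fun _ => ⟨i, rfl, hi.2⟩⟩
    · exact ⟨none, fun h => absurd h hw⟩
  -- choose forward neighbours
  have hch2 : ∃ g : Vx d → Finset (Ed d), ∀ w ∈ S, ∃ i, g w = {(w, i)} ∧ w + uv i ∈ A' := by
    choose g hg using hch
    refine ⟨fun w => match g w with
      | some i => {(w, i)}
      | none => ∅, ?_⟩
    intro w hw
    obtain ⟨i, h1, h2⟩ := hg w hw
    refine ⟨i, ?_, h2⟩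
    simp only [h1]
  obtain ⟨g, hg⟩ := hch2
  let S' := S.filter (fun w => Disjoint (g w) F)
  have hinj : Set.InjOn g (S : Set (Vx d)) := by
    intro w hw w' hw' he
    obtain ⟨i, h1, -⟩ := hg w hw
    obtain ⟨j, h2, -⟩ := hg w' hw'
    rw [h1, h2, Finset.singleton_inj] at he
    exact (Prod.mk.injEq _ _ _ _ ▸ he).1
  have hS'S : S' ⊆ S := Finset.filter_subset _ _
  refine ⟨S'.image g, ?_, ?_, ?_⟩
  · rw [Finset.card_image_of_injOn (hinj.mono (by exact_mod_cast hS'S))]
    have h1 : (S.filter (fun w => ¬ Disjoint (g w) F)).card ≤ F.card := by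
      have hsub : (S.filter (fun w => ¬ Disjoint (g w) F)).image g ⊆ F.image (fun e => {e}) := by
        intro P hP
        rw [Finset.mem_image] at hP
        obtain ⟨w, hw, rfl⟩ := hP
        rw [Finset.mem_filter] at hw
        obtain ⟨i, h1, -⟩ := hg w hw.1
        have h2 := hw.2
        rw [h1, Finset.disjoint_singleton_left, not_not] at h2
        rw [Finset.mem_image]
        exact ⟨_, h2, h1.symm⟩
      have h2 := Finset.card_le_card hsub
      rw [Finset.card_image_of_injOn (hinj.mono (by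
        intro x hx
        rw [Finset.mem_coe, Finset.mem_filter] at hx
        exact hx.1))] at h2
      exact h2.trans Finset.card_image_le
    have h2 : S'.card + (S.filter (fun w => ¬ Disjoint (g w) F)).card = S.card :=
      Finset.card_filter_add_card_filter_not _
    have h3 : (S.card : ℝ) = S'.card + (S.filter (fun w => ¬ Disjoint (g w) F)).card := by
      exact_mod_cast h2.symm
    have h4 : ((S.filter (fun w => ¬ Disjoint (g w) F)).card : ℝ) ≤ F.card := by
      exact_mod_cast h1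
    linarith
  · intro P hP
    rw [Finset.mem_image] at hP
    obtain ⟨w, hw, rfl⟩ := hP
    simp only [S', Finset.mem_filter] at hw
    obtain ⟨i, h1, h2⟩ := hg w hw.1
    have hw2 := hw.2
    rw [h1, Finset.disjoint_singleton_left] at hw2
    rw [h1]
    refine ⟨?_, by simp, w, hS hw.1, w + uv i, h2, ?_⟩
    · rw [Finset.singleton_subset_iff, Finset.mem_sdiff]
      refine ⟨?_, hw2⟩
      unfold bx
      rw [mem_edg]
      exact ⟨hA (hS hw.1), hA' h2⟩
    · apply Relation.ReflTransGen.single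
      exact ⟨i, Or.inl ⟨by simp, rfl⟩⟩
  · intro P hP Q hQ hPQ
    rw [Finset.mem_image] at hP hQ
    obtain ⟨w, hw, rfl⟩ := hP
    obtain ⟨w', hw', rfl⟩ := hQ
    obtain ⟨i, h1, -⟩ := hg w (hS'S hw)
    obtain ⟨j, h2, -⟩ := hg w' (hS'S hw')
    rw [h1, h2] at hPQ ⊢
    rw [Finset.disjoint_singleton]
    intro he
    exact hPQ (by rw [he])

theorem Fam_symm {d : ℕ} (B : Finset (Ed d)) (A A' : Finset (Vx d)) (n : ℝ)
    (h : Fam B A A' n) : Fam B A' A n := by
  obtain ⟨J, h1, h2, h3⟩ := h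
  refine ⟨J, h1, ?_, h3⟩
  intro P hP
  obtain ⟨h4, h5, a, ha, a', ha', h6⟩ := h2 P hP
  exact ⟨h4, h5, a', ha', a, ha, conn_symm h6⟩

private def MD_inc {d : ℕ} (x : Vx d) : Finset (Ed d) :=
  (Finset.univ : Finset (Fin d)).image (fun i => (x, i)) ∪
    (Finset.univ : Finset (Fin d)).image (fun i => (x - uv i, i))

private theorem MD_card {d : ℕ} (x : Vx d) : (MD_inc x).card ≤ 2 * d := by
  unfold MD_inc
  calc _ ≤ _ := Finset.card_union_le _ _
    _ ≤ d + d := by
      apply Nat.add_le_add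
      · exact Finset.card_image_le.trans (by simp)
      · exact Finset.card_image_le.trans (by simp)
    _ = 2 * d := by ring

private theorem MD_mem {d : ℕ} (x : Vx d) (f : Ed d) (h : f.1 = x ∨ tip f = x) :
    f ∈ MD_inc x := by
  unfold MD_inc
  rw [Finset.mem_union, Finset.mem_image, Finset.mem_image]
  obtain ⟨y, i⟩ := f
  rcases h with h | h
  · left
    exact ⟨i, Finset.mem_univ _, by simp only at h; rw [h]⟩
  · right
    refine ⟨i, Finset.mem_univ _, ?_⟩
    unfold tip at h
    simp only at h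
    rw [← h, add_sub_cancel_right]

/-- Module MD (L). Three-edge families: for `f = (w, w')` in the boundary of `S` with both ends
outside `X`, `P_f = {(w, i_w), f, (w', j_{w'})}`, with fixed choices `i_w` (forward neighbour in
`A` for `w ∈ S \ X`), `j_{w'}` (forward neighbour in `A'` for `w' ∉ S ∪ X`). Every edge is in at
most `4 d + 1 ≤ 5 d` of the `P_f` (and each set `P` is `P_f` for at most three `f`), at most
`5 d |F|` of the `P_f` meet `F`, at most `2 d |X|` boundary edges touch `X`. `greedy`. -/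
theorem fam_three {d : ℕ} (hd0 : 1 ≤ d) (lo hi : Vx d) (F : Finset (Ed d))
    (A A' S X : Finset (Vx d))
    (hA : A ⊆ Finset.Icc lo hi) (hA' : A' ⊆ Finset.Icc lo hi) (hS : S ⊆ Finset.Icc lo hi)
    (h1 : ∀ w ∈ S, w ∉ X → (nf A w).Nonempty)
    (h2 : ∀ w ∈ Finset.Icc lo hi, w ∉ S → w ∉ X → (nf A' w).Nonempty) :
    Fam (bx lo hi \ F) A A'
      ((((dS lo hi S).card : ℝ) - 2 * d * X.card - 5 * d * F.card) / (45 * d)) := by
  classical
  have hgi : ∃ gi : Vx d → Fin d, ∀ w ∈ S, w ∉ X → w + uv (gi w) ∈ A := by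
    have : ∀ w : Vx d, ∃ i : Fin d, w ∈ S → w ∉ X → w + uv i ∈ A := by
      intro w
      by_cases hw : w ∈ S ∧ w ∉ X
      · obtain ⟨i, hi⟩ := h1 w hw.1 hw.2
        unfold nf at hi
        rw [mem_fl] at hi
        exact ⟨i, fun _ _ => hi.2⟩
      · exact ⟨⟨0, hd0⟩, fun h h' => absurd ⟨h, h'⟩ hw⟩
    choose g hg using this
    exact ⟨g, hg⟩
  have hgj : ∃ gj : Vx d → Fin d, ∀ w ∈ Finset.Icc lo hi, w ∉ S → w ∉ X → w + uv (gj w) ∈ A' := by
    have : ∀ w : Vx d, ∃ i : Fin d, w ∈ Finset.Icc lo hi → w ∉ S → w ∉ X → w + uv i ∈ A' := by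
      intro w
      by_cases hw : w ∈ Finset.Icc lo hi ∧ w ∉ S ∧ w ∉ X
      · obtain ⟨i, hi⟩ := h2 w hw.1 hw.2.1 hw.2.2
        unfold nf at hi
        rw [mem_fl] at hi
        exact ⟨i, fun _ _ _ => hi.2⟩
      · exact ⟨⟨0, hd0⟩, fun h h' h'' => absurd ⟨h, h', h''⟩ hw⟩
    choose g hg using this
    exact ⟨g, hg⟩
  obtain ⟨gi, hgi⟩ := hgi
  obtain ⟨gj, hgj⟩ := hgj
  let s : Ed d → Vx d := fun f => if f.1 ∈ S then f.1 else tip f
  let u : Ed d → Vx d := fun f => if f.1 ∈ S then tip f else f.1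
  let P : Ed d → Finset (Ed d) := fun f => {(s f, gi (s f)), f, (u f, gj (u f))}
  have hPcard : ∀ f, (P f).card ≤ 3 := fun f => Finset.card_le_three
  have hfP : ∀ f, f ∈ P f := by
    intro f
    simp [P]
  have hPmem : ∀ f e, e ∈ P f → f ∈ insert e (MD_inc e.1) := by
    intro f e he
    simp only [P, Finset.mem_insert, Finset.mem_singleton] at he
    rw [Finset.mem_insert]
    rcases he with he | he | he
    · right
      apply MD_mem
      rw [he]
      simp only [s]
      split_ifs with h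
      · left; rfl
      · right; rfl
    · left
      exact he.symm
    · right
      apply MD_mem
      rw [he]
      simp only [u]
      split_ifs with h
      · right; rfl
      · left; rfl
  have hins : ∀ e : Ed d, (insert e (MD_inc e.1)).card ≤ 5 * d := by
    intro e
    calc (insert e (MD_inc e.1)).card ≤ (MD_inc e.1).card + 1 := Finset.card_insert_le _ _
      _ ≤ 2 * d + 1 := Nat.add_le_add_right (MD_card _) 1
      _ ≤ 5 * d := by omega
  let D := dS lo hi S
  let G := D.filter (fun f => (f.1 ∉ X ∧ tip f ∉ X) ∧ Disjoint (P f) F)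
  have hGD : G ⊆ D := Finset.filter_subset _ _
  -- properties of the ends
  have hends : ∀ f ∈ D, f ∈ bx lo hi ∧ s f ∈ S ∧ u f ∉ S ∧ s f ∈ Finset.Icc lo hi ∧
      u f ∈ Finset.Icc lo hi ∧ adj ((P f : Finset (Ed d)) : Set (Ed d)) (s f) (u f) := by
    intro f hf
    simp only [D] at hf
    unfold dS bx at hf
    rw [Finset.mem_filter, mem_edg] at hf
    obtain ⟨⟨g1, g2⟩, g3⟩ := hf
    refine ⟨?_, ?_⟩
    · unfold bx
      rw [mem_edg]
      exact ⟨g1, g2⟩
    · have hfPf := hfP f
      by_cases h : f.1 ∈ S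
      · have g4 : tip f ∉ S := by tauto
        have e1 : s f = f.1 := by simp only [s]; rw [if_pos h]
        have e2 : u f = tip f := by simp only [u]; rw [if_pos h]
        rw [e1, e2]
        exact ⟨h, g4, g1, g2, f.2, Or.inl ⟨hfPf, rfl⟩⟩
      · have g4 : tip f ∈ S := by tauto
        have e1 : s f = tip f := by simp only [s]; rw [if_neg h]
        have e2 : u f = f.1 := by simp only [u]; rw [if_neg h]
        rw [e1, e2]
        exact ⟨g4, h, g2, g1, f.2, Or.inr ⟨hfPf, rfl⟩⟩
  -- bad edges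
  have hb1 : (D.filter (fun f => ¬ (f.1 ∉ X ∧ tip f ∉ X))).card ≤ 2 * d * X.card := by
    have hsub : D.filter (fun f => ¬ (f.1 ∉ X ∧ tip f ∉ X)) ⊆ X.biUnion MD_inc := by
      intro f hf
      rw [Finset.mem_filter] at hf
      rw [Finset.mem_biUnion]
      by_cases h : f.1 ∈ X
      · exact ⟨f.1, h, MD_mem _ _ (Or.inl rfl)⟩
      · have h' : tip f ∈ X := by tauto
        exact ⟨tip f, h', MD_mem _ _ (Or.inr rfl)⟩
    calc _ ≤ _ := Finset.card_le_card hsub
      _ ≤ ∑ x ∈ X, (MD_inc x).card := Finset.card_biUnion_le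
      _ ≤ ∑ x ∈ X, 2 * d := Finset.sum_le_sum (fun x _ => MD_card x)
      _ = 2 * d * X.card := by rw [Finset.sum_const, smul_eq_mul, mul_comm]
  have hb2 : (D.filter (fun f => ¬ Disjoint (P f) F)).card ≤ 5 * d * F.card := by
    have hsub : D.filter (fun f => ¬ Disjoint (P f) F) ⊆
        F.biUnion (fun e => insert e (MD_inc e.1)) := by
      intro f hf
      rw [Finset.mem_filter, Finset.not_disjoint_iff] at hf
      obtain ⟨-, e, he1, he2⟩ := hf
      rw [Finset.mem_biUnion]
      exact ⟨e, he2, hPmem f e he1⟩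
    calc _ ≤ _ := Finset.card_le_card hsub
      _ ≤ ∑ e ∈ F, (insert e (MD_inc e.1)).card := Finset.card_biUnion_le
      _ ≤ ∑ e ∈ F, 5 * d := Finset.sum_le_sum (fun e _ => hins e)
      _ = 5 * d * F.card := by rw [Finset.sum_const, smul_eq_mul, mul_comm]
  have hDG : D.card ≤ G.card + 2 * d * X.card + 5 * d * F.card := by
    have hsub : D ⊆ (G ∪ D.filter (fun f => ¬ (f.1 ∉ X ∧ tip f ∉ X))) ∪
        D.filter (fun f => ¬ Disjoint (P f) F) := by
      intro f hf
      simp only [G, Finset.mem_union, Finset.mem_filter]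
      tauto
    calc D.card ≤ _ := Finset.card_le_card hsub
      _ ≤ (G ∪ D.filter (fun f => ¬ (f.1 ∉ X ∧ tip f ∉ X))).card +
          (D.filter (fun f => ¬ Disjoint (P f) F)).card := Finset.card_union_le _ _
      _ ≤ (G.card + (D.filter (fun f => ¬ (f.1 ∉ X ∧ tip f ∉ X))).card) +
          (D.filter (fun f => ¬ Disjoint (P f) F)).card :=
        Nat.add_le_add_right (Finset.card_union_le _ _) _
      _ ≤ G.card + 2 * d * X.card + 5 * d * F.card := by omega
  let J := G.image P
  have hJ3 : G.card ≤ 3 * J.card := by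
    apply Finset.card_le_mul_card_image
    intro Q hQ
    rw [Finset.mem_image] at hQ
    obtain ⟨f0, -, rfl⟩ := hQ
    calc (G.filter (fun f => P f = P f0)).card ≤ (P f0).card := by
          apply Finset.card_le_card
          intro f hf
          rw [Finset.mem_filter] at hf
          rw [← hf.2]
          exact hfP f
      _ ≤ 3 := hPcard f0
  obtain ⟨J', hJ'J, hdis, hcard⟩ := greedy J (5 * d)
    (by
      intro Q hQ
      rw [Finset.mem_image] at hQ
      obtain ⟨f, -, rfl⟩ := hQ
      exact hPcard f)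
    (by
      intro Q hQ
      rw [Finset.mem_image] at hQ
      obtain ⟨f, -, rfl⟩ := hQ
      exact ⟨f, hfP f⟩)
    (by
      intro e
      calc (J.filter (fun Q => e ∈ Q)).card ≤ ((G.filter (fun f => e ∈ P f)).image P).card := by
            apply Finset.card_le_card
            intro Q hQ
            rw [Finset.mem_filter, Finset.mem_image] at hQ
            obtain ⟨⟨f, hf, rfl⟩, he⟩ := hQ
            rw [Finset.mem_image]
            exact ⟨f, Finset.mem_filter.mpr ⟨hf, he⟩, rfl⟩
        _ ≤ (G.filter (fun f => e ∈ P f)).card := Finset.card_image_le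
        _ ≤ (insert e (MD_inc e.1)).card := by
            apply Finset.card_le_card
            intro f hf
            rw [Finset.mem_filter] at hf
            exact hPmem f e hf.2
        _ ≤ 5 * d := hins e)
  refine ⟨J', ?_, ?_, hdis⟩
  · have hd1 : (0 : ℝ) < 45 * d := by
      have : (1 : ℝ) ≤ d := by exact_mod_cast hd0
      linarith
    rw [div_le_iff₀ hd1]
    have e1 : (D.card : ℝ) ≤ G.card + 2 * d * X.card + 5 * d * F.card := by
      exact_mod_cast hDG
    have e2 : (G.card : ℝ) ≤ 3 * J.card := by exact_mod_cast hJ3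
    have e3 : (J.card : ℝ) ≤ 3 * (5 * d) * J'.card := by exact_mod_cast hcard
    have e4 : (D.card : ℝ) = ((dS lo hi S).card : ℝ) := rfl
    rw [← e4]
    linarith
  · intro Q hQ
    have hQ2 := hJ'J hQ
    rw [Finset.mem_image] at hQ2
    obtain ⟨f, hf, rfl⟩ := hQ2
    obtain ⟨g1, g2, g3, g4, g5, g6⟩ := hends f (hGD hf)
    simp only [G, Finset.mem_filter] at hf
    obtain ⟨-, ⟨hfX1, hfX2⟩, hfF⟩ := hf
    have hsX : s f ∉ X := by
      simp only [s]; split_ifs
      · exact hfX1
      · exact hfX2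
    have huX : u f ∉ X := by
      simp only [u]; split_ifs
      · exact hfX2
      · exact hfX1
    have hA1 := hgi (s f) g2 hsX
    have hA2 := hgj (u f) g5 g3 huX
    refine ⟨?_, hPcard f, s f + uv (gi (s f)), hA1, u f + uv (gj (u f)), hA2, ?_⟩
    · intro e he
      rw [Finset.mem_sdiff]
      refine ⟨?_, Finset.disjoint_left.mp hfF he⟩
      simp only [P, Finset.mem_insert, Finset.mem_singleton] at he
      rcases he with rfl | rfl | rfl
      · unfold bx
        rw [mem_edg]
        exact ⟨g4, hA hA1⟩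
      · exact g1
      · unfold bx
        rw [mem_edg]
        exact ⟨g5, hA' hA2⟩
    · have c1 : adj ((P f : Finset (Ed d)) : Set (Ed d)) (s f + uv (gi (s f))) (s f) :=
        ⟨gi (s f), Or.inr ⟨by simp [P], rfl⟩⟩
      have c3 : adj ((P f : Finset (Ed d)) : Set (Ed d)) (u f) (u f + uv (gj (u f))) :=
        ⟨gj (u f), Or.inl ⟨by simp [P], rfl⟩⟩
      exact ((Relation.ReflTransGen.single c1).tail g6).tail c3

private theorem ME_mono {d : ℕ} {B : Finset (Ed d)} {A A' : Finset (Vx d)} {n n' : ℝ}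
    (h : Fam B A A' n) (hn : n' ≤ n) : Fam B A A' n' := by
  obtain ⟨J, h1, h2, h3⟩ := h
  exact ⟨J, hn.trans h1, h2, h3⟩

private theorem ME_split {d : ℕ} (V A : Finset (Vx d)) (w : Vx d) :
    (nf V w).card ≤ (nf A w).card + (nf (V \ A) w).card := by
  classical
  refine (Finset.card_le_card ?_).trans (Finset.card_union_le _ _)
  intro i hi
  unfold nf at *
  rw [mem_fl] at hi
  rw [Finset.mem_union, mem_fl, mem_fl, Finset.mem_sdiff]
  by_cases h : w + uv i ∈ A
  · left; exact ⟨Finset.mem_univ _, h⟩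
  · right; exact ⟨Finset.mem_univ _, hi.2, h⟩

/-- Module ME (M). Assembly. `X = ex0`, `S = {w ∉ X : |nf A w| ≥ κ d / 2}`, `γ = α/8`. If
`|S| ≤ γ N`: `fam_one` from `A \ (S ∪ X)` (at least `αN/2 - αN/8 - N/d²` vertices) to `A'`. If
`|Icc \ S| ≤ γ N`: `fam_one` from `A' ∩ S` to `A`. Otherwise `iso` gives
`|dS| ≥ 4 γ (1-γ) N / ℓ ≥ 2γN/ℓ` and `fam_three`. All three numbers are at least
`α N / (1000 ℓ d)` for `d` large (`N ≥ d^10`). -/
theorem fam_all (κ α : ℝ) (ℓ : ℕ) (hκ : 0 < κ) (hα : 0 < α) (hα1 : α ≤ 1) (hℓ : 1 ≤ ℓ) :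
    ∀ᶠ d : ℕ in atTop, ∀ (lo hi : Vx d) (F : Finset (Ed d)) (V A : Finset (Vx d)),
      (∀ i, hi i - lo i + 1 ≤ ℓ) → (d : ℝ) ^ 10 ≤ (Finset.Icc lo hi).card → F.card ≤ 1 →
      V ⊆ Finset.Icc lo hi → A ⊆ V →
      (d : ℝ) ^ 2 * (ex0 κ lo hi V).card ≤ (Finset.Icc lo hi).card →
      α / 2 * (Finset.Icc lo hi).card ≤ A.card → α / 2 * (Finset.Icc lo hi).card ≤ (V \ A).card →
      Fam (bx lo hi \ F) A (V \ A) (α * (Finset.Icc lo hi).card / (1000 * ℓ * d)) := by
  classical
  have hK : ∀ᶠ d : ℕ in atTop, 1 ≤ d ∧ 100 * (ℓ : ℝ) / α ≤ (d : ℝ) := by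
    refine (eventually_ge_atTop 1).and ?_
    exact (tendsto_natCast_atTop_atTop (R := ℝ)).eventually_ge_atTop _
  filter_upwards [hK] with d hdd
  obtain ⟨hd0, hdK⟩ := hdd
  intro lo hi F V A hside hN10 hF hV hA hX hAc hA'c
  have hd1 : (1 : ℝ) ≤ d := by exact_mod_cast hd0
  have hd1' : (0 : ℝ) < d := by linarith
  have hℓ1 : (1 : ℝ) ≤ ℓ := by exact_mod_cast hℓ
  have hαd : 100 * (ℓ : ℝ) ≤ α * d := by
    rw [div_le_iff₀ hα] at hdK
    linarith
  set N : ℝ := ((Finset.Icc lo hi).card : ℝ) with hNdef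
  set X := ex0 κ lo hi V with hXdef
  have hNd : (d : ℝ) * d ≤ N := by
    calc (d : ℝ) * d = (d : ℝ) ^ 2 := by ring
      _ ≤ (d : ℝ) ^ 10 := pow_le_pow_right₀ hd1 (by norm_num)
      _ ≤ N := hN10
  have hNpos : 0 < N := lt_of_lt_of_le (by positivity) hNd
  have hx0 : (0 : ℝ) ≤ X.card := Nat.cast_nonneg _
  have hi1 : 100 * (ℓ : ℝ) * (d * X.card) ≤ α * N := by
    calc 100 * (ℓ : ℝ) * (d * X.card) ≤ α * d * (d * X.card) :=
          mul_le_mul_of_nonneg_right hαd (by positivity)
      _ = α * ((d : ℝ) ^ 2 * X.card) := by ring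
      _ ≤ α * N := mul_le_mul_of_nonneg_left hX hα.le
  have hi2 : 100 * (ℓ : ℝ) * d ≤ α * N := by
    calc 100 * (ℓ : ℝ) * d ≤ α * d * d := mul_le_mul_of_nonneg_right hαd hd1'.le
      _ = α * ((d : ℝ) * d) := by ring
      _ ≤ α * N := mul_le_mul_of_nonneg_left hNd hα.le
  have hF1 : (F.card : ℝ) ≤ 1 := by exact_mod_cast hF
  -- small bounds
  have hℓd : (1 : ℝ) ≤ (ℓ : ℝ) * d := by
    calc (1 : ℝ) = 1 * 1 := by ring
      _ ≤ (ℓ : ℝ) * d := mul_le_mul hℓ1 hd1 (by norm_num) (by linarith)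
  have hb1 : (X.card : ℝ) ≤ α * N / 100 := by
    have h1 : (X.card : ℝ) ≤ (ℓ : ℝ) * (d * X.card) := by
      calc (X.card : ℝ) = 1 * X.card := by ring
        _ ≤ (ℓ * d) * X.card := mul_le_mul_of_nonneg_right hℓd hx0
        _ = (ℓ : ℝ) * (d * X.card) := by ring
    linarith
  have hb2 : (F.card : ℝ) ≤ α * N / 100 := by
    linarith
  have hgoal1 : α * N / (1000 * ℓ * d) ≤ α * N / 1000 := by
    apply div_le_div_of_nonneg_left (by positivity) (by norm_num)
    linarith
  let S : Finset (Vx d) := (Finset.Icc lo hi).filter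
    (fun w => w ∉ X ∧ κ * d / 2 ≤ ((nf A w).card : ℝ))
  have hSI : S ⊆ Finset.Icc lo hi := Finset.filter_subset _ _
  have hAI : A ⊆ Finset.Icc lo hi := hA.trans hV
  have hA'I : V \ A ⊆ Finset.Icc lo hi := Finset.sdiff_subset.trans hV
  have hSne : ∀ w ∈ S, (nf A w).Nonempty := by
    intro w hw
    simp only [S, Finset.mem_filter] at hw
    rw [← Finset.card_pos]
    have h1 : (0 : ℝ) < (nf A w).card := lt_of_lt_of_le (by positivity) hw.2.2
    exact_mod_cast h1
  have hSne' : ∀ w ∈ Finset.Icc lo hi, w ∉ S → w ∉ X → (nf (V \ A) w).Nonempty := by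
    intro w hw hwS hwX
    rw [← Finset.card_pos]
    have h1 : ((nf A w).card : ℝ) < κ * d / 2 := by
      by_contra h
      push Not at h
      apply hwS
      simp only [S, Finset.mem_filter]
      exact ⟨hw, hwX, h⟩
    have h2 : κ * d ≤ ((nf V w).card : ℝ) := by
      by_contra h
      push Not at h
      apply hwX
      rw [hXdef]
      unfold ex0
      rw [mem_fl]
      exact ⟨hw, h⟩
    have h3 : ((nf V w).card : ℝ) ≤ (nf A w).card + (nf (V \ A) w).card := by
      exact_mod_cast ME_split V A w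
    have h4 : (0 : ℝ) < κ * d := by positivity
    have h5 : (0 : ℝ) < (nf (V \ A) w).card := by linarith
    exact_mod_cast h5
  have hdisj : Disjoint A (V \ A) := Finset.disjoint_sdiff
  by_cases hc1 : (S.card : ℝ) ≤ α / 8 * N
  · -- case 1
    have hfam := fam_one lo hi F A (V \ A) (A \ (S ∪ X)) hAI hA'I hdisj Finset.sdiff_subset
      (by
        intro w hw
        rw [Finset.mem_sdiff, Finset.mem_union] at hw
        push Not at hw
        exact hSne' w (hAI hw.1) hw.2.1 hw.2.2)
    refine ME_mono hfam ?_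
    have h1 : (A.card : ℝ) ≤ (A \ (S ∪ X)).card + (S.card + X.card) := by
      have h2 : A.card ≤ (A \ (S ∪ X)).card + (S ∪ X).card := by
        have := Finset.le_card_sdiff (S ∪ X) A
        omega
      have h3 := Finset.card_union_le S X
      exact_mod_cast h2.trans (by omega)
    have : 0 < α * N := by positivity
    linarith
  · push Not at hc1
    by_cases hc2 : ((Finset.Icc lo hi \ S).card : ℝ) ≤ α / 8 * N
    · have hfam := fam_one lo hi F (V \ A) A ((V \ A) ∩ S) hA'I hAI hdisj.symm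
        Finset.inter_subset_left
        (by
          intro w hw
          rw [Finset.mem_inter] at hw
          exact hSne w hw.2)
      refine ME_mono (Fam_symm _ _ _ _ hfam) ?_
      have h1 : ((V \ A).card : ℝ) ≤ ((V \ A) ∩ S).card + (Finset.Icc lo hi \ S).card := by
        have h2 : (V \ A) ⊆ ((V \ A) ∩ S) ∪ (Finset.Icc lo hi \ S) := by
          intro w hw
          rw [Finset.mem_union]
          by_cases h : w ∈ S
          · left; exact Finset.mem_inter.mpr ⟨hw, h⟩
          · right; exact Finset.mem_sdiff.mpr ⟨hA'I hw, h⟩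
        exact_mod_cast (Finset.card_le_card h2).trans (Finset.card_union_le _ _)
      have : 0 < α * N := by positivity
      linarith
    · push Not at hc2
      have hfam := fam_three hd0 lo hi F A (V \ A) S X hAI hA'I hSI (fun w hw _ => hSne w hw)
        hSne'
      refine ME_mono hfam ?_
      have hiso := iso lo hi ℓ hside S hSI
      have hiso' : 4 * (S.card : ℝ) * (Finset.Icc lo hi \ S).card ≤
          ℓ * N * (dS lo hi S).card := by
        rw [hNdef]
        exact_mod_cast hiso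
      have hsum : ((Finset.Icc lo hi \ S).card : ℝ) + S.card = N := by
        rw [hNdef]
        exact_mod_cast Finset.card_sdiff_add_card_eq_card hSI
      set s : ℝ := (S.card : ℝ) with hs
      set t : ℝ := ((Finset.Icc lo hi \ S).card : ℝ) with ht
      set D : ℝ := ((dS lo hi S).card : ℝ) with hD
      have hprod : α / 8 * (1 - α / 8) * N ^ 2 ≤ s * t := by
        have h1 : 0 ≤ (s - α / 8 * N) * (t - α / 8 * N) :=
          mul_nonneg (by linarith) (by linarith)
        have h2 : t = N - s := by linarith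
        rw [h2] at h1 ⊢
        have e1 : (s - α / 8 * N) * (N - s - α / 8 * N) =
            s * (N - s) - α / 8 * (1 - α / 8) * N ^ 2 := by ring
        rw [e1] at h1
        linarith
      have hD2 : α / 4 * N ≤ ℓ * D := by
        have h1 : 4 * (α / 8 * (1 - α / 8) * N ^ 2) ≤ ℓ * N * D := by linarith
        have h2 : α / 4 * N ^ 2 ≤ 4 * (α / 8 * (1 - α / 8) * N ^ 2) := by
          have h3 : α / 4 ≤ 4 * (α / 8 * (1 - α / 8)) := by
            have h5 : α * α ≤ α * 1 := mul_le_mul_of_nonneg_left hα1 hα.le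
            linarith
          have h4 := mul_le_mul_of_nonneg_right h3 (sq_nonneg N)
          linarith
        have h3 : N * (α / 4 * N) ≤ N * (ℓ * D) := by
          calc N * (α / 4 * N) = α / 4 * N ^ 2 := by ring
            _ ≤ ℓ * N * D := h2.trans h1
            _ = N * (ℓ * D) := by ring
        exact le_of_mul_le_mul_left h3 hNpos
      rw [div_le_div_iff₀ (by positivity) (by positivity)]
      have h5 : (ℓ : ℝ) * (d * F.card) ≤ ℓ * d := by
        have : (d : ℝ) * F.card ≤ d * 1 := mul_le_mul_of_nonneg_left hF1 hd1'.le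
        rw [mul_one] at this
        exact mul_le_mul_of_nonneg_left this (by linarith)
      have h6 : α * N * 45 ≤ 1000 * ℓ * (D - 2 * d * X.card - 5 * d * F.card) := by
        have e1 : 1000 * (ℓ : ℝ) * (D - 2 * d * X.card - 5 * d * F.card) =
          1000 * (ℓ * D) - 2000 * (ℓ * (d * X.card)) - 5000 * (ℓ * (d * F.card)) := by ring
        rw [e1]
        have hpos : 0 < α * N := by positivity
        linarith
      calc α * N * (45 * d) = (α * N * 45) * d := by ring
        _ ≤ (1000 * ℓ * (D - 2 * d * X.card - 5 * d * F.card)) * d :=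
            mul_le_mul_of_nonneg_right h6 hd1'.le
        _ = (D - 2 * d * X.card - 5 * d * F.card) * (1000 * ℓ * d) := by ring

/-- Module MF (M). Number of subsets of `V` closed under connection in `Y`, when all clusters have
at least `s` elements in `V`: at most `2^(|V|/s)`. -/
theorem count_closed {d : ℕ} (V : Finset (Vx d)) (Y : Set (Ed d)) (s : ℕ) (hs : 1 ≤ s)
    (h : ∀ v ∈ V, ∃ T : Finset (Vx d), T ⊆ V ∧ s ≤ T.card ∧ ∀ u ∈ T, conn Y v u) :
    ((fl V.powerset (fun A => ∀ u ∈ A, ∀ v ∈ V, conn Y u v → v ∈ A)).card : ℝ) ≤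
      (2 : ℝ) ^ ((V.card : ℝ) / s) := by
  classical
  let cl : Vx d → Finset (Vx d) := fun u => V.filter (fun v => conn Y u v)
  have hmem : ∀ u v, v ∈ cl u ↔ v ∈ V ∧ conn Y u v := by
    intro u v
    simp only [cl, Finset.mem_filter]
  have hself : ∀ u ∈ V, u ∈ cl u := fun u hu => (hmem u u).2 ⟨hu, conn_refl Y u⟩
  let CC : Finset (Finset (Vx d)) := V.image cl
  have hCCmem : ∀ C ∈ CC, ∃ u ∈ V, cl u = C := by
    intro C hC
    simpa only [CC, Finset.mem_image] using hC
  have hbig : ∀ C ∈ CC, s ≤ C.card := by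
    intro C hC
    obtain ⟨u, hu, rfl⟩ := hCCmem C hC
    obtain ⟨T, hT1, hT2, hT3⟩ := h u hu
    refine hT2.trans (Finset.card_le_card ?_)
    intro v hv
    exact (hmem u v).2 ⟨hT1 hv, hT3 v hv⟩
  have hdis : ∀ C ∈ CC, ∀ C' ∈ CC, C ≠ C' → Disjoint C C' := by
    intro C hC C' hC' hne
    obtain ⟨u, hu, rfl⟩ := hCCmem C hC
    obtain ⟨u', hu', rfl⟩ := hCCmem C' hC'
    rw [Finset.disjoint_left]
    intro x hx hx'
    apply hne
    rw [hmem] at hx hx'
    have huu : conn Y u u' := conn_trans hx.2 (conn_symm hx'.2)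
    ext y
    rw [hmem, hmem]
    constructor
    · rintro ⟨h1, h2⟩
      exact ⟨h1, conn_trans (conn_symm huu) h2⟩
    · rintro ⟨h1, h2⟩
      exact ⟨h1, conn_trans huu h2⟩
  have hcount : s * CC.card ≤ V.card := by
    calc s * CC.card = ∑ C ∈ CC, s := by rw [Finset.sum_const, smul_eq_mul, mul_comm]
      _ ≤ ∑ C ∈ CC, C.card := Finset.sum_le_sum hbig
      _ = (CC.biUnion id).card := by
          rw [Finset.card_biUnion]
          · rfl
          · intro C hC C' hC' hne
            exact hdis C hC C' hC' hne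
      _ ≤ V.card := by
          apply Finset.card_le_card
          intro x hx
          rw [Finset.mem_biUnion] at hx
          obtain ⟨C, hC, hx⟩ := hx
          obtain ⟨u, hu, rfl⟩ := hCCmem C hC
          exact ((hmem u x).1 hx).1
  have hinj : (fl V.powerset (fun A => ∀ u ∈ A, ∀ v ∈ V, conn Y u v → v ∈ A)).card ≤
      CC.powerset.card := by
    apply Finset.card_le_card_of_injOn (fun A => CC.filter (fun C => C ⊆ A))
    · intro A _
      rw [Finset.mem_coe, Finset.mem_powerset]
      exact Finset.filter_subset _ _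
    · intro A hA B hB hAB
      rw [Finset.mem_coe, mem_fl, Finset.mem_powerset] at hA hB
      simp only at hAB
      have key : ∀ A B : Finset (Vx d), (A ⊆ V ∧ ∀ u ∈ A, ∀ v ∈ V, conn Y u v → v ∈ A) →
          CC.filter (fun C => C ⊆ A) = CC.filter (fun C => C ⊆ B) → A ⊆ B := by
        intro A B hA hAB x hx
        have h1 : cl x ∈ CC.filter (fun C => C ⊆ A) := by
          rw [Finset.mem_filter]
          refine ⟨Finset.mem_image_of_mem _ (hA.1 hx), ?_⟩
          intro y hy
          rw [hmem] at hy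
          exact hA.2 x hx y hy.1 hy.2
        rw [hAB, Finset.mem_filter] at h1
        exact h1.2 (hself x (hA.1 hx))
      exact Finset.Subset.antisymm (key A B hA hAB) (key B A hB hAB.symm)
  rw [Finset.card_powerset] at hinj
  have hs0 : (0 : ℝ) < s := by exact_mod_cast hs
  calc ((fl V.powerset (fun A => ∀ u ∈ A, ∀ v ∈ V, conn Y u v → v ∈ A)).card : ℝ)
      ≤ ((2 ^ CC.card : ℕ) : ℝ) := by exact_mod_cast hinj
    _ = (2 : ℝ) ^ (CC.card : ℝ) := by rw [Real.rpow_natCast]; push_cast; rfl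
    _ ≤ (2 : ℝ) ^ ((V.card : ℝ) / s) := by
        apply Real.rpow_le_rpow_of_exponent_le (by norm_num)
        rw [le_div_iff₀ hs0]
        have : ((s * CC.card : ℕ) : ℝ) ≤ V.card := by exact_mod_cast hcount
        push_cast at this
        linarith

/-- Size of `V` when few vertices are exceptional: `∑_{w ∉ X} |nf V w| ≤ d |V|`. -/
theorem V_large {d : ℕ} (hd : 2 ≤ d) (κ : ℝ) (hκ : 0 ≤ κ) (lo hi : Vx d) (V : Finset (Vx d))
    (h : (d : ℝ) ^ 2 * (ex0 κ lo hi V).card ≤ (Finset.Icc lo hi).card) :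
    κ / 2 * (Finset.Icc lo hi).card ≤ V.card := by
  classical
  set I := Finset.Icc lo hi with hI
  set X := ex0 κ lo hi V with hX
  have hXI : X ⊆ I := by
    rw [hX]
    exact fl_subset _ _
  have h1 : ∑ w ∈ I, (nf V w).card ≤ V.card * d := by
    calc ∑ w ∈ I, (nf V w).card = (I.sigma (fun w => nf V w)).card := by
          rw [Finset.card_sigma]
      _ ≤ (V ×ˢ (Finset.univ : Finset (Fin d))).card := by
          apply Finset.card_le_card_of_injOn
            (fun p : (Σ _ : Vx d, Fin d) => (p.1 + uv p.2, p.2))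
          · intro p hp
            rw [Finset.mem_coe, Finset.mem_sigma] at hp
            unfold nf at hp
            rw [mem_fl] at hp
            rw [Finset.mem_coe, Finset.mem_product]
            exact ⟨hp.2.2, Finset.mem_univ _⟩
          · rintro ⟨x, i⟩ _ ⟨y, j⟩ _ hpq
            simp only [Prod.mk.injEq] at hpq
            obtain ⟨g1, g2⟩ := hpq
            subst g2
            rw [add_left_inj] at g1
            subst g1
            rfl
      _ = V.card * d := by rw [Finset.card_product, Finset.card_univ, Fintype.card_fin]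
  have h2 : κ * d * ((I \ X).card : ℝ) ≤ ∑ w ∈ I, ((nf V w).card : ℝ) := by
    calc κ * d * ((I \ X).card : ℝ) = ∑ w ∈ I \ X, κ * d := by
          rw [Finset.sum_const, nsmul_eq_mul, mul_comm]
      _ ≤ ∑ w ∈ I \ X, ((nf V w).card : ℝ) := by
          apply Finset.sum_le_sum
          intro w hw
          rw [Finset.mem_sdiff] at hw
          by_contra hlt
          push Not at hlt
          apply hw.2
          rw [hX]
          unfold ex0
          rw [mem_fl]
          exact ⟨hw.1, hlt⟩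
      _ ≤ ∑ w ∈ I, ((nf V w).card : ℝ) := by
          apply Finset.sum_le_sum_of_subset_of_nonneg Finset.sdiff_subset
          intro _ _ _
          exact Nat.cast_nonneg _
  have h3 : (∑ w ∈ I, ((nf V w).card : ℝ)) ≤ V.card * d := by exact_mod_cast h1
  have h4 : ((I \ X).card : ℝ) + X.card = I.card := by
    exact_mod_cast Finset.card_sdiff_add_card_eq_card hXI
  have hd2 : (2 : ℝ) ≤ d := by exact_mod_cast hd
  have h5 : 2 * (X.card : ℝ) ≤ I.card := by
    have h6 : 2 * (X.card : ℝ) ≤ (d : ℝ) ^ 2 * X.card := by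
      apply mul_le_mul_of_nonneg_right _ (Nat.cast_nonneg _)
      nlinarith
    linarith
  have h6 : (I.card : ℝ) / 2 ≤ (I \ X).card := by linarith
  have h7 : κ * d * ((I.card : ℝ) / 2) ≤ V.card * d :=
    (mul_le_mul_of_nonneg_left h6 (by positivity)).trans (h2.trans h3)
  have h8 : (κ / 2 * (I.card : ℝ)) * d ≤ V.card * d := by
    calc (κ / 2 * (I.card : ℝ)) * d = κ * d * ((I.card : ℝ) / 2) := by ring
      _ ≤ _ := h7
  exact le_of_mul_le_mul_right h8 (by linarith)

/-- Module MG (L). Merging. If `Gi` fails, `part` (with `t = α N`, `ω = Y ∪ ξ`) gives a set `A`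
closed under connection in `Y ∪ ξ`, hence in `Y`; for a fixed such `A`, `fam_all` and `EB_none`
bound the probability that `A` is closed under connection in `Y ∪ ξ` by
`(1 - q^3)^(α N/(1000 ℓ d)) ≤ exp (- c'^3 α N / (1000 ℓ d^7))`; the number of `A` is at most
`2^(N / d^8)`; `N ≥ d^10`. -/
theorem merge (κ α c' : ℝ) (ℓ : ℕ) (hκ : 0 < κ) (hα : 0 < α) (hα1 : α ≤ κ / 100)
    (hκ1 : κ ≤ 1) (hc' : 0 < c') (hℓ : 1 ≤ ℓ) :
    ∀ᶠ d : ℕ in atTop, ∀ (lo hi : Vx d) (F Y : Finset (Ed d)) (V : Finset (Vx d)) (q : ℝ),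
      (∀ i, hi i - lo i + 1 ≤ ℓ) → (d : ℝ) ^ 10 ≤ (Finset.Icc lo hi).card → F.card ≤ 1 →
      V ⊆ Finset.Icc lo hi →
      (∀ v ∈ V, ∃ T : Finset (Vx d), T ⊆ V ∧ d ^ 8 ≤ T.card ∧ ∀ u ∈ T, conn (↑Y) v u) →
      (d : ℝ) ^ 2 * (ex0 κ lo hi V).card ≤ (Finset.Icc lo hi).card →
      c' ≤ q * (d : ℝ) ^ 2 → q ≤ 1 →
      EB q (bx lo hi \ F) (fun ξ => ind (¬ Gi (α * (Finset.Icc lo hi).card) V (↑Y ∪ ↑ξ))) ≤
        Real.exp (- (d : ℝ) ^ 2) := by
  classical
  have hα1' : α ≤ 1 := by linarith
  have hK : ∀ᶠ d : ℕ in atTop, 2 ≤ d ∧ 2 * (1000 * (ℓ : ℝ)) / (c' ^ 3 * α) ≤ (d : ℝ) := by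
    refine (eventually_ge_atTop 2).and ?_
    exact (tendsto_natCast_atTop_atTop (R := ℝ)).eventually_ge_atTop _
  filter_upwards [fam_all κ α ℓ hκ hα hα1' hℓ, hK] with d hfam hdd
  obtain ⟨hd0, hdK⟩ := hdd
  intro lo hi F Y V q hside hN10 hF hV hT hX hq hq1
  have hd2 : (2 : ℝ) ≤ d := by exact_mod_cast hd0
  have hd1' : (0 : ℝ) < d := by linarith
  have hℓ1 : (1 : ℝ) ≤ ℓ := by exact_mod_cast hℓ
  have hℓ0 : (0 : ℝ) < ℓ := by linarith
  set N : ℝ := ((Finset.Icc lo hi).card : ℝ) with hNdef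
  have hNpos : 0 < N := lt_of_lt_of_le (by positivity) hN10
  have hq0 : 0 < q := by
    by_contra hneg
    push Not at hneg
    have : q * (d : ℝ) ^ 2 ≤ 0 := mul_nonpos_of_nonpos_of_nonneg hneg (by positivity)
    linarith
  let AA : Finset (Finset (Vx d)) :=
    (fl V.powerset (fun A => ∀ u ∈ A, ∀ v ∈ V, conn (Y : Set (Ed d)) u v → v ∈ A)).filter
      (fun A => α / 2 * N ≤ (A.card : ℝ) ∧ α / 2 * N ≤ ((V \ A).card : ℝ))
  have hAAmem : ∀ A, A ∈ AA ↔ (A ⊆ V ∧ ∀ u ∈ A, ∀ v ∈ V, conn (Y : Set (Ed d)) u v → v ∈ A) ∧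
      (α / 2 * N ≤ (A.card : ℝ) ∧ α / 2 * N ≤ ((V \ A).card : ℝ)) := by
    intro A
    simp only [AA, Finset.mem_filter, mem_fl, Finset.mem_powerset]
  have hJex : ∀ A : Finset (Vx d), ∃ J : Finset (Finset (Ed d)), A ∈ AA →
      (α * N / (1000 * ℓ * d) ≤ J.card ∧
      (∀ P ∈ J, P ⊆ bx lo hi \ F ∧ P.card ≤ 3 ∧ ∃ a ∈ A, ∃ a' ∈ V \ A, conn (↑P) a a') ∧
      ∀ P ∈ J, ∀ Q ∈ J, P ≠ Q → Disjoint P Q) := by
    intro A
    by_cases hA : A ∈ AA
    · have h1 := (hAAmem A).1 hA
      obtain ⟨J, hJ⟩ := hfam lo hi F V A hside hN10 hF hV h1.1.1 hX h1.2.1 h1.2.2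
      exact ⟨J, fun _ => hJ⟩
    · exact ⟨∅, fun h => absurd h hA⟩
  choose J hJ using hJex
  have hstep1 : EB q (bx lo hi \ F) (fun ξ => ind (¬ Gi (α * N) V (↑Y ∪ ↑ξ))) ≤
      EB q (bx lo hi \ F) (fun ξ => ∑ A ∈ AA, ind (∀ P ∈ J A, ¬ P ⊆ ξ)) := by
    apply EB_mono q hq0.le hq1
    intro ξ _
    by_cases hG : Gi (α * N) V (↑Y ∪ ↑ξ)
    · rw [ind_false (not_not.mpr hG)]
      exact Finset.sum_nonneg (fun A _ => ind_nonneg _)
    · rw [ind_true hG]
      have hVN : 3 / 2 * (α * N) ≤ V.card := by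
        have h1 := V_large hd0 κ hκ.le lo hi V hX
        have h2 : 3 / 2 * (α * N) ≤ κ / 2 * N := by
          have h3 : 3 / 2 * α ≤ κ / 2 := by linarith
          calc 3 / 2 * (α * N) = (3 / 2 * α) * N := by ring
            _ ≤ κ / 2 * N := mul_le_mul_of_nonneg_right h3 hNpos.le
        exact h2.trans h1
      obtain ⟨A, hA1, hA2, hA3, hA4⟩ := part (α * N) (by positivity) V _ hVN hG
      have hAin : A ∈ AA := by
        rw [hAAmem]
        refine ⟨⟨hA1, ?_⟩, ?_, ?_⟩
        · intro u hu v hv huv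
          exact hA2 u hu v hv (conn_mono Set.subset_union_left huv)
        · linarith
        · linarith
      have hone : ind (∀ P ∈ J A, ¬ P ⊆ ξ) = 1 := by
        apply ind_true
        intro P hP hPξ
        obtain ⟨-, -, a, ha, a', ha', hc⟩ := (hJ A hAin).2.1 P hP
        rw [Finset.mem_sdiff] at ha'
        apply ha'.2
        apply hA2 a ha a' ha'.1
        exact conn_mono (fun e he => Set.mem_union_right _ (hPξ he)) hc
      rw [← hone]
      exact Finset.single_le_sum (f := fun A => ind (∀ P ∈ J A, ¬ P ⊆ ξ))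
        (fun A _ => ind_nonneg _) hAin
  rw [EB_sum] at hstep1
  have hq3 : q ^ 3 ≤ 1 := pow_le_one₀ hq0.le hq1
  have hstep2 : ∀ A ∈ AA, EB q (bx lo hi \ F) (fun ξ => ind (∀ P ∈ J A, ¬ P ⊆ ξ)) ≤
      Real.exp (-(q ^ 3 * (α * N / (1000 * ℓ * d)))) := by
    intro A hA
    obtain ⟨h1, h2, h3⟩ := hJ A hA
    have h4 := EB_none q hq0.le hq1 (bx lo hi \ F) (J A) (fun P hP => (h2 P hP).1)
      (fun P hP => (h2 P hP).2.1) h3
    refine h4.trans ?_
    calc (1 - q ^ 3) ^ (J A).card ≤ (Real.exp (-(q ^ 3))) ^ (J A).card :=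
          pow_le_pow_left₀ (by linarith) (Real.one_sub_le_exp_neg _) _
      _ = Real.exp (-(q ^ 3 * (J A).card)) := by
          rw [← Real.exp_nat_mul]
          congr 1
          ring
      _ ≤ Real.exp (-(q ^ 3 * (α * N / (1000 * ℓ * d)))) := by
          apply Real.exp_le_exp.mpr
          apply neg_le_neg
          exact mul_le_mul_of_nonneg_left h1 (by positivity)
  have hcount : (AA.card : ℝ) ≤ Real.exp (N / (d : ℝ) ^ 8) := by
    have h1 := count_closed V (Y : Set (Ed d)) (d ^ 8) (Nat.one_le_pow _ _ (by omega)) hT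
    have h2 : (AA.card : ℝ) ≤
        ((fl V.powerset (fun A => ∀ u ∈ A, ∀ v ∈ V, conn (Y : Set (Ed d)) u v → v ∈ A)).card : ℝ) := by
      exact_mod_cast Finset.card_filter_le _ _
    refine h2.trans (h1.trans ?_)
    push_cast
    have h3 : (V.card : ℝ) ≤ N := by
      rw [hNdef]
      exact_mod_cast Finset.card_le_card hV
    calc (2 : ℝ) ^ ((V.card : ℝ) / (d : ℝ) ^ 8) ≤ (2 : ℝ) ^ (N / (d : ℝ) ^ 8) := by
          apply Real.rpow_le_rpow_of_exponent_le (by norm_num)
          exact div_le_div_of_nonneg_right h3 (by positivity)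
      _ ≤ (Real.exp 1) ^ (N / (d : ℝ) ^ 8) := by
          apply Real.rpow_le_rpow (by norm_num) _ (by positivity)
          linarith [Real.add_one_le_exp (1 : ℝ)]
      _ = Real.exp (N / (d : ℝ) ^ 8) := by
          rw [← Real.exp_mul, one_mul]
  have hexp : N / (d : ℝ) ^ 8 - q ^ 3 * (α * N / (1000 * ℓ * d)) ≤ -(d : ℝ) ^ 2 := by
    -- q^3 ≥ c'^3/d^6
    have h1 : c' ^ 3 ≤ q ^ 3 * (d : ℝ) ^ 6 := by
      calc c' ^ 3 ≤ (q * (d : ℝ) ^ 2) ^ 3 := pow_le_pow_left₀ hc'.le hq 3
        _ = q ^ 3 * (d : ℝ) ^ 6 := by ring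
    have h2 : 2 * (1000 * (ℓ : ℝ)) ≤ c' ^ 3 * α * d := by
      rw [div_le_iff₀ (by positivity)] at hdK
      linarith
    have h3 : 2 * (1000 * (ℓ : ℝ)) ≤ q ^ 3 * (d : ℝ) ^ 6 * α * d := by
      refine h2.trans ?_
      apply mul_le_mul_of_nonneg_right _ hd1'.le
      exact mul_le_mul_of_nonneg_right h1 hα.le
    have h4 : 2 * (N / (d : ℝ) ^ 8) ≤ q ^ 3 * (α * N / (1000 * ℓ * d)) := by
      have e1 : 2 * (N / (d : ℝ) ^ 8) = (2 * (1000 * (ℓ : ℝ))) * (N / (1000 * ℓ * (d : ℝ) ^ 8)) := by
        field_simp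
      have e2 : q ^ 3 * (α * N / (1000 * ℓ * d)) =
          (q ^ 3 * (d : ℝ) ^ 6 * α * d) * (N / (1000 * ℓ * (d : ℝ) ^ 8)) := by
        field_simp
      rw [e1, e2]
      exact mul_le_mul_of_nonneg_right h3 (by positivity)
    have h5 : (d : ℝ) ^ 2 ≤ N / (d : ℝ) ^ 8 := by
      rw [le_div_iff₀ (by positivity)]
      calc (d : ℝ) ^ 2 * (d : ℝ) ^ 8 = (d : ℝ) ^ 10 := by ring
        _ ≤ N := hN10
    linarith
  calc EB q (bx lo hi \ F) (fun ξ => ind (¬ Gi (α * N) V (↑Y ∪ ↑ξ)))
      ≤ ∑ A ∈ AA, EB q (bx lo hi \ F) (fun ξ => ind (∀ P ∈ J A, ¬ P ⊆ ξ)) := hstep1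
    _ ≤ ∑ A ∈ AA, Real.exp (-(q ^ 3 * (α * N / (1000 * ℓ * d)))) := Finset.sum_le_sum hstep2
    _ = AA.card * Real.exp (-(q ^ 3 * (α * N / (1000 * ℓ * d)))) := by
        rw [Finset.sum_const, nsmul_eq_mul]
    _ ≤ Real.exp (N / (d : ℝ) ^ 8) * Real.exp (-(q ^ 3 * (α * N / (1000 * ℓ * d)))) :=
        mul_le_mul_of_nonneg_right hcount (Real.exp_pos _).le
    _ = Real.exp (N / (d : ℝ) ^ 8 - q ^ 3 * (α * N / (1000 * ℓ * d))) := by
        rw [← Real.exp_add]; rfl
    _ ≤ Real.exp (- (d : ℝ) ^ 2) := Real.exp_le_exp.mpr hexp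

end Pool.Agent.SRC
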