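import Pool.Agent.SRC.Bern

/-! Paths whose steps use distinct coordinates; pairs of such paths. Modules PA - PH.
A step is `(i, b)`: it adds `e_i` (`b = true`) or `- e_i`. -/

set_option autoImplicit false

namespace Pool.Agent.SRC

open Finset

abbrev Stp (d : ℕ) := Fin d × Bool

/-- Displacement of a step. -/
def sv {d : ℕ} (s : Stp d) : Vx d := if s.2 then uv s.1 else - uv s.1

/-- Edge used by a step from `y`. -/
def ed1 {d : ℕ} (y : Vx d) (s : Stp d) : Ed d := if s.2 then (y, s.1) else (y - uv s.1, s.1)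

/-- End of the path from `y` with given steps. -/
def en {d : ℕ} : Vx d → List (Stp d) → Vx d
  | y, [] => y
  | y, s :: l => en (y + sv s) l

/-- Edges of the path from `y` with given steps. -/
def pe {d : ℕ} : Vx d → List (Stp d) → Finset (Ed d)
  | _, [] => ∅
  | y, s :: l => insert (ed1 y s) (pe (y + sv s) l)

/-- Lists of `t` steps with distinct coordinates in `I`. -/
def PL {d : ℕ} : ℕ → Finset (Fin d) → Finset (List (Stp d))
  | 0, _ => {[]}
  | t + 1, I => (I ×ˢ (Finset.univ : Finset Bool)).biUnion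
      (fun s => (PL t (I.erase s.1)).image (fun l => s :: l))

/-- The paths `l` and `l'` are at the same vertex after `k` steps. -/
def mt {d : ℕ} (l l' : List (Stp d)) (k : ℕ) : Prop := en 0 (l.take k) = en 0 (l'.take k)

instance {d : ℕ} (l l' : List (Stp d)) (k : ℕ) : Decidable (mt l l' k) := by
  unfold mt; infer_instance

/-- Number of common edges among the first `k` steps. -/
def sh {d : ℕ} (l l' : List (Stp d)) (k : ℕ) : ℕ :=
  ((Finset.range k).filter (fun j => mt l l' j ∧ mt l l' (j + 1))).card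

/-- Number of separations among the first `k` steps. -/
def dv {d : ℕ} (l l' : List (Stp d)) (k : ℕ) : ℕ :=
  ((Finset.range k).filter (fun j => mt l l' j ∧ ¬ mt l l' (j + 1))).card

/-! ### Module PA (M): basics. -/

theorem mem_PL {d : ℕ} (t : ℕ) (I : Finset (Fin d)) (l : List (Stp d)) :
    l ∈ PL t I ↔ l.length = t ∧ (l.map Prod.fst).Nodup ∧ ∀ s ∈ l, s.1 ∈ I := by
  induction t generalizing I l with
  | zero =>
    rw [PL, Finset.mem_singleton]
    constructor
    · rintro rfl
      simp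
    · rintro ⟨h, -⟩
      exact List.length_eq_zero_iff.1 h
  | succ t ih =>
    rw [PL]
    simp only [Finset.mem_biUnion, Finset.mem_product, Finset.mem_univ, and_true,
      Finset.mem_image]
    constructor
    · rintro ⟨s, hs, l0, hl0, rfl⟩
      obtain ⟨h1, h2, h3⟩ := (ih _ _).1 hl0
      refine ⟨by rw [List.length_cons, h1], ?_, ?_⟩
      · rw [List.map_cons, List.nodup_cons]
        refine ⟨?_, h2⟩
        intro hm
        obtain ⟨s', hs', he⟩ := List.mem_map.1 hm
        exact (Finset.mem_erase.1 (h3 s' hs')).1 he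
      · intro s' hs'
        rcases List.mem_cons.1 hs' with rfl | hs'
        · exact hs
        · exact (Finset.mem_erase.1 (h3 s' hs')).2
    · rintro ⟨h1, h2, h3⟩
      cases l with
      | nil => simp at h1
      | cons s l0 =>
        rw [List.map_cons, List.nodup_cons] at h2
        refine ⟨s, h3 s (by simp), l0, (ih _ _).2 ⟨by simpa using h1, h2.2, ?_⟩, rfl⟩
        intro s' hs'
        refine Finset.mem_erase.2 ⟨?_, h3 s' (by simp [hs'])⟩
        intro he
        exact h2.1 (List.mem_map.2 ⟨s', hs', he⟩)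

theorem en_eq {d : ℕ} (y : Vx d) (l : List (Stp d)) : en y l = y + (l.map sv).sum := by
  induction l generalizing y with
  | nil => simp [en]
  | cons s l ih => rw [en, ih, List.map_cons, List.sum_cons, add_assoc]

theorem pe_append {d : ℕ} (y : Vx d) (l l' : List (Stp d)) :
    pe y (l ++ l') = pe y l ∪ pe (en y l) l' := by
  induction l generalizing y with
  | nil => simp [pe, en]
  | cons s l ih => rw [List.cons_append, pe, pe, en, ih, Finset.insert_union]

/-- the ends of the edge of a step -/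
private theorem PA_ed1 {d : ℕ} (y : Vx d) (s : Stp d) :
    ((ed1 y s).1 = y ∧ tip (ed1 y s) = y + sv s) ∨
      ((ed1 y s).1 = y + sv s ∧ tip (ed1 y s) = y) := by
  unfold ed1 sv tip
  cases hs : s.2
  · right
    simp [sub_eq_add_neg]
  · left
    simp

private theorem PA_dir {d : ℕ} (y : Vx d) (s : Stp d) : (ed1 y s).2 = s.1 := by
  unfold ed1
  cases hs : s.2 <;> simp

private theorem PA_adj {d : ℕ} (y : Vx d) (s : Stp d) (ω : Set (Ed d)) (h : ed1 y s ∈ ω) :
    adj ω y (y + sv s) := by
  refine ⟨(ed1 y s).2, ?_⟩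
  rcases PA_ed1 y s with ⟨h1, h2⟩ | ⟨h1, h2⟩
  · left
    refine ⟨?_, ?_⟩
    · have h3 : (y, (ed1 y s).2) = ed1 y s := Prod.ext h1.symm rfl
      rw [h3]
      exact h
    · rw [← h2]
      unfold tip
      rw [h1]
  · right
    refine ⟨?_, ?_⟩
    · have h3 : (y + sv s, (ed1 y s).2) = ed1 y s := Prod.ext h1.symm rfl
      rw [h3]
      exact h
    · conv_lhs => rw [← h2]
      unfold tip
      rw [h1]

/-- the directions of the edges of a path -/
private theorem PA_mem_dir {d : ℕ} (y : Vx d) (l : List (Stp d)) (e : Ed d) (he : e ∈ pe y l) :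
    e.2 ∈ l.map Prod.fst := by
  induction l generalizing y with
  | nil => simp [pe] at he
  | cons s l ih =>
    rw [pe, Finset.mem_insert] at he
    rw [List.map_cons, List.mem_cons]
    rcases he with rfl | he
    · exact Or.inl (PA_dir y s)
    · exact Or.inr (ih _ he)

private theorem PA_add_self {d : ℕ} (A : Vx d → ZMod 2) : A + A = 0 := by
  funext v
  exact CharTwo.add_self_eq_zero (A v)

private theorem PA_pt_comm {d : ℕ} (u v : Vx d) : pt u v = pt v u := add_comm _ _

private theorem PA_pt_add {d : ℕ} (u v w : Vx d) : pt u v + pt v w = pt u w := by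
  have h : ∀ A B C : Vx d → ZMod 2, (A + B) + (B + C) = A + C := fun A B C => by
    rw [add_assoc, ← add_assoc B B C, PA_add_self, zero_add]
  exact h _ _ _

private theorem PA_pt_self {d : ℕ} (u : Vx d) : pt u u = 0 := PA_add_self _

private theorem PA_bde {d : ℕ} (y : Vx d) (s : Stp d) : bde (ed1 y s) = pt y (y + sv s) := by
  unfold bde
  rcases PA_ed1 y s with ⟨h1, h2⟩ | ⟨h1, h2⟩
  · rw [h1, h2]
    rfl
  · rw [h1, h2]
    exact PA_pt_comm _ _

private theorem PA_notMem {d : ℕ} (y z : Vx d) (s : Stp d) (l : List (Stp d))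
    (h : s.1 ∉ l.map Prod.fst) : ed1 y s ∉ pe z l := fun he =>
  h (by rw [← PA_dir y s]; exact PA_mem_dir z l _ he)

/-- the coordinates of a displacement -/
private theorem PA_coord {d : ℕ} (l : List (Stp d)) (hl : (l.map Prod.fst).Nodup) (i : Fin d) :
    (i ∉ l.map Prod.fst → (l.map sv).sum i = 0) ∧
      ∀ s ∈ l, s.1 = i → (l.map sv).sum i = sv s i := by
  induction l with
  | nil => simp
  | cons s l ih =>
    rw [List.map_cons, List.nodup_cons] at hl
    obtain ⟨h1, h2⟩ := ih hl.2
    constructor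
    · intro hi
      rw [List.map_cons, List.mem_cons, not_or] at hi
      rw [List.map_cons, List.sum_cons, Pi.add_apply, h1 hi.2, add_zero]
      unfold sv uv
      cases hs : s.2
      · simp [hi.1]
      · simp [hi.1]
    · intro s' hs' hi
      rw [List.map_cons, List.sum_cons, Pi.add_apply]
      rcases List.mem_cons.1 hs' with rfl | hs'
      · rw [h1 (by rw [← hi]; exact hl.1), add_zero]
      · rw [h2 s' hs' hi]
        have h3 : i ≠ s.1 := by
          rintro rfl
          exact hl.1 (List.mem_map.2 ⟨s', hs', hi⟩)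
        have h4 : sv s i = 0 := by
          unfold sv uv
          cases hs : s.2
          · simp [h3]
          · simp [h3]
        rw [h4, zero_add]

private theorem PA_sv_self {d : ℕ} (s : Stp d) : sv s s.1 = if s.2 then 1 else -1 := by
  unfold sv uv
  cases hs : s.2 <;> simp

private theorem PA_abs {d : ℕ} (l : List (Stp d)) (hl : (l.map Prod.fst).Nodup) (i : Fin d) :
    |(l.map sv).sum i| ≤ 1 := by
  obtain ⟨h1, h2⟩ := PA_coord l hl i
  by_cases hi : i ∈ l.map Prod.fst
  · obtain ⟨s, hs, rfl⟩ := List.mem_map.1 hi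
    rw [h2 s hs rfl, PA_sv_self]
    cases s.2 <;> simp
  · rw [h1 hi]
    simp

private theorem PA_nodup_take {d : ℕ} (l : List (Stp d)) (hl : (l.map Prod.fst).Nodup) (k : ℕ) :
    ((l.take k).map Prod.fst).Nodup := by
  rw [List.map_take]
  exact hl.sublist (List.take_sublist _ _)

theorem conn_pe {d : ℕ} (y : Vx d) (l : List (Stp d)) (ω : Set (Ed d)) (h : ↑(pe y l) ⊆ ω) :
    conn ω y (en y l) := by
  induction l generalizing y with
  | nil => exact conn_refl _ _
  | cons s l ih =>
    rw [pe, Finset.coe_insert] at h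
    exact Relation.ReflTransGen.head (PA_adj y s ω (h (Set.mem_insert _ _)))
      (ih (y + sv s) fun e he => h (Set.mem_insert_of_mem _ he))

theorem bd_pe {d : ℕ} (t : ℕ) (I : Finset (Fin d)) (y : Vx d) (l : List (Stp d))
    (hl : l ∈ PL t I) : bd (pe y l) = pt y (en y l) := by
  obtain ⟨-, hn, -⟩ := (mem_PL t I l).1 hl
  clear hl
  induction l generalizing y with
  | nil =>
    show bd ∅ = pt y y
    rw [PA_pt_self]
    rfl
  | cons s l ih =>
    rw [List.map_cons, List.nodup_cons] at hn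
    have h1 := ih (y + sv s) hn.2
    rw [pe, en]
    unfold bd at h1 ⊢
    rw [Finset.sum_insert (PA_notMem y (y + sv s) s l hn.1), h1, PA_bde, PA_pt_add]

/-- Vertices differing from `y` by at most one, in coordinates of `S` only. -/
def near {d : ℕ} (y : Vx d) (S : Finset (Fin d)) : Set (Vx d) :=
  {v | (∀ i ∈ S, |v i - y i| ≤ 1) ∧ ∀ i, i ∉ S → v i = y i}

/-- Coordinates used by a list of steps. -/
def co {d : ℕ} (l : List (Stp d)) : Finset (Fin d) := (l.map Prod.fst).toFinset

theorem en_near {d : ℕ} (t : ℕ) (I S : Finset (Fin d)) (y : Vx d) (l : List (Stp d))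
    (hl : l ∈ PL t I) (hS : co l ⊆ S) (k : ℕ) : en y (l.take k) ∈ near y S := by
  obtain ⟨-, hn, -⟩ := (mem_PL t I l).1 hl
  have hn' := PA_nodup_take l hn k
  refine ⟨fun i _ => ?_, fun i hi => ?_⟩
  · rw [en_eq, Pi.add_apply, add_sub_cancel_left]
    exact PA_abs _ hn' i
  · rw [en_eq, Pi.add_apply, (PA_coord _ hn' i).1, add_zero]
    intro h
    rw [List.map_take] at h
    exact hi (hS (List.mem_toFinset.2 (List.mem_of_mem_take h)))

private theorem PA_take_succ {d : ℕ} (y : Vx d) (l : List (Stp d)) (k : ℕ) (hk : k < l.length) :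
    pe y (l.take (k + 1)) = insert (ed1 (en y (l.take k)) l[k]) (pe y (l.take k)) ∧
      en y (l.take (k + 1)) = en y (l.take k) + sv l[k] := by
  rw [List.take_succ_eq_append_getElem hk]
  constructor
  · rw [pe_append]
    show _ ∪ insert _ ∅ = _
    rw [Finset.union_insert, Finset.union_empty]
  · rw [en_eq, en_eq, List.map_append, List.sum_append, add_assoc]
    simp

private theorem PA_pe_ex {d : ℕ} (y : Vx d) (l : List (Stp d)) (k : ℕ) (hk : k ≤ l.length)
    (e : Ed d) (he : e ∈ pe y (l.take k)) : ∃ j < k,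
      (e.1 = en y (l.take j) ∧ tip e = en y (l.take (j + 1))) ∨
      (e.1 = en y (l.take (j + 1)) ∧ tip e = en y (l.take j)) := by
  induction k with
  | zero => simp [pe] at he
  | succ k ih =>
    obtain ⟨h1, h2⟩ := PA_take_succ y l k hk
    rw [h1, Finset.mem_insert] at he
    rcases he with rfl | he
    · refine ⟨k, Nat.lt_succ_self k, ?_⟩
      rw [h2]
      exact PA_ed1 _ _
    · obtain ⟨j, hj, h3⟩ := ih (Nat.le_of_succ_le hk) he
      exact ⟨j, Nat.lt_succ_of_lt hj, h3⟩

theorem pe_near {d : ℕ} (t : ℕ) (I S : Finset (Fin d)) (y : Vx d) (l : List (Stp d))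
    (hl : l ∈ PL t I) (hS : co l ⊆ S) : ∀ e ∈ pe y l, e.1 ∈ near y S ∧ tip e ∈ near y S := by
  intro e he
  have h1 := en_near t I S y l hl hS
  rw [← List.take_length (l := l)] at he
  obtain ⟨j, -, h2⟩ := PA_pe_ex y l l.length le_rfl e he
  rcases h2 with ⟨h2, h3⟩ | ⟨h2, h3⟩
  · rw [h2, h3]
    exact ⟨h1 j, h1 (j + 1)⟩
  · rw [h2, h3]
    exact ⟨h1 (j + 1), h1 j⟩

theorem near_bx {d : ℕ} (lo hi y : Vx d) (hy : y ∈ Finset.Icc lo hi) (r : ℤ) (hr : 1 ≤ r)
    (S : Finset (Fin d)) (hS : S ⊆ marg lo hi r y) (v : Vx d) (hv : v ∈ near y S) :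
    v ∈ Finset.Icc lo hi := by
  rw [Finset.mem_Icc] at hy ⊢
  have h1 : ∀ i, lo i ≤ v i ∧ v i ≤ hi i := by
    intro i
    by_cases hi' : i ∈ S
    · have h2 := (mem_marg lo hi r y i).1 (hS hi')
      have h3 := abs_le.1 (hv.1 i hi')
      omega
    · rw [hv.2 i hi']
      exact ⟨hy.1 i, hy.2 i⟩
  exact ⟨fun i => (h1 i).1, fun i => (h1 i).2⟩

/-! ### Module PB (M): number of edges of a path and of the union of two.
The `j`-th edge joins vertices at `ℓ¹`-distance `j` and `j + 1` from `y`, so an edge common to the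
two paths is used by both at the same time `j`, and this happens iff they meet at `j` and
`j + 1`. -/

theorem card_pe {d : ℕ} (t : ℕ) (I : Finset (Fin d)) (y : Vx d) (l : List (Stp d))
    (hl : l ∈ PL t I) : (pe y l).card = t := by
  obtain ⟨h1, hn, -⟩ := (mem_PL t I l).1 hl
  rw [← h1]
  clear hl h1
  induction l generalizing y with
  | nil => rfl
  | cons s l ih =>
    rw [List.map_cons, List.nodup_cons] at hn
    rw [pe, Finset.card_insert_of_notMem (PA_notMem y (y + sv s) s l hn.1), ih _ hn.2,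
      List.length_cons]

/-- the norm -/
private def PB_N {d : ℕ} (v : Vx d) : ℤ := ∑ i, |v i|

private theorem PB_N_sum {d : ℕ} (l : List (Stp d)) (hl : (l.map Prod.fst).Nodup) :
    PB_N (l.map sv).sum = l.length := by
  induction l with
  | nil => simp [PB_N]
  | cons s l ih =>
    rw [List.map_cons, List.nodup_cons] at hl
    have h1 := ih hl.2
    have h2 : ∀ i, |(sv s + (l.map sv).sum) i| = |sv s i| + |(l.map sv).sum i| := by
      intro i
      rw [Pi.add_apply]
      by_cases hi : i = s.1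
      · rw [(PA_coord l hl.2 i).1 (by rw [hi]; exact hl.1)]
        simp
      · have h4 : sv s i = 0 := by
          unfold sv uv
          cases hs : s.2
          · simp [hi]
          · simp [hi]
        rw [h4]
        simp
    unfold PB_N at h1 ⊢
    rw [List.map_cons, List.sum_cons, Finset.sum_congr rfl fun i _ => h2 i,
      Finset.sum_add_distrib, h1, List.length_cons]
    have h3 : ∑ i, |sv s i| = 1 := by
      rw [Finset.sum_eq_single s.1]
      · rw [PA_sv_self]
        cases s.2 <;> simp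
      · intro i _ hi
        unfold sv uv
        cases hs : s.2
        · simp [hi]
        · simp [hi]
      · intro h
        exact absurd (Finset.mem_univ _) h
    rw [h3]
    push_cast
    ring

private theorem PB_N_en {d : ℕ} (y : Vx d) (l : List (Stp d)) (hl : (l.map Prod.fst).Nodup)
    (k : ℕ) (hk : k ≤ l.length) : PB_N (en y (l.take k) - y) = k := by
  rw [en_eq, add_sub_cancel_left, PB_N_sum _ (PA_nodup_take l hl k), List.length_take,
    min_eq_left hk]

/-- the level of an edge -/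
private def PB_lev {d : ℕ} (y : Vx d) (e : Ed d) : ℤ := PB_N (e.1 - y) + PB_N (tip e - y)

private theorem PB_lev_lt {d : ℕ} (y : Vx d) (l : List (Stp d)) (hl : (l.map Prod.fst).Nodup)
    (k : ℕ) (hk : k ≤ l.length) (e : Ed d) (he : e ∈ pe y (l.take k)) :
    PB_lev y e < 2 * k := by
  obtain ⟨j, hj, h⟩ := PA_pe_ex y l k hk e he
  have h1 := PB_N_en y l hl j (by omega)
  have h2 := PB_N_en y l hl (j + 1) (by omega)
  unfold PB_lev
  rcases h with ⟨h3, h4⟩ | ⟨h3, h4⟩
  · rw [h3, h4, h1, h2]
    push_cast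
    omega
  · rw [h3, h4, h1, h2]
    push_cast
    omega

private theorem PB_lev_ed {d : ℕ} (y : Vx d) (l : List (Stp d)) (hl : (l.map Prod.fst).Nodup)
    (k : ℕ) (hk : k < l.length) :
    PB_lev y (ed1 (en y (l.take k)) l[k]) = 2 * k + 1 := by
  have h1 := PB_N_en y l hl k (by omega)
  have h2 := PB_N_en y l hl (k + 1) (by omega)
  rw [(PA_take_succ y l k hk).2] at h2
  unfold PB_lev
  rcases PA_ed1 (en y (l.take k)) l[k] with ⟨h3, h4⟩ | ⟨h3, h4⟩
  · rw [h3, h4, h1, h2]
    push_cast
    omega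
  · rw [h3, h4, h1, h2]
    push_cast
    omega

private theorem PB_mt {d : ℕ} (y : Vx d) (l l' : List (Stp d)) (k : ℕ) :
    mt l l' k ↔ en y (l.take k) = en y (l'.take k) := by
  unfold mt
  rw [en_eq 0, en_eq 0, en_eq y, en_eq y, zero_add, zero_add, add_right_inj]

private theorem PB_sv_inj {d : ℕ} (s s' : Stp d) (h : sv s = sv s') : s = s' := by
  have h1 := congrFun h s.1
  rw [PA_sv_self] at h1
  have h2 : s.1 = s'.1 := by
    by_contra h3
    have h4 : sv s' s.1 = 0 := by
      unfold sv uv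
      cases hs : s'.2
      · simp [h3]
      · simp [h3]
    rw [h4] at h1
    revert h1
    cases s.2 <;> simp
  have h3 : sv s' s.1 = if s'.2 then 1 else -1 := by rw [h2, PA_sv_self]
  rw [h3] at h1
  refine Prod.ext h2 ?_
  revert h1
  cases s.2 <;> cases s'.2 <;> simp

private theorem PB_ed_eq {d : ℕ} (y : Vx d) (l l' : List (Stp d)) (hl : (l.map Prod.fst).Nodup)
    (hl' : (l'.map Prod.fst).Nodup) (k : ℕ) (hk : k < l.length) (hk' : k < l'.length) :
    ed1 (en y (l.take k)) l[k] = ed1 (en y (l'.take k)) l'[k] ↔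
      mt l l' k ∧ mt l l' (k + 1) := by
  rw [PB_mt y, PB_mt y]
  obtain ⟨-, h1⟩ := PA_take_succ y l k hk
  obtain ⟨-, h1'⟩ := PA_take_succ y l' k hk'
  have h2 := PB_N_en y l hl k (by omega)
  have h3 := PB_N_en y l hl (k + 1) (by omega)
  have h2' := PB_N_en y l' hl' k (by omega)
  have h3' := PB_N_en y l' hl' (k + 1) (by omega)
  constructor
  · intro h
    have h4 := PA_ed1 (en y (l.take k)) l[k]
    have h5 := PA_ed1 (en y (l'.take k)) l'[k]
    rw [h, ← h1] at h4
    rw [← h1'] at h5
    rcases h4 with ⟨h4, h6⟩ | ⟨h4, h6⟩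
    · rcases h5 with ⟨h5, h7⟩ | ⟨h5, h7⟩
      · exact ⟨h4.symm.trans h5, h6.symm.trans h7⟩
      · exfalso
        rw [← h4, h5, h3'] at h2
        push_cast at h2
        omega
    · rcases h5 with ⟨h5, h7⟩ | ⟨h5, h7⟩
      · exfalso
        rw [← h4, h5, h2'] at h3
        push_cast at h3
        omega
      · exact ⟨h6.symm.trans h7, h4.symm.trans h5⟩
  · rintro ⟨h4, h5⟩
    rw [h1, h1', h4, add_right_inj] at h5
    rw [h4, PB_sv_inj _ _ h5]

/-- the union of the beginnings of two paths -/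
private def PB_B {d : ℕ} (y : Vx d) (l l' : List (Stp d)) (k : ℕ) : Finset (Ed d) :=
  pe y (l.take k) ∪ pe y (l'.take k)

private theorem PB_B_succ {d : ℕ} (y : Vx d) (l l' : List (Stp d))
    (hl : (l.map Prod.fst).Nodup) (hl' : (l'.map Prod.fst).Nodup) (k : ℕ) (hk : k < l.length)
    (hk' : k < l'.length) :
    PB_B y l l' (k + 1) = insert (ed1 (en y (l.take k)) l[k])
      (insert (ed1 (en y (l'.take k)) l'[k]) (PB_B y l l' k)) ∧
    ed1 (en y (l.take k)) l[k] ∉ PB_B y l l' k ∧
    ed1 (en y (l'.take k)) l'[k] ∉ PB_B y l l' k := by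
  have h0 : ∀ e ∈ PB_B y l l' k, PB_lev y e < 2 * k := by
    intro e he
    rcases Finset.mem_union.1 he with he | he
    · exact PB_lev_lt y l hl k (by omega) e he
    · exact PB_lev_lt y l' hl' k (by omega) e he
  refine ⟨?_, ?_, ?_⟩
  · unfold PB_B
    rw [(PA_take_succ y l k hk).1, (PA_take_succ y l' k hk').1, Finset.insert_union,
      Finset.union_insert]
  · intro h
    have h1 := h0 _ h
    rw [PB_lev_ed y l hl k hk] at h1
    omega
  · intro h
    have h1 := h0 _ h
    rw [PB_lev_ed y l' hl' k hk'] at h1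
    omega

private theorem PB_sh_succ {d : ℕ} (l l' : List (Stp d)) (k : ℕ) :
    sh l l' (k + 1) = sh l l' k + if mt l l' k ∧ mt l l' (k + 1) then 1 else 0 := by
  unfold sh
  rw [Finset.range_add_one, Finset.filter_insert]
  split_ifs with h
  · rw [Finset.card_insert_of_notMem]
    intro h1
    exact absurd (Finset.mem_range.1 (Finset.mem_filter.1 h1).1) (lt_irrefl k)
  · rfl

private theorem PB_dv_succ {d : ℕ} (l l' : List (Stp d)) (k : ℕ) :
    dv l l' (k + 1) = dv l l' k + if mt l l' k ∧ ¬ mt l l' (k + 1) then 1 else 0 := by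
  unfold dv
  rw [Finset.range_add_one, Finset.filter_insert]
  split_ifs with h
  · rw [Finset.card_insert_of_notMem]
    intro h1
    exact absurd (Finset.mem_range.1 (Finset.mem_filter.1 h1).1) (lt_irrefl k)
  · rfl

private theorem PB_card {d : ℕ} (y : Vx d) (l l' : List (Stp d))
    (hl : (l.map Prod.fst).Nodup) (hl' : (l'.map Prod.fst).Nodup) (k : ℕ) (hk : k ≤ l.length)
    (hk' : k ≤ l'.length) : (PB_B y l l' k).card + sh l l' k = 2 * k := by
  induction k with
  | zero => simp [PB_B, pe, sh]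
  | succ k ih =>
    have h0 := ih (by omega) (by omega)
    obtain ⟨h1, h2, h3⟩ := PB_B_succ y l l' hl hl' k hk hk'
    have h4 := PB_ed_eq y l l' hl hl' k hk hk'
    rw [h1, PB_sh_succ]
    by_cases h5 : mt l l' k ∧ mt l l' (k + 1)
    · rw [if_pos h5, h4.2 h5, Finset.insert_idem, Finset.card_insert_of_notMem h3]
      omega
    · have h6 : ed1 (en y (l.take k)) l[k] ∉
          insert (ed1 (en y (l'.take k)) l'[k]) (PB_B y l l' k) := by
        rw [Finset.mem_insert, not_or]
        exact ⟨fun h => h5 (h4.1 h), h2⟩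
      rw [if_neg h5, Finset.card_insert_of_notMem h6, Finset.card_insert_of_notMem h3]
      omega

theorem card_pe_union {d : ℕ} (t : ℕ) (I : Finset (Fin d)) (y : Vx d) (l l' : List (Stp d))
    (hl : l ∈ PL t I) (hl' : l' ∈ PL t I) :
    (pe y l ∪ pe y l').card + sh l l' t = 2 * t := by
  obtain ⟨h1, hn, -⟩ := (mem_PL t I l).1 hl
  obtain ⟨h1', hn', -⟩ := (mem_PL t I l').1 hl'
  have h2 := PB_card y l l' hn hn' t h1.ge h1'.ge
  unfold PB_B at h2
  rwa [List.take_of_length_le h1.le, List.take_of_length_le h1'.le] at h2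

/-! ### Module PC (M): parity boundary of the union of two paths.
Induction on `k ≤ t` for the union `B_k` of the first `k` edges of each (positions `P_k, P'_k`):
there is `a` in `V` such that, if the paths meet at `k`, `bd B_k = A + pt a P_k` with
`PS V (dv l l' k) A`, and otherwise `bd B_k = A + pt P_k P'_k` with `PS V (dv l l' k) A`.
(Common step: `pt a P_k + pt P_k P_{k+1} = pt a P_{k+1}`. Separation at `k`: `+ pt P_{k+1}
P'_{k+1}`, and `pt a P_k` becomes one more pair. New meeting: `pt P P = 0 = pt a a`.) -/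

theorem PS_union {d : ℕ} (t : ℕ) (I : Finset (Fin d)) (y : Vx d) (l l' : List (Stp d))
    (hl : l ∈ PL t I) (hl' : l' ∈ PL t I) (V : Set (Vx d))
    (hV : ∀ k ≤ t, en y (l.take k) ∈ V ∧ en y (l'.take k) ∈ V) :
    PS V (dv l l' t + 1) (bd (pe y l ∪ pe y l')) := by
  obtain ⟨h1, hn, -⟩ := (mem_PL t I l).1 hl
  obtain ⟨h1', hn', -⟩ := (mem_PL t I l').1 hl'
  have key : ∀ k ≤ t, ∃ A : Vx d → ZMod 2, PS V (dv l l' k) A ∧
      ((mt l l' k → ∃ a ∈ V, bd (PB_B y l l' k) = A + pt a (en y (l.take k))) ∧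
        (¬ mt l l' k → bd (PB_B y l l' k) = A + pt (en y (l.take k)) (en y (l'.take k)))) := by
    intro k
    induction k with
    | zero =>
      intro _
      refine ⟨0, PS.zero, fun _ => ⟨y, (hV 0 (Nat.zero_le t)).1, ?_⟩, fun h => absurd rfl h⟩
      show bd ∅ = 0 + pt y y
      rw [PA_pt_self, add_zero]
      rfl
    | succ k ih =>
      intro hk
      obtain ⟨A, hA, hA1, hA2⟩ := ih (by omega)
      have hkl : k < l.length := by omega
      have hkl' : k < l'.length := by omega
      obtain ⟨e1, e2, e3⟩ := PB_B_succ y l l' hn hn' k hkl hkl'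
      have e4 := PB_ed_eq y l l' hn hn' k hkl hkl'
      have e5 := (PA_take_succ y l k hkl).2
      have e6 := (PA_take_succ y l' k hkl').2
      have b1 : bde (ed1 (en y (l.take k)) l[k]) =
          pt (en y (l.take k)) (en y (l.take (k + 1))) := by rw [PA_bde, e5]
      have b2 : bde (ed1 (en y (l'.take k)) l'[k]) =
          pt (en y (l'.take k)) (en y (l'.take (k + 1))) := by rw [PA_bde, e6]
      -- the boundary if the edges are equal, different
      have c1 : mt l l' k ∧ mt l l' (k + 1) → bd (PB_B y l l' (k + 1)) =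
          pt (en y (l.take k)) (en y (l.take (k + 1))) + bd (PB_B y l l' k) := by
        intro h
        rw [e1, e4.2 h, Finset.insert_idem]
        unfold bd
        rw [Finset.sum_insert e3, ← e4.2 h, b1]
      have c2 : ¬ (mt l l' k ∧ mt l l' (k + 1)) → bd (PB_B y l l' (k + 1)) =
          pt (en y (l.take k)) (en y (l.take (k + 1))) +
            (pt (en y (l'.take k)) (en y (l'.take (k + 1))) + bd (PB_B y l l' k)) := by
        intro h
        have h6 : ed1 (en y (l.take k)) l[k] ∉
            insert (ed1 (en y (l'.take k)) l'[k]) (PB_B y l l' k) := by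
          rw [Finset.mem_insert, not_or]
          exact ⟨fun h' => h (e4.1 h'), e2⟩
        rw [e1]
        unfold bd
        rw [Finset.sum_insert h6, Finset.sum_insert e3, b1, b2]
      rw [PB_dv_succ]
      by_cases hm : mt l l' k
      · obtain ⟨a, ha, hb⟩ := hA1 hm
        have hP : en y (l.take k) = en y (l'.take k) := (PB_mt y l l' k).1 hm
        by_cases hm' : mt l l' (k + 1)
        · rw [if_neg (fun h => h.2 hm'), add_zero]
          refine ⟨A, hA, fun _ => ⟨a, ha, ?_⟩, fun h => absurd hm' h⟩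
          rw [c1 ⟨hm, hm'⟩, hb, add_comm, add_assoc, PA_pt_add]
        · rw [if_pos ⟨hm, hm'⟩]
          refine ⟨A + pt a (en y (l.take k)), PS.add hA _ _ ha (hV k (by omega)).1,
            fun h => absurd h hm', fun _ => ?_⟩
          rw [c2 (fun h => hm' h.2), hb, ← add_assoc, ← hP,
            PA_pt_comm (en y (l.take k)) (en y (l.take (k + 1))), PA_pt_add, add_comm]
      · have hb := hA2 hm
        have h7 : bd (PB_B y l l' (k + 1)) =
            A + pt (en y (l.take (k + 1))) (en y (l'.take (k + 1))) := by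
          rw [c2 (fun h => hm h.1), hb]
          have h8 : pt (en y (l.take (k + 1))) (en y (l'.take (k + 1))) =
              pt (en y (l.take (k + 1))) (en y (l.take k)) +
                (pt (en y (l.take k)) (en y (l'.take k)) +
                  pt (en y (l'.take k)) (en y (l'.take (k + 1)))) := by
            rw [PA_pt_add, PA_pt_add]
          rw [h8, PA_pt_comm (en y (l.take k)) (en y (l.take (k + 1)))]
          abel
        rw [if_neg (fun h => hm h.1), add_zero]
        refine ⟨A, hA, fun hm' => ⟨en y (l.take (k + 1)), (hV (k + 1) hk).1, ?_⟩, fun _ => h7⟩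
        rw [h7, ← (PB_mt y l l' (k + 1)).1 hm']
  obtain ⟨A, hA, hA1, hA2⟩ := key t le_rfl
  have hB : PB_B y l l' t = pe y l ∪ pe y l' := by
    unfold PB_B
    rw [List.take_of_length_le h1.le, List.take_of_length_le h1'.le]
  rw [← hB]
  by_cases hm : mt l l' t
  · obtain ⟨a, ha, hb⟩ := hA1 hm
    rw [hb]
    exact PS.add hA _ _ ha (hV t le_rfl).1
  · rw [hA2 hm]
    exact PS.add hA _ _ (hV t le_rfl).1 (hV t le_rfl).2

/-! ### Module PD (M): between two meeting times one path is a permutation of the other. -/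

theorem perm_mt {d : ℕ} (t : ℕ) (I I' : Finset (Fin d)) (l l' : List (Stp d)) (hl : l ∈ PL t I)
    (m k : ℕ) (hmk : m ≤ k) (hk : k ≤ t) (hl' : l' ∈ PL k I') (h1 : mt l l' m) (h2 : mt l l' k) :
    (l'.drop m).Perm ((l.take k).drop m) := by
  obtain ⟨e1, hn, -⟩ := (mem_PL t I l).1 hl
  obtain ⟨e1', hn', -⟩ := (mem_PL k I' l').1 hl'
  have hnk := PA_nodup_take l hn k
  have hd : ((l'.drop m).map Prod.fst).Nodup := by
    rw [List.map_drop]
    exact hn'.sublist (List.drop_sublist _ _)
  have hd' : (((l.take k).drop m).map Prod.fst).Nodup := by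
    rw [List.map_drop]
    exact hnk.sublist (List.drop_sublist _ _)
  have hs : ((l'.drop m).map sv).sum = (((l.take k).drop m).map sv).sum := by
    unfold mt at h1 h2
    rw [en_eq, en_eq, zero_add, zero_add] at h1 h2
    have h3 : l'.take k = l' := List.take_of_length_le e1'.le
    rw [h3] at h2
    have h4 : (l.take k).take m = l.take m := by
      rw [List.take_take, min_eq_left hmk]
    have h5 : (l.take k).map sv = ((l.take m).map sv) ++ (((l.take k).drop m).map sv) := by
      rw [← h4, ← List.map_append, List.take_append_drop]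
    have h6 : l'.map sv = ((l'.take m).map sv) ++ ((l'.drop m).map sv) := by
      rw [← List.map_append, List.take_append_drop]
    rw [h5, h6, List.sum_append, List.sum_append, h1, add_right_inj] at h2
    exact h2.symm
  have hmem : ∀ (a : List (Stp d)), (a.map Prod.fst).Nodup → ∀ s : Stp d,
      s ∈ a ↔ (a.map sv).sum s.1 = sv s s.1 := by
    intro a ha s
    obtain ⟨h3, h4⟩ := PA_coord a ha s.1
    refine ⟨fun h => h4 s h rfl, fun h => ?_⟩
    by_cases h5 : s.1 ∈ a.map Prod.fst
    · obtain ⟨s', hs', h6⟩ := List.mem_map.1 h5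
      rw [h4 s' hs' h6, PA_sv_self, ← h6, PA_sv_self] at h
      have h7 : s' = s := by
        refine Prod.ext h6 ?_
        revert h
        cases s.2 <;> cases s'.2 <;> simp
      rw [← h7]
      exact hs'
    · rw [h3 h5, PA_sv_self] at h
      revert h
      cases s.2 <;> simp
  rw [List.perm_ext_iff_of_nodup hd.of_map hd'.of_map]
  intro s
  rw [hmem _ hd, hmem _ hd', hs]

/-! ### Modules PE, PF, PG: sums over the second path. -/

/-- Weight of a pair of paths of length `k`. -/
noncomputable def WW {d : ℕ} (G x : ℝ) (l l' : List (Stp d)) (k : ℕ) : ℝ :=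
  x ^ (k - sh l l' k) * G ^ dv l l' k

/-- Sum over the second paths that meet the first one at time `k`. -/
noncomputable def RR {d : ℕ} (G x : ℝ) (I : Finset (Fin d)) (l : List (Stp d)) (k : ℕ) : ℝ :=
  ∑ l' ∈ (PL k I).filter (fun l' => mt l l' k), WW G x l l' k

private theorem PE_mt_take {d : ℕ} (l l' : List (Stp d)) {j m : ℕ} (h : j ≤ m) :
    mt l (l'.take m) j ↔ mt l l' j := by
  unfold mt
  rw [List.take_take, min_eq_left h]

private theorem PE_WW_take {d : ℕ} (G x : ℝ) (l l' : List (Stp d)) (m : ℕ) :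
    WW G x l (l'.take m) m = WW G x l l' m := by
  have h1 : sh l (l'.take m) m = sh l l' m := by
    unfold sh
    congr 1
    refine Finset.filter_congr fun j hj => ?_
    have hj' := Finset.mem_range.1 hj
    rw [PE_mt_take l l' hj'.le, PE_mt_take l l' (Nat.succ_le_of_lt hj')]
  have h2 : dv l (l'.take m) m = dv l l' m := by
    unfold dv
    congr 1
    refine Finset.filter_congr fun j hj => ?_
    have hj' := Finset.mem_range.1 hj
    rw [PE_mt_take l l' hj'.le, PE_mt_take l l' (Nat.succ_le_of_lt hj')]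
  unfold WW
  rw [h1, h2]

private theorem PE_take_mem {d : ℕ} {k m : ℕ} (I : Finset (Fin d)) (l : List (Stp d))
    (h : l ∈ PL k I) (hm : m ≤ k) : l.take m ∈ PL m I := by
  obtain ⟨h1, h2, h3⟩ := (mem_PL k I l).1 h
  refine (mem_PL m I _).2 ⟨?_, PA_nodup_take l h2 m, fun s hs => h3 s (List.mem_of_mem_take hs)⟩
  rw [List.length_take, h1, min_eq_left hm]

private theorem PE_drop_mem {d : ℕ} {k m : ℕ} (I : Finset (Fin d)) (l : List (Stp d))
    (h : l ∈ PL k I) : l.drop m ∈ PL (k - m) I := by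
  obtain ⟨h1, h2, h3⟩ := (mem_PL k I l).1 h
  refine (mem_PL (k - m) I _).2 ⟨?_, ?_, fun s hs => h3 s (List.mem_of_mem_drop hs)⟩
  · rw [List.length_drop, h1]
  · rw [List.map_drop]
    exact h2.sublist (List.drop_sublist _ _)

private theorem PE_WW_nonneg {d : ℕ} {G x : ℝ} (hG : 0 ≤ G) (hx : 0 ≤ x) (l l' : List (Stp d))
    (k : ℕ) : 0 ≤ WW G x l l' k := mul_nonneg (pow_nonneg hx _) (pow_nonneg hG _)

/-- the last meeting time before `n` -/
private theorem PE_last {d : ℕ} (l l' : List (Stp d)) (n : ℕ) (hn : 1 ≤ n) :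
    ∃ m < n, mt l l' m ∧ ∀ j, m < j → j < n → ¬ mt l l' j := by
  induction n with
  | zero => omega
  | succ n ih =>
    by_cases h : mt l l' n
    · exact ⟨n, Nat.lt_succ_self n, h, fun j h1 h2 => by omega⟩
    · have hn0 : 1 ≤ n := by
        rcases Nat.eq_zero_or_pos n with rfl | h1
        · exact absurd rfl h
        · exact h1
      obtain ⟨m, hm, h1, h2⟩ := ih hn0
      refine ⟨m, by omega, h1, fun j h3 h4 => ?_⟩
      rcases Nat.lt_succ_iff_lt_or_eq.1 h4 with h5 | rfl
      · exact h2 j h3 h5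
      · exact h

private theorem PE_sd {d : ℕ} (l l' : List (Stp d)) (m n : ℕ) (hmn : m < n) (hm : mt l l' m)
    (h : ∀ j, m < j → j < n → ¬ mt l l' j) (h' : ¬ mt l l' (m + 1)) :
    sh l l' n = sh l l' m ∧ dv l l' n = dv l l' m + 1 := by
  induction n with
  | zero => omega
  | succ n ih =>
    rcases Nat.lt_succ_iff_lt_or_eq.1 hmn with h1 | rfl
    · obtain ⟨h2, h3⟩ := ih h1 fun j h4 h5 => h j h4 (by omega)
      have h4 : ¬ mt l l' n := h n h1 (Nat.lt_succ_self n)
      rw [PB_sh_succ, PB_dv_succ, if_neg (fun h5 => h4 h5.1), if_neg (fun h5 => h4 h5.1),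
        add_zero, add_zero]
      exact ⟨h2, h3⟩
    · rw [PB_sh_succ, PB_dv_succ, if_neg (fun h5 => h' h5.2), if_pos ⟨hm, h'⟩]
      exact ⟨rfl, rfl⟩

private theorem PE_sh_le {d : ℕ} (l l' : List (Stp d)) (m : ℕ) : sh l l' m ≤ m := by
  unfold sh
  exact (Finset.card_filter_le _ _).trans (Finset.card_range m).le

private theorem PE_WW_jump {d : ℕ} (G x : ℝ) (l l' : List (Stp d)) (m n : ℕ) (hmn : m < n)
    (hm : mt l l' m) (h : ∀ j, m < j → j < n → ¬ mt l l' j) (h' : ¬ mt l l' (m + 1)) :
    WW G x l l' n = G * x ^ (n - m) * WW G x l l' m := by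
  obtain ⟨h1, h2⟩ := PE_sd l l' m n hmn hm h h'
  have h3 := PE_sh_le l l' m
  unfold WW
  rw [h1, h2, show n - sh l l' m = (n - m) + (m - sh l l' m) by omega, pow_add, pow_succ]
  ring

private theorem PE_split {α : Type*} (S : Finset α) (k : ℕ) (f : α → ℝ)
    (hf : ∀ a ∈ S, 0 ≤ f a) (P : ℕ → α → Prop) (h : ∀ a ∈ S, ∃ m ∈ Finset.range k, P m a) :
    ∑ a ∈ S, f a ≤ ∑ m ∈ Finset.range k, ∑ a ∈ fl S (P m), f a := by
  classical
  have h1 : ∀ m, ∑ a ∈ fl S (P m), f a = ∑ a ∈ S, if P m a then f a else 0 := by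
    intro m
    unfold fl
    rw [Finset.sum_filter]
  rw [Finset.sum_congr rfl fun m _ => h1 m, Finset.sum_comm]
  refine Finset.sum_le_sum fun a ha => ?_
  obtain ⟨m, hm, hP⟩ := h a ha
  have h2 := Finset.single_le_sum (f := fun m => if P m a then f a else 0)
    (fun i _ => by split_ifs; exacts [hf a ha, le_rfl]) hm
  rwa [if_pos hP] at h2

private theorem PE_fib {d : ℕ} {G x : ℝ} (hG : 0 ≤ G) (hx : 0 ≤ x) (I : Finset (Fin d))
    (l : List (Stp d)) (m n : ℕ) (S : Finset (List (Stp d))) (c : ℝ) (hc : 0 ≤ c) (N : ℝ)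
    (T : Finset (List (Stp d))) (hT : (T.card : ℝ) ≤ N)
    (h1 : ∀ l' ∈ S, l'.take m ∈ PL m I ∧ mt l l' m)
    (h2 : ∀ l' ∈ S, WW G x l l' n = c * WW G x l l' m) (h3 : ∀ l' ∈ S, l'.drop m ∈ T) :
    ∑ l' ∈ S, WW G x l l' n ≤ c * N * RR G x I l m := by
  classical
  have h4 : ∑ l' ∈ S, WW G x l l' n = c * ∑ l' ∈ S, WW G x l (l'.take m) m := by
    rw [Finset.mul_sum]
    exact Finset.sum_congr rfl fun l' hl' => by rw [h2 l' hl', PE_WW_take]
  have h5 : ∑ l' ∈ S, WW G x l (l'.take m) m ≤ (T.card : ℝ) * RR G x I l m := by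
    have h6 : ∑ l' ∈ S, WW G x l (l'.take m) m =
        ∑ p ∈ S.image (fun l' => (l'.take m, l'.drop m)), WW G x l p.1 m := by
      rw [Finset.sum_image]
      intro a _ b _ hab
      have h7 := Prod.ext_iff.1 hab
      dsimp only at h7
      rw [← List.take_append_drop m a, h7.1, h7.2, List.take_append_drop]
    have h7 : S.image (fun l' => (l'.take m, l'.drop m)) ⊆
        ((PL m I).filter fun l' => mt l l' m) ×ˢ T := by
      intro p hp
      obtain ⟨l', hl', rfl⟩ := Finset.mem_image.1 hp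
      obtain ⟨h8, h9⟩ := h1 l' hl'
      rw [Finset.mem_product, Finset.mem_filter]
      exact ⟨⟨h8, (PE_mt_take l l' le_rfl).2 h9⟩, h3 l' hl'⟩
    rw [h6]
    refine (Finset.sum_le_sum_of_subset_of_nonneg h7 fun p _ _ =>
      PE_WW_nonneg hG hx l p.1 m).trans (le_of_eq ?_)
    rw [Finset.sum_product]
    unfold RR
    rw [Finset.mul_sum]
    refine Finset.sum_congr rfl fun a _ => ?_
    show ∑ y ∈ T, WW G x l a m = _
    rw [Finset.sum_const, nsmul_eq_mul]
  have h6 : 0 ≤ RR G x I l m := Finset.sum_nonneg fun l' _ => PE_WW_nonneg hG hx l l' m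
  rw [h4, mul_assoc]
  exact mul_le_mul_of_nonneg_left (h5.trans (mul_le_mul_of_nonneg_right hT h6)) hc

/-- Module PE (L). Decompose according to the last meeting time `m < k` before `k`. If
`m = k - 1` the last step is common and `WW` does not change. If `g = k - m ≥ 2`, then
`WW G x l l' k = WW G x l (l'.take m) m * x ^ g * G`, and `l'.drop m` is a permutation of a fixed
list of length `g` (`perm_mt`): at most `g!` possibilities. -/
theorem RR_rec {d : ℕ} (G x : ℝ) (hG : 0 ≤ G) (hx : 0 ≤ x) (t : ℕ) (I : Finset (Fin d))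
    (l : List (Stp d)) (hl : l ∈ PL t I) (k : ℕ) (hk1 : 1 ≤ k) (hk : k ≤ t) :
    RR G x I l k ≤ RR G x I l (k - 1) +
      ∑ g ∈ Finset.Icc 2 k, G * x ^ g * (g.factorial : ℝ) * RR G x I l (k - g) := by
  classical
  set P : ℕ → List (Stp d) → Prop := fun m l' => mt l l' m ∧
    ∀ j, m < j → j < k → ¬ mt l l' j with hP
  have h0 : RR G x I l k ≤ ∑ m ∈ Finset.range k,
      ∑ l' ∈ fl ((PL k I).filter fun l' => mt l l' k) (P m), WW G x l l' k := by
    refine PE_split _ _ _ (fun l' _ => PE_WW_nonneg hG hx l l' k) P fun l' _ => ?_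
    obtain ⟨m, hm, h1, h2⟩ := PE_last l l' k hk1
    exact ⟨m, Finset.mem_range.2 hm, h1, h2⟩
  have hgen : ∀ m < k, ∀ c : ℝ, 0 ≤ c → (∀ l', mt l l' k → P m l' →
      WW G x l l' k = c * WW G x l l' m) →
      ∑ l' ∈ fl ((PL k I).filter fun l' => mt l l' k) (P m), WW G x l l' k ≤
        c * ((k - m).factorial : ℝ) * RR G x I l m := by
    intro m hm c hc hW
    refine PE_fib hG hx I l m k _ c hc _ ((l.take k).drop m).permutations.toFinset ?_ ?_ ?_ ?_
    · have h1 : ((l.take k).drop m).permutations.length = (k - m).factorial := by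
        rw [List.length_permutations, List.length_drop, List.length_take,
          ((mem_PL t I l).1 hl).1, min_eq_left hk]
      rw [← h1]
      exact_mod_cast List.toFinset_card_le _
    · intro l' hl'
      rw [mem_fl, Finset.mem_filter] at hl'
      exact ⟨PE_take_mem I l' hl'.1.1 hm.le, hl'.2.1⟩
    · intro l' hl'
      rw [mem_fl, Finset.mem_filter] at hl'
      exact hW l' hl'.1.2 hl'.2
    · intro l' hl'
      rw [mem_fl, Finset.mem_filter] at hl'
      rw [List.mem_toFinset, List.mem_permutations]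
      exact perm_mt t I I l l' hl m k hm.le hk hl'.1.1 hl'.2.1 hl'.1.2
  obtain ⟨n, rfl⟩ : ∃ n, k = n + 1 := ⟨k - 1, by omega⟩
  refine h0.trans ?_
  rw [Finset.sum_range_succ, add_comm, Nat.add_sub_cancel]
  refine add_le_add ?_ ?_
  · have h1 := hgen n (Nat.lt_succ_self n) 1 zero_le_one ?_
    · rw [Nat.add_sub_cancel_left, Nat.factorial_one, Nat.cast_one, one_mul, one_mul] at h1
      exact h1
    · intro l' h2 h3
      rw [one_mul]
      unfold WW
      rw [PB_sh_succ, PB_dv_succ, if_pos ⟨h3.1, h2⟩, if_neg (fun h => h.2 h2), add_zero,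
        Nat.add_sub_add_right]
  · have h1 : ∀ m ∈ Finset.range n,
        ∑ l' ∈ fl ((PL (n + 1) I).filter fun l' => mt l l' (n + 1)) (P m),
          WW G x l l' (n + 1) ≤ G * x ^ (n + 1 - m) * ((n + 1 - m).factorial : ℝ) *
            RR G x I l (n + 1 - (n + 1 - m)) := by
      intro m hm
      have hm' := Finset.mem_range.1 hm
      have h2 := hgen m (by omega) (G * x ^ (n + 1 - m)) (mul_nonneg hG (pow_nonneg hx _)) ?_
      · rw [show n + 1 - (n + 1 - m) = m by omega]
        exact h2
      · intro l' _ h4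
        exact PE_WW_jump G x l l' m (n + 1) (by omega) h4.1 h4.2 (h4.2 (m + 1) (by omega)
          (by omega))
    refine (Finset.sum_le_sum h1).trans (le_of_eq ?_)
    refine Finset.sum_nbij' (fun m => n + 1 - m) (fun g => n + 1 - g) ?_ ?_ ?_ ?_ ?_
    · intro m hm
      have := Finset.mem_range.1 hm
      exact Finset.mem_Icc.2 ⟨by omega, by omega⟩
    · intro g hg
      have := Finset.mem_Icc.1 hg
      exact Finset.mem_range.2 (by omega)
    · intro m hm
      have := Finset.mem_range.1 hm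
      omega
    · intro g hg
      have := Finset.mem_Icc.1 hg
      omega
    · intro m _
      rfl

private theorem PF_fac (t h : ℕ) (hh : h + 2 ≤ t) : (h + 2).factorial ≤ 2 * t ^ h := by
  induction h with
  | zero => simp
  | succ h ih =>
    have h1 := ih (by omega)
    rw [show h + 1 + 2 = (h + 2) + 1 by ring, Nat.factorial_succ, pow_succ]
    calc (h + 2 + 1) * (h + 2).factorial ≤ t * (2 * t ^ h) :=
          Nat.mul_le_mul (by omega) h1
      _ = 2 * (t ^ h * t) := by ring

/-- Module PF (M). `∑_{2 ≤ g ≤ t} G g! x^g ≤ 4 G x²` (as `t x ≤ 1/2`), hence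
`RR ≤ (1 + 4 G x²)^k ≤ 2` by strong induction. -/
theorem RR_le {d : ℕ} (G x : ℝ) (hG : 1 ≤ G) (hx : 0 ≤ x) (t : ℕ) (I : Finset (Fin d))
    (l : List (Stp d)) (hl : l ∈ PL t I) (h1 : t * x ≤ 1 / 2) (h2 : 4 * G * x ^ 2 * t ≤ 1 / 2)
    (k : ℕ) (hk : k ≤ t) : RR G x I l k ≤ 2 := by
  have hG0 : 0 ≤ G := zero_le_one.trans hG
  set u : ℝ := 1 + 4 * G * x ^ 2 with hu
  have ha : 0 ≤ 4 * G * x ^ 2 := by positivity
  have hu1 : 1 ≤ u := by rw [hu]; linarith
  have hsum : ∀ n ≤ t, ∑ g ∈ Finset.Icc 2 n, G * x ^ g * (g.factorial : ℝ) ≤ 4 * G * x ^ 2 := by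
    intro n hn
    have h3 : ∀ g ∈ Finset.Icc 2 n, G * x ^ g * (g.factorial : ℝ) ≤
        2 * G * x ^ 2 * (1 / 2) ^ (g - 2) := by
      intro g hg
      obtain ⟨hg1, hg2⟩ := Finset.mem_Icc.1 hg
      obtain ⟨h, rfl⟩ : ∃ h, g = h + 2 := ⟨g - 2, by omega⟩
      have h4 := PF_fac t h (by omega)
      have h5 : ((h + 2).factorial : ℝ) ≤ 2 * (t : ℝ) ^ h := by exact_mod_cast h4
      have h6 : (x : ℝ) ^ h * (t : ℝ) ^ h ≤ (1 / 2) ^ h := by
        rw [← mul_pow, mul_comm x]
        exact pow_le_pow_left₀ (mul_nonneg (Nat.cast_nonneg t) hx) h1 h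
      calc G * x ^ (h + 2) * ((h + 2).factorial : ℝ) ≤ G * x ^ (h + 2) * (2 * (t : ℝ) ^ h) :=
            mul_le_mul_of_nonneg_left h5 (by positivity)
        _ = 2 * G * x ^ 2 * (x ^ h * (t : ℝ) ^ h) := by ring
        _ ≤ 2 * G * x ^ 2 * (1 / 2) ^ h := mul_le_mul_of_nonneg_left h6 (by positivity)
        _ = _ := by rw [Nat.add_sub_cancel]
    refine (Finset.sum_le_sum h3).trans ?_
    rw [← Finset.mul_sum]
    have h4 : ∑ g ∈ Finset.Icc 2 n, (1 / 2 : ℝ) ^ (g - 2) ≤ 2 := by
      have h5 : Finset.Icc 2 n = Finset.Ico 2 (n + 1) := by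
        ext g
        rw [Finset.mem_Icc, Finset.mem_Ico]
        omega
      rw [h5, Finset.sum_Ico_eq_sum_range]
      refine le_trans (le_of_eq ?_) (sum_geometric_two_le (n + 1 - 2))
      refine Finset.sum_congr rfl fun i _ => ?_
      rw [Nat.add_sub_cancel_left]
    calc 2 * G * x ^ 2 * ∑ g ∈ Finset.Icc 2 n, (1 / 2 : ℝ) ^ (g - 2) ≤ 2 * G * x ^ 2 * 2 :=
          mul_le_mul_of_nonneg_left h4 (by positivity)
      _ = _ := by ring
  have hmain : ∀ n ≤ t, RR G x I l n ≤ u ^ n := by
    intro n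
    induction n using Nat.strong_induction_on with
    | _ n ih =>
      intro hn
      rcases Nat.eq_zero_or_pos n with rfl | hn0
      · have h3 : RR G x I l 0 = 1 := by
          unfold RR
          rw [PL, Finset.filter_singleton, if_pos (show mt l ([] : List (Stp d)) 0 from rfl),
            Finset.sum_singleton]
          simp [WW, sh, dv]
        rw [h3, pow_zero]
      · have h3 := RR_rec G x hG0 hx t I l hl n hn0 hn
        have h4 := ih (n - 1) (by omega) (by omega)
        have h5 : ∀ g ∈ Finset.Icc 2 n, G * x ^ g * (g.factorial : ℝ) * RR G x I l (n - g) ≤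
            G * x ^ g * (g.factorial : ℝ) * u ^ (n - 1) := by
          intro g hg
          obtain ⟨hg1, hg2⟩ := Finset.mem_Icc.1 hg
          refine mul_le_mul_of_nonneg_left ?_ (by positivity)
          exact (ih (n - g) (by omega) (by omega)).trans
            (pow_le_pow_right₀ hu1 (by omega))
        calc RR G x I l n ≤ u ^ (n - 1) +
              ∑ g ∈ Finset.Icc 2 n, G * x ^ g * (g.factorial : ℝ) * u ^ (n - 1) :=
              h3.trans (add_le_add h4 (Finset.sum_le_sum h5))
          _ = u ^ (n - 1) * (1 + ∑ g ∈ Finset.Icc 2 n, G * x ^ g * (g.factorial : ℝ)) := by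
              rw [← Finset.sum_mul]; ring
          _ ≤ u ^ (n - 1) * u := by
              refine mul_le_mul_of_nonneg_left ?_ (pow_nonneg (zero_le_one.trans hu1) _)
              rw [hu]
              linarith [hsum n hn]
          _ = u ^ n := by
              rw [← pow_succ]
              congr 1
              omega
  refine (hmain k hk).trans ?_
  have h3 : u ≤ Real.exp (4 * G * x ^ 2) := by
    rw [hu]
    linarith [Real.add_one_le_exp (4 * G * x ^ 2)]
  have h4 : u ^ k ≤ Real.exp (1 / 2) := by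
    refine (pow_le_pow_left₀ (zero_le_one.trans hu1) h3 k).trans ?_
    rw [← Real.exp_nat_mul]
    refine Real.exp_le_exp.2 ?_
    have h5 : (k : ℝ) ≤ t := by exact_mod_cast hk
    calc (k : ℝ) * (4 * G * x ^ 2) ≤ (t : ℝ) * (4 * G * x ^ 2) :=
          mul_le_mul_of_nonneg_right h5 ha
      _ ≤ 1 / 2 := by linarith
  have h5 : Real.exp (1 / 2) ≤ 2 := by
    have h6 : Real.exp (1 / 2) * Real.exp (1 / 2) = Real.exp 1 := by
      rw [← Real.exp_add]
      norm_num
    have h7 := Real.exp_one_lt_d9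
    nlinarith [Real.exp_pos (1 / 2)]
  exact h4.trans h5

private theorem PG_card {d : ℕ} (t : ℕ) (I : Finset (Fin d)) :
    ((PL t I).card : ℝ) ≤ (2 * (I.card : ℝ)) ^ t := by
  have h : ∀ (t : ℕ) (I : Finset (Fin d)), (PL t I).card ≤ (2 * I.card) ^ t := by
    intro t
    induction t with
    | zero =>
      intro I
      rw [PL, Finset.card_singleton, pow_zero]
    | succ t ih =>
      intro I
      rw [PL]
      refine Finset.card_biUnion_le.trans ?_
      calc ∑ s ∈ I ×ˢ (Finset.univ : Finset Bool),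
            ((PL t (I.erase s.1)).image (fun l => s :: l)).card ≤
            ∑ s ∈ I ×ˢ (Finset.univ : Finset Bool), (2 * I.card) ^ t := by
              refine Finset.sum_le_sum fun s _ => Finset.card_image_le.trans ((ih _).trans ?_)
              exact Nat.pow_le_pow_left (Nat.mul_le_mul_left 2
                (Finset.card_le_card (Finset.erase_subset _ _))) t
        _ = (2 * I.card) ^ (t + 1) := by
              rw [Finset.sum_const, Finset.card_product, Finset.card_univ, Fintype.card_bool,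
                smul_eq_mul, pow_succ]
              ring
  exact_mod_cast h t I

/-- Module PG (L). Decompose according to the last meeting time `m ≤ t`: if `m < t`, then
`WW G x l l' t = WW G x l (l'.take m) m * x ^ (t - m) * G` and there are at most
`(2 |I|)^(t-m)` possibilities for `l'.drop m`. So the sum is
`≤ 2 + 2 G ∑_{1 ≤ j ≤ t} λ^j ≤ 4 G (1 + ε) / ε λ^t` with `λ = 2 |I| x ≥ 1 + ε`. -/
theorem WW_sum {d : ℕ} (G x ε : ℝ) (hG : 1 ≤ G) (hx : 0 ≤ x) (hε : 0 < ε) (t : ℕ)
    (I : Finset (Fin d)) (l : List (Stp d)) (hl : l ∈ PL t I) (h1 : t * x ≤ 1 / 2)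
    (h2 : 4 * G * x ^ 2 * t ≤ 1 / 2) (h3 : 1 + ε ≤ 2 * (I.card : ℝ) * x) :
    ∑ l' ∈ PL t I, WW G x l l' t ≤ 4 * G * ((1 + ε) / ε) * (2 * (I.card : ℝ) * x) ^ t := by
  classical
  have hG0 : 0 ≤ G := zero_le_one.trans hG
  set lam : ℝ := 2 * (I.card : ℝ) * x with hlam
  have hl1 : 1 < lam := by linarith
  set P : ℕ → List (Stp d) → Prop := fun m l' => mt l l' m ∧
    ∀ j, m < j → j < t + 1 → ¬ mt l l' j with hP
  have h0 : ∑ l' ∈ PL t I, WW G x l l' t ≤ ∑ m ∈ Finset.range (t + 1),
      ∑ l' ∈ fl (PL t I) (P m), WW G x l l' t := by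
    refine PE_split _ _ _ (fun l' _ => PE_WW_nonneg hG0 hx l l' t) P fun l' _ => ?_
    obtain ⟨m, hm, h1, h2⟩ := PE_last l l' (t + 1) (by omega)
    exact ⟨m, Finset.mem_range.2 hm, h1, h2⟩
  have htop : ∑ l' ∈ fl (PL t I) (P t), WW G x l l' t ≤ 2 := by
    refine le_trans ?_ (RR_le G x hG hx t I l hl h1 h2 t le_rfl)
    unfold RR
    refine Finset.sum_le_sum_of_subset_of_nonneg ?_ fun l' _ _ => PE_WW_nonneg hG0 hx l l' t
    intro l' hl'
    rw [mem_fl] at hl'
    exact Finset.mem_filter.2 ⟨hl'.1, hl'.2.1⟩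
  have hmid : ∀ m ∈ Finset.range t, ∑ l' ∈ fl (PL t I) (P m), WW G x l l' t ≤
      2 * G * lam ^ (t - m) := by
    intro m hm
    have hm' := Finset.mem_range.1 hm
    have h4 := PE_fib hG0 hx I l m t (fl (PL t I) (P m)) (G * x ^ (t - m))
      (mul_nonneg hG0 (pow_nonneg hx _)) ((2 * (I.card : ℝ)) ^ (t - m)) (PL (t - m) I)
      (PG_card (t - m) I) ?_ ?_ ?_
    · refine h4.trans ?_
      have h5 := RR_le G x hG hx t I l hl h1 h2 m hm'.le
      calc G * x ^ (t - m) * (2 * (I.card : ℝ)) ^ (t - m) * RR G x I l m ≤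
            G * x ^ (t - m) * (2 * (I.card : ℝ)) ^ (t - m) * 2 :=
            mul_le_mul_of_nonneg_left h5 (by positivity)
        _ = 2 * G * lam ^ (t - m) := by rw [hlam, mul_pow _ x]; ring
    · intro l' hl'
      rw [mem_fl] at hl'
      exact ⟨PE_take_mem I l' hl'.1 hm'.le, hl'.2.1⟩
    · intro l' hl'
      rw [mem_fl] at hl'
      exact PE_WW_jump G x l l' m t hm' hl'.2.1 (fun j h5 h6 => hl'.2.2 j h5 (by omega))
        (hl'.2.2 (m + 1) (by omega) (by omega))
    · intro l' hl'
      rw [mem_fl] at hl'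
      exact PE_drop_mem I l' hl'.1
  have hgeo : ∑ j ∈ Finset.range (t + 1), lam ^ j ≤ (1 + ε) / ε * lam ^ t := by
    rw [geom_sum_eq hl1.ne', div_le_iff₀ (by linarith)]
    have h4 : lam ≤ (1 + ε) / ε * (lam - 1) := by
      rw [div_mul_eq_mul_div, le_div_iff₀ hε]
      nlinarith
    have h5 : 0 < lam ^ t := pow_pos (by linarith) t
    calc lam ^ (t + 1) - 1 ≤ lam ^ t * lam := by rw [pow_succ]; linarith
      _ ≤ lam ^ t * ((1 + ε) / ε * (lam - 1)) := mul_le_mul_of_nonneg_left h4 h5.le
      _ = _ := by ring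
  have hre : ∑ m ∈ Finset.range t, lam ^ (t - m) = ∑ j ∈ Finset.range t, lam ^ (j + 1) := by
    rw [← Finset.sum_range_reflect (fun j => lam ^ (j + 1)) t]
    refine Finset.sum_congr rfl fun m hm => ?_
    have hm' := Finset.mem_range.1 hm
    congr 1
    omega
  have hsplit : ∑ j ∈ Finset.range (t + 1), lam ^ j =
      ∑ j ∈ Finset.range t, lam ^ (j + 1) + 1 := by
    rw [Finset.sum_range_succ', pow_zero]
  calc ∑ l' ∈ PL t I, WW G x l l' t ≤ ∑ m ∈ Finset.range (t + 1),
        ∑ l' ∈ fl (PL t I) (P m), WW G x l l' t := h0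
    _ = ∑ m ∈ Finset.range t, ∑ l' ∈ fl (PL t I) (P m), WW G x l l' t +
          ∑ l' ∈ fl (PL t I) (P t), WW G x l l' t := Finset.sum_range_succ _ _
    _ ≤ ∑ m ∈ Finset.range t, 2 * G * lam ^ (t - m) + 2 :=
        add_le_add (Finset.sum_le_sum hmid) htop
    _ = 2 * G * ∑ j ∈ Finset.range t, lam ^ (j + 1) + 2 := by rw [← Finset.mul_sum, hre]
    _ ≤ 2 * G * (∑ j ∈ Finset.range t, lam ^ (j + 1) + 1) := by linarith
    _ ≤ 2 * G * ((1 + ε) / ε * lam ^ t) := by
        rw [← hsplit]
        exact mul_le_mul_of_nonneg_left hgeo (by linarith)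
    _ ≤ 4 * G * ((1 + ε) / ε) * lam ^ t := by
        have h5 : 0 < (1 + ε) / ε * lam ^ t :=
          mul_pos (div_pos (by linarith) hε) (pow_pos (by linarith) t)
        nlinarith

/-! ### Module PH (S): number of paths. -/

theorem card_PL {d : ℕ} (t : ℕ) (I : Finset (Fin d)) :
    (PL t I).card = 2 ^ t * (I.card).descFactorial t := by
  induction t generalizing I with
  | zero => simp [PL]
  | succ t ih =>
    rw [PL, Finset.card_biUnion]
    · have h1 : ∀ s ∈ I ×ˢ (Finset.univ : Finset Bool),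
          ((PL t (I.erase s.1)).image (fun l => s :: l)).card = 2 ^ t * (I.card - 1).descFactorial t := by
        intro s hs
        rw [Finset.card_image_of_injective _ (fun a b h => (List.cons.inj h).2), ih,
          Finset.card_erase_of_mem (Finset.mem_product.1 hs).1]
      rw [Finset.sum_congr rfl h1, Finset.sum_const, Finset.card_product, smul_eq_mul, Finset.card_univ,
        Fintype.card_bool]
      rcases hI : I.card with _ | n
      · simp
      · rw [Nat.add_sub_cancel, Nat.succ_descFactorial_succ, pow_succ]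
        ring
    · intro s _ s' _ hne
      rw [Function.onFun, Finset.disjoint_left]
      intro l hl hl'
      obtain ⟨a, _, rfl⟩ := Finset.mem_image.1 hl
      obtain ⟨b, _, hb⟩ := Finset.mem_image.1 hl'
      exact hne (List.cons.inj hb).1.symm

theorem card_PL_le {d : ℕ} (t : ℕ) (I : Finset (Fin d)) :
    ((PL t I).card : ℝ) ≤ (2 * (I.card : ℝ)) ^ t := by
  rw [card_PL]
  push_cast
  rw [mul_pow]
  refine mul_le_mul_of_nonneg_left ?_ (by positivity)
  exact_mod_cast Nat.descFactorial_le_pow _ _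

private theorem PH_desc (n : ℕ) (k : ℕ) (hk : k ≤ n) :
    (n : ℝ) ^ k * (2 * n - k * (k - 1)) ≤ 2 * n * (n.descFactorial k : ℝ) := by
  induction k with
  | zero => simp
  | succ k ih =>
    have h1 := ih (by omega)
    have h2 : (n.descFactorial (k + 1) : ℝ) = ((n : ℝ) - k) * (n.descFactorial k : ℝ) := by
      rw [Nat.descFactorial_succ, Nat.cast_mul, Nat.cast_sub (by omega)]
    have h3 : (0 : ℝ) ≤ (n : ℝ) - k := by
      have : (k : ℝ) ≤ n := by exact_mod_cast (by omega : k ≤ n)
      linarith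
    have h4 := mul_le_mul_of_nonneg_left h1 h3
    have h5 : (0 : ℝ) ≤ (n : ℝ) ^ k * ((k : ℝ) ^ 2 * (k - 1)) := by
      rcases Nat.eq_zero_or_pos k with rfl | hk0
      · simp
      · have : (1 : ℝ) ≤ k := by exact_mod_cast hk0
        have h6 : (0 : ℝ) ≤ (k : ℝ) - 1 := by linarith
        positivity
    rw [h2]
    push_cast
    have h7 : (n : ℝ) ^ (k + 1) * (2 * n - (k + 1) * (k + 1 - 1)) =
        (n - k) * ((n : ℝ) ^ k * (2 * n - k * (k - 1))) - (n : ℝ) ^ k * ((k : ℝ) ^ 2 * (k - 1)) := by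
      rw [pow_succ]
      ring
    rw [h7]
    linarith

theorem card_PL_ge {d : ℕ} (t : ℕ) (I : Finset (Fin d)) (h : t ^ 2 ≤ I.card) :
    (2 * (I.card : ℝ)) ^ t / 2 ≤ ((PL t I).card : ℝ) := by
  rw [card_PL]
  push_cast
  rw [mul_pow, mul_div_assoc]
  refine mul_le_mul_of_nonneg_left ?_ (by positivity)
  rcases Nat.eq_zero_or_pos I.card with h0 | h0
  · have ht : t = 0 := by
      rw [h0] at h
      exact pow_eq_zero_iff (two_ne_zero) |>.1 (Nat.le_zero.1 h)
    rw [ht]
    norm_num
  · have h1 : t ≤ I.card := by nlinarith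
    have h2 := PH_desc I.card t h1
    have h3 : ((t : ℝ)) ^ 2 ≤ I.card := by exact_mod_cast h
    have h4 : (0 : ℝ) < I.card := by exact_mod_cast h0
    have h5 : (0 : ℝ) ≤ (I.card : ℝ) ^ t := by positivity
    have h6 : (0 : ℝ) ≤ t := Nat.cast_nonneg t
    have h7 : (I.card : ℝ) ^ t * I.card ≤ (I.card : ℝ) ^ t * (2 * I.card - t * (t - 1)) := by
      refine mul_le_mul_of_nonneg_left ?_ h5
      nlinarith
    have h8 : (I.card : ℝ) * ((I.card : ℝ) ^ t / 2) ≤ I.card * (I.card.descFactorial t : ℝ) := by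
      nlinarith
    exact le_of_mul_le_mul_left h8 h4

end Pool.Agent.SRC
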