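import Pool.Agent.SRC.Path

/-! Second moment method. Modules SA, SB, SC, SD. -/

set_option autoImplicit false

namespace Pool.Agent.SRC

open Finset Filter

/-- Module SA (M). Abstract second moment lemma, `Z = ∑ w`.
With `P` the mass of `{X ≥ bμ/2}`: `bμZ ≤ ∑ w X ≤ bμ/2 Z + ∑ w X 1[X ≥ bμ/2]
≤ bμ/2 Z + sqrt (∑ w X² · P)`, so `P ≥ b² Z/(4 C₂)`. The mass of `{Q > C₃ μ / c}` is at most `c Z`,
with `c = b²/(8 C₂)`. On the rest `Y ≥ X²/Q ≥ b² c μ/(4 C₃) ≥ s`. -/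
theorem sm {α : Type*} (Ω : Finset α) (w X Y Q : α → ℝ) (hw : ∀ a ∈ Ω, 0 ≤ w a)
    (hX : ∀ a ∈ Ω, 0 ≤ X a) (hY : ∀ a ∈ Ω, 0 ≤ Y a) (hQ : ∀ a ∈ Ω, 0 ≤ Q a)
    (hXY : ∀ a ∈ Ω, X a ^ 2 ≤ Y a * Q a) (μ b C2 C3 s : ℝ) (hμ : 0 < μ) (hb : 0 < b)
    (hC2 : 0 < C2) (hC3 : 0 < C3)
    (h1 : b * μ * ∑ a ∈ Ω, w a ≤ ∑ a ∈ Ω, w a * X a)
    (h2 : ∑ a ∈ Ω, w a * X a ^ 2 ≤ C2 * μ ^ 2 * ∑ a ∈ Ω, w a)
    (h3 : ∑ a ∈ Ω, w a * Q a ≤ C3 * μ * ∑ a ∈ Ω, w a)
    (hs : s * (4 * C3) ≤ b ^ 2 * (b ^ 2 / (8 * C2)) * μ) :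
    b ^ 2 / (8 * C2) * ∑ a ∈ Ω, w a ≤ ∑ a ∈ Ω, w a * ind (s ≤ Y a) := by
  have hb2 : 0 < b * μ := mul_pos hb hμ
  have hC : 0 < C2 * μ / b := by positivity
  obtain ⟨P, hP⟩ : ∃ P, P = ∑ a ∈ Ω, w a * ind (b * μ / 2 ≤ X a) := ⟨_, rfl⟩
  obtain ⟨Z, hZ⟩ : ∃ Z, Z = ∑ a ∈ Ω, w a := ⟨_, rfl⟩
  obtain ⟨c, hc⟩ : ∃ c, c = b ^ 2 / (8 * C2) := ⟨_, rfl⟩
  have hc0 : 0 < c := by rw [hc]; positivity
  obtain ⟨N, hN⟩ : ∃ N, N = ∑ a ∈ Ω, w a * ind (C3 * μ / c < Q a) := ⟨_, rfl⟩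
  have hZ0 : 0 ≤ Z := by rw [hZ]; exact Finset.sum_nonneg hw
  rw [← hZ] at h1 h2 h3 ⊢
  rw [← hc] at hs ⊢
  -- the first bound
  have e1 : b * μ * Z ≤ b * μ / 2 * Z + b / (4 * C2 * μ) * (C2 * μ ^ 2 * Z) + C2 * μ / b * P := by
    refine h1.trans ?_
    have e2 : ∀ a ∈ Ω, w a * X a ≤ b * μ / 2 * w a + b / (4 * C2 * μ) * (w a * X a ^ 2) +
        C2 * μ / b * (w a * ind (b * μ / 2 ≤ X a)) := by
      intro a ha
      have e3 : X a ≤ b * μ / 2 + b / (4 * C2 * μ) * X a ^ 2 + C2 * μ / b * ind (b * μ / 2 ≤ X a) := by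
        have e4 : 0 ≤ b / (4 * C2 * μ) * X a ^ 2 := by positivity
        by_cases h : b * μ / 2 ≤ X a
        · rw [ind_true h]
          have e5 : b / (4 * C2 * μ) * X a ^ 2 + C2 * μ / b * 1 - X a =
              (b * X a - 2 * C2 * μ) ^ 2 / (4 * C2 * μ * b) := by
            field_simp
            ring
          have e6 : 0 ≤ (b * X a - 2 * C2 * μ) ^ 2 / (4 * C2 * μ * b) := by positivity
          linarith
        · rw [ind_false h]
          rw [not_le] at h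
          linarith
      have e7 := mul_le_mul_of_nonneg_left e3 (hw a ha)
      linarith
    refine (Finset.sum_le_sum e2).trans (le_of_eq_of_le ?_ (add_le_add (add_le_add le_rfl
      (mul_le_mul_of_nonneg_left h2 (by positivity : 0 ≤ b / (4 * C2 * μ)))) le_rfl))
    rw [Finset.sum_add_distrib, Finset.sum_add_distrib, ← Finset.mul_sum, ← Finset.mul_sum,
      ← Finset.mul_sum, hZ, hP]
  have e8 : 2 * c * Z ≤ P := by
    have e9 : b / (4 * C2 * μ) * (C2 * μ ^ 2 * Z) = b * μ / 4 * Z := by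
      field_simp
    rw [e9] at e1
    have e10 : b * μ / 4 * Z ≤ C2 * μ / b * P := by linarith
    have e11 : b * μ / 4 * Z = C2 * μ / b * (2 * c * Z) := by
      rw [hc]
      field_simp
      ring
    rw [e11] at e10
    exact le_of_mul_le_mul_left e10 hC
  -- Markov
  have e12 : N ≤ c * Z := by
    have e13 : C3 * μ / c * N ≤ C3 * μ * Z := by
      refine le_trans ?_ h3
      rw [hN, Finset.mul_sum]
      refine Finset.sum_le_sum fun a ha => ?_
      have e14 : C3 * μ / c * ind (C3 * μ / c < Q a) ≤ Q a := by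
        by_cases h : C3 * μ / c < Q a
        · rw [ind_true h, mul_one]
          exact h.le
        · rw [ind_false h, mul_zero]
          exact hQ a ha
      have e15 := mul_le_mul_of_nonneg_left e14 (hw a ha)
      linarith
    have e16 : C3 * μ * Z = C3 * μ / c * (c * Z) := by
      field_simp
    rw [e16] at e13
    exact le_of_mul_le_mul_left e13 (by positivity)
  have e17 : P - N ≤ ∑ a ∈ Ω, w a * ind (s ≤ Y a) := by
    rw [hP, hN, ← Finset.sum_sub_distrib]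
    refine Finset.sum_le_sum fun a ha => ?_
    rw [← mul_sub]
    refine mul_le_mul_of_nonneg_left ?_ (hw a ha)
    by_cases hA : b * μ / 2 ≤ X a
    · by_cases hB : C3 * μ / c < Q a
      · rw [ind_true hA, ind_true hB, sub_self]
        exact ind_nonneg _
      · rw [ind_true hA, ind_false hB]
        rw [not_lt] at hB
        have hXp : 0 < X a := lt_of_lt_of_le (by positivity) hA
        have hY' : s ≤ Y a := by
          have g1 : (b * μ / 2) ^ 2 ≤ X a ^ 2 := pow_le_pow_left₀ (by positivity) hA 2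
          have g2 : X a ^ 2 ≤ Y a * (C3 * μ / c) :=
            (hXY a ha).trans (mul_le_mul_of_nonneg_left hB (hY a ha))
          have g3 : (b * μ / 2) ^ 2 ≤ Y a * (C3 * μ / c) := g1.trans g2
          have g4 : b ^ 2 * c * μ ≤ 4 * C3 * Y a := by
            have g5 : Y a * (C3 * μ / c) = (C3 * Y a) * (μ / c) := by ring
            have g6 : (b * μ / 2) ^ 2 = (b ^ 2 * c * μ / 4) * (μ / c) := by
              field_simp
              ring
            rw [g5, g6] at g3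
            have g7 := le_of_mul_le_mul_right g3 (by positivity : 0 < μ / c)
            linarith
          have g8 : s * (4 * C3) ≤ Y a * (4 * C3) := by linarith
          exact le_of_mul_le_mul_right g8 (by positivity)
        rw [ind_true hY']
        norm_num
    · rw [ind_false hA]
      have := ind_nonneg (C3 * μ / c < Q a)
      have := ind_nonneg (s ≤ Y a)
      linarith
  have e18 : c * Z = 2 * c * Z - c * Z := by ring
  linarith

/-- The constant of the growth lemma. -/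
noncomputable def gc (G b ε : ℝ) : ℝ := b ^ 2 * ε / (256 * G ^ 2)

private theorem SB_fl {α : Type*} (s : Finset α) (p : α → Prop) (g : α → ℝ) :
    ∑ a ∈ fl s p, g a = ∑ a ∈ s, ind (p a) * g a := by
  classical
  unfold fl
  rw [Finset.sum_filter]
  refine Finset.sum_congr rfl fun a _ => ?_
  by_cases h : p a
  · rw [if_pos h, ind_true h, one_mul]
  · rw [if_neg h, ind_false h, zero_mul]

private theorem SB_cs {α β : Type*} [DecidableEq β] (A : Finset α) (f : α → β) :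
    (A.card : ℝ) ^ 2 ≤ ((A.image f).card : ℝ) * ∑ l ∈ A, ∑ l' ∈ A, ind (f l = f l') := by
  have h1 : (A.card : ℝ) = ∑ v ∈ A.image f, ((A.filter (fun a => f a = v)).card : ℝ) := by
    rw [← Nat.cast_sum]
    congr 1
    exact Finset.card_eq_sum_card_image f A
  have h2 := sq_sum_le_card_mul_sum_sq (s := A.image f)
    (f := fun v => ((A.filter (fun a => f a = v)).card : ℝ))
  have h3 : ∑ v ∈ A.image f, ((A.filter (fun a => f a = v)).card : ℝ) ^ 2 =
      ∑ l ∈ A, ∑ l' ∈ A, ind (f l = f l') := by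
    have h4 := Finset.sum_comp (s := A) (fun v => ((A.filter (fun a => f a = v)).card : ℝ)) f
    have h5 : ∑ v ∈ A.image f, ((A.filter (fun a => f a = v)).card : ℝ) ^ 2 =
        ∑ l ∈ A, ((A.filter (fun a => f a = f l)).card : ℝ) := by
      rw [h4]
      refine Finset.sum_congr rfl fun v _ => ?_
      rw [nsmul_eq_mul, sq]
    rw [h5]
    refine Finset.sum_congr rfl fun l _ => ?_
    rw [Finset.card_filter]
    push_cast
    refine Finset.sum_congr rfl fun l' _ => ?_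
    by_cases h : f l' = f l
    · rw [if_pos h, ind_true h.symm]
    · rw [if_neg h, ind_false (fun h' => h h'.symm)]
  rw [h1]
  exact h2.trans (le_of_eq (by rw [h3]))

private theorem SB_mt {d : ℕ} (t : ℕ) (I : Finset (Fin d)) (y : Vx d) (l l' : List (Stp d))
    (hl : l ∈ PL t I) (hl' : l' ∈ PL t I) : en y l = en y l' ↔ mt l l' t := by
  have h1 := ((mem_PL t I l).1 hl).1
  have h2 := ((mem_PL t I l').1 hl').1
  unfold mt
  rw [List.take_of_length_le h1.le, List.take_of_length_le h2.le, en_eq, en_eq, en_eq 0, en_eq 0]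
  constructor
  · intro h
    rw [add_left_cancel h]
  · intro h
    rw [add_left_cancel h]

private theorem SB_sh {d : ℕ} (l l' : List (Stp d)) (t : ℕ) : sh l l' t ≤ t := by
  unfold sh
  refine (Finset.card_filter_le _ _).trans ?_
  rw [Finset.card_range]

private theorem SB_WW {d : ℕ} (G x : ℝ) (l l' : List (Stp d)) (t : ℕ) :
    x ^ (2 * t - sh l l' t) * G ^ (dv l l' t + 1) = x ^ t * G * WW G x l l' t := by
  have h := SB_sh l l' t
  have h1 : 2 * t - sh l l' t = t + (t - sh l l' t) := by omega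
  rw [h1, pow_add, pow_succ]
  unfold WW
  ring

/-- Module SB (L). Growth from bounds on one and two paths, for an arbitrary weight `w`.
`X` = number of open paths in `PL t I` from `y`, `Y` = number of their ends, `Q` = number of pairs
with the same end; `μ = (2|I|x)^t`. By `card_PL_ge` `∑ w X ≥ (b/2) μ Z`. By `h2`, `WW_sum` and
`card_PL_le` `∑ w X² ≤ ∑_l x^t G ∑_{l'} WW ≤ 4 G² (1 + ε)/ε μ² ≤ (8 G²/ε) μ² Z`, and by `RR_le`
`∑ w Q ≤ 2 G μ Z` (`en y l = en y l'` iff `mt l l' t`). Then `sm` with `b/2`, `C2 = 8G²/ε`,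
`C3 = 2G`; the ends are connected to `y` (`conn_pe`). -/
theorem grow_core {d : ℕ} (y : Vx d) (I : Finset (Fin d)) (t s : ℕ) (x G b ε : ℝ)
    (E : Finset (Ed d)) (w : Finset (Ed d) → ℝ) (hw : ∀ η, η ⊆ E → 0 ≤ w η)
    (hx : 0 < x) (hx1 : x ≤ 1) (hG : 1 ≤ G) (hb : 0 < b) (hb1 : b ≤ 1) (hε : 0 < ε) (hε1 : ε ≤ 1)
    (hI : 1 + ε ≤ 2 * (I.card : ℝ) * x) (h5 : t * x ≤ 1 / 2) (h6 : 4 * G * x ^ 2 * t ≤ 1 / 2)
    (h7 : t ^ 2 ≤ I.card)
    (hs : 8192 * G ^ 3 * s ≤ b ^ 4 * ε * (1 + ε) ^ t)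
    (h1 : ∀ l ∈ PL t I, b * x ^ t * ∑ η ∈ E.powerset, w η ≤
      ∑ η ∈ E.powerset, w η * ind (pe y l ⊆ η))
    (h2 : ∀ l ∈ PL t I, ∀ l' ∈ PL t I, ∑ η ∈ E.powerset, w η * ind (pe y l ∪ pe y l' ⊆ η) ≤
      x ^ (2 * t - sh l l' t) * G ^ (dv l l' t + 1) * ∑ η ∈ E.powerset, w η) :
    gc G b ε * ∑ η ∈ E.powerset, w η ≤ ∑ η ∈ E.powerset, w η * ind (big (↑η) s y) := by
  classical
  have hG0 : 0 < G := lt_of_lt_of_le one_pos hG
  obtain ⟨Z, hZ⟩ : ∃ Z, Z = ∑ η ∈ E.powerset, w η := ⟨_, rfl⟩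
  have hw' : ∀ η ∈ E.powerset, 0 ≤ w η := fun η hη => hw η (Finset.mem_powerset.1 hη)
  have hZ0 : 0 ≤ Z := by rw [hZ]; exact Finset.sum_nonneg hw'
  obtain ⟨μ, hμ⟩ : ∃ μ, μ = (2 * (I.card : ℝ) * x) ^ t := ⟨_, rfl⟩
  have hμ1 : (1 + ε) ^ t ≤ μ := by
    rw [hμ]
    exact pow_le_pow_left₀ (by linarith) hI t
  have hμ0 : 0 < μ := lt_of_lt_of_le (by positivity) hμ1
  have hμx : μ = (2 * (I.card : ℝ)) ^ t * x ^ t := by rw [hμ, mul_pow]
  have hPL := card_PL_le t I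
  rw [← hZ] at h1 h2 ⊢
  have hx0 : 0 < x ^ t := by positivity
  -- the data
  obtain ⟨X, hX⟩ : ∃ X : Finset (Ed d) → ℝ, ∀ η, X η = ∑ l ∈ PL t I, ind (pe y l ⊆ η) := ⟨_, fun η => rfl⟩
  obtain ⟨Y, hY⟩ : ∃ Y : Finset (Ed d) → ℝ, ∀ η, Y η =
      (((fl (PL t I) (fun l => pe y l ⊆ η)).image (en y)).card : ℝ) := ⟨_, fun η => rfl⟩
  obtain ⟨Q, hQ⟩ : ∃ Q : Finset (Ed d) → ℝ, ∀ η, Q η = ∑ l ∈ PL t I, ∑ l' ∈ PL t I,
      ind (en y l = en y l') * ind (pe y l ∪ pe y l' ⊆ η) := ⟨_, fun η => rfl⟩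
  have hXsq : ∀ η, X η ^ 2 = ∑ l ∈ PL t I, ∑ l' ∈ PL t I, ind (pe y l ∪ pe y l' ⊆ η) := by
    intro η
    rw [hX, sq, Finset.sum_mul_sum]
    refine Finset.sum_congr rfl fun l _ => Finset.sum_congr rfl fun l' _ => ?_
    rw [← ind_and]
    exact ind_congr Finset.union_subset_iff.symm
  have hXY : ∀ η ∈ E.powerset, X η ^ 2 ≤ Y η * Q η := by
    intro η _
    have e1 := SB_cs (fl (PL t I) (fun l => pe y l ⊆ η)) (en y)
    rw [card_fl, ← hX, ← hY] at e1
    refine e1.trans (le_of_eq ?_)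
    congr 1
    rw [SB_fl, hQ]
    refine Finset.sum_congr rfl fun l _ => ?_
    rw [SB_fl, Finset.mul_sum]
    refine Finset.sum_congr rfl fun l' _ => ?_
    rw [ind_congr (Finset.union_subset_iff (s := pe y l) (t := pe y l') (u := η)), ind_and]
    ring
  have hswap : ∀ F : List (Stp d) → List (Stp d) → Finset (Ed d) → ℝ,
      ∑ η ∈ E.powerset, w η * ∑ l ∈ PL t I, ∑ l' ∈ PL t I, F l l' η =
        ∑ l ∈ PL t I, ∑ l' ∈ PL t I, ∑ η ∈ E.powerset, w η * F l l' η := by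
    intro F
    have e1 : ∀ η ∈ E.powerset, w η * ∑ l ∈ PL t I, ∑ l' ∈ PL t I, F l l' η =
        ∑ l ∈ PL t I, ∑ l' ∈ PL t I, w η * F l l' η := by
      intro η _
      rw [Finset.mul_sum]
      exact Finset.sum_congr rfl fun l _ => by rw [Finset.mul_sum]
    rw [Finset.sum_congr rfl e1, Finset.sum_comm]
    exact Finset.sum_congr rfl fun l _ => Finset.sum_comm
  -- the first moment
  have m1 : b / 2 * μ * Z ≤ ∑ η ∈ E.powerset, w η * X η := by
    have e1 : ∑ η ∈ E.powerset, w η * X η = ∑ l ∈ PL t I, ∑ η ∈ E.powerset, w η * ind (pe y l ⊆ η) := by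
      rw [Finset.sum_comm]
      refine Finset.sum_congr rfl fun η _ => ?_
      rw [hX, Finset.mul_sum]
    rw [e1]
    have e2 : ∑ _l ∈ PL t I, b * x ^ t * Z ≤ ∑ l ∈ PL t I, ∑ η ∈ E.powerset, w η * ind (pe y l ⊆ η) :=
      Finset.sum_le_sum h1
    refine le_trans ?_ e2
    rw [Finset.sum_const, nsmul_eq_mul, hμx]
    have e3 := card_PL_ge t I h7
    have e4 : 0 ≤ b * x ^ t * Z := by positivity
    have e5 := mul_le_mul_of_nonneg_right e3 e4
    linarith
  -- the second moment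
  have hpair : ∀ l ∈ PL t I, ∀ l' ∈ PL t I, ∑ η ∈ E.powerset, w η * ind (pe y l ∪ pe y l' ⊆ η) ≤
      x ^ t * G * Z * WW G x l l' t := by
    intro l hl l' hl'
    refine (h2 l hl l' hl').trans (le_of_eq ?_)
    rw [SB_WW]
    ring
  have m2 : ∑ η ∈ E.powerset, w η * X η ^ 2 ≤ 8 * G ^ 2 / ε * μ ^ 2 * Z := by
    rw [Finset.sum_congr rfl fun η _ => by rw [hXsq η], hswap]
    have e1 : ∀ l ∈ PL t I, ∑ l' ∈ PL t I, ∑ η ∈ E.powerset, w η * ind (pe y l ∪ pe y l' ⊆ η) ≤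
        x ^ t * G * Z * (4 * G * ((1 + ε) / ε) * μ) := by
      intro l hl
      refine (Finset.sum_le_sum fun l' hl' => hpair l hl l' hl').trans ?_
      rw [← Finset.mul_sum, hμ]
      exact mul_le_mul_of_nonneg_left (WW_sum G x ε hG hx.le hε t I l hl h5 h6 hI) (by positivity)
    refine (Finset.sum_le_sum e1).trans ?_
    rw [Finset.sum_const, nsmul_eq_mul]
    have e2 : 0 ≤ x ^ t * G * Z * (4 * G * ((1 + ε) / ε) * μ) := by positivity
    refine (mul_le_mul_of_nonneg_right hPL e2).trans ?_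
    have e3 : (2 * (I.card : ℝ)) ^ t * (x ^ t * G * Z * (4 * G * ((1 + ε) / ε) * μ)) =
        4 * G ^ 2 * (1 + ε) / ε * μ ^ 2 * Z := by
      rw [sq μ]
      nth_rw 2 [hμx]
      ring
    rw [e3]
    have e4 : 4 * G ^ 2 * (1 + ε) / ε ≤ 8 * G ^ 2 / ε := by
      refine div_le_div_of_nonneg_right ?_ hε.le
      nlinarith [sq_nonneg G]
    exact mul_le_mul_of_nonneg_right (mul_le_mul_of_nonneg_right e4 (by positivity)) hZ0
  have m3 : ∑ η ∈ E.powerset, w η * Q η ≤ 2 * G * μ * Z := by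
    rw [Finset.sum_congr rfl fun η _ => by rw [hQ η], hswap]
    have e1 : ∀ l ∈ PL t I, ∑ l' ∈ PL t I, ∑ η ∈ E.powerset,
        w η * (ind (en y l = en y l') * ind (pe y l ∪ pe y l' ⊆ η)) ≤ x ^ t * G * Z * 2 := by
      intro l hl
      have e2 := RR_le G x hG hx.le t I l hl h5 h6 t le_rfl
      refine le_trans ?_ (mul_le_mul_of_nonneg_left e2 (by positivity))
      unfold RR
      rw [Finset.sum_filter, Finset.mul_sum]
      refine Finset.sum_le_sum fun l' hl' => ?_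
      by_cases hm : mt l l' t
      · rw [if_pos hm, ind_true ((SB_mt t I y l l' hl hl').2 hm)]
        simp only [one_mul]
        exact hpair l hl l' hl'
      · rw [if_neg hm, ind_false fun h => hm ((SB_mt t I y l l' hl hl').1 h)]
        simp
    refine (Finset.sum_le_sum e1).trans ?_
    rw [Finset.sum_const, nsmul_eq_mul]
    refine (mul_le_mul_of_nonneg_right hPL (by positivity)).trans (le_of_eq ?_)
    rw [hμx]
    ring
  have hfin := sm E.powerset w X Y Q hw'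
    (fun η _ => by rw [hX]; exact Finset.sum_nonneg fun _ _ => ind_nonneg _)
    (fun η _ => by rw [hY]; positivity)
    (fun η _ => by
      rw [hQ]
      exact Finset.sum_nonneg fun _ _ => Finset.sum_nonneg fun _ _ =>
        mul_nonneg (ind_nonneg _) (ind_nonneg _))
    hXY μ (b / 2) (8 * G ^ 2 / ε) (2 * G) s hμ0 (by positivity) (by positivity) (by positivity)
    (by rw [← hZ]; exact m1) (by rw [← hZ]; exact m2) (by rw [← hZ]; exact m3) (by
      have e1 : b ^ 4 * ε * (1 + ε) ^ t ≤ b ^ 4 * ε * μ := mul_le_mul_of_nonneg_left hμ1 (by positivity)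
      have e2 := hs.trans e1
      have e3 : (b / 2) ^ 2 * ((b / 2) ^ 2 / (8 * (8 * G ^ 2 / ε))) * μ = b ^ 4 * ε * μ / (1024 * G ^ 2) := by
        field_simp
        ring
      rw [e3, le_div_iff₀ (by positivity)]
      have e4 : (s : ℝ) * (4 * (2 * G)) * (1024 * G ^ 2) = 8192 * G ^ 3 * s := by ring
      rw [e4]
      exact e2)
  have e1 : gc G b ε = (b / 2) ^ 2 / (8 * (8 * G ^ 2 / ε)) := by
    unfold gc
    field_simp
    ring
  rw [← hZ] at hfin
  rw [e1]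
  refine hfin.trans (Finset.sum_le_sum fun η hη => mul_le_mul_of_nonneg_left (ind_mono fun h => ?_) (hw' η hη))
  rw [hY] at h
  refine ⟨(fl (PL t I) (fun l => pe y l ⊆ η)).image (en y), by exact_mod_cast h, fun v hv => ?_⟩
  obtain ⟨l, hl, rfl⟩ := Finset.mem_image.1 hv
  exact conn_pe y l _ (by exact_mod_cast ((mem_fl _ _ _).1 hl).2)

/-- Module SC (M). Choice of the length: everything that is needed for large `d`. -/
theorem ex_t (ε G b : ℝ) (hε : 0 < ε) (hG : 1 ≤ G) (hb : 0 < b) :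
    ∀ᶠ d : ℕ in atTop, ∃ t : ℕ, 1 ≤ t ∧ (2 * t) ^ 4 ≤ d ∧ t ^ 2 * 8 ≤ d ∧
      8192 * G ^ 3 * (d : ℝ) ^ 8 ≤ b ^ 4 * ε * (1 + ε) ^ t ∧
      ∀ x : ℝ, 0 < x → x ^ 3 * d ≤ 1 →
        x ≤ 1 ∧ t * x ≤ 1 / 2 ∧ 4 * G * x ^ 2 * t ≤ 1 / 2 ∧ (1 + x * G) ^ t ≤ 2 := by
  have hG0 : 0 < G := lt_of_lt_of_le one_pos hG
  -- the exponential beats the polynomial
  have h1 : ∀ᶠ t : ℕ in atTop, 8192 * G ^ 3 * (4 * (t : ℝ)) ^ 32 ≤ b ^ 4 * ε * (1 + ε) ^ t := by
    have h2 := tendsto_pow_const_div_const_pow_of_one_lt 32 (by linarith : (1 : ℝ) < 1 + ε)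
    have h3 : 0 < b ^ 4 * ε / (8192 * G ^ 3 * 4 ^ 32) := by positivity
    filter_upwards [h2.eventually (gt_mem_nhds h3)] with t ht
    have h4 : 0 < (1 + ε) ^ t := by positivity
    rw [div_lt_iff₀ h4] at ht
    have h5 : 8192 * G ^ 3 * (4 * (t : ℝ)) ^ 32 = (8192 * G ^ 3 * 4 ^ 32) * (t : ℝ) ^ 32 := by
      rw [mul_pow]
      ring
    have h6 : b ^ 4 * ε * (1 + ε) ^ t = (8192 * G ^ 3 * 4 ^ 32) *
        (b ^ 4 * ε / (8192 * G ^ 3 * 4 ^ 32) * (1 + ε) ^ t) := by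
      field_simp
    rw [h5, h6]
    exact mul_le_mul_of_nonneg_left ht.le (by positivity)
  have h2 : ∀ᶠ t : ℕ in atTop, (32 : ℝ) * G ^ 3 ≤ t := by
    obtain ⟨N, hN⟩ := exists_nat_ge (32 * G ^ 3)
    filter_upwards [eventually_ge_atTop N] with t ht
    exact hN.trans (by exact_mod_cast ht)
  obtain ⟨T, hT⟩ := eventually_atTop.1 (h1.and (h2.and (eventually_ge_atTop 1)))
  refine eventually_atTop.2 ⟨(2 * T) ^ 4, fun d hd => ?_⟩
  have hT1 := (hT T le_rfl).2.2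
  obtain ⟨t, ht⟩ : ∃ t, t = Nat.findGreatest (fun t => (2 * t) ^ 4 ≤ d) d := ⟨_, rfl⟩
  have hTd : T ≤ d := by
    have : T ≤ (2 * T) ^ 4 := by
      have e1 : 2 * T ≤ (2 * T) ^ 4 := Nat.le_self_pow (by norm_num) _
      omega
    omega
  have htT : T ≤ t := by
    rw [ht]
    exact Nat.le_findGreatest hTd hd
  have ht1 : 1 ≤ t := hT1.trans htT
  have hspec : (2 * t) ^ 4 ≤ d := by
    rw [ht]
    exact Nat.findGreatest_spec (P := fun t => (2 * t) ^ 4 ≤ d) hTd hd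
  have hgr : d < (2 * (t + 1)) ^ 4 := by
    by_contra hcon
    rw [not_lt] at hcon
    have e1 : t + 1 ≤ d := by
      have : 2 * (t + 1) ≤ (2 * (t + 1)) ^ 4 := Nat.le_self_pow (by norm_num) _
      omega
    have e2 := Nat.le_findGreatest (P := fun t => (2 * t) ^ 4 ≤ d) e1 hcon
    rw [← ht] at e2
    omega
  obtain ⟨f1, f2, -⟩ := hT t htT
  refine ⟨t, ht1, hspec, ?_, ?_, ?_⟩
  · have e1 : t ^ 2 * 8 ≤ (2 * t) ^ 4 := by
      have : (2 * t) ^ 4 = 16 * (t ^ 2 * t ^ 2) := by ring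
      rw [this]
      have e2 : 1 ≤ t ^ 2 := Nat.one_le_pow _ _ ht1
      nlinarith
    exact e1.trans hspec
  · refine le_trans ?_ f1
    refine mul_le_mul_of_nonneg_left ?_ (by positivity)
    have e1 : (d : ℝ) ≤ (4 * (t : ℝ)) ^ 4 := by
      have e2 : d ≤ (4 * t) ^ 4 := by
        refine hgr.le.trans (Nat.pow_le_pow_left ?_ 4)
        omega
      exact_mod_cast e2
    calc (d : ℝ) ^ 8 ≤ ((4 * (t : ℝ)) ^ 4) ^ 8 := pow_le_pow_left₀ (Nat.cast_nonneg d) e1 8
      _ = (4 * (t : ℝ)) ^ 32 := by rw [← pow_mul]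
  · intro x hx hxd
    have ht1' : (1 : ℝ) ≤ t := by exact_mod_cast ht1
    have ht0 : (0 : ℝ) < t := by linarith
    -- x t ≤ 1 / (8 G)
    have e1 : (8 * G * (x * t)) ^ 3 ≤ 1 := by
      have e2 : (16 : ℝ) * t ^ 4 ≤ d := by
        have : ((2 * t) ^ 4 : ℕ) ≤ d := hspec
        have e3 : (((2 * t) ^ 4 : ℕ) : ℝ) ≤ d := by exact_mod_cast this
        push_cast at e3
        linarith
      have e3 : x ^ 3 * (16 * t ^ 4) ≤ 1 := (mul_le_mul_of_nonneg_left e2 (by positivity)).trans hxd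
      have e4 : (8 * G * (x * t)) ^ 3 * t ≤ 1 * t := by
        have e5 : (8 * G * (x * t)) ^ 3 * t = 32 * G ^ 3 * (x ^ 3 * (16 * t ^ 4)) := by ring
        rw [e5, one_mul]
        calc 32 * G ^ 3 * (x ^ 3 * (16 * t ^ 4)) ≤ 32 * G ^ 3 * 1 :=
              mul_le_mul_of_nonneg_left e3 (by positivity)
          _ ≤ t := by rw [mul_one]; exact f2
      exact le_of_mul_le_mul_right e4 ht0
    have e2 : 8 * G * (x * t) ≤ 1 := by
      by_contra hcon
      rw [not_le] at hcon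
      have := one_lt_pow₀ hcon (n := 3) (by norm_num)
      linarith
    have e3 : x ≤ x * t := le_mul_of_one_le_right hx.le ht1'
    have e4 : 0 < x * t := by positivity
    have e5 : 8 * (x * t) ≤ 8 * G * (x * t) := by nlinarith
    have e6 : x ≤ 1 := by linarith
    refine ⟨e6, by linarith, ?_, ?_⟩
    · have e7 : 4 * G * x ^ 2 * t = (8 * G * (x * t)) * (x / 2) := by ring
      rw [e7]
      nlinarith
    · have e8 : (1 + x * G) ^ t ≤ Real.exp (x * G) ^ t :=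
        pow_le_pow_left₀ (by positivity) (by linarith [Real.add_one_le_exp (x * G)]) t
      rw [← Real.exp_nat_mul] at e8
      refine e8.trans ?_
      have e9 : (t : ℝ) * (x * G) ≤ 1 / 2 := by nlinarith
      calc Real.exp (t * (x * G)) ≤ Real.exp (1 / 2) := Real.exp_le_exp.2 e9
        _ ≤ 2 := by
          have e10 : Real.exp (1 / 2) ^ 2 ≤ 2 ^ 2 := by
            rw [← Real.exp_nat_mul]
            have : ((2 : ℕ) : ℝ) * (1 / 2) = 1 := by norm_num
            rw [this]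
            linarith [Real.exp_one_lt_d9]
          exact (pow_le_pow_iff_left₀ (Real.exp_pos _).le (by norm_num) (by norm_num)).1 e10

/-- Module SD (M). Growth of Bernoulli percolation (margin one): reduce to
`p = (1 + ε)/(2k)` by `EB_mono_p`, then `grow_core` with `G = b = 1`, `EB_sub`,
`card_pe_union`, `I` a subset with `k` elements of `marg lo hi 1 y`. -/
theorem growB (ε : ℝ) (hε : 0 < ε) : ∃ c : ℝ, 0 < c ∧ c ≤ 1 ∧ ∀ᶠ d : ℕ in atTop,
    ∀ (p : ℝ) (k : ℕ), 0 ≤ p → p ≤ 1 → 1 + ε ≤ 2 * k * p → (d : ℝ) ≤ 8 * k →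
      Grow d (bernM p) 1 k (d ^ 8) c := by
  classical
  obtain ⟨ε', hε'⟩ : ∃ ε', ε' = min ε 1 := ⟨_, rfl⟩
  have g1 : 0 < ε' := by rw [hε']; exact lt_min hε one_pos
  have g2 : ε' ≤ 1 := by rw [hε']; exact min_le_right _ _
  have g3 : ε' ≤ ε := by rw [hε']; exact min_le_left _ _
  have hgc : gc 1 1 ε' = ε' / 256 := by
    unfold gc
    ring
  refine ⟨gc 1 1 ε', by rw [hgc]; positivity, by rw [hgc]; linarith, ?_⟩
  filter_upwards [ex_t ε' 1 1 g1 le_rfl one_pos, eventually_ge_atTop 23] with d hd hd23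
  intro p k hp0 hp1 hk hdk lo hi y hy hm A
  obtain ⟨t, ht1, -, ht2, ht3, ht4⟩ := hd
  by_cases hA : A = 0
  swap
  · unfold ZZ
    rw [EL_bern_ne _ _ _ _ hA, EL_bern_ne _ _ _ _ hA, mul_zero]
  subst hA
  unfold ZZ
  rw [EL_bern, EL_bern, EB_const, mul_one]
  have hk0 : 0 < (k : ℝ) := by
    rcases Nat.eq_zero_or_pos k with h | h
    · rw [h] at hk
      simp at hk
      linarith
    · exact_mod_cast h
  obtain ⟨x, hx⟩ : ∃ x : ℝ, x = (1 + ε') / (2 * k) := ⟨_, rfl⟩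
  have hx0 : 0 < x := by rw [hx]; positivity
  have hxp : x ≤ p := by
    rw [hx, div_le_iff₀ (by positivity)]
    linarith
  have hxk : 2 * (k : ℝ) * x = 1 + ε' := by
    rw [hx]
    field_simp
  have hxd : x * d ≤ 8 := by
    have e1 : x * d ≤ x * (8 * k) := mul_le_mul_of_nonneg_left hdk hx0.le
    have e2 : x * (8 * k) = 4 * (2 * k * x) := by ring
    rw [e2, hxk] at e1
    linarith
  have hd0 : (23 : ℝ) ≤ d := by exact_mod_cast hd23
  have hx3 : x ^ 3 * d ≤ 1 := by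
    have e1 : (x ^ 3 * d) * d ^ 2 ≤ 1 * d ^ 2 := by
      have e2 : (x ^ 3 * d) * (d : ℝ) ^ 2 = (x * d) ^ 3 := by ring
      rw [e2, one_mul]
      have e3 : (x * d) ^ 3 ≤ 8 ^ 3 := pow_le_pow_left₀ (by positivity) hxd 3
      nlinarith
    exact le_of_mul_le_mul_right e1 (by positivity)
  obtain ⟨u1, u2, u3, -⟩ := ht4 x hx0 hx3
  obtain ⟨I, hI, hIc⟩ := Finset.exists_subset_card_eq hm
  have hE : ∀ l ∈ PL t I, pe y l ⊆ bx lo hi := by
    intro l hl e he
    have hS : co l ⊆ I := by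
      intro i hi'
      unfold co at hi'
      rw [List.mem_toFinset, List.mem_map] at hi'
      obtain ⟨s, hs, rfl⟩ := hi'
      exact ((mem_PL t I l).1 hl).2.2 s hs
    obtain ⟨e1, e2⟩ := pe_near t I I y l hl hS e he
    unfold bx
    rw [mem_edg]
    exact ⟨near_bx lo hi y hy 1 le_rfl I hI _ e1, near_bx lo hi y hy 1 le_rfl I hI _ e2⟩
  have hZ : ∑ η ∈ (bx lo hi).powerset, x ^ η.card * (1 - x) ^ (bx lo hi \ η).card = 1 := by
    have := EB_const x (bx lo hi) 1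
    unfold EB at this
    simpa using this
  have hcore := grow_core y I t (d ^ 8) x 1 1 ε' (bx lo hi)
    (fun η => x ^ η.card * (1 - x) ^ (bx lo hi \ η).card)
    (fun η _ => mul_nonneg (by positivity) (pow_nonneg (by linarith) _)) hx0 u1 le_rfl one_pos le_rfl g1 g2
    (by rw [hIc, hxk]) u2 u3 (by
      rw [hIc]
      have e1 : (t : ℝ) ^ 2 * 8 ≤ 8 * k := by
        have e2 : ((t ^ 2 * 8 : ℕ) : ℝ) ≤ d := by exact_mod_cast ht2
        push_cast at e2
        exact e2.trans hdk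
      have e3 : (t : ℝ) ^ 2 ≤ k := by linarith
      exact_mod_cast e3) (by
      push_cast
      exact ht3) (by
      intro l hl
      rw [hZ, mul_one, one_mul]
      have e1 := EB_sub x (bx lo hi) (pe y l) (hE l hl)
      unfold EB at e1
      rw [e1, card_pe t I y l hl]) (by
      intro l hl l' hl'
      rw [hZ, mul_one, one_pow, mul_one]
      have e1 := EB_sub x (bx lo hi) (pe y l ∪ pe y l') (Finset.union_subset (hE l hl) (hE l' hl'))
      unfold EB at e1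
      rw [e1]
      have e2 := card_pe_union t I y l l' hl hl'
      have e3 : (pe y l ∪ pe y l').card = 2 * t - sh l l' t := by omega
      rw [e3])
  rw [hZ, mul_one] at hcore
  have hmono := EB_mono_p x p hx0.le hxp hp1 (bx lo hi) (fun η => ind (big (↑η) (d ^ 8) y))
    (fun η ζ h => ind_mono fun hb => big_mono (by exact_mod_cast h) hb)
  refine le_trans hcore (le_trans (le_of_eq ?_) hmono)
  unfold EB
  rfl

end Pool.Agent.SRC
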